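import Pool.Agent.H413.BR.Defs

/-!
# Bounded contact: auxiliary lemmas
-/

set_option autoImplicit false
set_option linter.unusedVariables false
set_option linter.unusedSectionVars false

namespace Pool.Agent.H413.BR

open scoped Topology
open IsLocalRing Pool.Agent.TH188.QS Pool.Agent.TH188.ARC Pool.Agent.W418.LU2
  Pool.Agent.H918R2.Quad

variable {O F : Type} [CommRing O] [Field F] [Algebra O F]

lemma lo_lo {W η : ValuationSubring F} {B : Subring F} (hB : B ≤ W.toSubring)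
    (h : lo W.toSubring B ≤ η.toSubring) :
    lo η.toSubring (lo W.toSubring B) = lo η.toSubring B := by
  have hBη : B ≤ η.toSubring := (le_lo _ _).trans h
  apply le_antisymm
  · refine lo_le_lo hBη ?_
    rintro _ ⟨a, ha, b, hb, hb0, hbW, rfl⟩
    refine ⟨a, ha, b, hb, hb0, ?_, rfl⟩
    exact h (inv_mem_lo hB (le_lo _ _ hb) hb0 hbW)
  · exact lo_mono (le_lo _ _)

lemma LR.gn {W : ValuationSubring F} {M : Submodule O F} {Q : Subring F} (h : LR W M Q) :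
    ∃ g, Gn W M g ∧ lo W.toSubring (chart O M g).toSubring = Q := by
  obtain ⟨g, hg, hg0, hgW, rfl⟩ := h
  exact ⟨g, ⟨hg, hg0, hgW⟩, rfl⟩

lemma Gn.LR {W : ValuationSubring F} {M : Submodule O F} {g : F} (h : Gn W M g) :
    Pool.Agent.TH188.ARC.LR W M (lo W.toSubring (chart O M g).toSubring) :=
  ⟨g, h.1, h.2.1, h.2.2, rfl⟩

lemma Gn.le {W : ZR O F} {M : Submodule O F} {g : F} (h : Gn W.1 M g) :
    (chart O M g).toSubring ≤ W.1.toSubring := chart_le_V W.2 h.2.2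

lemma LR.le {W : ZR O F} {M : Submodule O F} {Q : Subring F} (h : LR W.1 M Q) :
    Q ≤ W.1.toSubring := by
  obtain ⟨g, hg, rfl⟩ := LR.gn h
  exact lo_le hg.le

lemma LR.ic {W : ZR O F} {M : Submodule O F} {Q : Subring F} (h : LR W.1 M Q) :
    IC W.1.toSubring Q := by
  obtain ⟨g, hg, rfl⟩ := LR.gn h
  exact ic_lo hg.le

/-- The local ring at a generization. -/
lemma LR.gen {W η : ZR O F} {M : Submodule O F} {Q : Subring F} (h : LR W.1 M Q)
    (hQ : Q ≤ η.1.toSubring) : LR η.1 M (lo η.1.toSubring Q) := by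
  obtain ⟨g, hg, rfl⟩ := LR.gn h
  rw [lo_lo hg.le hQ]
  refine ⟨g, hg.1, hg.2.1, fun m hm => ?_, rfl⟩
  exact hQ (le_lo _ _ (Algebra.subset_adjoin ⟨m, hm, rfl⟩))

/-- Basic open sets are stable under generization. -/
lemma bas_gen {W η : ZR O F} {M : Submodule O F} {Q : Subring F} (h : LR W.1 M Q)
    (hQ : Q ≤ η.1.toSubring) {k : ℕ} {f : F} (hW : W ∈ bas M k f) : η ∈ bas M k f := by
  obtain ⟨g, hg, rfl⟩ := LR.gn h
  have hW' : Gn W.1 (M ^ k) f := hW
  have hg0 : g ^ k ≠ 0 := pow_ne_zero _ hg.2.1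
  have h1 : f / g ^ k ∈ lo W.1.toSubring (chart O M g).toSubring :=
    le_lo _ _ (pow_div_mem hg.2.1 k f hW'.1)
  have h2 : (f / g ^ k)⁻¹ ∈ W.1 := by
    rw [inv_div]
    exact hW'.2.2 _ (Submodule.pow_mem_pow _ hg.1 _)
  have h3 : (f / g ^ k)⁻¹ ∈ η.1 :=
    hQ (inv_mem_lo hg.le h1 (div_ne_zero hW'.2.1 hg0) h2)
  refine ⟨hW'.1, hW'.2.1, fun m hm => ?_⟩
  have h4 : m / g ^ k ∈ η.1 := hQ (le_lo _ _ (pow_div_mem hg.2.1 k m hm))
  have h5 : m / f = m / g ^ k * (f / g ^ k)⁻¹ := by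
    have := hW'.2.1
    field_simp
  rw [h5]
  exact η.1.mul_mem _ _ h4 h3

lemma Dom.refl (M : Submodule O F) : Dom M M := by
  refine ⟨1, ⟨{1}, ?_⟩, ⟨1, Submodule.one_le.1 le_rfl, one_ne_zero⟩, (mul_one M).symm⟩
  rw [Finset.coe_singleton]
  exact Submodule.one_eq_span.symm

lemma Dom.trans {M M' M'' : Submodule O F} (h : Dom M M') (h' : Dom M' M'') : Dom M M'' := by
  obtain ⟨J, hJ, ⟨j, hj, hj0⟩, rfl⟩ := h
  obtain ⟨J', hJ', ⟨j', hj', hj'0⟩, rfl⟩ := h'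
  exact ⟨J * J', hJ.mul hJ', ⟨j * j', Submodule.mul_mem_mul hj hj', mul_ne_zero hj0 hj'0⟩,
    mul_assoc _ _ _⟩

lemma Lev.mono {K : Type} [Field K] {V : ValuationSubring K} {ϖ : K} (hϖ : ϖ ∈ V) {m m' : ℕ}
    (h : m ≤ m') {Q : Subring K} (hL : Lev V ϖ m Q) : Lev V ϖ m' Q := by
  obtain ⟨S, _, _, φ, r, D, hD, f₀, P, g, ω, h1, h2, h3, h4⟩ := hL
  refine ⟨S, inferInstance, inferInstance, φ, r, D, hD, f₀, P, g, ω, h1, h2, h3, ?_⟩
  obtain ⟨k, rfl⟩ := Nat.exists_eq_add_of_le h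
  rw [pow_add, ← mul_assoc]
  exact V.mul_mem _ _ h4 (pow_mem hϖ k)

/-- A local ring which is not regular has a nonzero element in its maximal ideal. -/
lemma exists_ne_of_not_regular {η : ValuationSubring F} {Q : Subring F}
    (hQη : Q ≤ η.toSubring) (h : ¬ IsRegularLocalRing (lo η.toSubring Q)) :
    ∃ y ∈ Q, y ≠ 0 ∧ η.valuation y < 1 := by
  by_contra hcon
  push Not at hcon
  apply h
  have hf : IsField (lo η.toSubring Q) := by
    refine ⟨⟨0, 1, zero_ne_one⟩, fun a b => mul_comm a b, fun {a} ha => ?_⟩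
    obtain ⟨x, ⟨b, hb, c, hc, hc0, hcη, rfl⟩⟩ := a
    have hb0 : b ≠ 0 := by
      rintro rfl
      apply ha
      apply Subtype.ext
      simp
    have h1 : b⁻¹ ∈ η := by
      rw [← η.valuation_le_one_iff, map_inv₀]
      exact inv_le_one_of_one_le₀ (hcon b hb hb0)
    refine ⟨⟨c * b⁻¹, c, hc, b, hb, hb0, h1, rfl⟩, Subtype.ext ?_⟩
    change b * c⁻¹ * (c * b⁻¹) = 1
    field_simp
  letI := hf.toField
  have h2 : IsRegularLocalRing (lo η.toSubring Q) := inferInstance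
  exact h2

end Pool.Agent.H413.BR
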