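import Pool.Agent.H413.BR.Defs2

/-!
# BR1: the topology of a model is noetherian
-/

set_option autoImplicit false
set_option linter.unusedVariables false
set_option linter.unusedSectionVars false

namespace Pool.Agent.H413.BR

open scoped Topology
open IsLocalRing Pool.Agent.TH188.QS Pool.Agent.TH188.ARC Pool.Agent.W418.LU2
  Pool.Agent.H918R2.Quad

namespace BR1

variable {O F : Type} [CommRing O] [Field F] [Algebra O F]

/-- the chart is contained in the valuation ring -/
theorem chart_le {M : Submodule O F} {g : F} {W : ZR O F} (hW : W ∈ bas M 1 g) :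
    ∀ b ∈ chart O M g, b ∈ W.1 := by
  let V' : Subalgebra O F := { W.1.toSubring with algebraMap_mem' := W.2 }
  have h : chart O M g ≤ V' := Algebra.adjoin_le (by
    rintro _ ⟨m, hm, rfl⟩
    have hW' : Gn W.1 (M ^ 1) g := hW
    rw [pow_one] at hW'
    exact hW'.2.2 m hm)
  exact fun b hb => h hb

/-- the inclusion -/
def inc {M : Submodule O F} {g : F} (W : bas (O := O) M 1 g) : chart O M g →+* W.1.1 where
  toFun b := ⟨b, chart_le W.2 b b.2⟩
  map_one' := rfl
  map_mul' _ _ := rfl
  map_zero' := rfl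
  map_add' _ _ := rfl

/-- the centre -/
def phi {M : Submodule O F} {g : F} (W : bas (O := O) M 1 g) : PrimeSpectrum (chart O M g) :=
  ⟨Ideal.comap (inc W) (maximalIdeal W.1.1), inferInstance⟩

theorem mem_phi {M : Submodule O F} {g : F} (W : bas (O := O) M 1 g) (b : chart O M g) :
    b ∈ (phi W).asIdeal ↔ W.1.1.valuation (b : F) < 1 := by
  have h : b ∈ (phi W).asIdeal ↔ inc W b ∈ maximalIdeal W.1.1 := Iff.rfl
  rw [h, ValuationSubring.valuation_lt_one_iff]
  rfl

theorem preim {M : Submodule O F} {g : F} (k : ℕ) {f : F} (hf : f ∈ M ^ k) (hf0 : f ≠ 0)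
    (hg : g ∈ M) (hg0 : g ≠ 0) (W : bas (O := O) M 1 g) :
    W.1 ∈ bas M k f ↔ (⟨f / g ^ k, pow_div_mem hg0 k f hf⟩ : chart O M g) ∉ (phi W).asIdeal := by
  rw [mem_phi, not_lt]
  have hgk : g ^ k ≠ 0 := pow_ne_zero _ hg0
  constructor
  · intro h
    have h1 : g ^ k / f ∈ W.1.1 := h.2.2 _ (Submodule.pow_mem_pow _ hg _)
    have h2 := (W.1.1.valuation_le_one_iff _).2 h1
    by_contra h3
    rw [not_le] at h3
    have h4 : W.1.1.valuation (f / g ^ k * (g ^ k / f)) < 1 := by
      rw [map_mul]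
      exact mul_lt_one_aux' h3 h2
    rw [div_mul_div_cancel₀ hgk, div_self hf0, map_one] at h4
    exact lt_irrefl _ h4
  · intro h
    refine ⟨hf, hf0, fun m hm => ?_⟩
    have h1 : m / g ^ k ∈ W.1.1 := chart_le W.2 _ (pow_div_mem hg0 k m hm)
    have h2 : (f / g ^ k)⁻¹ ∈ W.1.1 := by
      rw [← W.1.1.valuation_le_one_iff, map_inv₀]
      exact inv_le_one_of_one_le₀ h
    have h3 : m / f = m / g ^ k * (f / g ^ k)⁻¹ := by
      field_simp
    rw [h3]
    exact mul_mem h1 h2

theorem cover {M : Submodule O F} {s : Finset F} (hs : Submodule.span O (s : Set F) = M)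
    (hne : ∃ g ∈ M, g ≠ 0) (W : ZR O F) : ∃ g ∈ s, W ∈ bas M 1 g := by
  have hs0 : ∃ g ∈ s, g ≠ 0 := by
    by_contra hcon
    push Not at hcon
    obtain ⟨g, hg, hg0⟩ := hne
    apply hg0
    rw [← hs] at hg
    have h1 : Submodule.span O (s : Set F) ≤ ⊥ := Submodule.span_le.2 fun x hx => hcon x hx
    exact (Submodule.mem_bot O).1 (h1 hg)
  obtain ⟨g0, hg0, hg0'⟩ := hs0
  obtain ⟨g, hg, hmax⟩ := Finset.exists_max_image s (fun x => W.1.valuation x) ⟨g0, hg0⟩
  have hgne : g ≠ 0 := by
    intro h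
    have h1 := hmax g0 hg0
    rw [h, map_zero] at h1
    exact hg0' ((map_eq_zero W.1.valuation).1 (le_antisymm h1 zero_le))
  refine ⟨g, hg, ?_⟩
  change Gn W.1 (M ^ 1) g
  rw [pow_one]
  refine ⟨hs ▸ Submodule.subset_span hg, hgne, fun m hm => ?_⟩
  rw [← hs] at hm
  induction hm using Submodule.span_induction with
  | mem m hm =>
    rw [← W.1.valuation_le_one_iff, map_div₀]
    exact div_le_one_of_le₀ (hmax m hm) zero_le
  | zero => rw [zero_div]; exact zero_mem _
  | add a b _ _ ha hb => rw [add_div]; exact add_mem ha hb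
  | smul c a _ ha =>
    rw [Algebra.smul_def, mul_div_assoc]
    exact mul_mem (W.2 c) ha

end BR1

variable {O F : Type} [CommRing O] [Field F] [Algebra O F]

open BR1 in
theorem noeth_top [IsNoetherianRing O] {M : Submodule O F} (hM : M.FG)
    (hne : ∃ g ∈ M, g ≠ 0) :
    @TopologicalSpace.NoetherianSpace (ZR O F) (topM M) := by
  obtain ⟨s, hs⟩ := id hM
  letI t0 : TopologicalSpace (ZR O F) := topM M
  refine ((TopologicalSpace.noetherianSpace_TFAE (ZR O F)).out 0 2).2 fun K => ?_
  have hK : K = ⋃ g ∈ s, K ∩ bas M 1 g := by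
    ext W
    simp only [Set.mem_iUnion, Set.mem_inter_iff, exists_prop]
    constructor
    · intro h
      obtain ⟨g, hg, hW⟩ := cover hs hne W
      exact ⟨g, hg, h, hW⟩
    · rintro ⟨g, _, h, _⟩
      exact h
  rw [hK]
  refine s.isCompact_biUnion fun g hg => ?_
  by_cases hg0 : g = 0
  · have h1 : K ∩ bas M 1 g = ∅ := by
      ext W
      simp only [Set.mem_inter_iff, Set.mem_empty_iff_false, iff_false]
      rintro ⟨_, h⟩
      exact h.2.1 hg0
    rw [h1]
    exact isCompact_empty
  have hgM : g ∈ M := hs ▸ Submodule.subset_span hg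
  letI t1 : TopologicalSpace (bas (O := O) M 1 g) := TopologicalSpace.induced phi inferInstance
  have hnr : IsNoetherianRing (chart O M g) := chart_noeth hM g
  have hns : TopologicalSpace.NoetherianSpace (bas (O := O) M 1 g) :=
    Topology.IsInducing.noetherianSpace (i := phi) ⟨rfl⟩
  have hcont : @Continuous (bas (O := O) M 1 g) (ZR O F) t1 t0 Subtype.val := by
    refine continuous_generateFrom_iff.2 ?_
    rintro U ⟨k, f, rfl⟩
    by_cases hf : f ∈ M ^ k ∧ f ≠ 0
    · refine isOpen_induced_iff.2 ⟨PrimeSpectrum.basicOpen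
        (⟨f / g ^ k, pow_div_mem hg0 k f hf.1⟩ : chart O M g), PrimeSpectrum.isOpen_basicOpen, ?_⟩
      ext W
      rw [Set.mem_preimage, Set.mem_preimage, preim k hf.1 hf.2 hgM hg0 W]
      exact PrimeSpectrum.mem_basicOpen _ _
    · have h1 : Subtype.val ⁻¹' bas (O := O) M k f = (∅ : Set (bas (O := O) M 1 g)) := by
        ext W
        simp only [Set.mem_preimage, Set.mem_empty_iff_false, iff_false]
        intro h
        exact hf ⟨h.1, h.2.1⟩
      rw [h1]
      exact isOpen_empty
  have h2 : K ∩ bas M 1 g = Subtype.val '' (Subtype.val ⁻¹' K : Set (bas (O := O) M 1 g)) := by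
    rw [Subtype.image_preimage_coe, Set.inter_comm]
  rw [h2]
  exact (TopologicalSpace.NoetherianSpace.isCompact _).image hcont

end Pool.Agent.H413.BR
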