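import Pool.Agent.H413.BR.Defs2

/-!
# BR10: the local rings of a product model (helper181)
-/

set_option autoImplicit false
set_option linter.unusedVariables false
set_option linter.unusedSectionVars false

namespace Pool.Agent.H413.BR

open IsLocalRing Pool.Agent.TH188.QS Pool.Agent.TH188.ARC Pool.Agent.W418.LU2
  Pool.Agent.H918R2.Quad

section top

variable {O F : Type} [CommRing O] [Field F] [Algebra O F]

theorem LR_mul_of_gn {M N : Submodule O F} {k : ℕ} {W : ZR O F} (hN : N ≤ M ^ k) {f : F}
    (hf : f ∈ N) (hfg : Gn W.1 (M ^ k) f) {Q : Subring F} (hQ : LR W.1 M Q) :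
    LR W.1 (M * N) Q := by
  obtain ⟨g, hg, hg0, hgW, rfl⟩ := hQ
  obtain ⟨-, hf0, hfW⟩ := hfg
  have hBW : (chart O M g).toSubring ≤ W.1.toSubring := chart_le_V W.2 hgW
  have hgk : g ^ k ≠ 0 := pow_ne_zero _ hg0
  refine ⟨g * f, Submodule.mul_mem_mul hg hf, mul_ne_zero hg0 hf0, ?_, ?_⟩
  · intro m hm
    refine Submodule.mul_induction_on hm (fun a ha b hb => ?_) (fun a b ha hb => ?_)
    · rw [mul_div_mul_comm]
      exact W.1.mul_mem _ _ (hgW a ha) (hfW b (hN hb))
    · rw [add_div]
      exact W.1.add_mem _ _ ha hb
  · apply le_antisymm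
    · refine lo_le_lo hBW ?_
      let L : Subalgebra O F :=
        { lo W.1.toSubring (chart O M g).toSubring with
          algebraMap_mem' := fun o => le_lo _ _ (Subalgebra.algebraMap_mem (chart O M g) o) }
      have h1 : chart O (M * N) (g * f) ≤ L := by
        refine Algebra.adjoin_le ?_
        rintro _ ⟨m, hm, rfl⟩
        change m / (g * f) ∈ L
        refine Submodule.mul_induction_on hm (fun a ha b hb => ?_) (fun a b ha hb => ?_)
        · rw [mul_div_mul_comm]
          refine Subalgebra.mul_mem _ ?_ ?_
          · exact le_lo _ _ (Algebra.subset_adjoin ⟨a, ha, rfl⟩)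
          · refine ⟨b / g ^ k, pow_div_mem hg0 k b (hN hb), f / g ^ k, pow_div_mem hg0 k f (hN hf),
              div_ne_zero hf0 hgk, ?_, ?_⟩
            · rw [inv_div]
              exact hfW _ (Submodule.pow_mem_pow _ hg _)
            · field_simp
        · rw [add_div]
          exact Subalgebra.add_mem _ ha hb
      exact h1
    · refine lo_mono ?_
      have h1 : chart O M g ≤ chart O (M * N) (g * f) := by
        refine Algebra.adjoin_le ?_
        rintro _ ⟨m, hm, rfl⟩
        change m / g ∈ chart O (M * N) (g * f)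
        have h2 : m / g = (m * f) / (g * f) := by
          field_simp
        rw [h2]
        exact Algebra.subset_adjoin ⟨m * f, Submodule.mul_mem_mul hm hf, rfl⟩
      exact h1

end top

end Pool.Agent.H413.BR

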