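import Pool.Agent.H413.BR.Defs2

/-!
# BR8: generators of the cut modules (helper401 for helper413)
-/

set_option autoImplicit false
set_option linter.unusedVariables false
set_option linter.unusedSectionVars false

namespace Pool.Agent.H413.BR

open IsLocalRing Pool.Agent.TH188.QS Pool.Agent.TH188.ARC Pool.Agent.W418.LU2
  Pool.Agent.H918R2.Quad

section br8

variable {O F : Type} [CommRing O] [Field F] [Algebra O F]

open Classical in
/-- one of the nonzero generators generates at `W` -/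
lemma br8_gen {M : Submodule O F} {s : Finset F} (hs : Submodule.span O (s : Set F) = M)
    (hne : ∃ g ∈ M, g ≠ 0) (W : ZR O F) : ∃ g ∈ s.filter (fun x => x ≠ 0), Gn W.1 M g := by
  have h1 : (s.filter (fun x => x ≠ 0)).Nonempty := by
    by_contra h
    rw [Finset.not_nonempty_iff_eq_empty] at h
    obtain ⟨g, hg, hg0⟩ := hne
    apply hg0
    have h2 : M ≤ ⊥ := by
      rw [← hs, Submodule.span_le]
      intro x hx
      by_contra h3
      have h5 : x ≠ 0 := fun h0 => h3 (by rw [h0]; exact Submodule.zero_mem _)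
      have h4 : x ∈ s.filter (fun x => x ≠ 0) := Finset.mem_filter.2 ⟨hx, h5⟩
      rw [h] at h4
      exact absurd h4 (Finset.notMem_empty _)
    exact (Submodule.mem_bot O).1 (h2 hg)
  obtain ⟨g, hg, hmax⟩ := Finset.exists_max_image _ (fun x => W.1.valuation x) h1
  obtain ⟨hgs, hg0⟩ := Finset.mem_filter.1 hg
  refine ⟨g, hg, ?_, hg0, ?_⟩
  · rw [← hs]; exact Submodule.subset_span hgs
  · have h3 : ∀ m ∈ M, W.1.valuation m ≤ W.1.valuation g := by
      intro m hm
      rw [← hs] at hm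
      induction hm using Submodule.span_induction with
      | mem x hx =>
        by_cases h : x = 0
        · rw [h, map_zero]; exact zero_le
        · exact hmax x (Finset.mem_filter.2 ⟨hx, h⟩)
      | zero => rw [map_zero]; exact zero_le
      | add a b _ _ ha hb => exact (Valuation.map_add _ _ _).trans (max_le ha hb)
      | smul c a _ ha =>
        rw [Algebra.smul_def, map_mul]
        exact mul_le_of_le_one_of_le ((W.1.valuation_le_one_iff _).2 (W.2 c)) ha
    intro m hm
    rw [← W.1.valuation_le_one_iff, div_eq_mul_inv, map_mul, map_inv₀]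
    exact mul_inv_le_one_of_le₀ (h3 m hm) zero_le

/-- the case of one generator at `η` -/
lemma br8_one [IsNoetherianRing O] {M : Submodule O F} (hM : M.FG) (η : ZR O F) {g₀ g : F}
    (hg₀ : Gn η.1 M g₀) (hg : Gn η.1 M g) :
    ∃ K : ℕ, ∀ k, K ≤ k → ∀ b ∈ chart O M g, η.1.valuation b < 1 →
        ∃ (n : ℕ) (c f : Fin n → F), (∀ i, c i ∈ chart O M g) ∧
          (∀ i, f i ∈ cut η.1 η.2 (M ^ k) (g₀ ^ k)) ∧ b = ∑ i, c i * (f i / g ^ k) := by
  classical
  have hBV : ∀ b ∈ chart O M g, b ∈ η.1 := by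
    let V' : Subalgebra O F := { η.1.toSubring with algebraMap_mem' := η.2 }
    have : chart O M g ≤ V' := Algebra.adjoin_le (by
      rintro _ ⟨m, hm, rfl⟩
      exact hg.2.2 m hm)
    exact fun b hb => this hb
  have hnoe : IsNoetherianRing (chart O M g) := chart_noeth hM g
  let 𝔫 : Ideal (chart O M g) :=
    { carrier := {b | η.1.valuation (b : F) < 1}
      zero_mem' := by
        change η.1.valuation ((0 : chart O M g) : F) < 1
        rw [ZeroMemClass.coe_zero, map_zero]; exact zero_lt_one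
      add_mem' := fun {a b} ha hb => by
        change η.1.valuation ((a + b : chart O M g) : F) < 1
        exact Valuation.map_add_lt _ ha hb
      smul_mem' := fun c a ha => by
        change η.1.valuation ((c * a : chart O M g) : F) < 1
        rw [MulMemClass.coe_mul, map_mul]
        exact mul_lt_one_aux ((η.1.valuation_le_one_iff _).2 (hBV _ c.2)) ha }
  obtain ⟨s, hs⟩ := (isNoetherianRing_iff_ideal_fg (chart O M g)).1 hnoe 𝔫
  have hs𝔫 : ∀ y ∈ s, η.1.valuation (y : F) < 1 := fun y hy => by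
    have : y ∈ 𝔫 := by rw [← hs]; exact Ideal.subset_span hy
    exact this
  have hk : ∀ y : chart O M g, ∃ k : ℕ, ∀ l, k ≤ l → (y : F) * g ^ l ∈ M ^ l := fun y =>
    chart_pow_mem hg.1 hg.2.1 y.2
  choose kk hkk using hk
  refine ⟨s.sup kk, fun k hk b hb hbη => ?_⟩
  have hb1 : (⟨b, hb⟩ : chart O M g) ∈ Ideal.span (s : Set (chart O M g)) := by
    rw [hs]; exact hbη
  obtain ⟨c, hc⟩ := Submodule.mem_span_finset'.1 hb1
  have hgk : g ^ k ≠ 0 := pow_ne_zero _ hg.2.1
  refine ⟨s.card, fun i => (c (s.equivFin.symm i) : F),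
    fun i => (((s.equivFin.symm i : s) : chart O M g) : F) * g ^ k, fun i => (c _).2,
    fun i => ⟨?_, ?_⟩, ?_⟩
  · exact hkk _ k ((Finset.le_sup (s.equivFin.symm i).2).trans hk)
  · have h1 : (((s.equivFin.symm i : s) : chart O M g) : F) * g ^ k / g₀ ^ k =
        (((s.equivFin.symm i : s) : chart O M g) : F) * (g / g₀) ^ k := by
      rw [div_pow, mul_div_assoc]
    rw [h1, map_mul]
    exact mul_lt_one_aux' (hs𝔫 _ (s.equivFin.symm i).2)
      ((η.1.valuation_le_one_iff _).2 (pow_mem (hg₀.2.2 g hg.1) k))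
  · have h2 : b = ∑ i : s, (c i : F) * ((i : chart O M g) : F) := by
      have h3 := congrArg Subtype.val hc
      rw [AddSubmonoidClass.coe_finsetSum] at h3
      exact h3.symm
    rw [h2, ← Equiv.sum_comp s.equivFin.symm]
    refine Finset.sum_congr rfl fun i _ => ?_
    rw [mul_div_cancel_right₀ _ hgk]

/-- **BR8** -/
theorem cut_gens [IsNoetherianRing O] {M : Submodule O F} (hM : M.FG)
    (hne : ∃ g ∈ M, g ≠ 0) (η : ZR O F) {g₀ : F} (hg₀ : Gn η.1 M g₀) :
    ∃ (G : Finset F) (k₀ : ℕ), (∀ W : ZR O F, ∃ g ∈ G, Gn W.1 M g) ∧ 1 ≤ k₀ ∧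
      ∀ k, k₀ ≤ k → ∀ g ∈ G, Gn η.1 M g → ∀ b ∈ chart O M g, η.1.valuation b < 1 →
        ∃ (n : ℕ) (c f : Fin n → F), (∀ i, c i ∈ chart O M g) ∧
          (∀ i, f i ∈ cut η.1 η.2 (M ^ k) (g₀ ^ k)) ∧ b = ∑ i, c i * (f i / g ^ k) := by
  classical
  have hK : ∀ g : F, ∃ K : ℕ, Gn η.1 M g → ∀ k, K ≤ k → ∀ b ∈ chart O M g,
      η.1.valuation b < 1 → ∃ (n : ℕ) (c f : Fin n → F), (∀ i, c i ∈ chart O M g) ∧
          (∀ i, f i ∈ cut η.1 η.2 (M ^ k) (g₀ ^ k)) ∧ b = ∑ i, c i * (f i / g ^ k) := by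
    intro g
    by_cases hg : Gn η.1 M g
    · obtain ⟨K, hK⟩ := br8_one hM η hg₀ hg
      exact ⟨K, fun _ => hK⟩
    · exact ⟨0, fun h => absurd h hg⟩
  choose K hK using hK
  obtain ⟨s, hs⟩ := hM
  refine ⟨s.filter (fun x => x ≠ 0), max 1 ((s.filter (fun x => x ≠ 0)).sup K),
    fun W => ?_, le_max_left _ _, fun k hk g hgG hgη => ?_⟩
  · obtain ⟨g, hg, hg'⟩ := br8_gen hs hne W
    exact ⟨g, Finset.mem_filter.2 (Finset.mem_filter.1 hg), hg'⟩
  · exact hK g hgη k ((Finset.le_sup hgG).trans ((le_max_right _ _).trans hk))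

end br8

end Pool.Agent.H413.BR
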