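import Pool.Agent.H413.BR.Defs2
import Pool.Agent.H413.BR.B8

/-!
# Bounded contact: the local rings of the blowing up (BR11)
-/

set_option autoImplicit false
set_option linter.unusedVariables false
set_option linter.unusedSectionVars false

namespace Pool.Agent.H413.BR

open scoped Topology
open IsLocalRing Pool.Agent.TH188.QS Pool.Agent.TH188.ARC Pool.Agent.W418.LU2
  Pool.Agent.H918R2.Quad

section top

variable {O F : Type} [CommRing O] [Field F] [Algebra O F]

theorem LR_bl [IsNoetherianRing O] {M : Submodule O F} (hM : M.FG) (hne : ∃ g ∈ M, g ≠ 0)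
    (η : ZR O F) {g₀ : F} (hg₀ : Gn η.1 M g₀) :
    ∃ k₀, 1 ≤ k₀ ∧ ∀ k, k₀ ≤ k → ∀ (W : ZR O F) (Q : Subring F), LR W.1 M Q →
      Q ≤ η.1.toSubring → (∃ y ∈ Q, y ≠ 0 ∧ η.1.valuation y < 1) →
      (∃ e, MinP W.1 η.1 Q e) ∧
        LR W.1 (M * cut η.1 η.2 (M ^ k) (g₀ ^ k)) (bl W.1 η.1 Q) := by
  classical
  obtain ⟨G, k₀, hG, hk₀, hcut⟩ := cut_gens hM hne η hg₀
  refine ⟨k₀, hk₀, ?_⟩
  intro k hk W Q hLR hQη hy0
  obtain ⟨g, hgG, hgM, hg0, hgW⟩ := hG W
  obtain rfl : Q = lo W.1.toSubring (chart O M g).toSubring :=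
    hLR.unique W.2 ⟨g, hgM, hg0, hgW, rfl⟩
  have hBW : (chart O M g).toSubring ≤ W.1.toSubring := chart_le_V W.2 hgW
  have hBQ : (chart O M g).toSubring ≤ lo W.1.toSubring (chart O M g).toSubring := le_lo _ _
  have hQW : lo W.1.toSubring (chart O M g).toSubring ≤ W.1.toSubring :=
    Pool.Agent.W418.LU2.lo_le hBW
  have hBη : (chart O M g).toSubring ≤ η.1.toSubring := hBQ.trans hQη
  have hgη : Gn η.1 M g :=
    ⟨hgM, hg0, fun m hm => hBη (Algebra.subset_adjoin ⟨m, hm, rfl⟩)⟩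
  obtain ⟨hg₀M, hg₀0, hg₀η⟩ := hg₀
  have hgk : g ^ k ≠ 0 := pow_ne_zero _ hg0
  have hg₀k : g₀ ^ k ≠ 0 := pow_ne_zero _ hg₀0
  -- the elements of the module
  have hN1 : ∀ f ∈ cut η.1 η.2 (M ^ k) (g₀ ^ k), f / g ^ k ∈ chart O M g ∧
      η.1.valuation (f / g ^ k) < 1 := by
    rintro f ⟨hf1, hf2⟩
    refine ⟨pow_div_mem hg0 k f hf1, ?_⟩
    have e1 : f / g ^ k = (g₀ / g) ^ k * (f / g₀ ^ k) := by
      rw [div_pow]
      field_simp
    rw [e1, map_mul]
    exact mul_lt_one_aux ((η.1.valuation_le_one_iff _).2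
      (η.1.toSubring.pow_mem (hgη.2.2 g₀ hg₀M) k)) hf2
  have hNle : cut η.1 η.2 (M ^ k) (g₀ ^ k) ≤ M ^ k := fun m hm => hm.1
  -- the module is finitely generated
  have hNfg : (cut η.1 η.2 (M ^ k) (g₀ ^ k)).FG := by
    have h1 : (M ^ k).FG := hM.pow _
    have h2 : IsNoetherian O (M ^ k : Submodule O F) := isNoetherian_of_fg_of_noetherian _ h1
    have h3 : IsNoetherian O (cut η.1 η.2 (M ^ k) (g₀ ^ k)) := isNoetherian_of_le hNle
    exact Module.Finite.iff_fg.1 inferInstance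
  -- elements of the prime ideal
  have hQ : ∀ y ∈ lo W.1.toSubring (chart O M g).toSubring, η.1.valuation y < 1 →
      ∃ (n : ℕ) (c f : Fin n → F) (b : F), (∀ i, c i ∈ chart O M g) ∧
        (∀ i, f i ∈ cut η.1 η.2 (M ^ k) (g₀ ^ k)) ∧ b ∈ chart O M g ∧ b ≠ 0 ∧
        b⁻¹ ∈ W.1.toSubring ∧ y = (∑ i, c i * (f i / g ^ k)) * b⁻¹ := by
    rintro y ⟨a, ha, b, hb, hb0, hbi, rfl⟩ hy
    have ha1 : η.1.valuation a < 1 := by
      have e1 : a = a * b⁻¹ * b := by rw [mul_assoc, inv_mul_cancel₀ hb0, mul_one]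
      rw [e1, map_mul]
      exact mul_lt_one_aux' hy ((η.1.valuation_le_one_iff _).2 (hBη hb))
    obtain ⟨n, c, f, hc, hf, e⟩ := hcut k hk g hgG hgη a ha ha1
    exact ⟨n, c, f, b, hc, hf, hb, hb0, hbi, by rw [e]⟩
  -- the module is not zero
  obtain ⟨f₁, hf₁, hf₁0⟩ : ∃ f ∈ cut η.1 η.2 (M ^ k) (g₀ ^ k), f ≠ 0 := by
    obtain ⟨y, hy, hy0', hy1⟩ := hy0
    obtain ⟨n, c, f, b, hc, hf, hb, hb0, hbi, e⟩ := hQ y hy hy1
    by_contra hcon
    push Not at hcon
    apply hy0'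
    rw [e]
    have h1 : ∑ i, c i * (f i / g ^ k) = 0 := by
      refine Finset.sum_eq_zero fun i _ => ?_
      rw [hcon (f i) (hf i), zero_div, mul_zero]
    rw [h1, zero_mul]
  obtain ⟨h, hhN, hh0, hhW⟩ := exists_gen_max W.2 hNfg hf₁ hf₁0
  have he0 : h / g ^ k ≠ 0 := div_ne_zero hh0 hgk
  have hfe : ∀ f : F, f / g ^ k / (h / g ^ k) = f / h := by
    intro f
    field_simp
  -- quotients by the new generator
  have hdiv : ∀ y : F, ∀ (n : ℕ) (c f : Fin n → F) (b : F),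
      y = (∑ i, c i * (f i / g ^ k)) * b⁻¹ →
      y / (h / g ^ k) = (∑ i, c i * (f i / h)) * b⁻¹ := by
    intro y n c f b e
    rw [e]
    have h1 : (∑ i, c i * (f i / g ^ k)) * b⁻¹ / (h / g ^ k) =
        ((∑ i, c i * (f i / g ^ k)) / (h / g ^ k)) * b⁻¹ := by ring
    rw [h1, Finset.sum_div]
    congr 1
    refine Finset.sum_congr rfl fun i _ => ?_
    rw [mul_div_assoc, hfe]
  have hMin : MinP W.1 η.1 (lo W.1.toSubring (chart O M g).toSubring) (h / g ^ k) :=
    { mem := hBQ (hN1 h hhN).1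
      ne := he0
      lt := (hN1 h hhN).2
      min := by
        intro y hy hy1
        obtain ⟨n, c, f, b, hc, hf, hb, hb0, hbi, e⟩ := hQ y hy hy1
        rw [hdiv y n c f b e]
        refine W.1.toSubring.mul_mem (W.1.toSubring.sum_mem fun i _ => ?_) hbi
        exact W.1.toSubring.mul_mem (hBW (hc i)) (hhW _ (hf i)) }
  refine ⟨⟨_, hMin⟩, ?_⟩
  -- the new chart
  have hgh : g * h ≠ 0 := mul_ne_zero hg0 hh0
  have hghM : g * h ∈ M * cut η.1 η.2 (M ^ k) (g₀ ^ k) := Submodule.mul_mem_mul hgM hhN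
  have hghW : ∀ m ∈ M * cut η.1 η.2 (M ^ k) (g₀ ^ k), m / (g * h) ∈ W.1 := by
    intro m hm
    refine Submodule.mul_induction_on hm (fun a ha b hb => ?_) (fun a b ha hb => ?_)
    · rw [mul_div_mul_comm]
      exact W.1.mul_mem _ _ (hgW a ha) (hhW b hb)
    · rw [add_div]
      exact W.1.add_mem _ _ ha hb
  refine ⟨g * h, hghM, hgh, hghW, ?_⟩
  have hB'W : (chart O (M * cut η.1 η.2 (M ^ k) (g₀ ^ k)) (g * h)).toSubring ≤
      W.1.toSubring := chart_le_V W.2 hghW
  have hCW : Subring.closure ((lo W.1.toSubring (chart O M g).toSubring : Set F) ∪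
      {t | ∃ y ∈ lo W.1.toSubring (chart O M g).toSubring, ∃ e, η.1.valuation y < 1 ∧
        MinP W.1 η.1 (lo W.1.toSubring (chart O M g).toSubring) e ∧ t = y / e}) ≤
      W.1.toSubring := by
    rw [Subring.closure_le]
    rintro x (hx | ⟨y, hy, e, hy1, he, rfl⟩)
    · exact hQW hx
    · exact he.min y hy hy1
  show lo W.1.toSubring (chart O (M * cut η.1 η.2 (M ^ k) (g₀ ^ k)) (g * h)).toSubring =
    lo W.1.toSubring (Subring.closure _)
  apply le_antisymm
  · refine lo_mono ?_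
    let C : Subring F := Subring.closure ((lo W.1.toSubring (chart O M g).toSubring : Set F) ∪
      {t | ∃ y ∈ lo W.1.toSubring (chart O M g).toSubring, ∃ e, η.1.valuation y < 1 ∧
        MinP W.1 η.1 (lo W.1.toSubring (chart O M g).toSubring) e ∧ t = y / e})
    have hBC : (chart O M g).toSubring ≤ C := fun b hb => Subring.subset_closure (Or.inl (hBQ hb))
    let C' : Subalgebra O F := { C with
      algebraMap_mem' := fun o => hBC (Subalgebra.algebraMap_mem (chart O M g) o) }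
    have h1 : chart O (M * cut η.1 η.2 (M ^ k) (g₀ ^ k)) (g * h) ≤ C' := Algebra.adjoin_le (by
      rintro _ ⟨m, hm, rfl⟩
      show m / (g * h) ∈ C
      refine Submodule.mul_induction_on hm (fun a ha b hb => ?_) (fun a b ha hb => ?_)
      · rw [mul_div_mul_comm]
        refine C.mul_mem (hBC (Algebra.subset_adjoin ⟨a, ha, rfl⟩)) ?_
        refine Subring.subset_closure (Or.inr ⟨b / g ^ k, hBQ (hN1 b hb).1, h / g ^ k,
          (hN1 b hb).2, hMin, (hfe b).symm⟩)
      · rw [add_div]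
        exact C.add_mem ha hb)
    exact h1
  · refine lo_le_lo hB'W ?_
    have hBB' : (chart O M g).toSubring ≤
        (chart O (M * cut η.1 η.2 (M ^ k) (g₀ ^ k)) (g * h)).toSubring := by
      have h1 : chart O M g ≤ chart O (M * cut η.1 η.2 (M ^ k) (g₀ ^ k)) (g * h) :=
        Algebra.adjoin_le (by
          rintro _ ⟨m, hm, rfl⟩
          refine Algebra.subset_adjoin ⟨m * h, Submodule.mul_mem_mul hm hhN, ?_⟩
          rw [mul_div_mul_right _ _ hh0])
      exact h1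
    have hfB' : ∀ f ∈ cut η.1 η.2 (M ^ k) (g₀ ^ k),
        f / h ∈ (chart O (M * cut η.1 η.2 (M ^ k) (g₀ ^ k)) (g * h)).toSubring := by
      intro f hf
      refine Algebra.subset_adjoin ⟨g * f, Submodule.mul_mem_mul hgM hf, ?_⟩
      rw [mul_div_mul_left _ _ hg0]
    have hye : ∀ y ∈ lo W.1.toSubring (chart O M g).toSubring, η.1.valuation y < 1 →
        y / (h / g ^ k) ∈ lo W.1.toSubring
          (chart O (M * cut η.1 η.2 (M ^ k) (g₀ ^ k)) (g * h)).toSubring := by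
      intro y hy hy1
      obtain ⟨n, c, f, b, hc, hf, hb, hb0, hbi, e⟩ := hQ y hy hy1
      rw [hdiv y n c f b e]
      refine ⟨_, ?_, b, hBB' hb, hb0, hbi, rfl⟩
      exact Subring.sum_mem _ fun i _ => Subring.mul_mem _ (hBB' (hc i)) (hfB' _ (hf i))
    rw [Subring.closure_le]
    rintro x (hx | ⟨y, hy, e', hy1, he', rfl⟩)
    · exact lo_mono hBB' hx
    · have h1 := hye y hy hy1
      have h2 := hye e' he'.mem he'.lt
      have h3 : e' / (h / g ^ k) ≠ 0 := div_ne_zero he'.ne he0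
      have h4 : (e' / (h / g ^ k))⁻¹ ∈ W.1.toSubring := by
        rw [inv_div]
        exact he'.min _ hMin.mem hMin.lt
      have h5 := inv_mem_lo hB'W h2 h3 h4
      have h6 : y / e' = y / (h / g ^ k) * (e' / (h / g ^ k))⁻¹ := by
        have h7 := he'.ne
        rw [inv_div]
        field_simp
      show y / e' ∈ lo W.1.toSubring
          (chart O (M * cut η.1 η.2 (M ^ k) (g₀ ^ k)) (g * h)).toSubring
      rw [h6]
      exact Subring.mul_mem _ h1 h5

end top

end Pool.Agent.H413.BR
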