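import Pool.Agent.H413.BR.Defs2

/-!
# The Jacobian criterion for localizations of quotients
-/

set_option autoImplicit false
set_option linter.unusedVariables false
set_option linter.unusedSectionVars false

namespace Pool.Agent.H413.BR

open IsLocalRing Pool.Agent.TH188.QS Pool.Agent.TH188.ARC Pool.Agent.W418.LU2
  Pool.Agent.H918R2.Quad

section jacquot

variable {S : Type} [CommRing S]

/-- Derivations send the square of an ideal into the ideal. -/
lemma h413_der_sq {𝔫 : Ideal S} (D : Derivation ℤ S S) {x : S} (hx : x ∈ 𝔫 ^ 2) : D x ∈ 𝔫 := by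
  rw [pow_two] at hx
  refine Submodule.mul_induction_on hx ?_ ?_
  · intro a ha b hb
    rw [Derivation.leibniz, smul_eq_mul, smul_eq_mul]
    exact 𝔫.add_mem (𝔫.mul_mem_right _ ha) (𝔫.mul_mem_right _ hb)
  · intro a b ha hb
    rw [map_add]
    exact 𝔫.add_mem ha hb

/-- The coefficients of a relation modulo the square. -/
lemma h413_coef {𝔫 : Ideal S} (hn : 𝔫.IsPrime) {r : ℕ} (f : Fin r → S)
    (D : Fin r → Derivation ℤ S S) (hf : ∀ i, f i ∈ 𝔫)
    (hdet : (Matrix.of fun i j => D j (f i)).det ∉ 𝔫) (c : Fin r → S)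
    (hc : ∑ i, c i * f i ∈ 𝔫 ^ 2) (i : Fin r) : c i ∈ 𝔫 := by
  classical
  set M : Matrix (Fin r) (Fin r) S := Matrix.of fun i j => D j (f i) with hM
  have h1 : ∀ j, ∑ i, c i * M i j ∈ 𝔫 := by
    intro j
    have h2 := h413_der_sq (D j) hc
    rw [map_sum] at h2
    have h3 : ∑ i, c i * M i j = ∑ i, D j (c i * f i) - ∑ i, f i * D j (c i) := by
      rw [← Finset.sum_sub_distrib]
      refine Finset.sum_congr rfl fun i _ => ?_
      rw [Derivation.leibniz, smul_eq_mul, smul_eq_mul, hM, Matrix.of_apply]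
      ring
    rw [h3]
    exact 𝔫.sub_mem h2 (𝔫.sum_mem fun i _ => 𝔫.mul_mem_right _ (hf i))
  have h2 : (Matrix.vecMul (Matrix.vecMul c M) M.adjugate) i ∈ 𝔫 := by
    rw [Matrix.vecMul, dotProduct]
    exact 𝔫.sum_mem fun j _ => 𝔫.mul_mem_right _ (h1 j)
  rw [Matrix.vecMul_vecMul, Matrix.mul_adjugate, Matrix.vecMul_smul, Matrix.vecMul_one,
    Pi.smul_apply, smul_eq_mul] at h2
  exact (hn.mem_or_mem h2).resolve_left hdet

end jacquot

theorem jac_quot {S T : Type} [CommRing S] [IsRegularRing S] [CommRing T] {θ : S →+* T}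
    {𝔫 : Ideal S} [𝔫.IsPrime] (h : LocQ θ 𝔫) {r : ℕ} (f : Fin r → S)
    (D : Fin r → Derivation ℤ S S) (hf : ∀ i, θ (f i) = 0)
    (ht : ∃ t ∉ 𝔫, ∀ s, θ s = 0 → t * s ∈ Ideal.span (Set.range f))
    (hdet : (Matrix.of fun i j => D j (f i)).det ∉ 𝔫) : IsRegularLocalRing T := by
  classical
  have hn : 𝔫.IsPrime := inferInstance
  let O := Localization.AtPrime 𝔫
  have hO : IsRegularLocalRing O := IsRegularRing.isRegularLocalRing_localization 𝔫
  have hmem : ∀ a : S, algebraMap S O a ∈ maximalIdeal O ↔ a ∈ 𝔫 := fun a =>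
    IsLocalization.AtPrime.to_map_mem_maximal_iff O 𝔫 a
  have hfn : ∀ i, f i ∈ 𝔫 := by
    intro i
    by_contra hi
    have h1 := h.unit _ hi
    rw [hf i] at h1
    have h2 := h.nonunit 0 𝔫.zero_mem
    rw [map_zero] at h2
    exact h2 h1
  let f' : Fin r → O := fun i => algebraMap S O (f i)
  have hind : Ind f' := by
    refine ⟨fun i => (hmem _).2 (hfn i), fun c hc i => ?_⟩
    -- common denominators
    obtain ⟨b, hb⟩ := IsLocalization.exist_integer_multiples_of_finset 𝔫.primeCompl
      (Finset.univ.image c)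
    have hb' : ∀ i, ∃ a : S, algebraMap S O a = algebraMap S O (b : S) * c i := by
      intro i
      obtain ⟨a, ha⟩ := hb (c i) (Finset.mem_image_of_mem _ (Finset.mem_univ i))
      exact ⟨a, by rw [ha, Algebra.smul_def]⟩
    choose a ha using hb'
    have h1 : algebraMap S O (∑ i, a i * f i) ∈ (𝔫 ^ 2).map (algebraMap S O) := by
      rw [Ideal.map_pow, IsLocalization.AtPrime.map_eq_maximalIdeal 𝔫 O]
      have h2 : algebraMap S O (∑ i, a i * f i) = algebraMap S O (b : S) * ∑ i, c i * f' i := by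
        rw [map_sum, Finset.mul_sum]
        refine Finset.sum_congr rfl fun i _ => ?_
        rw [map_mul, ha i]
        change algebraMap S O (b : S) * c i * algebraMap S O (f i) =
          algebraMap S O (b : S) * (c i * algebraMap S O (f i))
        ring
      rw [h2]
      exact Ideal.mul_mem_left _ _ hc
    obtain ⟨⟨⟨y, hy⟩, u⟩, hyu⟩ := (IsLocalization.mem_map_algebraMap_iff 𝔫.primeCompl O).1 h1
    change algebraMap S O (∑ i, a i * f i) * algebraMap S O (u : S) = algebraMap S O y at hyu
    rw [← map_mul] at hyu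
    obtain ⟨v, hv⟩ := (IsLocalization.eq_iff_exists 𝔫.primeCompl O).1 hyu
    have h3 : ∑ i, ((v : S) * u * a i) * f i ∈ 𝔫 ^ 2 := by
      have h4 : ∑ i, ((v : S) * u * a i) * f i = v * y := by
        rw [← hv, Finset.sum_mul, Finset.mul_sum]
        refine Finset.sum_congr rfl fun i _ => ?_
        ring
      rw [h4]
      exact Ideal.mul_mem_left _ _ hy
    have h5 := h413_coef hn f D hfn hdet _ h3 i
    have h6 : a i ∈ 𝔫 := by
      rcases hn.mem_or_mem h5 with h7 | h7
      · rcases hn.mem_or_mem h7 with h8 | h8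
        · exact absurd h8 v.2
        · exact absurd h8 u.2
      · exact h7
    have h7 : algebraMap S O (b : S) * c i ∈ maximalIdeal O := by
      rw [← ha i]
      exact (hmem _).2 h6
    exact (Ideal.unit_mul_mem_iff_mem _ (IsLocalization.map_units O b)).1 h7
  have hJr := hind.regular
  have hu : ∀ y : 𝔫.primeCompl, IsUnit (θ y) := fun y => h.unit _ y.2
  let ψ : O →+* T := IsLocalization.lift (M := 𝔫.primeCompl) hu
  have hψ : ∀ a : S, ψ (algebraMap S O a) = θ a := fun a => IsLocalization.lift_eq hu a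
  have hψs : Function.Surjective ψ := by
    intro z
    obtain ⟨a, y, hy, hz⟩ := h.frac z
    let y' : 𝔫.primeCompl := ⟨y, hy⟩
    refine ⟨IsLocalization.mk' O a y', ?_⟩
    have h5 := congrArg ψ (IsLocalization.mk'_spec O a y')
    rw [map_mul, hψ, hψ, ← hz] at h5
    exact (h.unit y hy).mul_right_cancel h5
  have hker : RingHom.ker ψ = Ideal.span (Set.range f') := by
    apply le_antisymm
    · intro x hx
      rw [RingHom.mem_ker] at hx
      obtain ⟨⟨a, y⟩, hay⟩ := IsLocalization.surj 𝔫.primeCompl x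
      change x * algebraMap S O (y : S) = algebraMap S O a at hay
      have h1 : θ a = 0 := by
        rw [← hψ, ← hay, map_mul, hx, zero_mul]
      obtain ⟨t, ht, hts⟩ := ht
      have h2 := hts a h1
      have h3 : algebraMap S O (t * a) ∈ Ideal.span (Set.range f') := by
        have h4 := Ideal.mem_map_of_mem (algebraMap S O) h2
        rw [Ideal.map_span, ← Set.range_comp] at h4
        exact h4
      rw [map_mul, ← hay] at h3
      have h4 := (Ideal.unit_mul_mem_iff_mem _
        (IsLocalization.map_units O (⟨t, ht⟩ : 𝔫.primeCompl))).1 h3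
      exact (Ideal.mul_unit_mem_iff_mem _ (IsLocalization.map_units O y)).1 h4
    · rw [Ideal.span_le]
      rintro _ ⟨i, rfl⟩
      change ψ (algebraMap S O (f i)) = 0
      rw [hψ, hf]
  have h1 : IsRegularLocalRing (O ⧸ RingHom.ker ψ) := by
    rw [hker]
    exact hJr
  exact IsRegularLocalRing.of_ringEquiv (RingHom.quotientKerEquivOfSurjective hψs)

end Pool.Agent.H413.BR

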