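import Pool.Agent.H413.BR.Defs2

set_option autoImplicit false
set_option linter.unusedVariables false

/-! BR13: the height of an ideal generated by part of a regular system of parameters. -/

namespace Pool.Agent.H413.BR

open IsLocalRing Pool.Agent.W418.LU2

theorem h413_isPrime_span {P : Type} [CommRing P] [IsRegularLocalRing P] {n : ℕ} (x : Fin n → P)
    (hx : Ind x) : (Ideal.span (Set.range x)).IsPrime := by
  have h1 := hx.regular
  have h2 := Pool.Agent.H379R3.isDomain (P ⧸ Ideal.span (Set.range x))
  exact (Ideal.Quotient.isDomain_iff_prime _).1 h2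

/-- BR13. -/
theorem height_ind {P : Type} [CommRing P] [IsRegularLocalRing P] {n : ℕ} (x : Fin n → P)
    (hx : Ind x) : (n : ℕ∞) ≤ (Ideal.span (Set.range x)).height := by
  induction n with
  | zero => exact bot_le
  | succ n ih =>
    have hx' : Ind (x ∘ Fin.castSucc) := hx.comp _ (Fin.castSucc_injective n)
    have h1 := ih _ hx'
    have p1 := h413_isPrime_span _ hx'
    have p2 := h413_isPrime_span x hx
    have hlt : Ideal.span (Set.range (x ∘ Fin.castSucc)) < Ideal.span (Set.range x) := by
      refine lt_of_le_of_ne (Ideal.span_mono (Set.range_comp_subset_range _ _)) fun he => ?_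
      have h2 : x (Fin.last n) ∈ Ideal.span (Set.range (x ∘ Fin.castSucc)) := by
        rw [he]
        exact Ideal.subset_span ⟨_, rfl⟩
      obtain ⟨c, hc⟩ := Ideal.mem_span_range_iff_exists_fun.1 h2
      have h3 := hx.2 (Fin.snoc (fun i => -c i) 1) (by
        rw [Fin.sum_univ_castSucc]
        simp only [Fin.snoc_castSucc, Fin.snoc_last, one_mul, neg_mul, Finset.sum_neg_distrib]
        have h4 : ∑ i, c i * x (Fin.castSucc i) = x (Fin.last n) := hc
        rw [h4, neg_add_cancel]
        exact Ideal.zero_mem _) (Fin.last n)
      rw [Fin.snoc_last] at h3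
      exact (Ideal.ne_top_iff_one _).1 (maximalIdeal.isMaximal P).ne_top h3
    have h5 := Ideal.height_add_one_le_of_lt_of_isPrime hlt
    refine le_trans ?_ h5
    push_cast
    exact add_le_add_left h1 1

end Pool.Agent.H413.BR
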