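import Pool.Agent.H413.BR.Defs2
import Pool.Agent.H413.BR.B13

set_option autoImplicit false

namespace Pool.Agent.H413.BR

open IsLocalRing Pool.Agent.TH188.QS Pool.Agent.TH188.ARC Pool.Agent.W418.LU2
  Pool.Agent.H918R2.Quad

/-- BR14. Localizations of regular local rings at primes generated by part of a regular system of
parameters are regular. -/
theorem reg_loc {P T : Type} [CommRing P] [IsRegularLocalRing P] [CommRing T] {n : ℕ}
    (x : Fin n → P) (hx : Ind x) {θ : P →+* T}
    (h : LocQ θ (Ideal.span (Set.range x))) (hinj : Function.Injective θ) :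
    IsRegularLocalRing T := by
  have hreg : IsRegularLocalRing (P ⧸ Ideal.span (Set.range x)) := hx.regular
  have hdom : IsDomain (P ⧸ Ideal.span (Set.range x)) := Pool.Agent.H379R3.isDomain _
  have hprime : (Ideal.span (Set.range x)).IsPrime :=
    (Ideal.Quotient.isDomain_iff_prime _).1 hdom
  have hht := height_ind x hx
  let : Algebra P T := θ.toAlgebra
  have hloc : IsLocalization.AtPrime T (Ideal.span (Set.range x)) := by
    refine ⟨fun y => h.unit y.1 y.2, fun z => ?_, fun {a b} hab => ⟨1, ?_⟩⟩
    · obtain ⟨a, y, hy, hz⟩ := h.frac z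
      exact ⟨(a, ⟨y, hy⟩), hz⟩
    · rw [hinj hab]
  have hlr : IsLocalRing T := IsLocalization.AtPrime.isLocalRing T (Ideal.span (Set.range x))
  have hnoeth : IsNoetherianRing T :=
    IsLocalization.isNoetherianRing (R := P) (Ideal.span (Set.range x)).primeCompl T inferInstance
  have hmax : maximalIdeal T = Ideal.span (Set.range fun i => θ (x i)) := by
    rw [← IsLocalization.AtPrime.map_eq_maximalIdeal (Ideal.span (Set.range x)) T, Ideal.map_span,
      ← Set.range_comp]
    rfl
  refine IsRegularLocalRing.of_spanFinrank_maximalIdeal_le T ?_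
  rw [IsLocalization.AtPrime.ringKrullDim_eq_height (Ideal.span (Set.range x)) T, hmax]
  have h1 : (Ideal.span (Set.range fun i => θ (x i))).spanFinrank ≤ n := by
    refine (Submodule.spanFinrank_span_le_ncard_of_finite (Set.finite_range _)).trans ?_
    have := Set.ncard_image_le (Set.finite_univ (α := Fin n)) (f := fun i => θ (x i))
    rw [Set.image_univ, Set.ncard_univ, Nat.card_fin] at this
    exact this
  have h2 : (((Ideal.span (Set.range fun i => θ (x i))).spanFinrank : ℕ) : ℕ∞) ≤
      (Ideal.span (Set.range x)).height := le_trans (by exact_mod_cast h1) hht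
  exact_mod_cast h2

end Pool.Agent.H413.BR
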