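import Pool.Agent.H413.BR.Defs2
import Pool.Agent.H413.BR.B13
import Pool.Agent.H413.BR.B14

/-!
# BR15: regularity of the localization of the quotient
-/

set_option autoImplicit false
set_option linter.unusedVariables false
set_option linter.unusedSectionVars false

namespace Pool.Agent.H413.BR

open IsLocalRing Pool.Agent.TH188.QS Pool.Agent.TH188.ARC Pool.Agent.W418.LU2
  Pool.Agent.H918R2.Quad

theorem reg_of_ge {P T : Type} [CommRing P] [IsRegularLocalRing P] [CommRing T] {s ρ r : ℕ}
    (e : Fin s → P) (b : Fin ρ → P) (hi : Ind (Sum.elim e b)) {𝔮 K : Ideal P} [K.IsPrime]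
    (h𝔮 : 𝔮 = Ideal.span (Set.range e) ⊔ Ideal.span (Set.range b)) (hK𝔮 : K ≤ 𝔮)
    (he : ∀ i, e i ∈ K) (hKr : K.height ≤ (r : ℕ∞)) (hrs : r ≤ s) {θ : P →+* T}
    (h : LocQ θ 𝔮) (hker : ∀ y, θ y = 0 ↔ y ∈ K) : IsRegularLocalRing T := by
  classical
  have hie : Ind e := by
    have h1 := hi.comp Sum.inl Sum.inl_injective
    rwa [Sum.elim_comp_inl] at h1
  have hbe : Ind (Sum.elim b e) := by
    have h1 := hi.comp (Sum.swap : Fin ρ ⊕ Fin s → Fin s ⊕ Fin ρ) Sum.swap_leftInverse.injective
    have h2 : (Sum.elim e b) ∘ (Sum.swap : Fin ρ ⊕ Fin s → Fin s ⊕ Fin ρ) = Sum.elim b e := by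
      funext i
      rcases i with i | i <;> rfl
    rwa [h2] at h1
  have hregI : IsRegularLocalRing (P ⧸ Ideal.span (Set.range e)) := hie.regular
  have hdom : IsDomain (P ⧸ Ideal.span (Set.range e)) := Pool.Agent.H379R3.isDomain _
  have hIp : (Ideal.span (Set.range e)).IsPrime := (Ideal.Quotient.isDomain_iff_prime _).1 hdom
  have hIK : Ideal.span (Set.range e) ≤ K := by
    rw [Ideal.span_le]
    rintro _ ⟨i, rfl⟩
    exact he i
  have hIK' : K = Ideal.span (Set.range e) := by
    by_contra hne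
    have hlt : Ideal.span (Set.range e) < K := lt_of_le_of_ne hIK (Ne.symm hne)
    have hh := height_ind e hie
    have h1 : (Ideal.span (Set.range e)).height < K.height :=
      Ideal.height_strict_mono_of_isPrime hlt
    have h2 : (r : ℕ∞) ≤ (s : ℕ∞) := by exact_mod_cast hrs
    exact absurd (h1.trans_le (hKr.trans (h2.trans hh))) (lt_irrefl _)
  subst hIK'
  have hk : ∀ y, y ∈ Ideal.span (Set.range e) → θ y = 0 := fun y hy => (hker y).2 hy
  have hIndb : Ind (fun i => Ideal.Quotient.mk (Ideal.span (Set.range e)) (b i)) :=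
    hbe.quot (Ideal.Quotient.mk (Ideal.span (Set.range e))) Ideal.Quotient.mk_surjective
      (Ideal.mk_ker)
  have hmem : ∀ y : P, Ideal.Quotient.mk (Ideal.span (Set.range e)) y ∈
      Ideal.span (Set.range fun i => Ideal.Quotient.mk (Ideal.span (Set.range e)) (b i)) ↔
      y ∈ 𝔮 := by
    intro y
    have h1 : Ideal.span (Set.range fun i => Ideal.Quotient.mk (Ideal.span (Set.range e)) (b i)) =
        (Ideal.span (Set.range b)).map (Ideal.Quotient.mk (Ideal.span (Set.range e))) := by
      rw [Ideal.map_span, ← Set.range_comp]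
      rfl
    rw [h1, h𝔮, ← Ideal.mem_comap,
      Ideal.comap_map_of_surjective _ Ideal.Quotient.mk_surjective]
    have h2 : Ideal.comap (Ideal.Quotient.mk (Ideal.span (Set.range e))) ⊥ =
        Ideal.span (Set.range e) := Ideal.mk_ker
    rw [h2, sup_comm]
  have hL : LocQ (Ideal.Quotient.lift (Ideal.span (Set.range e)) θ hk)
      (Ideal.span (Set.range fun i => Ideal.Quotient.mk (Ideal.span (Set.range e)) (b i))) := by
    refine ⟨?_, ?_, ?_⟩
    · intro y hy
      obtain ⟨y, rfl⟩ := Ideal.Quotient.mk_surjective y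
      rw [hmem] at hy
      rw [Ideal.Quotient.lift_mk]
      exact h.unit y hy
    · intro y hy
      obtain ⟨y, rfl⟩ := Ideal.Quotient.mk_surjective y
      rw [hmem] at hy
      rw [Ideal.Quotient.lift_mk]
      exact h.nonunit y hy
    · intro z
      obtain ⟨a, y, hy, hz⟩ := h.frac z
      refine ⟨Ideal.Quotient.mk _ a, Ideal.Quotient.mk _ y, ?_, ?_⟩
      · rw [hmem]; exact hy
      · rw [Ideal.Quotient.lift_mk, Ideal.Quotient.lift_mk]
        exact hz
  have hinj : Function.Injective (Ideal.Quotient.lift (Ideal.span (Set.range e)) θ hk) := by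
    rw [injective_iff_map_eq_zero]
    intro y hy
    obtain ⟨y, rfl⟩ := Ideal.Quotient.mk_surjective y
    rw [Ideal.Quotient.lift_mk] at hy
    exact Ideal.Quotient.eq_zero_iff_mem.2 ((hker y).1 hy)
  exact reg_loc _ hIndb hL hinj

end Pool.Agent.H413.BR
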