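import Pool.Agent.H413.BR.Defs2

set_option autoImplicit false

/-!
# BR16 (helper388 for helper413): basis exchange and Nakayama in a regular local ring
-/

namespace Pool.Agent.H413.BR

open IsLocalRing Pool.Agent.TH188.QS Pool.Agent.TH188.ARC Pool.Agent.W418.LU2
  Pool.Agent.H918R2.Quad

namespace XBR16

variable {P : Type} [CommRing P] [IsRegularLocalRing P]

omit [IsRegularLocalRing P] in
theorem aux2 (M E B K : Ideal P) (h : E ≤ K) : M * (E ⊔ B) ≤ K ⊔ M * B := by
  rw [Ideal.mul_sup]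
  refine sup_le ?_ le_sup_right
  have h1 : M * E ≤ E := Ideal.mul_le_right
  exact (h1.trans h).trans le_sup_left

omit [IsRegularLocalRing P] in
theorem aux {k w A B : P} (h : k + w = A + B) : B - w = k - A := by
  linear_combination -h

theorem ind_empty (e : Fin 0 → P) : Ind e :=
  ⟨fun i => i.elim0, fun _ _ i => i.elim0⟩

theorem ind_le {s : ℕ} {e : Fin s → P} (h : Ind e) :
    s ≤ Module.finrank (ResidueField P) (CotangentSpace P) := by
  have h1 := ((ind_iff h.1).1 h).fintype_card_le_finrank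
  rwa [Fintype.card_fin] at h1

theorem ind_cons {s : ℕ} {e : Fin s → P} (h : Ind e) {x : P} (hx : x ∈ maximalIdeal P)
    (hxe : x ∉ Ideal.span (Set.range e) ⊔ maximalIdeal P ^ 2) :
    Ind (Fin.cons x e : Fin (s + 1) → P) := by
  refine ⟨fun i => ?_, fun c hc => ?_⟩
  · refine Fin.cases ?_ (fun i => ?_) i
    · rw [Fin.cons_zero]
      exact hx
    · rw [Fin.cons_succ]
      exact h.1 i
  · rw [Fin.sum_univ_succ] at hc
    simp only [Fin.cons_zero, Fin.cons_succ] at hc
    have hsum : ∑ i : Fin s, c i.succ * e i ∈ Ideal.span (Set.range e) :=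
      Ideal.sum_mem _ fun i _ => Ideal.mul_mem_left _ _ (Ideal.subset_span ⟨i, rfl⟩)
    have h0 : c 0 ∈ maximalIdeal P := by
      by_contra hu
      have hu' : IsUnit (c 0) := by
        by_contra h3
        exact hu ((mem_maximalIdeal _).2 h3)
      apply hxe
      have h4 : c 0 * x ∈ Ideal.span (Set.range e) ⊔ maximalIdeal P ^ 2 := by
        have e1 : c 0 * x = (c 0 * x + ∑ i : Fin s, c i.succ * e i) -
            ∑ i : Fin s, c i.succ * e i := by ring
        rw [e1]
        exact Ideal.sub_mem _ (Ideal.mem_sup_right hc) (Ideal.mem_sup_left hsum)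
      exact (Ideal.unit_mul_mem_iff_mem _ hu').1 h4
    have h5 : ∑ i : Fin s, c i.succ * e i ∈ maximalIdeal P ^ 2 := by
      have e1 : ∑ i : Fin s, c i.succ * e i = (c 0 * x + ∑ i : Fin s, c i.succ * e i) -
          c 0 * x := by ring
      rw [e1]
      refine Ideal.sub_mem _ hc ?_
      rw [pow_two]
      exact Ideal.mul_mem_mul h0 hx
    have h6 := h.2 (fun i => c i.succ) h5
    intro i
    refine Fin.cases h0 (fun i => ?_) i
    exact h6 i

theorem exists_max {K : Ideal P} (hK : K ≤ maximalIdeal P) :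
    ∃ (s : ℕ) (e : Fin s → P), (∀ i, e i ∈ K) ∧ Ind e ∧
      K ≤ Ideal.span (Set.range e) ⊔ maximalIdeal P ^ 2 := by
  classical
  let Q : ℕ → Prop := fun s => ∃ e : Fin s → P, (∀ i, e i ∈ K) ∧ Ind e
  have hQ0 : Q 0 := ⟨fun i => i.elim0, fun i => i.elim0, ind_empty _⟩
  set d := Module.finrank (ResidueField P) (CotangentSpace P) with hd
  have hQs : Q (Nat.findGreatest Q d) := Nat.findGreatest_spec (Nat.zero_le d) hQ0
  obtain ⟨e, he, hie⟩ := hQs
  refine ⟨_, e, he, hie, fun x hx => ?_⟩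
  by_contra hxe
  have h1 : Q (Nat.findGreatest Q d + 1) := by
    refine ⟨Fin.cons x e, fun i => ?_, ind_cons hie (hK hx) hxe⟩
    refine Fin.cases ?_ (fun i => ?_) i
    · rw [Fin.cons_zero]
      exact hx
    · rw [Fin.cons_succ]
      exact he i
  have h2 : Nat.findGreatest Q d + 1 ≤ d := by
    obtain ⟨e', _, hie'⟩ := h1
    exact ind_le hie'
  have h3 := Nat.le_findGreatest h2 h1
  omega

end XBR16

open XBR16 in
theorem exch {P : Type} [CommRing P] [IsRegularLocalRing P] {𝔮 K : Ideal P}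
    (hq : IsRegularLocalRing (P ⧸ 𝔮)) (hK : K ≤ 𝔮) {ρ : ℕ} (b : Fin ρ → P) (hb : ∀ i, b i ∈ 𝔮)
    (hgen : 𝔮 ≤ K ⊔ Ideal.span (Set.range b))
    (hind : ∀ c : Fin ρ → P, ∀ t, t ∉ 𝔮 → t * ∑ i, c i * b i ∈ K ⊔ 𝔮 ^ 2 → ∀ i, c i ∈ 𝔮) :
    ∃ (s : ℕ) (e : Fin s → P), (∀ i, e i ∈ K) ∧
      𝔮 = Ideal.span (Set.range e) ⊔ Ideal.span (Set.range b) ∧ Ind (Sum.elim e b) ∧
      K ≤ Ideal.span (Set.range e) ⊔ 𝔮 ^ 2 := by
  classical
  have hqtop : 𝔮 ≠ ⊤ := by
    intro h
    have h1 : Nontrivial (P ⧸ 𝔮) := inferInstance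
    exact (Ideal.Quotient.nontrivial_iff.1 h1) h
  have hqm : 𝔮 ≤ maximalIdeal P := le_maximalIdeal hqtop
  have h1 : (1 : P) ∉ 𝔮 := (Ideal.ne_top_iff_one _).1 hqtop
  have hinf : 𝔮 ⊓ maximalIdeal P ^ 2 ≤ maximalIdeal P * 𝔮 := Pool.Agent.H379R3.inf_sq_le 𝔮
  obtain ⟨s, e, he, hie, hmax⟩ := exists_max (hK.trans hqm)
  have heq : Ideal.span (Set.range e) ≤ 𝔮 := by
    rw [Ideal.span_le]
    rintro _ ⟨i, rfl⟩
    exact hK (he i)
  have heK : Ideal.span (Set.range e) ≤ K := by
    rw [Ideal.span_le]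
    rintro _ ⟨i, rfl⟩
    exact he i
  have hbq : Ideal.span (Set.range b) ≤ 𝔮 := by
    rw [Ideal.span_le]
    rintro _ ⟨i, rfl⟩
    exact hb i
  -- `K ≤ (e) + 𝔪 𝔮`
  have hKe : K ≤ Ideal.span (Set.range e) ⊔ maximalIdeal P * 𝔮 := by
    intro x hx
    obtain ⟨y, hy, z, hz, hyz⟩ := Submodule.mem_sup.1 (hmax hx)
    have hzq : z ∈ 𝔮 := by
      have e1 : z = x - y := by rw [← hyz]; ring
      rw [e1]
      exact Ideal.sub_mem _ (hK hx) (heq hy)
    rw [← hyz]
    exact Ideal.add_mem _ (Ideal.mem_sup_left hy) (Ideal.mem_sup_right (hinf ⟨hzq, hz⟩))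
  -- Nakayama
  have hnak : 𝔮 ≤ Ideal.span (Set.range e) ⊔ Ideal.span (Set.range b) := by
    have hfg : 𝔮.FG := IsNoetherian.noetherian 𝔮
    apply Submodule.le_of_le_smul_of_le_jacobson_bot hfg (maximalIdeal_le_jacobson _)
    refine hgen.trans (sup_le (hKe.trans ?_) ?_)
    · refine sup_le (le_sup_left.trans le_sup_left) ?_
      rw [smul_eq_mul]
      exact le_sup_right
    · exact le_sup_right.trans le_sup_left
  have hq' : 𝔮 = Ideal.span (Set.range e) ⊔ Ideal.span (Set.range b) :=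
    le_antisymm hnak (sup_le heq hbq)
  refine ⟨s, e, he, hq', ?_, ?_⟩
  · refine ⟨fun i => ?_, fun c hc => ?_⟩
    · rcases i with i | i
      · exact hie.1 i
      · exact hqm (hb i)
    · rw [Fintype.sum_sum_type] at hc
      simp only [Sum.elim_inl, Sum.elim_inr] at hc
      have hse : ∑ i, c (Sum.inl i) * e i ∈ Ideal.span (Set.range e) :=
        Ideal.sum_mem _ fun i _ => Ideal.mul_mem_left _ _ (Ideal.subset_span ⟨i, rfl⟩)
      have hsb : ∑ i, c (Sum.inr i) * b i ∈ Ideal.span (Set.range b) :=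
        Ideal.sum_mem _ fun i _ => Ideal.mul_mem_left _ _ (Ideal.subset_span ⟨i, rfl⟩)
      have hmq : ∑ i, c (Sum.inl i) * e i + ∑ i, c (Sum.inr i) * b i ∈ maximalIdeal P * 𝔮 :=
        hinf ⟨Ideal.add_mem _ (heq hse) (hbq hsb), hc⟩
      -- `𝔪 𝔮 ≤ K + 𝔪 (b)`
      have hmq' : maximalIdeal P * 𝔮 ≤ K ⊔ maximalIdeal P * Ideal.span (Set.range b) := by
        have h7 := aux2 (maximalIdeal P) (Ideal.span (Set.range e)) (Ideal.span (Set.range b)) K heK
        rw [← hq'] at h7
        exact h7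
      obtain ⟨κ, hκ, w, hw, hκw⟩ := Submodule.mem_sup.1 (hmq' hmq)
      have hw2 : ∃ m : Fin ρ → P, (∀ j, m j ∈ maximalIdeal P) ∧ w = ∑ j, m j * b j := by
        have hw' : w ∈ maximalIdeal P • Submodule.span P (Set.range b) := hw
        rw [Submodule.mem_ideal_smul_span_iff_exists_sum] at hw'
        obtain ⟨a, ha, hsum⟩ := hw'
        refine ⟨fun j => a j, fun j => ha j, ?_⟩
        rw [← hsum, Finsupp.sum_fintype a (fun i c => c • b i) (fun j => zero_smul P (b j))]
        exact Finset.sum_congr rfl fun j _ => smul_eq_mul _ _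
      obtain ⟨m, hm, hwm⟩ := hw2
      have h2 : ∑ j, (c (Sum.inr j) - m j) * b j ∈ K := by
        have e1 : ∑ j, (c (Sum.inr j) - m j) * b j = κ - ∑ i, c (Sum.inl i) * e i := by
          have e2 : ∑ j, (c (Sum.inr j) - m j) * b j =
              ∑ j, c (Sum.inr j) * b j - ∑ j, m j * b j := by
            rw [← Finset.sum_sub_distrib]
            exact Finset.sum_congr rfl fun j _ => by ring
          rw [e2, ← hwm]
          exact aux hκw
        rw [e1]
        exact Ideal.sub_mem _ hκ (heK hse)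
      have h3 := hind (fun j => c (Sum.inr j) - m j) 1 h1 (by
        rw [one_mul]
        exact Ideal.mem_sup_left h2)
      have h4 : ∀ j, c (Sum.inr j) ∈ maximalIdeal P := by
        intro j
        have e1 : c (Sum.inr j) = (c (Sum.inr j) - m j) + m j := by ring
        rw [e1]
        exact Ideal.add_mem _ (hqm (h3 j)) (hm j)
      have h5 : ∑ i, c (Sum.inl i) * e i ∈ maximalIdeal P ^ 2 := by
        have e1 : ∑ i, c (Sum.inl i) * e i =
            (∑ i, c (Sum.inl i) * e i + ∑ i, c (Sum.inr i) * b i) -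
              ∑ i, c (Sum.inr i) * b i := by ring
        rw [e1]
        refine Ideal.sub_mem _ hc (Ideal.sum_mem _ fun j _ => ?_)
        rw [pow_two]
        exact Ideal.mul_mem_mul (h4 j) (hqm (hb j))
      have h6 := hie.2 (fun i => c (Sum.inl i)) h5
      rintro (i | i)
      · exact h6 i
      · exact h4 i
  · intro x hx
    have hx1 := hnak (hK hx)
    obtain ⟨y, hy, z, hz, hyz⟩ := Submodule.mem_sup.1 hx1
    obtain ⟨β, hβ⟩ := (Ideal.mem_span_range_iff_exists_fun).1 hz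
    have hzK : z ∈ K := by
      have e1 : z = x - y := by rw [← hyz]; ring
      rw [e1]
      exact Ideal.sub_mem _ hx (heK hy)
    have h2 := hind β 1 h1 (by
      rw [one_mul, hβ]
      exact Ideal.mem_sup_left hzK)
    rw [← hyz]
    refine Ideal.add_mem _ (Ideal.mem_sup_left hy) (Ideal.mem_sup_right ?_)
    rw [← hβ]
    refine Ideal.sum_mem _ fun j _ => ?_
    rw [pow_two]
    exact Ideal.mul_mem_mul (h2 j) (hb j)

end Pool.Agent.H413.BR
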