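import Pool.Agent.H413.BR.Defs2

set_option autoImplicit false

namespace Pool.Agent.H413.BR

theorem height_le_of_gen {P : Type} [CommRing P] [IsNoetherianRing P] {K : Ideal P}
    [K.IsPrime] {r : ℕ} (f : Fin r → P) (hf : ∀ i, f i ∈ K)
    (h : ∀ y ∈ K, ∃ t ∉ K, t * y ∈ Ideal.span (Set.range f)) : K.height ≤ (r : ℕ∞) := by
  have hmin : K ∈ (Ideal.span (Set.range f)).minimalPrimes := by
    refine ⟨⟨inferInstance, Ideal.span_le.2 ?_⟩, ?_⟩
    · rintro _ ⟨i, rfl⟩
      exact hf i
    · rintro J ⟨hJ, hJ1⟩ hJK y hy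
      obtain ⟨t, ht, hty⟩ := h y hy
      rcases hJ.mem_or_mem (hJ1 hty) with h1 | h1
      · exact absurd (hJK h1) ht
      · exact h1
  have h1 := Ideal.height_le_card_of_mem_minimalPrimes_span (Set.finite_range f) hmin
  have h2 : (Set.range f).ncard ≤ r := by
    rw [← Set.image_univ]
    refine (Set.ncard_image_le Set.finite_univ).trans ?_
    simp [Set.ncard_univ]
  exact h1.trans (by exact_mod_cast h2)

end Pool.Agent.H413.BR

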