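import Pool.Agent.H413.BR.Defs2

/-!
# BR18: multilinear expansion of a determinant and the ultrametric inequality (helper124)
-/

set_option autoImplicit false

namespace Pool.Agent.H413.BR

theorem det_expand {K : Type} [Field K] {V : ValuationSubring K} {r s : ℕ} (hs : s < r)
    (N : Matrix (Fin r) (Fin r) K) (hN : N.det ≠ 0) (A : Fin r → Fin s → K)
    (hA : ∀ i j, A i j ∈ V) (E : Fin s → Fin r → K) (H : Fin r → Fin r → K)
    (hrow : ∀ i, N i = (∑ j, A i j • E j) + H i) :
    ∃ c : Fin r → Option (Fin s), (∃ i, c i = none) ∧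
      (Matrix.of fun i => (c i).elim (H i) E).det ≠ 0 ∧
      N.det * ((Matrix.of fun i => (c i).elim (H i) E).det)⁻¹ ∈ V := by
  classical
  set D : (Fin r → Option (Fin s)) → K :=
    fun c => (Matrix.of fun i => (c i).elim (H i) E).det with hD
  let κ : Fin r → Option (Fin s) → K := fun i o => o.elim 1 (A i)
  have hexp : N.det = ∑ c : Fin r → Option (Fin s), (∏ i, κ i (c i)) * D c := by
    have h1 : N = fun i => ∑ o : Option (Fin s), κ i o • (o.elim (H i) E : Fin r → K) := by
      funext i
      rw [hrow i, Fintype.sum_option]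
      show _ = (1 : K) • H i + ∑ j, A i j • E j
      rw [one_smul, add_comm]
    have h2 : N.det = (Matrix.detRowAlternating (R := K) (n := Fin r)).toMultilinearMap
        (fun i => ∑ o : Option (Fin s), κ i o • (o.elim (H i) E : Fin r → K)) := by
      rw [← h1]
      rfl
    rw [h2, MultilinearMap.map_sum]
    refine Finset.sum_congr rfl fun c _ => ?_
    rw [MultilinearMap.map_smul_univ]
    rfl
  obtain ⟨c, -, hc⟩ := Finset.exists_max_image (Finset.univ : Finset (Fin r → Option (Fin s)))
    (fun c => V.valuation (D c)) ⟨fun _ => none, Finset.mem_univ _⟩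
  have hle : V.valuation N.det ≤ V.valuation (D c) := by
    rw [hexp]
    refine Valuation.map_sum_le _ fun c' _ => ?_
    rw [map_mul, map_prod]
    refine (mul_le_of_le_one_left' ?_).trans (hc c' (Finset.mem_univ _))
    refine Finset.prod_le_one' fun i _ => ?_
    rw [ValuationSubring.valuation_le_one_iff]
    show (c' i).elim 1 (A i) ∈ V
    cases c' i with
    | none => exact one_mem V
    | some j => exact hA i j
  have hv : V.valuation N.det ≠ 0 := (Valuation.ne_zero_iff _).2 hN
  have hDc : D c ≠ 0 := by
    intro h0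
    rw [h0, map_zero] at hle
    exact hv (le_antisymm hle zero_le')
  refine ⟨c, ?_, hDc, ?_⟩
  · by_contra hcon
    push Not at hcon
    have hj : ∀ i, ∃ j, c i = some j := fun i => Option.ne_none_iff_exists'.1 (hcon i)
    choose j hj using hj
    obtain ⟨a, b, hab, hjab⟩ := Fintype.exists_ne_map_eq_of_card_lt j (by simpa using hs)
    apply hDc
    refine Matrix.det_zero_of_row_eq hab ?_
    funext l
    show ((c a).elim (H a) E) l = ((c b).elim (H b) E) l
    rw [hj a, hj b, hjab]
    rfl
  · rw [← ValuationSubring.valuation_le_one_iff, map_mul, map_inv₀]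
    have hp : 0 < V.valuation (D c) := zero_lt_iff.2 ((Valuation.ne_zero_iff _).2 hDc)
    exact mul_inv_le_one_of_le₀ hle zero_le'

end Pool.Agent.H413.BR
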