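import Pool.Agent.H413.BR.Defs2

/-!
# BR19: the blowing up of a regular local ring along part of a system of parameters
-/

set_option autoImplicit false
set_option linter.unusedVariables false
set_option linter.unusedSectionVars false

namespace Pool.Agent.H413.BR

open IsLocalRing Pool.Agent.TH188.QS Pool.Agent.TH188.ARC Pool.Agent.W418.LU2
  Pool.Agent.H918R2.Quad

/-- BR19. -/
theorem blow_reg {F' : Type} [Field F'] {A P : Subring F'} (hA : Loc A) (hPA : P ≤ A)
    (hic : IC A P) (hreg : IsRegularLocalRing P) {ι : Type} [Fintype ι] (x : ι → F')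
    (hx : ∀ i, x i ∈ P) (hind : @Ind P _ hreg.toIsLocalRing ι _ (fun i => ⟨x i, hx i⟩))
    {z : F'} (hz : ∃ c : ι → F', (∀ i, c i ∈ P) ∧ z = ∑ i, c i * x i) (hz0 : z ≠ 0)
    (hzA : z⁻¹ ∉ A) (hmin : ∀ i, x i * z⁻¹ ∈ A) :
    IsRegularLocalRing (lo A (Subring.closure ((P : Set F') ∪
      {t | ∃ c : ι → F', (∀ i, c i ∈ P) ∧ t = (∑ i, c i * x i) * z⁻¹}))) := by
  classical
  have := hreg
  have hne : ∀ i, x i ≠ 0 := by
    intro i h0
    exact hind.ne_zero i (Subtype.ext h0)
  have hR : RegP A P x :=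
    { PA := hPA
      ne := hne
      mem := hx
      reg := hreg
      inv := hic
      ind := IndN.of_ind id Function.injective_id (fun i _ => ⟨i, rfl⟩) hind }
  have hxi : ∀ i, (x i)⁻¹ ∉ A := by
    intro i hi
    have h1 : (⟨x i, hx i⟩ : P) ∈ maximalIdeal P := hind.1 i
    rw [hR.mem_max] at h1
    exact h1 ⟨hne i, hi⟩
  obtain ⟨c, hc, hcz⟩ := hz
  -- an index `j` such that `x j` divides `z`
  obtain ⟨j, hj⟩ : ∃ j, z * (x j)⁻¹ ∈ A := by
    by_contra hcon
    push Not at hcon
    have h1 : (1 : F') = ∑ i, c i * (x i * z⁻¹) := by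
      rw [← mul_inv_cancel₀ hz0]
      nth_rewrite 1 [hcz]
      rw [Finset.sum_mul]
      exact Finset.sum_congr rfl fun i _ => by ring
    refine not_NU_one (A := A) ?_
    rw [h1]
    refine NU.sum hA _ (fun i _ => A.mul_mem (hPA (hc i)) (hmin i)) (fun i _ => ?_)
    refine NU.mul (hPA (hc i)) ?_
    rintro ⟨h3, h4⟩
    rw [mul_inv, inv_inv, mul_comm] at h4
    exact hcon i h4
  let s : Finset ι := Finset.univ.filter fun i => i ≠ j
  have hs : ∀ i ∈ s, i ≠ j ∧ (x i)⁻¹ ∉ A ∧ x i * (x j)⁻¹ ∈ A := by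
    intro i hi
    obtain ⟨-, h2⟩ := Finset.mem_filter.1 hi
    refine ⟨h2, hxi i, ?_⟩
    have h1 : x i * (x j)⁻¹ = (x i * z⁻¹) * (z * (x j)⁻¹) := by
      field_simp
    rw [h1]
    exact A.mul_mem (hmin i) hj
  have h2 := regP_qt hA hR j (hxi j) s hs
  have hc1 : Subring.closure ((P : Set F') ∪ {t | ∃ i ∈ s, t = x i * (x j)⁻¹}) ≤ A := by
    rw [Subring.closure_le]
    rintro t (ht | ⟨i, hi, rfl⟩)
    · exact hPA ht
    · exact (hs i hi).2.2
  have hc2 : Subring.closure ((P : Set F') ∪
      {t | ∃ c : ι → F', (∀ i, c i ∈ P) ∧ t = (∑ i, c i * x i) * z⁻¹}) ≤ A := by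
    rw [Subring.closure_le]
    rintro t (ht | ⟨b, hb, rfl⟩)
    · exact hPA ht
    · rw [Finset.sum_mul]
      refine A.sum_mem fun i _ => ?_
      rw [mul_assoc]
      exact A.mul_mem (hPA (hb i)) (hmin i)
  have h3 : lo A (Subring.closure ((P : Set F') ∪ {t | ∃ i ∈ s, t = x i * (x j)⁻¹})) =
      lo A (Subring.closure ((P : Set F') ∪
        {t | ∃ c : ι → F', (∀ i, c i ∈ P) ∧ t = (∑ i, c i * x i) * z⁻¹})) := by
    apply le_antisymm
    · refine lo_le_lo hc2 ?_
      rw [Subring.closure_le]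
      have hmem : ∀ i, x i * z⁻¹ ∈ Subring.closure ((P : Set F') ∪
          {t | ∃ c : ι → F', (∀ i, c i ∈ P) ∧ t = (∑ i, c i * x i) * z⁻¹}) := by
        intro i
        refine Subring.subset_closure (Or.inr ⟨Pi.single i 1, ?_, ?_⟩)
        · intro k
          by_cases hk : k = i
          · rw [hk, Pi.single_eq_same]
            exact P.one_mem
          · rw [Pi.single_eq_of_ne hk]
            exact P.zero_mem
        · rw [Finset.sum_eq_single i]
          · rw [Pi.single_eq_same, one_mul]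
          · intro k _ hk
            rw [Pi.single_eq_of_ne hk, zero_mul]
          · intro h
            exact absurd (Finset.mem_univ _) h
      rintro t (ht | ⟨i, hi, rfl⟩)
      · exact le_lo _ _ (Subring.subset_closure (Or.inl ht))
      · refine ⟨x i * z⁻¹, hmem i, x j * z⁻¹, hmem j,
          mul_ne_zero (hne j) (inv_ne_zero hz0), ?_, ?_⟩
        · rw [mul_inv, inv_inv, mul_comm]
          exact hj
        · have := hne j
          field_simp
    · refine lo_le_lo hc1 ?_
      rw [Subring.closure_le]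
      have hmem : ∀ i, x i * (x j)⁻¹ ∈ Subring.closure ((P : Set F') ∪
          {t | ∃ i ∈ s, t = x i * (x j)⁻¹}) := by
        intro i
        by_cases hij : i = j
        · rw [hij, mul_inv_cancel₀ (hne j)]
          exact Subring.one_mem _
        · exact Subring.subset_closure (Or.inr ⟨i, Finset.mem_filter.2
            ⟨Finset.mem_univ _, hij⟩, rfl⟩)
      have hsum : ∀ b : ι → F', (∀ i, b i ∈ P) → (∑ i, b i * x i) * (x j)⁻¹ ∈
          Subring.closure ((P : Set F') ∪ {t | ∃ i ∈ s, t = x i * (x j)⁻¹}) := by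
        intro b hb
        rw [Finset.sum_mul]
        refine Subring.sum_mem _ fun i _ => ?_
        rw [mul_assoc]
        exact Subring.mul_mem _ (Subring.subset_closure (Or.inl (hb i))) (hmem i)
      rintro t (ht | ⟨b, hb, rfl⟩)
      · exact le_lo _ _ (Subring.subset_closure (Or.inl ht))
      · refine ⟨(∑ i, b i * x i) * (x j)⁻¹, hsum b hb, z * (x j)⁻¹, ?_,
          mul_ne_zero hz0 (inv_ne_zero (hne j)), ?_, ?_⟩
        · have := hsum c hc
          rwa [← hcz] at this
        · rw [mul_inv, inv_inv, mul_comm]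
          exact hmin j
        · have := hne j
          field_simp
  rw [h3] at h2
  exact h2.reg

end Pool.Agent.H413.BR
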