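import Pool.Agent.H413.BR.Defs2

/-!
# Bounded contact, BR2: the basic open sets are a basis
-/

set_option autoImplicit false
set_option linter.unusedVariables false
set_option linter.unusedSectionVars false

namespace Pool.Agent.H413.BR

open scoped Topology
open IsLocalRing Pool.Agent.TH188.QS Pool.Agent.TH188.ARC Pool.Agent.W418.LU2
  Pool.Agent.H918R2.Quad

section top

variable {O F : Type} [CommRing O] [Field F] [Algebra O F]

theorem br2_gn_mul {M : Submodule O F} {W : ZR O F} {k l : ℕ} {f h : F} (hf : Gn W.1 (M ^ k) f)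
    (hh : Gn W.1 (M ^ l) h) : Gn W.1 (M ^ (k + l)) (f * h) := by
  refine ⟨?_, mul_ne_zero hf.2.1 hh.2.1, ?_⟩
  · rw [pow_add]
    exact Submodule.mul_mem_mul hf.1 hh.1
  · intro m hm
    rw [pow_add] at hm
    refine Submodule.mul_induction_on hm ?_ ?_
    · intro a ha b hb
      rw [← div_mul_div_comm]
      exact W.1.mul_mem _ _ (hf.2.2 a ha) (hh.2.2 b hb)
    · intro a b ha hb
      rw [add_div]
      exact W.1.add_mem _ _ ha hb

theorem br2_gn_left {M : Submodule O F} {W : ZR O F} {k l : ℕ} {f h : F} (hf : f ∈ M ^ k)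
    (hh : h ∈ M ^ l) (hW : Gn W.1 (M ^ (k + l)) (f * h)) : Gn W.1 (M ^ k) f := by
  have hf0 : f ≠ 0 := left_ne_zero_of_mul hW.2.1
  have hh0 : h ≠ 0 := right_ne_zero_of_mul hW.2.1
  refine ⟨hf, hf0, fun m hm => ?_⟩
  have h1 : m * h / (f * h) ∈ W.1 := by
    apply hW.2.2
    rw [pow_add]
    exact Submodule.mul_mem_mul hm hh
  rwa [mul_div_mul_right _ _ hh0] at h1

theorem br2_gn_right {M : Submodule O F} {W : ZR O F} {k l : ℕ} {f h : F} (hf : f ∈ M ^ k)
    (hh : h ∈ M ^ l) (hW : Gn W.1 (M ^ (k + l)) (f * h)) : Gn W.1 (M ^ l) h := by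
  rw [add_comm k l, mul_comm f h] at hW
  exact br2_gn_left hh hf hW

theorem exists_bas {M : Submodule O F} {U : Set (ZR O F)} (hU : IsOpen[topM M] U) {W : ZR O F}
    (hW : W ∈ U) : ∃ k f, f ∈ M ^ k ∧ W ∈ bas M k f ∧ bas M k f ⊆ U := by
  have hU' : TopologicalSpace.GenerateOpen {U | ∃ k f, U = bas M k f} U := hU
  clear hU
  induction hU' with
  | basic s hs =>
    obtain ⟨k, f, rfl⟩ := hs
    exact ⟨k, f, hW.1, hW, subset_rfl⟩
  | univ =>
    refine ⟨0, 1, ?_, ⟨?_, one_ne_zero, ?_⟩, Set.subset_univ _⟩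
    · rw [pow_zero]
      exact Submodule.one_le.1 le_rfl
    · rw [pow_zero]
      exact Submodule.one_le.1 le_rfl
    · intro m hm
      rw [pow_zero, Submodule.mem_one] at hm
      obtain ⟨o, rfl⟩ := hm
      rw [div_one]
      exact W.2 o
  | inter s t _ _ ihs iht =>
    obtain ⟨k, f, hf, hWf, hfs⟩ := ihs hW.1
    obtain ⟨l, h, hh, hWh, hht⟩ := iht hW.2
    refine ⟨k + l, f * h, ?_, br2_gn_mul hWf hWh, fun W' hW' => ⟨?_, ?_⟩⟩
    · rw [pow_add]
      exact Submodule.mul_mem_mul hf hh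
    · exact hfs (br2_gn_left hf hh hW')
    · exact hht (br2_gn_right hf hh hW')
  | sUnion S _ ih =>
    obtain ⟨s, hs, hWs⟩ := hW
    obtain ⟨k, f, hf, hWf, hfs⟩ := ih s hs hWs
    exact ⟨k, f, hf, hWf, hfs.trans (Set.subset_sUnion_of_mem hs)⟩

end top

end Pool.Agent.H413.BR
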