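import Pool.Agent.H413.BR.Defs2

/-!
# BR20 (helper101): the values of the ambient local ring of the blowing up
-/

set_option autoImplicit false
set_option linter.unusedVariables false
set_option linter.unusedSectionVars false

namespace Pool.Agent.H413.BR

open IsLocalRing Pool.Agent.TH188.QS Pool.Agent.TH188.ARC Pool.Agent.W418.LU2
  Pool.Agent.H918R2.Quad

section lev

variable {S K : Type} [CommRing S] [IsDomain S] [Field K] {φ : S →+* K}

theorem BR20_bl {V η : ValuationSubring K} {Q : Subring K} (hQV : Q ≤ V.toSubring)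
    {e : K} (he : MinP V η Q e) :
    bl V η Q = lo V.toSubring (Subring.closure ((Q : Set K) ∪
      {t | ∃ y ∈ Q, η.valuation y < 1 ∧ t = y * e⁻¹})) := by
  have hCV : Subring.closure ((Q : Set K) ∪
      {t | ∃ y ∈ Q, η.valuation y < 1 ∧ t = y * e⁻¹}) ≤ V.toSubring := by
    rw [Subring.closure_le]
    rintro t (ht | ⟨y, hy, hyη, rfl⟩)
    · exact hQV ht
    · have h := he.min y hy hyη
      rw [div_eq_mul_inv] at h
      exact h
  apply le_antisymm
  · unfold bl
    refine lo_le_lo hCV ?_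
    rw [Subring.closure_le]
    rintro t (ht | ⟨y, hy, e', hyη, he', rfl⟩)
    · exact le_lo _ _ (Subring.subset_closure (Or.inl ht))
    · refine ⟨y * e⁻¹, Subring.subset_closure (Or.inr ⟨y, hy, hyη, rfl⟩), e' * e⁻¹,
        Subring.subset_closure (Or.inr ⟨e', he'.mem, he'.lt, rfl⟩),
        mul_ne_zero he'.ne (inv_ne_zero he.ne), ?_, ?_⟩
      · have h := he'.min e he.mem he.lt
        rw [div_eq_mul_inv] at h
        have h2 : (e' * e⁻¹)⁻¹ = e * e'⁻¹ := by
          rw [mul_inv, inv_inv, mul_comm]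
        rw [h2]
        exact h
      · have h1 := he.ne
        have h2 := he'.ne
        field_simp
  · unfold bl
    refine lo_mono ?_
    rw [Subring.closure_le]
    rintro t (ht | ⟨y, hy, hyη, rfl⟩)
    · exact Subring.subset_closure (Or.inl ht)
    · exact Subring.subset_closure (Or.inr ⟨y, hy, e, hyη, he, (div_eq_mul_inv y e).symm⟩)

theorem im_blP {V η : ValuationSubring K} {P : Subring (FractionRing S)}
    (hP : P ≤ AA (FractionRing S) φ V) {Q : Subring K} (hQ : im φ P = Q) (hQV : Q ≤ V.toSubring)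
    (hQη : Q ≤ η.toSubring) {e : K} {z : FractionRing S} (he : MinP V η Q e) (hz : z ∈ P)
    (hze : Pr φ z e) : im φ (blP φ V η P z) = bl V η Q ∧ blP φ V η P z ≤ AA (FractionRing S) φ V := by
  have hle : Subring.closure ((P : Set (FractionRing S)) ∪
      {t | ∃ y ∈ P, ∃ w : K, Pr φ y w ∧ η.valuation w < 1 ∧ t = y * z⁻¹}) ≤
      AA (FractionRing S) φ V := by
    rw [Subring.closure_le]
    rintro t (ht | ⟨y, hy, w, hyw, hwη, rfl⟩)
    · exact hP ht
    · have hwQ : w ∈ Q := by
        rw [← hQ]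
        exact ⟨y, hy, hyw⟩
      have h := he.min w hwQ hwη
      rw [div_eq_mul_inv] at h
      exact ⟨w * e⁻¹, h, hyw.mul (hze.inv he.ne)⟩
  refine ⟨?_, lo_le hle⟩
  rw [BR20_bl hQV he]
  unfold blP
  rw [im_lo hle]
  have him : im φ (Subring.closure ((P : Set (FractionRing S)) ∪
      {t | ∃ y ∈ P, ∃ w : K, Pr φ y w ∧ η.valuation w < 1 ∧ t = y * z⁻¹})) =
      Subring.closure ((Q : Set K) ∪ {t | ∃ y ∈ Q, η.valuation y < 1 ∧ t = y * e⁻¹}) := by
    apply le_antisymm
    · let R : Subring (FractionRing S) :=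
        { carrier := {y | ∃ w ∈ Subring.closure ((Q : Set K) ∪
            {t | ∃ y ∈ Q, η.valuation y < 1 ∧ t = y * e⁻¹}), Pr φ y w}
          mul_mem' := by
            rintro z z' ⟨w, hw, h⟩ ⟨w', hw', h'⟩
            exact ⟨_, Subring.mul_mem _ hw hw', h.mul h'⟩
          one_mem' := ⟨1, Subring.one_mem _, Pr.one⟩
          add_mem' := by
            rintro z z' ⟨w, hw, h⟩ ⟨w', hw', h'⟩
            exact ⟨_, Subring.add_mem _ hw hw', h.add h'⟩
          zero_mem' := ⟨0, Subring.zero_mem _, Pr.zero⟩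
          neg_mem' := by
            rintro z ⟨w, hw, h⟩
            exact ⟨_, Subring.neg_mem _ hw, h.neg⟩ }
      have hR : Subring.closure ((P : Set (FractionRing S)) ∪
          {t | ∃ y ∈ P, ∃ w : K, Pr φ y w ∧ η.valuation w < 1 ∧ t = y * z⁻¹}) ≤ R := by
        rw [Subring.closure_le]
        rintro t (ht | ⟨y, hy, w, hyw, hwη, rfl⟩)
        · obtain ⟨w, hw, h1⟩ := hP ht
          refine ⟨w, Subring.subset_closure (Or.inl ?_), h1⟩
          rw [← hQ]
          exact ⟨t, ht, h1⟩
        · have hwQ : w ∈ Q := by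
            rw [← hQ]
            exact ⟨y, hy, hyw⟩
          exact ⟨w * e⁻¹, Subring.subset_closure (Or.inr ⟨w, hwQ, hwη, rfl⟩),
            hyw.mul (hze.inv he.ne)⟩
      rintro w ⟨y, hy, hyw⟩
      obtain ⟨w', hw', h1⟩ := hR hy
      rwa [hyw.unique h1]
    · rw [Subring.closure_le]
      rintro t (ht | ⟨w, hw, hwη, rfl⟩)
      · rw [← hQ] at ht
        obtain ⟨y, hy, hyt⟩ := ht
        exact ⟨y, Subring.subset_closure (Or.inl hy), hyt⟩
      · rw [← hQ] at hw
        obtain ⟨y, hy, hyw⟩ := hw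
        exact ⟨y * z⁻¹, Subring.subset_closure (Or.inr ⟨y, hy, w, hyw, hwη, rfl⟩),
          hyw.mul (hze.inv he.ne)⟩
  rw [him]

end lev

end Pool.Agent.H413.BR
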