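import Pool.Agent.H413.BR.Defs2

/-!
# BR21
-/

set_option autoImplicit false
set_option linter.unusedVariables false
set_option linter.unusedSectionVars false

namespace Pool.Agent.H413.BR

open IsLocalRing Pool.Agent.TH188.QS Pool.Agent.TH188.ARC Pool.Agent.W418.LU2
  Pool.Agent.H918R2.Quad

section lev

variable {S K : Type} [CommRing S] [IsDomain S] [Field K] {φ : S →+* K}

theorem blP_le_BB {V η : ValuationSubring K} {P : Subring (FractionRing S)}
    (hP : P ≤ AA (FractionRing S) φ V) {Q : Subring K} (hQ : im φ P = Q)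
    {e : K} {z : FractionRing S} (he : MinP V η Q e) (heV : e ∈ V) (hz : z ∈ P)
    (hze : Pr φ z e) {D : S → K} (hD : Der φ D) {ω : K}
    (hbd : P ≤ BB (FractionRing S) V hD ω) :
    blP φ V η P z ≤ BB (FractionRing S) V hD (ω * e) := by
  have he0 : e ≠ 0 := he.ne
  have hzi : Pr φ z⁻¹ e⁻¹ := hze.inv he0
  unfold blP
  refine lo_le_BB hD ?_
  rw [Subring.closure_le]
  rintro t (ht | ⟨y, hy, w, hyw, hw1, rfl⟩)
  · obtain ⟨w, hw, h1, h2⟩ := hbd ht
    refine ⟨w, hw, h1, ?_⟩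
    have h3 : ω * e * dd φ D t = e * (ω * dd φ D t) := by ring
    rw [h3]
    exact V.mul_mem _ _ heV h2
  · obtain ⟨w₁, hw, h1, h2⟩ := hbd hy
    obtain ⟨w', hw', h1', h2'⟩ := hbd hz
    have hwQ : w ∈ Q := by
      rw [← hQ]
      exact ⟨y, hy, hyw⟩
    have h4 : w * e⁻¹ ∈ V := by
      rw [← div_eq_mul_inv]
      exact he.min w hwQ hw1
    refine ⟨w * e⁻¹, h4, hyw.mul hzi, ?_⟩
    rw [dd_mul hD hyw hzi, dd_inv hD hze he0]
    have h3 : ω * e * (w * -(e⁻¹ * e⁻¹ * dd φ D z) + e⁻¹ * dd φ D y) =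
        ω * dd φ D y - w * e⁻¹ * (ω * dd φ D z) := by
      field_simp
      ring
    rw [h3]
    exact V.sub_mem h2 (V.mul_mem _ _ h4 h2')

end lev

end Pool.Agent.H413.BR
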