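import Pool.Agent.H413.BR.Defs2
import Pool.Agent.H413.BR.B15
import Pool.Agent.H413.BR.B16
import Pool.Agent.H413.BR.B17
import Pool.Agent.H413.BR.B18
import Pool.Agent.H413.BR.B19
import Pool.Agent.H413.BR.B20
import Pool.Agent.H413.BR.B21

/-!
# BR22: the local step, the order of the Jacobian minor drops
-/

set_option autoImplicit false
set_option linter.unusedVariables false
set_option linter.unusedSectionVars false

namespace Pool.Agent.H413.BR

open scoped Topology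
open IsLocalRing Pool.Agent.TH188.QS Pool.Agent.TH188.ARC Pool.Agent.W418.LU2
  Pool.Agent.H918R2.Quad

namespace LevAux

section sq

variable {F : Type} [Field F] {η : ValuationSubring F} {R : Subring F}

theorem sq_add {x y : F} (hx : Sq η R x) (hy : Sq η R y) : Sq η R (x + y) := by
  obtain ⟨n1, u1, v1, hu1, hv1, rfl⟩ := hx
  obtain ⟨n2, u2, v2, hu2, hv2, rfl⟩ := hy
  refine ⟨n1 + n2, Fin.append u1 u2, Fin.append v1 v2, ?_, ?_, ?_⟩
  · intro i
    refine Fin.addCases (fun i => ?_) (fun i => ?_) i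
    · rw [Fin.append_left]
      exact hu1 i
    · rw [Fin.append_right]
      exact hu2 i
  · intro i
    refine Fin.addCases (fun i => ?_) (fun i => ?_) i
    · rw [Fin.append_left]
      exact hv1 i
    · rw [Fin.append_right]
      exact hv2 i
  · rw [Fin.sum_univ_add]
    simp only [Fin.append_left, Fin.append_right]

theorem sq_mul {x y : F} (hx : x ∈ R) (hx1 : η.valuation x < 1) (hy : y ∈ R)
    (hy1 : η.valuation y < 1) : Sq η R (x * y) :=
  ⟨1, fun _ => x, fun _ => y, fun _ => ⟨hx, hx1⟩, fun _ => ⟨hy, hy1⟩, by simp⟩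

end sq

section theta

variable {P K : Type} [CommRing P] [Field K] {η : ValuationSubring K} {Q : Subring K}

/-- the map to `η` -/
noncomputable def toEta (θ : P →+* K) (h : ∀ y, θ y ∈ η) : P →+* η where
  toFun y := ⟨θ y, h y⟩
  map_one' := Subtype.ext (map_one θ)
  map_mul' a b := Subtype.ext (map_mul θ a b)
  map_zero' := Subtype.ext (map_zero θ)
  map_add' a b := Subtype.ext (map_add θ a b)

theorem exists_q (θ : P →+* K) (hQ : ∀ w, w ∈ Q ↔ ∃ y, θ y = w) (hQη : Q ≤ η.toSubring)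
    (h : IsRegularLocalRing (im (residue η) Q)) : ∃ 𝔮 : Ideal P, 𝔮.IsPrime ∧
      (∀ y, y ∈ 𝔮 ↔ η.valuation (θ y) < 1) ∧ IsRegularLocalRing (P ⧸ 𝔮) := by
  have hθη : ∀ y, θ y ∈ η := fun y => hQη ((hQ _).2 ⟨y, rfl⟩)
  have hpr : ∀ y : P, Pr (residue η) (θ y) (residue η (toEta θ hθη y)) := fun y =>
    Pr.alg (φ := residue η) (F := K) (toEta θ hθη y)
  let ρ : P →+* im (residue η) Q := ((residue η).comp (toEta θ hθη)).codRestrict
    (im (residue η) Q) (by
      intro y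
      exact ⟨θ y, (hQ _).2 ⟨y, rfl⟩, hpr y⟩)
  have hρ : ∀ y, (ρ y : ResidueField η) = residue η (toEta θ hθη y) := fun y => rfl
  have hρs : Function.Surjective ρ := by
    rintro ⟨w, hw⟩
    obtain ⟨z, hz, hzw⟩ := hw
    obtain ⟨y, rfl⟩ := (hQ z).1 hz
    exact ⟨y, Subtype.ext ((hpr y).unique hzw)⟩
  have hmem : ∀ y, y ∈ RingHom.ker ρ ↔ η.valuation (θ y) < 1 := by
    intro y
    rw [RingHom.mem_ker]
    have h1 : ρ y = 0 ↔ residue η (toEta θ hθη y) = 0 := by
      rw [← hρ]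
      exact Subtype.ext_iff
    rw [h1, IsLocalRing.residue_eq_zero_iff, ValuationSubring.valuation_lt_one_iff]
    exact Iff.rfl
  refine ⟨RingHom.ker ρ, ?_, hmem, ?_⟩
  · have h1 : RingHom.ker ρ = (maximalIdeal η).comap (toEta θ hθη) := by
      ext y
      rw [hmem, Ideal.mem_comap, ValuationSubring.valuation_lt_one_iff]
      exact Iff.rfl
    rw [h1]
    exact Ideal.comap_isPrime _ _
  · exact IsRegularLocalRing.of_ringEquiv (RingHom.quotientKerEquivOfSurjective hρs).symm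

theorem locq (θ : P →+* K) (hQ : ∀ w, w ∈ Q ↔ ∃ y, θ y = w) (hQη : Q ≤ η.toSubring)
    {𝔮 : Ideal P} (h𝔮 : ∀ y, y ∈ 𝔮 ↔ η.valuation (θ y) < 1) :
    ∃ θT : P →+* lo η.toSubring Q, (∀ y, (θT y : K) = θ y) ∧ LocQ θT 𝔮 := by
  have hlo : lo η.toSubring Q ≤ η.toSubring := lo_le hQη
  let θT : P →+* lo η.toSubring Q := θ.codRestrict (lo η.toSubring Q)
    (fun y => le_lo _ _ ((hQ _).2 ⟨y, rfl⟩))
  have hθT : ∀ y, (θT y : K) = θ y := fun y => rfl
  have hu : ∀ y, y ∉ 𝔮 → θ y ≠ 0 ∧ (θ y)⁻¹ ∈ η := by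
    intro y hy
    rw [h𝔮, not_lt] at hy
    have h0 : θ y ≠ 0 := by
      intro h0
      rw [h0, map_zero] at hy
      exact absurd hy (not_le.2 zero_lt_one)
    refine ⟨h0, ?_⟩
    rw [← ValuationSubring.valuation_le_one_iff, map_inv₀]
    exact inv_le_one_of_one_le₀ hy
  refine ⟨θT, hθT, ⟨fun y hy => ?_, fun y hy hyu => ?_, fun z => ?_⟩⟩
  · obtain ⟨h0, h1⟩ := hu y hy
    have h2 : (θ y)⁻¹ ∈ lo η.toSubring Q :=
      inv_mem_lo hQη (θT y).2 h0 h1
    exact IsUnit.of_mul_eq_one ⟨(θ y)⁻¹, h2⟩ (Subtype.ext (mul_inv_cancel₀ h0))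
  · obtain ⟨z, hz⟩ := hyu.exists_right_inv
    have h1 : θ y * (z : K) = 1 := by
      have h2 := congrArg (Subtype.val) hz
      exact h2
    have h2 : η.valuation (z : K) ≤ 1 := (ValuationSubring.valuation_le_one_iff _ _).2 (hlo z.2)
    have h3 : η.valuation (θ y * (z : K)) < 1 := by
      rw [map_mul]
      exact mul_lt_one_of_lt_of_le ((h𝔮 y).1 hy) h2
    rw [h1, map_one] at h3
    exact lt_irrefl _ h3
  · obtain ⟨a, ha, b, hb, hb0, hbη, hz⟩ := z.2
    obtain ⟨a', rfl⟩ := (hQ a).1 ha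
    obtain ⟨b', rfl⟩ := (hQ b).1 hb
    refine ⟨a', b', ?_, ?_⟩
    · rw [h𝔮, not_lt]
      have h1 : η.valuation (θ b')⁻¹ ≤ 1 := (ValuationSubring.valuation_le_one_iff _ _).2 hbη
      rw [map_inv₀] at h1
      have h2 : η.valuation (θ b') ≠ 0 := (Valuation.ne_zero_iff _).2 hb0
      by_contra h3
      rw [not_le] at h3
      have h4 : (1 : η.ValueGroup) < (η.valuation (θ b'))⁻¹ := (one_lt_inv₀ (zero_lt_iff.2 h2)).2 h3
      exact absurd h1 (not_le.2 h4)
    · apply Subtype.ext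
      change (z : K) * θ b' = θ a'
      rw [hz, mul_assoc, inv_mul_cancel₀ hb0, mul_one]

/-- the square of the ideal -/
theorem sq_of_mem (θ : P →+* K) (hQ : ∀ w, w ∈ Q ↔ ∃ y, θ y = w) (hQη : Q ≤ η.toSubring)
    {𝔮 : Ideal P} (h𝔮 : ∀ y, y ∈ 𝔮 ↔ η.valuation (θ y) < 1) {w : K}
    (hw : w ∈ lo η.toSubring Q) {x : P} (hx : x ∈ 𝔮 ^ 2) :
    Sq η (lo η.toSubring Q) (w * θ x) := by
  rw [pow_two] at hx
  have hw1 : η.valuation w ≤ 1 := (ValuationSubring.valuation_le_one_iff _ _).2 (lo_le hQη hw)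
  refine Submodule.mul_induction_on hx ?_ ?_
  · intro b hb c hc
    have h1 : w * θ (b * c) = (w * θ b) * θ c := by
      rw [map_mul]
      ring
    rw [h1]
    refine sq_mul ?_ ?_ ?_ ((h𝔮 c).1 hc)
    · exact (lo η.toSubring Q).mul_mem hw (le_lo _ _ ((hQ _).2 ⟨b, rfl⟩))
    · rw [map_mul]
      exact lt_of_le_of_lt (mul_le_of_le_one_left' hw1) ((h𝔮 b).1 hb)
    · exact le_lo _ _ ((hQ _).2 ⟨c, rfl⟩)
  · intro b c hb hc
    rw [map_add, mul_add]
    exact sq_add hb hc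

end theta

section amb

variable {S K : Type} [CommRing S] [IsDomain S] [Field K] {φ : S →+* K} {V η : ValuationSubring K}
  {P : Subring (FractionRing S)} {Q : Subring K}

theorem exists_theta (hP : P ≤ AA (FractionRing S) φ V) :
    ∃ θ : P →+* K, ∀ y : P, Pr φ (y : FractionRing S) (θ y) :=
  ⟨prA.comp (Subring.inclusion hP), fun y => prA_spec (Subring.inclusion hP y)⟩

/-- the height of the kernel -/
theorem height_ker {r : ℕ} {f₀ : Fin r → S} (hf₀ : ∀ i, φ (f₀ i) = 0)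
    (hgen : ∀ s, φ s = 0 → ∃ t, φ t ≠ 0 ∧ t * s ∈ Ideal.span (Set.range f₀))
    (hSP : ∀ s, algebraMap S (FractionRing S) s ∈ P) [IsNoetherianRing P] {θ : P →+* K}
    (hθ : ∀ y : P, Pr φ (y : FractionRing S) (θ y)) [(RingHom.ker θ).IsPrime] :
    (RingHom.ker θ).height ≤ (r : ℕ∞) := by
  let ι : S →+* P := (algebraMap S (FractionRing S)).codRestrict P hSP
  have hι : ∀ s, ((ι s : P) : FractionRing S) = algebraMap S (FractionRing S) s := fun s => rfl
  have hθι : ∀ s, θ (ι s) = φ s := fun s => (hθ (ι s)).unique (Pr.alg s)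
  refine height_le_of_gen (fun i => ι (f₀ i)) ?_ ?_
  · intro i
    rw [RingHom.mem_ker, hθι, hf₀]
  · intro y hy
    have hy0 : Pr φ (y : FractionRing S) 0 := by
      have h1 := hθ y
      rw [RingHom.mem_ker.1 hy] at h1
      exact h1
    obtain ⟨a, b, hb, hab, h0⟩ := hy0
    rw [zero_mul] at h0
    obtain ⟨t, ht, hta⟩ := hgen a h0.symm
    refine ⟨ι (t * b), ?_, ?_⟩
    · rw [RingHom.mem_ker, hθι, map_mul]
      exact mul_ne_zero ht hb
    · have h1 : ι (t * b) * y = ι (t * a) := by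
        apply Subtype.ext
        change ((ι (t * b) : P) : FractionRing S) * (y : FractionRing S) =
          ((ι (t * a) : P) : FractionRing S)
        rw [hι, hι, map_mul, map_mul, ← hab]
        ring
      rw [h1]
      have h2 := Ideal.mem_map_of_mem ι hta
      rw [Ideal.map_span, ← Set.range_comp] at h2
      exact h2

/-- elements of the blowing up -/
theorem mul_inv_mem_blP {z y : FractionRing S} (hy : y ∈ P) {w : K} (hw : Pr φ y w)
    (hw1 : η.valuation w < 1) : y * z⁻¹ ∈ blP φ V η P z :=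
  le_lo _ _ (Subring.subset_closure (Or.inr ⟨y, hy, w, hw, hw1, rfl⟩))

theorem le_blP {z : FractionRing S} : P ≤ blP φ V η P z := fun y hy =>
  le_lo _ _ (Subring.subset_closure (Or.inl hy))

theorem ic_blP {z : FractionRing S} (h : blP φ V η P z ≤ AA (FractionRing S) φ V) :
    IC (AA (FractionRing S) φ V) (blP φ V η P z) :=
  ic_lo ((le_lo _ _).trans h)

theorem sq_mem_blP {z : FractionRing S} {θ : P →+* K}
    (hθ : ∀ y : P, Pr φ (y : FractionRing S) (θ y)) {𝔮 : Ideal P}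
    (h𝔮 : ∀ y, y ∈ 𝔮 ↔ η.valuation (θ y) < 1) {x : P} (hx : x ∈ 𝔮 ^ 2) :
    (x : FractionRing S) * (z⁻¹ * z⁻¹) ∈ blP φ V η P z := by
  rw [pow_two] at hx
  refine Submodule.mul_induction_on hx ?_ ?_
  · intro b hb c hc
    have h2 : ((b * c : P) : FractionRing S) * (z⁻¹ * z⁻¹) =
        ((b : FractionRing S) * z⁻¹) * ((c : FractionRing S) * z⁻¹) := by
      change (b : FractionRing S) * (c : FractionRing S) * (z⁻¹ * z⁻¹) = _
      ring
    rw [h2]
    exact (blP φ V η P z).mul_mem (mul_inv_mem_blP b.2 (hθ b) ((h𝔮 b).1 hb))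
      (mul_inv_mem_blP c.2 (hθ c) ((h𝔮 c).1 hc))
  · intro b c hb hc
    have h2 : ((b + c : P) : FractionRing S) * (z⁻¹ * z⁻¹) =
        (b : FractionRing S) * (z⁻¹ * z⁻¹) + (c : FractionRing S) * (z⁻¹ * z⁻¹) := by
      change ((b : FractionRing S) + (c : FractionRing S)) * (z⁻¹ * z⁻¹) = _
      ring
    rw [h2]
    exact (blP φ V η P z).add_mem hb hc

/-- the blowing up is regular -/
theorem reg_blP (hPA : P ≤ AA (FractionRing S) φ V) (hic : IC (AA (FractionRing S) φ V) P)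
    (hreg : IsRegularLocalRing P) (hQ : im φ P = Q) {θ : P →+* K}
    (hθ : ∀ y : P, Pr φ (y : FractionRing S) (θ y)) {𝔮 : Ideal P}
    (h𝔮 : ∀ y, y ∈ 𝔮 ↔ η.valuation (θ y) < 1) {s ρ : ℕ} (E : Fin s → P) (B : Fin ρ → P)
    (hE : 𝔮 = Ideal.span (Set.range E) ⊔ Ideal.span (Set.range B))
    (hi : Ind (Sum.elim E B)) {e : K} {z : FractionRing S} (he : MinP V η Q e)
    (heV : V.valuation e < 1) (hz : z ∈ P) (hze : Pr φ z e) :
    IsRegularLocalRing (blP φ V η P z) := by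
  have hx : ∀ y : P, y ∈ 𝔮 ↔ ∃ c : Fin s ⊕ Fin ρ → P, y = ∑ i, c i * (Sum.elim E B) i := by
    intro y
    rw [hE, ← Ideal.span_union, ← Set.Sum.elim_range, Ideal.mem_span_range_iff_exists_fun]
    constructor
    · rintro ⟨c, hc⟩
      exact ⟨c, hc.symm⟩
    · rintro ⟨c, hc⟩
      exact ⟨c, hc.symm⟩
  have hco : ∀ c : Fin s ⊕ Fin ρ → P, ((∑ i, c i * (Sum.elim E B) i : P) : FractionRing S) =
      ∑ i, (c i : FractionRing S) * ((Sum.elim E B i : P) : FractionRing S) := fun c =>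
    map_sum P.subtype (fun i => c i * (Sum.elim E B) i) Finset.univ
  have hmem : ∀ i, Sum.elim E B i ∈ 𝔮 := by
    intro i
    rw [hE]
    rcases i with i | i
    · exact Ideal.mem_sup_left (Ideal.subset_span ⟨i, rfl⟩)
    · exact Ideal.mem_sup_right (Ideal.subset_span ⟨i, rfl⟩)
  have hθQ : ∀ y : P, θ y ∈ Q := by
    intro y
    rw [← hQ]
    exact ⟨y, y.2, hθ y⟩
  have h1 := blow_reg (A := AA (FractionRing S) φ V) (P := P) loc_AA hPA hic hreg
    (fun i : Fin s ⊕ Fin ρ => ((Sum.elim E B i : P) : FractionRing S)) (fun i => (Sum.elim E B i).2)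
    hi (z := z) (by
      have h2 : (⟨z, hz⟩ : P) ∈ 𝔮 := by
        rw [h𝔮, (hθ ⟨z, hz⟩).unique hze]
        exact he.lt
      obtain ⟨c, hc⟩ := (hx _).1 h2
      refine ⟨fun i => c i, fun i => (c i).2, ?_⟩
      rw [← hco, ← hc]) (hze.ne_zero he.ne) (by
      intro h2
      have h3 := ((Pr.inv_AA hze).1 ⟨hze.ne_zero he.ne, h2⟩).2
      rw [← V.valuation_le_one_iff, map_inv₀] at h3
      have h4 : V.valuation e ≠ 0 := (Valuation.ne_zero_iff _).2 he.ne
      exact absurd h3 (not_le.2 ((one_lt_inv₀ (zero_lt_iff.2 h4)).2 heV))) (by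
      intro i
      have h2 := he.min (θ (Sum.elim E B i)) (hθQ _) ((h𝔮 _).1 (hmem i))
      exact ⟨_, h2, by
        rw [div_eq_mul_inv]
        exact (hθ _).mul (hze.inv he.ne)⟩)
  have h2 : {t : FractionRing S | ∃ y ∈ P, ∃ w : K, Pr φ y w ∧ η.valuation w < 1 ∧ t = y * z⁻¹} =
      {t | ∃ c : Fin s ⊕ Fin ρ → FractionRing S, (∀ i, c i ∈ P) ∧
        t = (∑ i, c i * ((Sum.elim E B i : P) : FractionRing S)) * z⁻¹} := by
    ext t
    constructor
    · rintro ⟨y, hy, w, hw, hw1, rfl⟩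
      have h3 : (⟨y, hy⟩ : P) ∈ 𝔮 := by
        rw [h𝔮, (hθ ⟨y, hy⟩).unique hw]
        exact hw1
      obtain ⟨c, hc⟩ := (hx _).1 h3
      refine ⟨fun i => c i, fun i => (c i).2, ?_⟩
      rw [← hco, ← hc]
    · rintro ⟨c, hc, rfl⟩
      have h3 : (∑ i, (⟨c i, hc i⟩ : P) * (Sum.elim E B) i : P) ∈ 𝔮 := (hx _).2 ⟨_, rfl⟩
      refine ⟨_, (∑ i, (⟨c i, hc i⟩ : P) * (Sum.elim E B) i : P).2, _, hθ _, (h𝔮 _).1 h3, ?_⟩
      rw [hco]
  unfold blP
  rw [h2]
  exact h1

end amb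

/-- the number of the equations of the second kind -/
theorem count_e {K : Type} [Field K] {V : ValuationSubring K} {e : K} (he0 : e ≠ 0) (heV : e ∈ V)
    {r s : ℕ} (c : Fin r → Option (Fin s)) (hc : ∃ i, c i = none) :
    ∃ R ∈ V, R ≠ 0 ∧ e ^ r * ∏ i, (c i).elim (e⁻¹ * e⁻¹) (fun _ => e⁻¹) = e⁻¹ * R⁻¹ := by
  classical
  obtain ⟨i₀, hi₀⟩ := hc
  refine ⟨∏ i ∈ Finset.univ.erase i₀, (c i).elim e (fun _ => 1), ?_, ?_, ?_⟩
  · refine prod_mem fun i _ => ?_
    rcases c i with _ | k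
    · exact heV
    · exact V.one_mem
  · refine Finset.prod_ne_zero_iff.2 fun i _ => ?_
    rcases c i with _ | k
    · exact he0
    · exact one_ne_zero
  · have h1 : ∀ i, (c i).elim (e⁻¹ * e⁻¹) (fun _ => e⁻¹) = e⁻¹ * (c i).elim e⁻¹ (fun _ => 1) := by
      intro i
      rcases c i with _ | k
      · rfl
      · exact (mul_one _).symm
    rw [Finset.prod_congr rfl fun i _ => h1 i, Finset.prod_mul_distrib, Finset.prod_const,
      Finset.card_univ, Fintype.card_fin, ← mul_assoc, ← mul_pow, mul_inv_cancel₀ he0, one_pow,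
      one_mul, ← Finset.mul_prod_erase _ _ (Finset.mem_univ i₀), hi₀, ← Finset.prod_inv_distrib]
    change e⁻¹ * _ = _
    congr 1
    refine Finset.prod_congr rfl fun i _ => ?_
    rcases c i with _ | k
    · rfl
    · exact inv_one.symm

end LevAux

theorem lev_step {K : Type} [Field K] {V η : ValuationSubring K} {ϖ : K} (hϖ : ϖ ≠ 0) {m : ℕ}
    {Q : Subring K}
    (hQη : Q ≤ η.toSubring) (hnice : Nice η Q) (hnr : ¬ IsRegularLocalRing (lo η.toSubring Q))
    {e : K} (he : MinP V η Q e) (heϖ : e * ϖ⁻¹ ∈ V) (heV : V.valuation e < 1)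
    (hL : Lev V ϖ m Q) : ∃ m', m' < m ∧ Lev V ϖ m' (bl V η Q) := by
  classical
  obtain ⟨S, _, _, φ, r, D, hD, f₀, P, g, ω, hf₀, hgen, hLS, hm⟩ := hL
  have hreg := hLS.reg
  obtain ⟨θ, hθ⟩ := LevAux.exists_theta hLS.PW
  have hθ0 : ∀ (y : P) {w : K}, Pr φ (y : FractionRing S) w → θ y = w := fun y w h =>
    (hθ y).unique h
  have hQ : ∀ w, w ∈ Q ↔ ∃ y, θ y = w := by
    intro w
    rw [← hLS.imQ]
    constructor
    · rintro ⟨z, hz, hzw⟩
      exact ⟨⟨z, hz⟩, hθ0 ⟨z, hz⟩ hzw⟩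
    · rintro ⟨y, rfl⟩
      exact ⟨y, y.2, hθ y⟩
  have hQV : Q ≤ V.toSubring := by
    intro w hw
    obtain ⟨y, rfl⟩ := (hQ w).1 hw
    exact ((hθ y).mem_AA).1 (hLS.PW y.2)
  obtain ⟨𝔮, h𝔮p, h𝔮, hq⟩ := LevAux.exists_q θ hQ hQη hnice.1
  have hKp : (RingHom.ker θ).IsPrime := RingHom.ker_isPrime θ
  have hK𝔮 : RingHom.ker θ ≤ 𝔮 := by
    intro y hy
    rw [h𝔮, RingHom.mem_ker.1 hy, map_zero]
    exact zero_lt_one
  have he0 : e ≠ 0 := he.ne
  have heV' : e ∈ V := (V.valuation_le_one_iff _).1 heV.le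
  have hηu : ∀ t, t ∉ 𝔮 → θ t ≠ 0 ∧ (θ t)⁻¹ ∈ η := by
    intro y hy
    rw [h𝔮, not_lt] at hy
    have h0 : θ y ≠ 0 := by
      intro h0
      rw [h0, map_zero] at hy
      exact absurd hy (not_le.2 zero_lt_one)
    refine ⟨h0, ?_⟩
    rw [← ValuationSubring.valuation_le_one_iff, map_inv₀]
    exact inv_le_one_of_one_le₀ hy
  obtain ⟨ρ, b, hb, hbg, hbi⟩ := hnice.2
  choose B hB using fun i => (hQ (b i)).1 (hb i).1
  obtain ⟨s, E, hE1, hE2, hE3, hE4⟩ := exch hq hK𝔮 B (fun i => by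
    rw [h𝔮, hB]
    exact (hb i).2) (by
    intro y hy
    obtain ⟨c, hc, hyc⟩ := hbg (θ y) ((hQ _).2 ⟨y, rfl⟩) ((h𝔮 y).1 hy)
    choose C hC using fun i => (hQ (c i)).1 (hc i)
    have h1 : y = (y - ∑ i, C i * B i) + ∑ i, C i * B i := by ring
    rw [h1]
    refine Submodule.add_mem_sup ?_ ?_
    · rw [RingHom.mem_ker, map_sub, map_sum, hyc, sub_eq_zero]
      exact Finset.sum_congr rfl fun i _ => by rw [map_mul, hC, hB]
    · exact Ideal.sum_mem _ fun i _ => Ideal.mul_mem_left _ _ (Ideal.subset_span ⟨i, rfl⟩)) (by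
    intro c t ht hx i
    obtain ⟨k, hk, x, hx2, hkx⟩ := Submodule.mem_sup.1 hx
    have h1 : θ t * ∑ i, θ (c i) * b i = θ x := by
      have h2 := congrArg θ hkx
      rw [map_add, RingHom.mem_ker.1 hk, zero_add, map_mul, map_sum] at h2
      rw [h2]
      congr 1
      exact Finset.sum_congr rfl fun i _ => by rw [map_mul, hB]
    obtain ⟨ht0, ht1⟩ := hηu t ht
    have h2 : (θ t)⁻¹ ∈ lo η.toSubring Q :=
      inv_mem_lo hQη (le_lo _ _ ((hQ _).2 ⟨t, rfl⟩)) ht0 ht1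
    have h3 : ∑ i, θ (c i) * b i = (θ t)⁻¹ * θ x := by
      rw [← h1, inv_mul_cancel_left₀ ht0]
    have h4 : Sq η (lo η.toSubring Q) (∑ i, θ (c i) * b i) := by
      rw [h3]
      exact LevAux.sq_of_mem θ hQ hQη h𝔮 h2 hx2
    rw [h𝔮]
    exact hbi (fun i => θ (c i)) (fun i => le_lo _ _ ((hQ _).2 ⟨c i, rfl⟩)) h4 i)
  -- the number of the equations
  have hs : s < r := by
    by_contra hs
    rw [not_lt] at hs
    obtain ⟨θT, hθT, hT⟩ := LevAux.locq θ hQ hQη h𝔮
    refine hnr (reg_of_ge E B hE3 hE2 hK𝔮 hE1 (LevAux.height_ker hf₀ hgen hLS.SP hθ) hs hT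
      (fun y => ?_))
    rw [RingHom.mem_ker, ← hθT]
    constructor
    · intro h
      rw [h]
      rfl
    · intro h
      exact Subtype.ext h
  -- the equations
  have hG : ∀ i, ∃ (a : Fin s → P) (h : P), h ∈ 𝔮 ^ 2 ∧
      (⟨g i, hLS.gP i⟩ : P) = ∑ k, a k * E k + h := by
    intro i
    have h1 : (⟨g i, hLS.gP i⟩ : P) ∈ RingHom.ker θ := by
      rw [RingHom.mem_ker]
      exact hθ0 _ (hLS.g0 i)
    obtain ⟨y, hy, x, hx, hyx⟩ := Submodule.mem_sup.1 (hE4 h1)
    obtain ⟨a, ha⟩ := Ideal.mem_span_range_iff_exists_fun.1 hy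
    exact ⟨a, x, hx, by rw [ha, hyx]⟩
  choose a h hh2 hgah using hG
  have hE0 : ∀ k, Pr φ (E k : FractionRing S) 0 := by
    intro k
    have h1 := hθ (E k)
    rw [RingHom.mem_ker.1 (hE1 k)] at h1
    exact h1
  have hh0 : ∀ i, Pr φ (h i : FractionRing S) 0 := by
    intro i
    have h1 := hθ (h i)
    have h2 := congrArg θ (hgah i)
    rw [hθ0 _ (hLS.g0 i), map_add, map_sum, Finset.sum_eq_zero (fun k _ => by
      rw [map_mul, RingHom.mem_ker.1 (hE1 k), mul_zero]), zero_add] at h2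
    rw [← h2] at h1
    exact h1
  have hdg : ∀ i j, dd φ (D j) (g i) = ∑ k, θ (a i k) * dd φ (D j) (E k : FractionRing S) +
      dd φ (D j) (h i : FractionRing S) := by
    intro i j
    have h1 : g i = ∑ k, (a i k : FractionRing S) * (E k : FractionRing S) +
        (h i : FractionRing S) := by
      have h2 := congrArg Subtype.val (hgah i)
      have h3 : ((∑ k, a i k * E k : P) : FractionRing S) =
          ∑ k, (a i k : FractionRing S) * (E k : FractionRing S) :=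
        map_sum P.subtype (fun k => a i k * E k) Finset.univ
      rw [← h3]
      exact h2
    have h4 : ∀ k ∈ (Finset.univ : Finset (Fin s)), Pr φ ((a i k : FractionRing S) *
        (E k : FractionRing S)) (θ (a i k) * 0) := fun k _ => (hθ (a i k)).mul (hE0 k)
    rw [h1, dd_add (hD j) (Pr.sum _ h4) (hh0 i), dd_sum (hD j) _ h4]
    congr 1
    refine Finset.sum_congr rfl fun k _ => ?_
    rw [dd_mul (hD j) (hθ (a i k)) (hE0 k), zero_mul, add_zero]
  obtain ⟨c, hc1, hc2, hc3⟩ := det_expand (V := V) hs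
    (Matrix.of fun i j => dd φ (D j) (g i)) hLS.det0 (fun i k => θ (a i k))
    (fun i k => hQV ((hQ _).2 ⟨_, rfl⟩)) (fun k j => dd φ (D j) (E k : FractionRing S))
    (fun i j => dd φ (D j) (h i : FractionRing S)) (by
      intro i
      funext j
      rw [Pi.add_apply, Finset.sum_apply]
      exact hdg i j)
  -- the blowing up
  obtain ⟨zP, hzP⟩ := (hQ e).1 he.mem
  have hze : Pr φ (zP : FractionRing S) e := hzP ▸ hθ zP
  have hzi : Pr φ (zP : FractionRing S)⁻¹ e⁻¹ := hze.inv he0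
  obtain ⟨z, hz⟩ : ∃ z : FractionRing S, z = (zP : FractionRing S) := ⟨_, rfl⟩
  have hzmem : z ∈ P := by rw [hz]; exact zP.2
  rw [← hz] at hze hzi
  obtain ⟨him, hPA⟩ := im_blP hLS.PW hLS.imQ hQV hQη he hzmem hze
  obtain ⟨R, hRV, hR0, hR⟩ := LevAux.count_e he0 heV' c hc1
  have hreg' := LevAux.reg_blP hLS.PW hLS.ic hreg hLS.imQ hθ h𝔮 E B hE2 hE3 he heV hzmem hze
  have hdg' : ∀ i j, dd φ (D j) ((c i).elim ((h i : FractionRing S) * (z⁻¹ * z⁻¹))
      (fun k => (E k : FractionRing S) * z⁻¹)) = (c i).elim (e⁻¹ * e⁻¹) (fun _ => e⁻¹) *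
      (Matrix.of fun i => (c i).elim (fun j => dd φ (D j) (h i : FractionRing S))
        (fun k j => dd φ (D j) (E k : FractionRing S))) i j := by
    intro i j
    rw [Matrix.of_apply]
    rcases c i with _ | k
    · change dd φ (D j) ((h i : FractionRing S) * (z⁻¹ * z⁻¹)) = e⁻¹ * e⁻¹ *
        dd φ (D j) (h i : FractionRing S)
      rw [dd_mul (hD j) (hh0 i) (hzi.mul hzi), zero_mul, zero_add]
    · change dd φ (D j) ((E k : FractionRing S) * z⁻¹) = e⁻¹ * dd φ (D j) (E k : FractionRing S)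
      rw [dd_mul (hD j) (hE0 k) hzi, zero_mul, zero_add]
  obtain ⟨g', hg'⟩ : ∃ g' : Fin r → FractionRing S, ∀ i, g' i =
      (c i).elim ((h i : FractionRing S) * (z⁻¹ * z⁻¹))
        (fun k => (E k : FractionRing S) * z⁻¹) := ⟨_, fun i => rfl⟩
  have hdet' : (Matrix.of fun i j => dd φ (D j) (g' i)).det =
      (∏ i, (c i).elim (e⁻¹ * e⁻¹) (fun _ => e⁻¹)) *
      (Matrix.of fun i => (c i).elim (fun j => dd φ (D j) (h i : FractionRing S))
        (fun k j => dd φ (D j) (E k : FractionRing S))).det := by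
    rw [← Matrix.det_mul_column]
    congr 1
    ext i j
    rw [Matrix.of_apply, Matrix.of_apply, hg', hdg']
  obtain ⟨N, hN⟩ : ∃ N : K, N = (Matrix.of fun i j => dd φ (D j) (g i)).det := ⟨_, rfl⟩
  obtain ⟨N', hN'⟩ : ∃ N' : K, N' = (Matrix.of fun i => (c i).elim
      (fun j => dd φ (D j) (h i : FractionRing S))
      (fun k j => dd φ (D j) (E k : FractionRing S))).det := ⟨_, rfl⟩
  have hN0 : N ≠ 0 := by rw [hN]; exact hLS.det0
  rw [← hN'] at hc2 hc3 hdet'
  rw [← hN] at hc3 hm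
  have hω0 := hLS.ω0
  have hkey : (ω * e) ^ r * (Matrix.of fun i j => dd φ (D j) (g' i)).det =
      ω ^ r * N' * (e⁻¹ * R⁻¹) := by
    rw [hdet', mul_pow, ← hR]
    ring
  have hg'P : ∀ i, g' i ∈ blP φ V η P z := by
    intro i
    rw [hg']
    rcases c i with _ | k
    · exact LevAux.sq_mem_blP hθ h𝔮 (hh2 i)
    · exact LevAux.mul_inv_mem_blP (E k).2 (hE0 k) (by
        rw [map_zero]
        exact zero_lt_one)
  have hLS' : LS V hD (bl V η Q) (blP φ V η P z) g' (ω * e) :=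
    { PW := hPA
      ic := LevAux.ic_blP hPA
      reg := hreg'
      SP := fun s => LevAux.le_blP (hLS.SP s)
      imQ := him
      ω0 := mul_ne_zero hω0 he0
      bd := fun j => blP_le_BB hLS.PW hLS.imQ he heV' hzmem hze (hD j) (hLS.bd j)
      gP := hg'P
      g0 := by
        intro i
        rw [hg']
        rcases c i with _ | k
        · have h1 := (hh0 i).mul (hzi.mul hzi)
          rw [zero_mul] at h1
          exact h1
        · have h1 := (hE0 k).mul hzi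
          rw [zero_mul] at h1
          exact h1
      det0 := by
        intro h0
        rw [h0, mul_zero] at hkey
        exact mul_ne_zero (mul_ne_zero (pow_ne_zero _ hω0) hc2)
          (mul_ne_zero (inv_ne_zero he0) (inv_ne_zero hR0)) hkey.symm }
  rcases m with _ | m
  · exfalso
    have h1 := det_mem (V := V) (ω * e) (Matrix.of fun i j => dd φ (D j) (g' i)) (fun i j => by
      obtain ⟨w, hw, h2, h3⟩ := hLS'.bd j (hg'P i)
      exact h3)
    rw [hkey] at h1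
    rw [pow_zero, mul_one] at hm
    have h2 := V.mul_mem _ _ (V.mul_mem _ _ (V.mul_mem _ _ h1 hc3) hm) hRV
    have h3 : ω ^ r * N' * (e⁻¹ * R⁻¹) * (N * N'⁻¹) * (ω ^ r * N)⁻¹ * R = e⁻¹ := by
      have hωr : ω ^ r ≠ 0 := pow_ne_zero _ hω0
      field_simp
    rw [h3, ← V.valuation_le_one_iff, map_inv₀] at h2
    have h4 : V.valuation e ≠ 0 := (Valuation.ne_zero_iff _).2 he0
    exact absurd h2 (not_le.2 ((one_lt_inv₀ (zero_lt_iff.2 h4)).2 heV))
  · refine ⟨m, Nat.lt_succ_self m, S, _, _, φ, r, D, hD, f₀, blP φ V η P z, g', ω * e, hf₀, hgen,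
      hLS', ?_⟩
    rw [hkey]
    have h2 := V.mul_mem _ _ (V.mul_mem _ _ (V.mul_mem _ _ hRV heϖ) hc3) hm
    have h3 : R * (e * ϖ⁻¹) * (N * N'⁻¹) * ((ω ^ r * N)⁻¹ * ϖ ^ (m + 1)) =
        (ω ^ r * N' * (e⁻¹ * R⁻¹))⁻¹ * ϖ ^ m := by
      have hωr : ω ^ r ≠ 0 := pow_ne_zero _ hω0
      rw [pow_succ]
      field_simp
    rw [h3] at h2
    exact h2

end Pool.Agent.H413.BR
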