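import Pool.Agent.H413.BR.Defs2

/-!
# BR23 (helper333 for helper413)
-/

set_option autoImplicit false
set_option linter.unusedVariables false
set_option linter.unusedSectionVars false

namespace Pool.Agent.H413.BR

open scoped Topology
open IsLocalRing Pool.Agent.TH188.QS Pool.Agent.TH188.ARC Pool.Agent.W418.LU2
  Pool.Agent.H918R2.Quad

section lev

variable {S K : Type} [CommRing S] [IsDomain S] [Field K] {φ : S →+* K}

theorem lev_init [IsRegularRing S] {V : ValuationSubring K} (hφV : ∀ s, φ s ∈ V) {r : ℕ}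
    {f₀ : Fin r → S} (D : Fin r → Derivation ℤ S S) (hf₀ : ∀ i, φ (f₀ i) = 0)
    (hgen : ∀ s, φ s = 0 → ∃ t, φ t ≠ 0 ∧ t * s ∈ Ideal.span (Set.range f₀))
    (hdet : (Matrix.of fun i j => φ (D j (f₀ i))).det ≠ 0) {ϖ : K} {m : ℕ}
    (hm : ((Matrix.of fun i j => φ (D j (f₀ i))).det)⁻¹ * ϖ ^ m ∈ V) :
    Lev V ϖ m (lo V.toSubring φ.range) := by
  have hD : ∀ j, Der φ (fun s => φ (D j s)) := by
    intro j
    refine ⟨?_, ?_⟩
    · intro a b
      simp only [map_add]
    · intro a b
      simp only [Derivation.leibniz, smul_eq_mul, map_add, map_mul]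
  have hDC : ∀ j s, (1 : K) * φ (D j s) ∈ V := by
    intro j s
    rw [one_mul]
    exact hφV _
  have h := US.init (F := FractionRing S) (V := V) (D := fun j s => φ (D j s)) hD (C := 1)
    (f₀ := f₀) (Q := fun _ => lo V.toSubring φ.range) hφV hDC hf₀ hgen rfl
  have hdd := h.det
  simp only [Finset.prod_range_zero, one_pow, mul_one, one_mul] at hdd
  refine ⟨S, inferInstance, inferInstance, φ, r, fun j s => φ (D j s), hD, f₀, _, _, 1, hf₀, hgen,
    ⟨h.PW, h.ic, h.reg, h.SP, h.imQ, one_ne_zero, ?_, h.fP, h.f0, ?_⟩, ?_⟩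
  · intro j
    have := h.bd j
    simpa only [Finset.prod_range_zero, mul_one] using this
  · rw [hdd]
    exact hdet
  · rw [hdd, one_pow, one_mul]
    exact hm

end lev

end Pool.Agent.H413.BR
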