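import Pool.Agent.H413.BR.Defs2
import Pool.Agent.H413.BR.B12

/-!
# BR24: generic regularity of the quotient
-/

set_option autoImplicit false
set_option linter.unusedVariables false
set_option linter.unusedSectionVars false

namespace Pool.Agent.H413.BR

open IsLocalRing Pool.Agent.TH188.QS Pool.Agent.TH188.ARC Pool.Agent.W418.LU2
  Pool.Agent.H918R2.Quad

/-- The presentation of a subring of finite type of a field by a regular domain. -/
theorem h413_hj {R : Type} [CommRing R] (hR : HJ R) {K : Type} [Field K] (ρ : R →+* K)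
    {T : Set K} (hT : T.Finite) :
    ∃ (S : Type) (_ : CommRing S) (_ : IsDomain S) (_ : IsRegularRing S) (ψ : S →+* K),
      ψ.range = Subring.closure ((ρ.range : Set K) ∪ T) ∧ WJ ψ := by
  classical
  set A := Subring.closure ((ρ.range : Set K) ∪ T) with hA
  obtain ⟨L, _, j, σ, hj, hLfr⟩ := exists_frac A
  have hji : Function.Injective j := j.injective
  have hρA : ∀ x : R, ρ x ∈ A := fun x => Subring.subset_closure (Or.inl ⟨x, rfl⟩)
  let ρ' : R →+* L := σ.comp (ρ.codRestrict A hρA)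
  have hjρ : ∀ x, j (ρ' x) = ρ x := fun x => hj _
  let T' : Set L := {z | ∃ t : A, (t : K) ∈ T ∧ z = σ t}
  have hTT' : T' ⊆ (fun t : T => σ ⟨t, Subring.subset_closure (Or.inr t.2)⟩) ''
      Set.univ := by
    rintro _ ⟨t, ht, rfl⟩
    exact ⟨⟨t, ht⟩, trivial, rfl⟩
  have hTfin : Finite T := hT
  have hT'f : T'.Finite := ((Set.finite_univ).image _).subset hTT'
  -- the image of `A`
  have hcl : (Subring.closure ((ρ'.range : Set L) ∪ T')).map j = A := by
    rw [RingHom.map_closure, hA]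
    congr 1
    ext z
    constructor
    · rintro ⟨w, ⟨x, rfl⟩ | ⟨t, ht, rfl⟩, rfl⟩
      · exact Or.inl ⟨x, (hjρ x).symm⟩
      · right
        rw [hj]
        exact ht
    · rintro (⟨x, rfl⟩ | hz)
      · exact ⟨ρ' x, Or.inl ⟨x, rfl⟩, hjρ x⟩
      · exact ⟨σ ⟨z, Subring.subset_closure (Or.inr hz)⟩, Or.inr
          ⟨⟨z, Subring.subset_closure (Or.inr hz)⟩, hz, rfl⟩, hj _⟩
  have hmemA : ∀ a : A, σ a ∈ Subring.closure ((ρ'.range : Set L) ∪ T') := by
    intro a
    have h1 : (a : K) ∈ (Subring.closure ((ρ'.range : Set L) ∪ T')).map j := by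
      rw [hcl]; exact a.2
    obtain ⟨w, hw, hwa⟩ := h1
    have h2 : w = σ a := hji (by rw [hwa, hj])
    rwa [← h2]
  have hfr : ∀ z : L, Fr (Subring.closure ((ρ'.range : Set L) ∪ T')) z := by
    intro z
    obtain ⟨a, b, hb, rfl⟩ := hLfr z
    have hb0 : σ b ≠ 0 := by
      intro h
      apply hb
      apply Subtype.ext
      rw [← hj b, h, map_zero]
      rfl
    exact ⟨_, hmemA a, _, hmemA b, hb0, rfl⟩
  obtain ⟨S, _, _, _, φ, hφr, r, f, D, hf, hgen, hdet⟩ := hR L ρ' T' hT'f hfr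
  have hrange : (j.comp φ).range = A := by
    rw [← hcl, ← hφr]
    ext z
    constructor
    · rintro ⟨s, rfl⟩
      exact ⟨φ s, ⟨s, rfl⟩, rfl⟩
    · rintro ⟨_, ⟨s, rfl⟩, rfl⟩
      exact ⟨s, rfl⟩
  refine ⟨S, inferInstance, inferInstance, inferInstance, j.comp φ, hrange, r, f, D, ?_, ?_, ?_⟩
  · intro i
    rw [RingHom.comp_apply, hf i, map_zero]
  · intro s hs
    rw [RingHom.comp_apply, map_eq_zero_iff j hji] at hs
    obtain ⟨t, ht, hts⟩ := hgen s hs
    refine ⟨t, ?_, hts⟩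
    rw [RingHom.comp_apply, Ne, map_eq_zero_iff j hji]
    exact ht
  · have h1 : (Matrix.of fun i k => (j.comp φ) (D k (f i))) =
        j.mapMatrix (Matrix.of fun i k => φ (D k (f i))) := rfl
    rw [h1, ← RingHom.map_det, Ne, map_eq_zero_iff j hji]
    exact hdet

/-- One denominator for the kernel. -/
theorem h413_den {S K : Type} [CommRing S] [IsNoetherianRing S] [Field K] (ψ : S →+* K)
    {I : Ideal S} (h : ∀ s, ψ s = 0 → ∃ t, ψ t ≠ 0 ∧ t * s ∈ I) :
    ∃ t, ψ t ≠ 0 ∧ ∀ s, ψ s = 0 → t * s ∈ I := by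
  classical
  obtain ⟨G, hG⟩ := (inferInstance : IsNoetherianRing S).noetherian (RingHom.ker ψ)
  have hGk : ∀ s ∈ G, ψ s = 0 := by
    intro s hs
    have h1 : s ∈ RingHom.ker ψ := by
      rw [← hG]
      exact Submodule.subset_span hs
    exact h1
  choose! t ht1 ht2 using h
  refine ⟨∏ s ∈ G, t s, ?_, ?_⟩
  · rw [map_prod, Finset.prod_ne_zero_iff]
    intro s hs
    exact ht1 s (hGk s hs)
  · intro s hs
    have h1 : s ∈ Submodule.span S (G : Set S) := by
      rw [hG]
      exact hs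
    induction h1 using Submodule.span_induction with
    | mem x hx =>
      obtain ⟨c, hc⟩ := Finset.dvd_prod_of_mem t hx
      rw [hc]
      have h2 : t x * c * x = c * (t x * x) := by ring
      rw [h2]
      exact I.mul_mem_left _ (ht2 x (hGk x hx))
    | zero =>
      rw [mul_zero]
      exact I.zero_mem
    | add x y hx hy ihx ihy =>
      have hx' : ψ x = 0 := by
        have h3 : x ∈ RingHom.ker ψ := by
          rw [← hG]
          exact hx
        exact h3
      have hy' : ψ y = 0 := by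
        have h3 : y ∈ RingHom.ker ψ := by
          rw [← hG]
          exact hy
        exact h3
      rw [mul_add]
      exact I.add_mem (ihx hx') (ihy hy')
    | smul a x hx ih =>
      have hx' : ψ x = 0 := by
        have h3 : x ∈ RingHom.ker ψ := by
          rw [← hG]
          exact hx
        exact h3
      rw [smul_eq_mul, mul_left_comm]
      exact I.mul_mem_left _ (ih hx')

section nice

variable {O F : Type} [CommRing O] [Field F] [Algebra O F]

/-- The chart as the image of a finitely generated subring of the valuation ring. -/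
theorem h413_gen {M : Submodule O F} (hM : M.FG) {g : F} (η : ZR O F)
    (hη : ∀ m ∈ M, m / g ∈ η.1) :
    ∃ T : Set η.1, T.Finite ∧ (Subring.closure
      ((((algebraMap O F).codRestrict η.1 η.2).range : Set η.1) ∪ T)).map η.1.subtype =
        (chart O M g).toSubring := by
  obtain ⟨s, hs⟩ := hM
  have h1 : chart O M g = Algebra.adjoin O ((fun m => m / g) '' (s : Set F)) := by
    apply le_antisymm
    · refine Algebra.adjoin_le ?_
      rintro _ ⟨m, hm, rfl⟩
      change m / g ∈ Algebra.adjoin O ((fun m => m / g) '' (s : Set F))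
      rw [← hs] at hm
      induction hm using Submodule.span_induction with
      | mem m hm => exact Algebra.subset_adjoin ⟨m, hm, rfl⟩
      | zero => rw [zero_div]; exact Subalgebra.zero_mem _
      | add a b _ _ ha hb => rw [add_div]; exact Subalgebra.add_mem _ ha hb
      | smul c a _ ha => rw [smul_div_assoc]; exact Subalgebra.smul_mem _ ha c
    · refine Algebra.adjoin_mono ?_
      rintro _ ⟨m, hm, rfl⟩
      exact ⟨m, hs ▸ Submodule.subset_span hm, rfl⟩
  refine ⟨Subtype.val ⁻¹' ((fun m => m / g) '' (s : Set F)),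
    (s.finite_toSet.image _).preimage Subtype.val_injective.injOn, ?_⟩
  rw [h1, Algebra.adjoin_eq_ring_closure, RingHom.map_closure]
  congr 1
  ext z
  constructor
  · rintro ⟨a, ⟨o, rfl⟩ | ha, rfl⟩
    · exact Or.inl ⟨o, rfl⟩
    · exact Or.inr ha
  · rintro (⟨o, rfl⟩ | ⟨m, hm, rfl⟩)
    · exact ⟨(algebraMap O F).codRestrict η.1 η.2 o, Or.inl ⟨o, rfl⟩, rfl⟩
    · exact ⟨⟨m / g, hη m (hs ▸ Submodule.subset_span hm)⟩, Or.inr ⟨m, hm, rfl⟩, rfl⟩

theorem nice_quot (hHJ : HJ O) {M : Submodule O F} (hM : M.FG) {g : F} (η : ZR O F)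
    (hη : Gn η.1 M g) : ∃ s ∈ chart O M g, s ≠ 0 ∧ s⁻¹ ∈ η.1 ∧ ∀ W : ZR O F, Gn W.1 M g →
      s⁻¹ ∈ W.1 → lo W.1.toSubring (chart O M g).toSubring ≤ η.1.toSubring →
      IsRegularLocalRing (im (residue η.1) (lo W.1.toSubring (chart O M g).toSubring)) := by
  classical
  obtain ⟨T, hTf, hTB⟩ := h413_gen hM η hη.2.2
  obtain ⟨B, hB⟩ : ∃ B, B = (chart O M g).toSubring := ⟨_, rfl⟩
  have hBη : B ≤ η.1.toSubring := by
    rw [hB]
    exact chart_le_V η.2 hη.2.2
  rw [← hB] at hTB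
  obtain ⟨S, _, _, _, ψ, hψr, r, f, D, hf, hgen, hdet⟩ := h413_hj hHJ
    ((residue η.1).comp ((algebraMap O F).codRestrict η.1 η.2)) (hTf.image (residue η.1))
  have hψr' : ψ.range = (Subring.closure
      ((((algebraMap O F).codRestrict η.1 η.2).range : Set η.1) ∪ T)).map (residue η.1) := by
    rw [hψr, RingHom.map_closure]
    congr 1
    ext z
    constructor
    · rintro (⟨o, rfl⟩ | ⟨a, ha, rfl⟩)
      · exact ⟨_, Or.inl ⟨o, rfl⟩, rfl⟩
      · exact ⟨a, Or.inr ha, rfl⟩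
    · rintro ⟨a, ⟨o, rfl⟩ | ha, rfl⟩
      · exact Or.inl ⟨o, rfl⟩
      · exact Or.inr ⟨a, ha, rfl⟩
  -- the images of the elements of `B`
  have hto : ∀ y : S, ∃ a : η.1, (a : F) ∈ B ∧ residue η.1 a = ψ y := by
    intro y
    have h1 : ψ y ∈ ψ.range := ⟨y, rfl⟩
    rw [hψr'] at h1
    obtain ⟨a, ha, hay⟩ := h1
    refine ⟨a, ?_, hay⟩
    rw [← hTB]
    exact ⟨a, ha, rfl⟩
  have hfrom : ∀ a : η.1, (a : F) ∈ B → ∃ y : S, ψ y = residue η.1 a := by
    intro a ha
    rw [← hTB] at ha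
    obtain ⟨a', ha', haa⟩ := ha
    have h1 : a' = a := Subtype.ext haa
    have h2 : residue η.1 a ∈ ψ.range := by
      rw [hψr']
      exact ⟨a', ha', by rw [h1]⟩
    exact h2
  obtain ⟨t, ht, hts⟩ := h413_den ψ hgen
  obtain ⟨δ, hδ⟩ : ∃ δ, δ = (Matrix.of fun i j => D j (f i)).det := ⟨_, rfl⟩
  have hδ0 : ψ δ ≠ 0 := by
    rw [hδ, RingHom.map_det]
    exact hdet
  obtain ⟨a0, ha0B, ha0⟩ := hto (δ * t)
  have ha0n : residue η.1 a0 ≠ 0 := by
    rw [ha0, map_mul]
    exact mul_ne_zero hδ0 ht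
  have ha00 : (a0 : F) ≠ 0 := by
    intro h
    apply ha0n
    have h1 : a0 = 0 := Subtype.ext h
    rw [h1, map_zero]
  have ha0u : IsUnit a0 := (residue_ne_zero_iff_isUnit a0).1 ha0n
  refine ⟨(a0 : F), ?_, ha00, ?_, ?_⟩
  · have h1 : (a0 : F) ∈ (chart O M g).toSubring := by
      rw [← hB]
      exact ha0B
    exact h1
  · obtain ⟨c, hc⟩ := isUnit_iff_exists_inv.1 ha0u
    have h1 : (a0 : F) * (c : F) = 1 := congrArg Subtype.val hc
    rw [inv_eq_of_mul_eq_one_right h1]
    exact c.2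
  intro W hW hsW hQη
  rw [← hB] at hQη ⊢
  have hBW : B ≤ W.1.toSubring := by
    rw [hB]
    exact chart_le_V W.2 hW.2.2
  obtain ⟨Q, hQ⟩ : ∃ Q, Q = lo W.1.toSubring B := ⟨_, rfl⟩
  rw [← hQ] at hQη ⊢
  have hBQ : B ≤ Q := by
    rw [hQ]
    exact le_lo _ _
  have hQl : IsLocalRing Q := by
    rw [hQ]
    exact isLocalRing_lo (loc_V W.1) hBW
  let ι : Q →+* η.1 :=
    { toFun := fun q => ⟨q.1, hQη q.2⟩
      map_one' := rfl
      map_mul' := fun _ _ => rfl
      map_zero' := rfl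
      map_add' := fun _ _ => rfl }
  let π : Q →+* ResidueField η.1 := (residue η.1).comp ι
  have hT : im (residue η.1) Q = π.range := by
    ext w
    constructor
    · rintro ⟨z, hz, hPr⟩
      have h1 := hPr.unique (Pr.alg (F := F) (⟨z, hQη hz⟩ : η.1))
      exact ⟨⟨z, hz⟩, h1.symm⟩
    · rintro ⟨q, rfl⟩
      exact ⟨q.1, q.2, Pr.alg (F := F) (⟨q.1, hQη q.2⟩ : η.1)⟩
  rw [hT]
  have hloc : IsLocalRing π.range :=
    IsLocalRing.of_surjective' π.rangeRestrict π.rangeRestrict_surjective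
  have hθ : ∀ y, ψ y ∈ π.range := by
    intro y
    obtain ⟨a, haB, ha⟩ := hto y
    exact ⟨⟨a, hBQ haB⟩, ha⟩
  let θ : S →+* π.range := ψ.codRestrict π.range hθ
  -- units
  have hunit : ∀ a : η.1, (a : F) ∈ B → (a : F) ≠ 0 → (a : F)⁻¹ ∈ W.1 → ∀ y, ψ y = residue η.1 a →
      IsUnit (θ y) := by
    intro a haB ha0 haW y hy
    have hinv : (a : F)⁻¹ ∈ Q := by
      rw [hQ]
      exact ⟨1, B.one_mem, a, haB, ha0, haW, by rw [one_mul]⟩
    refine isUnit_iff_exists_inv.2 ⟨⟨π ⟨(a : F)⁻¹, hinv⟩, ⟨_, rfl⟩⟩, ?_⟩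
    apply Subtype.ext
    change ψ y * π ⟨(a : F)⁻¹, hinv⟩ = 1
    have h1 : ψ y = π ⟨(a : F), hBQ haB⟩ := hy
    rw [h1, ← map_mul]
    have h2 : (⟨(a : F), hBQ haB⟩ : Q) * ⟨(a : F)⁻¹, hinv⟩ = 1 :=
      Subtype.ext (mul_inv_cancel₀ ha0)
    rw [h2, map_one]
  have hprime : ((maximalIdeal π.range).comap θ).IsPrime := inferInstance
  have hL : LocQ θ ((maximalIdeal π.range).comap θ) :=
    { unit := by
        intro y hy
        by_contra h
        exact hy ((mem_maximalIdeal _).2 h)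
      nonunit := by
        intro y hy
        exact (mem_maximalIdeal _).1 hy
      frac := by
        rintro ⟨_, ⟨q, hq⟩, rfl⟩
        have hq' := hq
        rw [hQ] at hq'
        obtain ⟨a, ha, b, hb, hb0, hbW, hab⟩ := hq'
        obtain ⟨x, hx⟩ := hfrom ⟨a, hBη ha⟩ ha
        obtain ⟨y, hy⟩ := hfrom ⟨b, hBη hb⟩ hb
        refine ⟨x, y, ?_, ?_⟩
        · intro h
          exact (mem_maximalIdeal _).1 h (hunit ⟨b, hBη hb⟩ hb hb0 hbW y hy)
        · apply Subtype.ext
          change π ⟨q, hq⟩ * ψ y = ψ x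
          have h1 : ψ y = π ⟨b, hBQ hb⟩ := hy
          have h2 : ψ x = π ⟨a, hBQ ha⟩ := hx
          rw [h1, h2, ← map_mul]
          congr 1
          apply Subtype.ext
          change q * b = a
          rw [hab, inv_mul_cancel_right₀ hb0] }
  have hu : IsUnit (θ δ * θ t) := by
    rw [← map_mul]
    exact hunit a0 ha0B ha00 hsW _ ha0.symm
  refine jac_quot hL f D ?_ ?_ ?_
  · intro i
    apply Subtype.ext
    exact hf i
  · refine ⟨t, ?_, ?_⟩
    · intro h
      exact (mem_maximalIdeal _).1 h (isUnit_of_mul_isUnit_right hu)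
    · intro s hs
      exact hts s (congrArg Subtype.val hs)
  · rw [← hδ]
    intro h
    exact (mem_maximalIdeal _).1 h (isUnit_of_mul_isUnit_left hu)

end nice

end Pool.Agent.H413.BR
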