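import Pool.Agent.H413.BR.Defs2

/-!
# BR27: the localization at the centre is local and noetherian (helper80)
-/

set_option autoImplicit false
set_option linter.unusedVariables false
set_option linter.unusedSectionVars false

namespace Pool.Agent.H413.BR

open IsLocalRing Pool.Agent.TH188.QS Pool.Agent.TH188.ARC Pool.Agent.W418.LU2
  Pool.Agent.H918R2.Quad

variable {F : Type} [Field F]

theorem lo_noeth {W : ValuationSubring F} {B : Subring F} (hB : B ≤ W.toSubring)
    (hnoe : IsNoetherianRing B) : IsLocalRing (lo W.toSubring B) ∧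
      IsNoetherianRing (lo W.toSubring B) := by
  let P : Ideal B :=
    { carrier := {b | W.valuation (b : F) < 1}
      zero_mem' := by
        change W.valuation ((0 : B) : F) < 1
        rw [ZeroMemClass.coe_zero, map_zero]; exact zero_lt_one
      add_mem' := fun {a b} ha hb => by
        change W.valuation ((a + b : B) : F) < 1
        exact Valuation.map_add_lt _ ha hb
      smul_mem' := fun c a ha => by
        change W.valuation ((c * a : B) : F) < 1
        rw [Subring.coe_mul, map_mul]
        exact mul_lt_one_aux ((W.valuation_le_one_iff _).2 (hB c.2)) ha }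
  have hP : P.IsPrime := by
    refine ⟨?_, ?_⟩
    · rw [Ne, Ideal.eq_top_iff_one]
      change ¬ W.valuation ((1 : B) : F) < 1
      rw [OneMemClass.coe_one, map_one]
      exact lt_irrefl _
    · intro a b hab
      change W.valuation ((a * b : B) : F) < 1 at hab
      rw [Subring.coe_mul, map_mul] at hab
      by_contra hcon
      rw [not_or] at hcon
      have ha : W.valuation (a : F) = 1 := le_antisymm ((W.valuation_le_one_iff _).2 (hB a.2))
        (not_lt.1 hcon.1)
      have hb : W.valuation (b : F) = 1 := le_antisymm ((W.valuation_le_one_iff _).2 (hB b.2))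
        (not_lt.1 hcon.2)
      rw [ha, hb, one_mul] at hab
      exact lt_irrefl _ hab
  have hu : ∀ y : P.primeCompl, ((y : B) : F) ≠ 0 ∧ ((y : B) : F)⁻¹ ∈ W := by
    intro y
    have h1 : ¬ W.valuation ((y : B) : F) < 1 := y.2
    have h0 : ((y : B) : F) ≠ 0 := by
      intro h
      apply h1
      rw [h, map_zero]; exact zero_lt_one
    refine ⟨h0, ?_⟩
    rw [val_lt_iff h0, not_not] at h1
    exact h1
  let ι : B →+* lo W.toSubring B := Subring.inclusion (le_lo W.toSubring B)
  have hι : ∀ y : P.primeCompl, IsUnit (ι y) := by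
    intro y
    refine isUnit_iff_exists_inv.2 ⟨⟨((y : B) : F)⁻¹, 1, B.one_mem, _, (y : B).2, (hu y).1,
      (hu y).2, by rw [one_mul]⟩, ?_⟩
    exact Subtype.ext (mul_inv_cancel₀ (hu y).1)
  let θ : Localization.AtPrime P →+* lo W.toSubring B :=
    IsLocalization.lift (M := P.primeCompl) hι
  have hθ : Function.Bijective θ := by
    refine ⟨?_, ?_⟩
    · rw [injective_iff_map_eq_zero]
      intro z hz
      obtain ⟨a, y, rfl⟩ := IsLocalization.exists_mk'_eq P.primeCompl z
      have h1 : ι a = ι y * 0 := (IsLocalization.lift_mk'_spec (S := Localization.AtPrime P)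
        (hg := hι) a 0 y).1 hz
      rw [mul_zero] at h1
      have h2 : a = 0 := Subtype.ext (congrArg (fun w : lo W.toSubring B => (w : F)) h1)
      rw [h2, IsLocalization.mk'_zero]
    · rintro ⟨_, a, ha, b, hb, hb0, hbi, rfl⟩
      have hbP : (⟨b, hb⟩ : B) ∈ P.primeCompl := by
        intro h
        have h1 : W.valuation b < 1 := h
        exact (val_lt_iff hb0).1 h1 hbi
      refine ⟨IsLocalization.mk' _ (⟨a, ha⟩ : B) ⟨⟨b, hb⟩, hbP⟩, ?_⟩
      rw [IsLocalization.lift_mk'_spec]
      apply Subtype.ext
      change a = b * (a * b⁻¹)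
      field_simp
  have hn : IsNoetherianRing (Localization.AtPrime P) :=
    IsLocalization.isNoetherianRing P.primeCompl (Localization.AtPrime P) hnoe
  exact ⟨(RingEquiv.ofBijective θ hθ).isLocalRing,
    isNoetherianRing_of_ringEquiv _ (RingEquiv.ofBijective θ hθ)⟩

end Pool.Agent.H413.BR
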