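import Pool.Agent.H413.BR.Defs2
import Pool.Agent.H413.BR.B27

/-!
# BR25: generic number of generators
-/

set_option autoImplicit false
set_option linter.unusedVariables false
set_option linter.unusedSectionVars false

namespace Pool.Agent.H413.BR

open scoped Topology
open IsLocalRing Pool.Agent.TH188.QS Pool.Agent.TH188.ARC Pool.Agent.W418.LU2
  Pool.Agent.H918R2.Quad

section br25

variable {F : Type} [Field F]

theorem br25_val (η : ValuationSubring F) {x : F} (hx : x ∈ η) :
    η.valuation x < 1 ↔ ¬ (x ≠ 0 ∧ x⁻¹ ∈ η) := by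
  constructor
  · rintro h ⟨h0, h1⟩
    have h2 : η.valuation x⁻¹ ≤ 1 := (η.valuation_le_one_iff _).2 h1
    have h3 : η.valuation x * η.valuation x⁻¹ = 1 := by
      rw [← map_mul, mul_inv_cancel₀ h0, map_one]
    have h4 : η.valuation x * η.valuation x⁻¹ < 1 := by
      calc η.valuation x * η.valuation x⁻¹ ≤ η.valuation x * 1 := mul_le_mul_right h2 _
        _ = η.valuation x := mul_one _
        _ < 1 := h
    exact absurd h3 h4.ne
  · intro h
    have h1 : η.valuation x ≤ 1 := (η.valuation_le_one_iff _).2 hx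
    refine lt_of_le_of_ne h1 fun h2 => h ⟨?_, ?_⟩
    · rintro rfl
      rw [map_zero] at h2
      exact zero_ne_one h2
    · rw [← η.valuation_le_one_iff, map_inv₀, h2, inv_one]

/-- the ideal of the elements of positive value -/
def br25_I (η : ValuationSubring F) (B : Subring F) (hB : B ≤ η.toSubring) : Ideal B where
  carrier := {b | η.valuation (b : F) < 1}
  zero_mem' := by
    change η.valuation ((0 : B) : F) < 1
    rw [ZeroMemClass.coe_zero, map_zero]
    exact zero_lt_one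
  add_mem' := fun {a b} ha hb => by
    change η.valuation ((a + b : B) : F) < 1
    exact Valuation.map_add_lt _ ha hb
  smul_mem' := fun c a ha => by
    change η.valuation ((c * a : B) : F) < 1
    have h1 : η.valuation (c : F) ≤ 1 := (η.valuation_le_one_iff _).2 (hB c.2)
    have h2 : η.valuation (a : F) < 1 := ha
    rw [Subring.coe_mul, map_mul]
    calc η.valuation (c : F) * η.valuation (a : F) ≤ 1 * η.valuation (a : F) := mul_le_mul_left h1 _
      _ = η.valuation (a : F) := one_mul _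
      _ < 1 := h2

/-- clearing denominators for finitely many elements -/
theorem br25_clear (η : ValuationSubring F) (B : Subring F) (J : Ideal B) (S : Finset B)
    (h : ∀ y ∈ S, ∃ t : B, (t : F) ≠ 0 ∧ (t : F)⁻¹ ∈ η ∧ t * y ∈ J) :
    ∃ s : B, (s : F) ≠ 0 ∧ (s : F)⁻¹ ∈ η ∧ ∀ y ∈ Ideal.span (S : Set B), s * y ∈ J := by
  classical
  induction S using Finset.induction_on with
  | empty =>
    refine ⟨1, by simp, by rw [Subring.coe_one, inv_one]; exact η.one_mem, fun y hy => ?_⟩
    rw [Finset.coe_empty, Ideal.span_empty] at hy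
    rw [(Submodule.mem_bot B).1 hy, mul_zero]
    exact J.zero_mem
  | insert a S ha ih =>
    obtain ⟨s, hs0, hsη, hs⟩ := ih fun y hy => h y (Finset.mem_insert_of_mem hy)
    obtain ⟨t, ht0, htη, ht⟩ := h a (Finset.mem_insert_self _ _)
    refine ⟨s * t, ?_, ?_, fun y hy => ?_⟩
    · rw [Subring.coe_mul]
      exact mul_ne_zero hs0 ht0
    · rw [Subring.coe_mul, mul_inv]
      exact η.mul_mem _ _ hsη htη
    · rw [Finset.coe_insert, Ideal.mem_span_insert] at hy
      obtain ⟨e, z, hz, rfl⟩ := hy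
      have h1 : s * t * (e * a + z) = (s * e) * (t * a) + t * (s * z) := by ring
      rw [h1]
      exact J.add_mem (J.mul_mem_left _ ht) (J.mul_mem_left _ (hs z hz))

theorem br25_core (η : ValuationSubring F) (B : Subring F) (hB : B ≤ η.toSubring)
    (hnoe : IsNoetherianRing B) : ∃ s ∈ B, s ≠ 0 ∧ s⁻¹ ∈ η ∧ ∀ W : ValuationSubring F,
      B ≤ W.toSubring → s⁻¹ ∈ W → lo W.toSubring B ≤ η.toSubring → Nice2 η (lo W.toSubring B) := by
  classical
  obtain ⟨hloc, hnoeR⟩ := lo_noeth (W := η) hB hnoe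
  obtain ⟨r, w, hw, hwi⟩ := exists_min_gen (maximalIdeal (lo η.toSubring B))
  have hRη : lo η.toSubring B ≤ η.toSubring := lo_le hB
  have hmax : ∀ x : lo η.toSubring B, x ∈ maximalIdeal (lo η.toSubring B) ↔
      η.valuation (x : F) < 1 := by
    intro x
    rw [mem_maximalIdeal, mem_nonunits_iff, isUnit_lo_iff hB, br25_val η (hRη x.2)]
    rfl
  have hfr : ∀ i, ∃ a b : B, (b : F) ≠ 0 ∧ (b : F)⁻¹ ∈ η ∧ (w i : F) = (a : F) * (b : F)⁻¹ := by
    intro i
    obtain ⟨a, ha, b, hb, hb0, hbη, h⟩ := (w i).2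
    exact ⟨⟨a, ha⟩, ⟨b, hb⟩, hb0, hbη, h⟩
  choose a b hb0 hbη hab using hfr
  have hbv : ∀ i, η.valuation (b i : F) = 1 := by
    intro i
    have h1 : η.valuation (b i : F) ≤ 1 := (η.valuation_le_one_iff _).2 (hB (b i).2)
    by_contra h2
    exact (br25_val η (hB (b i).2)).1 (lt_of_le_of_ne h1 h2) ⟨hb0 i, hbη i⟩
  have haw : ∀ i, (a i : F) = (w i : F) * (b i : F) := by
    intro i
    rw [hab i, mul_assoc, inv_mul_cancel₀ (hb0 i), mul_one]
  have hav : ∀ i, η.valuation (a i : F) < 1 := by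
    intro i
    have h1 : w i ∈ maximalIdeal (lo η.toSubring B) := by
      rw [← hw]
      exact Ideal.subset_span ⟨i, rfl⟩
    rw [haw i, map_mul, hbv i, mul_one]
    exact (hmax _).1 h1
  set J : Ideal B := Ideal.span (Set.range a) with hJ
  -- every element of the prime ideal is in `J` up to a denominator
  have hden : ∀ y : B, y ∈ br25_I η B hB → ∃ t : B, (t : F) ≠ 0 ∧ (t : F)⁻¹ ∈ η ∧ t * y ∈ J := by
    intro y hy
    have hy' : (⟨(y : F), le_lo _ _ y.2⟩ : lo η.toSubring B) ∈ Ideal.span (Set.range w) := by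
      rw [hw, hmax]
      exact hy
    have hgen : ∀ z : lo η.toSubring B, z ∈ Ideal.span (Set.range w) →
        ∃ t : B, (t : F) ≠ 0 ∧ (t : F)⁻¹ ∈ η ∧ ∃ j ∈ J, (t : F) * (z : F) = (j : F) := by
      intro z hz
      refine Submodule.span_induction (p := fun (z : lo η.toSubring B) _ =>
        ∃ t : B, (t : F) ≠ 0 ∧ (t : F)⁻¹ ∈ η ∧
        ∃ j ∈ J, (t : F) * (z : F) = (j : F)) ?_ ?_ ?_ ?_ hz
      · rintro _ ⟨i, rfl⟩
        refine ⟨b i, hb0 i, hbη i, a i, Ideal.subset_span ⟨i, rfl⟩, ?_⟩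
        rw [haw i, mul_comm]
      · refine ⟨1, by simp, by rw [Subring.coe_one, inv_one]; exact η.one_mem, 0, J.zero_mem, ?_⟩
        simp
      · rintro x x' - - ⟨t, ht0, htη, j, hj, h1⟩ ⟨t', ht0', htη', j', hj', h1'⟩
        refine ⟨t * t', ?_, ?_, t' * j + t * j', J.add_mem (J.mul_mem_left _ hj)
          (J.mul_mem_left _ hj'), ?_⟩
        · rw [Subring.coe_mul]
          exact mul_ne_zero ht0 ht0'
        · rw [Subring.coe_mul, mul_inv]
          exact η.mul_mem _ _ htη htη'
        · push_cast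
          rw [← h1, ← h1']
          ring
      · rintro c x - ⟨t, ht0, htη, j, hj, h1⟩
        obtain ⟨p, hp, q, hq, hq0, hqη, h2⟩ := c.2
        refine ⟨⟨q, hq⟩ * t, ?_, ?_, ⟨p, hp⟩ * j, J.mul_mem_left _ hj, ?_⟩
        · rw [Subring.coe_mul]
          exact mul_ne_zero hq0 ht0
        · rw [Subring.coe_mul, mul_inv]
          exact η.mul_mem _ _ hqη htη
        · have h3 : ((c • x : lo η.toSubring B) : F) = (c : F) * (x : F) := rfl
          rw [h3, h2, Subring.coe_mul, Subring.coe_mul, ← h1]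
          change q * (t : F) * (p * q⁻¹ * (x : F)) = p * ((t : F) * (x : F))
          field_simp
    obtain ⟨t, ht0, htη, j, hj, h1⟩ := hgen _ hy'
    refine ⟨t, ht0, htη, ?_⟩
    have h2 : t * y = j := Subtype.ext h1
    rw [h2]
    exact hj
  obtain ⟨S, hS⟩ := (isNoetherianRing_iff_ideal_fg B).1 hnoe (br25_I η B hB)
  obtain ⟨s, hs0, hsη, hs⟩ := br25_clear η B J S fun y hy => hden y (by
    rw [← hS]
    exact Ideal.subset_span hy)
  refine ⟨s, s.2, hs0, hsη, fun W hBW hsW hQη => ?_⟩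
  have hQle : lo W.toSubring B ≤ lo η.toSubring B := by
    rintro x ⟨p, hp, q, hq, hq0, hqW, rfl⟩
    refine ⟨p, hp, q, hq, hq0, ?_, rfl⟩
    exact hQη ⟨1, B.one_mem, q, hq, hq0, hqW, by rw [one_mul]⟩
  have heq : lo η.toSubring (lo W.toSubring B) = lo η.toSubring B :=
    le_antisymm (lo_le_lo hB hQle) (lo_mono (le_lo _ _))
  have hinv : ∀ q ∈ B, q ≠ 0 → q⁻¹ ∈ W → q⁻¹ ∈ lo W.toSubring B := fun q hq hq0 hqW =>
    ⟨1, B.one_mem, q, hq, hq0, hqW, by rw [one_mul]⟩
  refine ⟨r, fun i => (a i : F), fun i => ⟨le_lo _ _ (a i).2, hav i⟩, ?_, ?_⟩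
  · rintro y ⟨p, hp, q, hq, hq0, hqW, rfl⟩ hy
    have hpI : (⟨p, hp⟩ : B) ∈ br25_I η B hB := by
      change η.valuation p < 1
      have h1 : p = p * q⁻¹ * q := by field_simp
      rw [h1, map_mul]
      have h2 : η.valuation q ≤ 1 := (η.valuation_le_one_iff _).2 (hB hq)
      calc η.valuation (p * q⁻¹) * η.valuation q ≤ η.valuation (p * q⁻¹) * 1 :=
            mul_le_mul_right h2 _
        _ = η.valuation (p * q⁻¹) := mul_one _
        _ < 1 := hy
    have h1 : s * ⟨p, hp⟩ ∈ J := hs _ (by rw [hS]; exact hpI)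
    rw [hJ, Ideal.mem_span_range_iff_exists_fun] at h1
    obtain ⟨c, hc⟩ := h1
    have hc' : ∑ i, (c i : F) * (a i : F) = (s : F) * p := by
      have h2 := congrArg (fun z : B => (z : F)) hc
      simp only [AddSubmonoidClass.coe_finsetSum, Subring.coe_mul] at h2
      exact h2
    refine ⟨fun i => (c i : F) * ((s : F)⁻¹ * q⁻¹), fun i => ?_, ?_⟩
    · exact (lo W.toSubring B).mul_mem (le_lo _ _ (c i).2)
        ((lo W.toSubring B).mul_mem (hinv _ s.2 hs0 hsW) (hinv q hq hq0 hqW))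
    · have h3 : ∑ i, (c i : F) * ((s : F)⁻¹ * q⁻¹) * (a i : F) =
          ((s : F)⁻¹ * q⁻¹) * ∑ i, (c i : F) * (a i : F) := by
        rw [Finset.mul_sum]
        refine Finset.sum_congr rfl fun i _ => ?_
        ring
      rw [h3, hc']
      field_simp
  · intro c hc hsq i
    rw [heq] at hc hsq
    obtain ⟨n, u, v, hu, hv, huv⟩ := hsq
    let c' : Fin r → lo η.toSubring B := fun i => ⟨c i * (b i : F),
      (lo η.toSubring B).mul_mem (hc i) (le_lo _ _ (b i).2)⟩
    have h1 : ∑ i, c' i * w i ∈ maximalIdeal (lo η.toSubring B) *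
        maximalIdeal (lo η.toSubring B) := by
      have h2 : ∑ i, c' i * w i = ∑ k, (⟨u k, (hu k).1⟩ : lo η.toSubring B) *
          ⟨v k, (hv k).1⟩ := by
        apply Subtype.ext
        simp only [AddSubmonoidClass.coe_finsetSum, Subring.coe_mul]
        rw [← huv]
        refine Finset.sum_congr rfl fun i _ => ?_
        change c i * (b i : F) * (w i : F) = c i * (a i : F)
        rw [haw i]
        ring
      rw [h2]
      exact Ideal.sum_mem _ fun k _ => Ideal.mul_mem_mul ((hmax _).2 (hu k).2)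
        ((hmax _).2 (hv k).2)
    have h3 := (hmax _).1 (hwi c' h1 i)
    change η.valuation (c i * (b i : F)) < 1 at h3
    rw [map_mul, hbv i, mul_one] at h3
    exact h3

end br25

section br25b

variable {O F : Type} [CommRing O] [Field F] [Algebra O F]

theorem nice_gen [IsNoetherianRing O] {M : Submodule O F} (hM : M.FG) {g : F} (η : ZR O F)
    (hη : Gn η.1 M g) : ∃ s ∈ chart O M g, s ≠ 0 ∧ s⁻¹ ∈ η.1 ∧ ∀ W : ZR O F, Gn W.1 M g →
      s⁻¹ ∈ W.1 → lo W.1.toSubring (chart O M g).toSubring ≤ η.1.toSubring →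
      Nice2 η.1 (lo W.1.toSubring (chart O M g).toSubring) := by
  have hnoe : IsNoetherianRing (chart O M g) := chart_noeth hM g
  have hnoeB : IsNoetherianRing (chart O M g).toSubring := hnoe
  obtain ⟨s, hs, hs0, hsη, h⟩ := br25_core η.1 (chart O M g).toSubring
    (chart_le_V η.2 hη.2.2) hnoeB
  exact ⟨s, hs, hs0, hsη, fun W hW hsW hle => h W.1 (chart_le_V W.2 hW.2.2) hsW hle⟩

end br25b

end Pool.Agent.H413.BR
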