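import Pool.Agent.H413.BR.Defs2

/-!
# Bounded contact: dimension count
-/

set_option autoImplicit false
set_option linter.unusedVariables false
set_option linter.unusedSectionVars false

namespace Pool.Agent.H413.BR

open IsLocalRing Pool.Agent.TH188.QS Pool.Agent.TH188.ARC Pool.Agent.W418.LU2
  Pool.Agent.H918R2.Quad

namespace R26

variable {F : Type} [Field F]

lemma nu_iff {η : ValuationSubring F} {y : F} (hy : y ∈ η) :
    NU η.toSubring y ↔ η.valuation y < 1 := by
  unfold NU
  by_cases h0 : y = 0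
  · subst h0
    simp
  · have h2 : y⁻¹ ∈ η.toSubring ↔ η.valuation y⁻¹ ≤ 1 := (η.valuation_le_one_iff y⁻¹).symm
    have h3 : η.valuation y ≠ 0 := (Valuation.ne_zero_iff _).2 h0
    rw [h2, map_inv₀, inv_le_one₀ (zero_lt_iff.2 h3)]
    constructor
    · intro h
      exact lt_of_not_ge fun h4 => h ⟨h0, h4⟩
    · intro h h4
      exact absurd h4.2 (not_le.2 h)

lemma mem_max_lo {η : ValuationSubring F} {Q : Subring F} (hQη : Q ≤ η.toSubring)
    [IsLocalRing (lo η.toSubring Q)] (x : lo η.toSubring Q) :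
    x ∈ maximalIdeal (lo η.toSubring Q) ↔ η.valuation (x : F) < 1 := by
  rw [mem_maximalIdeal, mem_nonunits_iff, isUnit_lo_iff hQη, ← nu_iff (lo_le hQη x.2)]
  rfl

lemma sq_of_mem {η : ValuationSubring F} {R : Subring F} (I : Ideal R)
    (hI : ∀ x ∈ I, η.valuation (x : F) < 1) {x : R} (hx : x ∈ I ^ 2) : Sq η R (x : F) := by
  rw [pow_two] at hx
  refine Submodule.mul_induction_on (C := fun x => Sq η R ((x : R) : F)) hx ?_ ?_
  · intro a ha b hb
    exact ⟨1, fun _ => a, fun _ => b, fun _ => ⟨a.2, hI a ha⟩, fun _ => ⟨b.2, hI b hb⟩, by simp⟩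
  · rintro x y ⟨n, u, v, hu, hv, hx⟩ ⟨n', u', v', hu', hv', hy⟩
    refine ⟨n + n', Fin.append u u', Fin.append v v', ?_, ?_, ?_⟩
    · intro i
      refine Fin.addCases ?_ ?_ i
      · intro i
        rw [Fin.append_left]
        exact hu i
      · intro i
        rw [Fin.append_right]
        exact hu' i
    · intro i
      refine Fin.addCases ?_ ?_ i
      · intro i
        rw [Fin.append_left]
        exact hv i
      · intro i
        rw [Fin.append_right]
        exact hv' i
    · rw [Fin.sum_univ_add]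
      simp only [Fin.append_left, Fin.append_right]
      rw [← hx, ← hy]
      rfl

lemma ind_of_nice2 {η : ValuationSubring F} {Q : Subring F} (hQη : Q ≤ η.toSubring)
    [IsRegularLocalRing (lo η.toSubring Q)] {ρ : ℕ} {b : Fin ρ → F}
    (hb : ∀ i, b i ∈ Q ∧ η.valuation (b i) < 1)
    (hind : ∀ c : Fin ρ → F, (∀ i, c i ∈ lo η.toSubring Q) →
      Sq η (lo η.toSubring Q) (∑ i, c i * b i) → ∀ i, η.valuation (c i) < 1) :
    Ind (fun i => (⟨b i, le_lo _ _ (hb i).1⟩ : lo η.toSubring Q)) := by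
  refine ⟨fun i => (mem_max_lo hQη _).2 (hb i).2, fun c hc i => ?_⟩
  rw [mem_max_lo hQη]
  refine hind (fun i => (c i : F)) (fun i => (c i).2) ?_ i
  have h1 := sq_of_mem (maximalIdeal _) (fun x hx => (mem_max_lo hQη x).1 hx) hc
  have h2 : ((∑ i, c i * (⟨b i, le_lo _ _ (hb i).1⟩ : lo η.toSubring Q) :
      lo η.toSubring Q) : F) = ∑ i, (c i : F) * b i := by
    rw [AddSubmonoidClass.coe_finsetSum]
    rfl
  rwa [h2] at h1

/-- The inclusion. -/
def inc (η : ValuationSubring F) (Q : Subring F) (hQη : Q ≤ η.toSubring) : Q →+* η where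
  toFun := fun y => ⟨y, hQη y.2⟩
  map_one' := rfl
  map_mul' := fun _ _ => rfl
  map_zero' := rfl
  map_add' := fun _ _ => rfl

lemma inc_im (η : ValuationSubring F) (Q : Subring F) (hQη : Q ≤ η.toSubring) (y : Q) :
    ((residue η).comp (inc η Q hQη)) y ∈ im (residue η) Q :=
  ⟨y, y.2, Pr.alg (F := F) (φ := residue η) (⟨y, hQη y.2⟩ : η)⟩

/-- The residue map. -/
noncomputable def th (η : ValuationSubring F) (Q : Subring F) (hQη : Q ≤ η.toSubring) :
    Q →+* im (residue η) Q :=
  ((residue η).comp (inc η Q hQη)).codRestrict (im (residue η) Q) (inc_im η Q hQη)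

lemma th_surj (η : ValuationSubring F) (Q : Subring F) (hQη : Q ≤ η.toSubring) :
    Function.Surjective (th η Q hQη) := by
  rintro ⟨w, z, hz, h⟩
  refine ⟨⟨z, hz⟩, Subtype.ext ?_⟩
  exact (Pr.alg (F := F) (φ := residue η) (⟨z, hQη hz⟩ : η)).unique h

lemma th_ker (η : ValuationSubring F) (Q : Subring F) (hQη : Q ≤ η.toSubring) (y : Q) :
    th η Q hQη y = 0 ↔ η.valuation (y : F) < 1 := by
  have h1 : th η Q hQη y = 0 ↔ residue η (⟨y, hQη y.2⟩ : η) = 0 := by
    constructor
    · intro h
      exact congrArg Subtype.val h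
    · intro h
      exact Subtype.ext h
  rw [h1, residue_eq_zero_iff, ValuationSubring.valuation_lt_one_iff]

end R26

open R26 in
theorem reg_of_nice {F : Type} [Field F] {η : ValuationSubring F} {Q : Subring F}
    (hQη : Q ≤ η.toSubring)
    (hloc : IsLocalRing Q) (hnoe : IsNoetherianRing Q) (h : Nice η Q)
    (hreg : IsRegularLocalRing (lo η.toSubring Q)) : IsRegularLocalRing Q := by
  obtain ⟨hT, ρ, b, hb, hgen, hind⟩ := h
  obtain ⟨p, hp, hpm, hpd⟩ := lo_loc (loc_V η) hQη
  have hpv : ∀ y : Q, y ∈ p ↔ η.valuation (y : F) < 1 := fun y => by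
    rw [hpm, nu_iff (hQη y.2)]
  -- the height
  obtain ⟨m₀, w₀, -, hd₀⟩ := (ind_of_nice2 hQη hb hind).extend
  rw [Fintype.card_fin, hpd] at hd₀
  -- the quotient
  have hI0 : Ind (fun i : Fin 0 => (i.elim0 : im (residue η) Q)) :=
    ⟨fun i => i.elim0, fun c _ i => i.elim0⟩
  obtain ⟨m, w, hw, hd⟩ := hI0.extend
  rw [Fintype.card_fin, zero_add] at hd
  choose w' hw' using fun i => th_surj η Q hQη (w i)
  have hker : RingHom.ker (th η Q hQη) = p := by
    ext y
    rw [RingHom.mem_ker, th_ker, hpv]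
  have hdim : ringKrullDim (Q ⧸ p) = ((m : ℕ) : WithBot ℕ∞) := by
    rw [← hker, ringKrullDim_eq_of_ringEquiv
      (RingHom.quotientKerEquivOfSurjective (th_surj η Q hQη)), hd]
  set g : Fin ρ ⊕ Fin m → Q := Sum.elim (fun i => ⟨b i, (hb i).1⟩) w' with hg
  have hpJ : p ≤ Ideal.span (Set.range g) := by
    intro y hy
    obtain ⟨c, hc, hyc⟩ := hgen y y.2 ((hpv y).1 hy)
    have h1 : y = ∑ i, (⟨c i, hc i⟩ : Q) * g (Sum.inl i) := by
      apply Subtype.ext
      rw [hyc, AddSubmonoidClass.coe_finsetSum]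
      rfl
    rw [h1]
    exact Ideal.sum_mem _ fun i _ => Ideal.mul_mem_left _ _ (Ideal.subset_span ⟨Sum.inl i, rfl⟩)
  have hJ : maximalIdeal Q = Ideal.span (Set.range g) := by
    apply le_antisymm
    · intro y hy
      have h1 := mem_max_of_surj (th η Q hQη) (th_surj η Q hQη) hy
      rw [← hw] at h1
      have h2 : Ideal.span (Set.range (Sum.elim (fun i : Fin 0 => (i.elim0 : im (residue η) Q)) w)) ≤
          (Ideal.span (Set.range g)).map (th η Q hQη) := by
        rw [Ideal.span_le]
        rintro _ ⟨i | i, rfl⟩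
        · exact i.elim0
        · have h3 : Sum.elim (fun i : Fin 0 => (i.elim0 : im (residue η) Q)) w (Sum.inr i) =
              th η Q hQη (w' i) := (hw' i).symm
          rw [h3]
          exact Ideal.mem_map_of_mem _ (Ideal.subset_span ⟨Sum.inr i, rfl⟩)
      have h3 : y ∈ ((Ideal.span (Set.range g)).map (th η Q hQη)).comap (th η Q hQη) :=
        Ideal.mem_comap.2 (h2 h1)
      rw [Ideal.comap_map_of_surjective _ (th_surj η Q hQη), ← RingHom.ker_eq_comap_bot, hker,
        sup_eq_left.2 hpJ] at h3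
      exact h3
    · rw [Ideal.span_le]
      rintro _ ⟨i | i, rfl⟩
      · exact le_maximalIdeal hp.ne_top ((hpv _).2 (hb i).2)
      · change w' i ∈ maximalIdeal Q
        rw [mem_maximalIdeal, mem_nonunits_iff]
        intro hu
        have h1 : w i ∈ maximalIdeal (im (residue η) Q) := by
          rw [← hw]
          exact Ideal.subset_span ⟨Sum.inr i, rfl⟩
        rw [mem_maximalIdeal, mem_nonunits_iff] at h1
        apply h1
        rw [← hw' i]
        exact hu.map _
  apply IsRegularLocalRing.of_spanFinrank_maximalIdeal_le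
  have h1 : (maximalIdeal Q).spanFinrank ≤ ρ + m := by
    rw [hJ]
    refine (Submodule.spanFinrank_span_le_ncard_of_finite (Set.finite_range g)).trans ?_
    rw [← Set.image_univ]
    refine (Set.ncard_image_le (Set.finite_univ)).trans ?_
    rw [Set.ncard_univ, Nat.card_eq_fintype_card, Fintype.card_sum, Fintype.card_fin,
      Fintype.card_fin]
  have h2 := height_add_quot p
  rw [hdim, hd₀] at h2
  refine le_trans ?_ h2
  have h3 : (maximalIdeal Q).spanFinrank ≤ ρ + m₀ + m := by omega
  exact_mod_cast h3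

end Pool.Agent.H413.BR
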