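import Pool.Agent.H413.BR.Defs2

/-!
# BR3: open sets after a blowing up (helper199 for helper413)
-/

set_option autoImplicit false

namespace Pool.Agent.H413.BR

open scoped Topology

section br3

variable {O F : Type} [CommRing O] [Field F] [Algebra O F]

/-- the elements of smallest order of a finitely generated module -/
theorem br3_gen {J : Submodule O F} (hJ : J.FG) (hne : ∃ j ∈ J, j ≠ 0) (W : ZR O F) :
    ∃ j ∈ J, j ≠ 0 ∧ ∀ x ∈ J, x / j ∈ W.1 := by
  obtain ⟨S, rfl⟩ := hJ
  have hS : ∃ s ∈ S, s ≠ 0 := by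
    by_contra h
    push Not at h
    obtain ⟨j, hj, hj0⟩ := hne
    apply hj0
    have h1 : Submodule.span O (S : Set F) ≤ ⊥ := Submodule.span_le.2 fun s hs => by
      rw [h s hs]
      exact Submodule.zero_mem _
    exact (Submodule.mem_bot O).1 (h1 hj)
  obtain ⟨s₀, hs₀, hs₀0⟩ := hS
  obtain ⟨j, hj, hjm⟩ := Finset.exists_max_image S (fun s => W.1.valuation s) ⟨s₀, hs₀⟩
  have hj0 : j ≠ 0 := by
    intro h
    have h1 := hjm s₀ hs₀
    rw [h, map_zero] at h1
    exact hs₀0 ((map_eq_zero _).1 (le_antisymm h1 zero_le))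
  refine ⟨j, Submodule.subset_span hj, hj0, fun x hx => ?_⟩
  have hv : W.1.valuation j ≠ 0 := (map_ne_zero _).2 hj0
  induction hx using Submodule.span_induction with
  | mem x hx =>
    rw [← ValuationSubring.valuation_le_one_iff, map_div₀]
    exact div_le_one_of_le₀ (hjm x hx) zero_le
  | zero => rw [zero_div]; exact W.1.zero_mem
  | add x y _ _ ha hb => rw [add_div]; exact W.1.add_mem _ _ ha hb
  | smul a x _ ha =>
    rw [Algebra.smul_def, mul_div_assoc]
    exact W.1.mul_mem _ _ (W.2 a) ha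

theorem br3_pow {J : Submodule O F} {W : ZR O F} {j : F} (hJ : ∀ x ∈ J, x / j ∈ W.1) (k : ℕ) :
    ∀ x ∈ J ^ k, x / j ^ k ∈ W.1 := by
  induction k with
  | zero =>
    intro x hx
    rw [pow_zero] at hx
    obtain ⟨o, rfl⟩ := Submodule.mem_one.1 hx
    rw [pow_zero, div_one]
    exact W.2 o
  | succ k ih =>
    intro x hx
    rw [pow_succ] at hx
    induction hx using Submodule.mul_induction_on' with
    | mem_mul_mem m hm n hn =>
      rw [pow_succ, mul_div_mul_comm]
      exact W.1.mul_mem _ _ (ih m hm) (hJ n hn)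
    | add x _ y _ ha hb => rw [add_div]; exact W.1.add_mem _ _ ha hb

/-- BR3. Open sets of `M` are open for a blowing up. -/
theorem Dom.isOpen {M M' : Submodule O F} (h : Dom M M') {U : Set (ZR O F)}
    (hU : IsOpen[topM M] U) : IsOpen[topM M'] U := by
  obtain ⟨J, hJ, hne, rfl⟩ := h
  have hle : topM (M * J) ≤ topM M := by
    refine le_generateFrom ?_
    rintro _ ⟨k, f, rfl⟩
    have h1 : bas M k f = ⋃₀ {V : Set (ZR O F) | ∃ j, j ∈ J ∧ j ≠ 0 ∧ f ∈ M ^ k ∧
        V = bas (M * J) k (f * j ^ k)} := by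
      apply Set.Subset.antisymm
      · intro W hW
        obtain ⟨hf, hf0, hW⟩ := hW
        obtain ⟨j, hj, hj0, hjW⟩ := br3_gen hJ hne W
        refine Set.mem_sUnion.2 ⟨_, ⟨j, hj, hj0, hf, rfl⟩, ?_⟩
        refine ⟨?_, mul_ne_zero hf0 (pow_ne_zero k hj0), ?_⟩
        · rw [mul_pow]
          exact Submodule.mul_mem_mul hf (Submodule.pow_mem_pow J hj k)
        · intro m hm
          rw [mul_pow] at hm
          induction hm using Submodule.mul_induction_on' with
          | mem_mul_mem m hm n hn =>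
            rw [mul_div_mul_comm]
            exact W.1.mul_mem _ _ (hW m hm) (br3_pow hjW k n hn)
          | add x _ y _ ha hb => rw [add_div]; exact W.1.add_mem _ _ ha hb
      · intro W hW
        obtain ⟨_, ⟨j, hj, hj0, hf, rfl⟩, hW⟩ := Set.mem_sUnion.1 hW
        obtain ⟨-, hf0, hW⟩ := hW
        have hjk : j ^ k ≠ 0 := pow_ne_zero k hj0
        refine ⟨hf, left_ne_zero_of_mul hf0, fun m hm => ?_⟩
        have h2 : m * j ^ k ∈ (M * J) ^ k := by
          rw [mul_pow]
          exact Submodule.mul_mem_mul hm (Submodule.pow_mem_pow J hj k)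
        have h3 := hW _ h2
        rwa [mul_div_mul_right _ _ hjk] at h3
    rw [h1]
    refine @isOpen_sUnion _ (topM (M * J)) _ ?_
    rintro _ ⟨j, -, -, -, rfl⟩
    exact TopologicalSpace.isOpen_generateFrom_of_mem ⟨k, _, rfl⟩
  exact hle U hU

end br3

end Pool.Agent.H413.BR
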