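import Pool.Agent.H413.BR.Defs2

/-!
# BR4: the set where an element of a chart is a unit is open
-/

set_option autoImplicit false

namespace Pool.Agent.H413.BR

open scoped Topology
open IsLocalRing Pool.Agent.TH188.QS Pool.Agent.TH188.ARC Pool.Agent.W418.LU2
  Pool.Agent.H918R2.Quad

variable {O F : Type} [CommRing O] [Field F] [Algebra O F]

/-- BR4 -/
theorem open_unit {M : Submodule O F} {g s : F} (hg : g ∈ M) (hg0 : g ≠ 0)
    (hs : s ∈ chart O M g) :
    IsOpen[topM M] {W : ZR O F | Gn W.1 M g ∧ s ≠ 0 ∧ s⁻¹ ∈ W.1} := by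
  obtain ⟨k, hk⟩ := chart_pow_mem hg hg0 hs
  have hgk : g ^ k ≠ 0 := pow_ne_zero _ hg0
  have hset : {W : ZR O F | Gn W.1 M g ∧ s ≠ 0 ∧ s⁻¹ ∈ W.1} =
      bas M 1 g ∩ bas M k (s * g ^ k) := by
    ext W
    constructor
    · rintro ⟨h1, h2, h3⟩
      refine ⟨?_, hk k le_rfl, mul_ne_zero h2 hgk, fun m hm => ?_⟩
      · show Gn W.1 (M ^ 1) g
        rw [pow_one]
        exact h1
      · have h4 : m / g ^ k ∈ W.1 := chart_le_V W.2 h1.2.2 (pow_div_mem hg0 k m hm)
        have h5 : m / (s * g ^ k) = s⁻¹ * (m / g ^ k) := by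
          field_simp
        rw [h5]
        exact W.1.mul_mem _ _ h3 h4
    · rintro ⟨h1, -, h3, h4⟩
      have h5 : Gn W.1 M g := by
        have h6 : Gn W.1 (M ^ 1) g := h1
        rwa [pow_one] at h6
      have hs0 : s ≠ 0 := left_ne_zero_of_mul h3
      refine ⟨h5, hs0, ?_⟩
      have h6 := h4 (g ^ k) (Submodule.pow_mem_pow _ hg _)
      have h7 : g ^ k / (s * g ^ k) = s⁻¹ := by
        field_simp
      rwa [h7] at h6
  rw [hset]
  have h1 : IsOpen[topM M] (bas M 1 g) :=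
    TopologicalSpace.isOpen_generateFrom_of_mem ⟨1, g, rfl⟩
  have h2 : IsOpen[topM M] (bas M k (s * g ^ k)) :=
    TopologicalSpace.isOpen_generateFrom_of_mem ⟨k, _, rfl⟩
  let _ : TopologicalSpace (ZR O F) := topM M
  exact IsOpen.inter h1 h2

end Pool.Agent.H413.BR
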