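import Pool.Agent.H413.BR.Defs2

/-!
# BR5
-/

set_option autoImplicit false

namespace Pool.Agent.H413.BR

theorem exists_irred {X : Type} [TopologicalSpace X] [TopologicalSpace.NoetherianSpace X]
    {Z : Set X} (hZ : IsClosed Z) (hne : Z.Nonempty) :
    ∃ U : Set X, IsOpen U ∧ (U ∩ Z).Nonempty ∧ IsPreirreducible (U ∩ Z) := by
  have hN : TopologicalSpace.NoetherianSpace Z :=
    Topology.IsInducing.subtypeVal.noetherianSpace
  have hNe : Nonempty Z := hne.to_subtype
  obtain ⟨x, hx⟩ := hne
  obtain ⟨V, hV, hVne, hVs⟩ :=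
    TopologicalSpace.NoetherianSpace.exists_isOpen_nonempty_subset_irreducibleComponent
      (irreducibleComponent (⟨x, hx⟩ : Z)) (irreducibleComponent_mem_irreducibleComponents _)
  have hVi : IsPreirreducible V :=
    (isIrreducible_irreducibleComponent (x := (⟨x, hx⟩ : Z))).2.open_subset hV hVs
  obtain ⟨U, hU, rfl⟩ := isOpen_induced_iff.mp hV
  have himg : U ∩ Z = Subtype.val '' (Subtype.val ⁻¹' U : Set Z) := by
    rw [Subtype.image_preimage_coe, Set.inter_comm]
  refine ⟨U, hU, ?_, ?_⟩
  · rw [himg]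
    exact hVne.image _
  · rw [himg]
    exact hVi.image _ continuous_subtype_val.continuousOn

end Pool.Agent.H413.BR
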