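import Pool.Agent.H413.BR.Defs2

/-!
# BR6: a valuation ring with given centre (helper105 for helper413)
-/

set_option autoImplicit false

namespace Pool.Agent.H413.BR

/-- A valuation ring with given centre. -/
theorem exists_val {F : Type} [Field F] (B : Subring F) (𝔭 : Ideal B) [𝔭.IsPrime] :
    ∃ η : ValuationSubring F, B ≤ η.toSubring ∧ ∀ b : B, b ∈ 𝔭 ↔ η.valuation (b : F) < 1 := by
  obtain ⟨V, hV, hloc⟩ := (LocalSubring.ofPrime B 𝔭).exists_le_valuationSubring
  have hle := LocalSubring.le_ofPrime B 𝔭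
  refine ⟨V, hle.trans hV, fun b => ?_⟩
  have h1 : IsUnit (algebraMap B (LocalSubring.ofPrime B 𝔭).toSubring b) ↔ b ∈ 𝔭.primeCompl :=
    IsLocalization.AtPrime.isUnit_to_map_iff _ 𝔭 b
  have h2 : IsUnit (Subring.inclusion hV (algebraMap B (LocalSubring.ofPrime B 𝔭).toSubring b)) ↔
      IsUnit (algebraMap B (LocalSubring.ofPrime B 𝔭).toSubring b) := isUnit_map_iff _ _
  have h3 : IsUnit (Subring.inclusion hV (algebraMap B (LocalSubring.ofPrime B 𝔭).toSubring b)) ↔
      V.valuation (b : F) = 1 :=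
    V.valuation_eq_one_iff ⟨(b : F), hV (hle b.2)⟩
  have h4 : V.valuation (b : F) < 1 ∨ V.valuation (b : F) = 1 :=
    V.valuation_lt_one_or_eq_one ⟨(b : F), hV (hle b.2)⟩
  have h5 : b ∈ 𝔭.primeCompl ↔ b ∉ 𝔭 := Iff.rfl
  constructor
  · intro hb
    refine h4.resolve_right (fun h => ?_)
    exact (h5.1 (h1.1 (h2.1 (h3.2 h)))) hb
  · intro hb
    by_contra hcon
    exact hb.ne (h3.1 (h2.2 (h1.2 (h5.2 hcon))))

end Pool.Agent.H413.BR
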