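import Pool.Agent.H413.BR.Defs2
import Pool.Agent.H413.BR.B1
import Pool.Agent.H413.BR.B2
import Pool.Agent.H413.BR.B4
import Pool.Agent.H413.BR.B5
import Pool.Agent.H413.BR.B6

/-!
# Bounded contact, BR7: a generic point of a piece of a closed set
-/

set_option autoImplicit false
set_option linter.unusedVariables false
set_option linter.unusedSectionVars false

namespace Pool.Agent.H413.BR

open scoped Topology
open IsLocalRing Pool.Agent.TH188.QS Pool.Agent.TH188.ARC Pool.Agent.W418.LU2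
  Pool.Agent.H918R2.Quad

variable {O F : Type} [CommRing O] [Field F] [Algebra O F]

theorem h413_unit_iff {W : ValuationSubring F} {b : F} (hb : b ∈ W) :
    (b ≠ 0 ∧ b⁻¹ ∈ W) ↔ ¬ W.valuation b < 1 := by
  constructor
  · rintro ⟨h0, h1⟩ h2
    have h3 : W.valuation b * W.valuation b⁻¹ < 1 :=
      mul_lt_one_aux' h2 ((W.valuation_le_one_iff _).2 h1)
    rw [← map_mul, mul_inv_cancel₀ h0, map_one] at h3
    exact lt_irrefl _ h3
  · intro h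
    have h1 : W.valuation b = 1 :=
      le_antisymm ((W.valuation_le_one_iff _).2 hb) (not_lt.1 h)
    have h0 : b ≠ 0 := by
      rintro rfl
      rw [map_zero] at h1
      exact zero_ne_one h1
    refine ⟨h0, (W.valuation_le_one_iff _).1 ?_⟩
    rw [map_inv₀, h1, inv_one]

theorem h413_gn_of {W : ValuationSubring F} {M : Submodule O F} {g h : F} {l : ℕ} (hg0 : g ≠ 0)
    (hB : (Pool.Agent.H918R2.Quad.chart O M g).toSubring ≤ W.toSubring) (hh : h ∈ M ^ l)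
    (hh0 : h ≠ 0) (hu : (h / g ^ l)⁻¹ ∈ W) : Gn W (M ^ l) h := by
  refine ⟨hh, hh0, fun m hm => ?_⟩
  have h1 : m / g ^ l ∈ W := hB (pow_div_mem hg0 l m hm)
  have h2 : m / h = m / g ^ l * (h / g ^ l)⁻¹ := by
    have := pow_ne_zero l hg0
    rw [inv_div, div_mul_div_cancel₀ this]
  rw [h2]
  exact W.mul_mem _ _ h1 hu

theorem h413_gn_inv {W : ValuationSubring F} {M : Submodule O F} {g h : F} {l : ℕ} (hg : g ∈ M)
    (h1 : Gn W (M ^ l) h) : (h / g ^ l)⁻¹ ∈ W := by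
  rw [inv_div]
  exact h1.2.2 _ (Submodule.pow_mem_pow _ hg _)

theorem exists_generic [IsNoetherianRing O] {M : Submodule O F} (hM : M.FG)
    (hne : ∃ g ∈ M, g ≠ 0) {Z : Set (ZR O F)} (hZ : IsClosed[topM M] Z) (hZne : Z.Nonempty) :
    ∃ η ∈ Z, ∃ U : Set (ZR O F), IsOpen[topM M] U ∧ η ∈ U ∧ ∃ g, (∀ W ∈ U, Gn W.1 M g) ∧
      ∀ W ∈ U, W ∈ Z → lo W.1.toSubring (chart O M g).toSubring ≤ η.1.toSubring := by
  let _ : TopologicalSpace (ZR O F) := topM M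
  have : TopologicalSpace.NoetherianSpace (ZR O F) := noeth_top hM hne
  obtain ⟨U₀, hU₀, ⟨W₀, hW₀U, hW₀Z⟩, hirr⟩ := exists_irred (X := ZR O F) hZ hZne
  obtain ⟨k, f, hf, hW₀f, hfU⟩ := exists_bas (M := M) hU₀ hW₀U
  obtain ⟨g₀, hg₀, hg₀0⟩ := hne
  obtain ⟨g, hg, hg0, hgW⟩ := exists_gen_max W₀.2 hM hg₀ hg₀0
  have hf0 : f ≠ 0 := hW₀f.2.1
  have hUo1 : IsOpen[topM M] (bas M k f) := TopologicalSpace.GenerateOpen.basic _ ⟨k, f, rfl⟩
  have hUo2 : IsOpen[topM M] (bas M 1 g) := TopologicalSpace.GenerateOpen.basic _ ⟨1, g, rfl⟩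
  have hUo : IsOpen[topM M] (bas M k f ∩ bas M 1 g) := IsOpen.inter hUo1 hUo2
  obtain ⟨U, hU⟩ : ∃ U : Set (ZR O F), U = bas M k f ∩ bas M 1 g := ⟨_, rfl⟩
  rw [← hU] at hUo
  have hUg : ∀ W ∈ U, Gn W.1 M g := by
    intro W hW
    rw [hU] at hW
    have h2 : Gn W.1 (M ^ 1) g := hW.2
    rwa [pow_one] at h2
  have hUU₀ : U ⊆ U₀ := fun W hW => hfU (by rw [hU] at hW; exact hW.1)
  have hW₀ : W₀ ∈ U := by
    rw [hU]
    refine ⟨hW₀f, ?_⟩
    show Gn W₀.1 (M ^ 1) g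
    rw [pow_one]
    exact ⟨hg, hg0, hgW⟩
  obtain ⟨B, hBdef⟩ : ∃ B : Subring F, B = (Pool.Agent.H918R2.Quad.chart O M g).toSubring :=
    ⟨_, rfl⟩
  have hBW : ∀ W ∈ U, B ≤ W.1.toSubring := by
    intro W hW
    rw [hBdef]
    exact chart_le_V W.2 (hUg W hW).2.2
  -- the prime ideal
  let 𝔭 : Ideal B :=
    { carrier := {b | ∀ W ∈ U, W ∈ Z → W.1.valuation (b : F) < 1}
      zero_mem' := fun W _ _ => by
        show W.1.valuation ((0 : B) : F) < 1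
        rw [ZeroMemClass.coe_zero, map_zero]
        exact zero_lt_one
      add_mem' := fun {a b} ha hb W hW hWZ => by
        show W.1.valuation ((a + b : B) : F) < 1
        rw [Subring.coe_add]
        exact Valuation.map_add_lt _ (ha W hW hWZ) (hb W hW hWZ)
      smul_mem' := fun c b hb W hW hWZ => by
        show W.1.valuation ((c * b : B) : F) < 1
        rw [Subring.coe_mul, map_mul]
        exact mul_lt_one_aux ((W.1.valuation_le_one_iff _).2 (hBW W hW c.2)) (hb W hW hWZ) }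
  have hmem : ∀ b : B, b ∈ 𝔭 ↔ ∀ W ∈ U, W ∈ Z → W.1.valuation (b : F) < 1 := fun b => Iff.rfl
  -- an element which is a unit at a point of `U ∩ Z` is not in the ideal
  have hunit : ∀ b : B, b ∉ 𝔭 ↔ ∃ W ∈ U, W ∈ Z ∧ (b : F) ≠ 0 ∧ (b : F)⁻¹ ∈ W.1 := by
    intro b
    rw [hmem]
    push Not
    constructor
    · rintro ⟨W, hW, hWZ, h⟩
      exact ⟨W, hW, hWZ, (h413_unit_iff (hBW W hW b.2)).2 (not_lt.2 h)⟩
    · rintro ⟨W, hW, hWZ, h⟩
      exact ⟨W, hW, hWZ, not_lt.1 ((h413_unit_iff (hBW W hW b.2)).1 h)⟩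
  have hprime : 𝔭.IsPrime := by
    refine Ideal.isPrime_iff.2 ⟨?_, ?_⟩
    · rw [Ideal.ne_top_iff_one, hunit]
      refine ⟨W₀, hW₀, hW₀Z, ?_, ?_⟩
      · rw [OneMemClass.coe_one]
        exact one_ne_zero
      · rw [OneMemClass.coe_one, inv_one]
        exact W₀.1.one_mem
    · intro a b hab
      by_contra hcon
      push Not at hcon
      obtain ⟨ha, hb⟩ := hcon
      obtain ⟨W₁, hW₁, hW₁Z, ha1⟩ := (hunit a).1 ha
      obtain ⟨W₂, hW₂, hW₂Z, hb1⟩ := (hunit b).1 hb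
      have haB : (a : F) ∈ Pool.Agent.H918R2.Quad.chart O M g := hBdef.le a.2
      have hbB : (b : F) ∈ Pool.Agent.H918R2.Quad.chart O M g := hBdef.le b.2
      have hoa := open_unit (M := M) hg hg0 haB
      have hob := open_unit (M := M) hg hg0 hbB
      obtain ⟨W, ⟨hWU₀, hWZ⟩, ⟨hWU, hWa⟩, -, hWb⟩ := hirr _ _ (hUo.inter hoa) (hUo.inter hob)
        ⟨W₁, ⟨hUU₀ hW₁, hW₁Z⟩, hW₁, hUg W₁ hW₁, ha1⟩ ⟨W₂, ⟨hUU₀ hW₂, hW₂Z⟩, hW₂, hUg W₂ hW₂, hb1⟩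
      have h3 : ((a * b : B) : F) ≠ 0 ∧ ((a * b : B) : F)⁻¹ ∈ W.1 := by
        rw [Subring.coe_mul, mul_inv]
        exact ⟨mul_ne_zero hWa.2.1 hWb.2.1, W.1.mul_mem _ _ hWa.2.2 hWb.2.2⟩
      exact (hunit _).2 ⟨W, hWU, hWZ, h3⟩ hab
  obtain ⟨η, hBη, hη⟩ := exists_val B 𝔭
  have hunitη : ∀ b : F, b ∈ B → ((b ≠ 0 ∧ b⁻¹ ∈ η) ↔
      ∃ W ∈ U, W ∈ Z ∧ b ≠ 0 ∧ b⁻¹ ∈ W.1) := by
    intro b hb
    rw [h413_unit_iff (hBη hb)]
    have := hη ⟨b, hb⟩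
    exact (not_congr this).symm.trans (hunit ⟨b, hb⟩)
  have hOη : ∀ o, algebraMap O F o ∈ η := by
    intro o
    refine hBη ?_
    rw [hBdef]
    exact Subalgebra.algebraMap_mem _ o
  have hBη' : (Pool.Agent.H918R2.Quad.chart O M g).toSubring ≤ η.toSubring := by
    rw [← hBdef]
    exact hBη
  have hpow : ∀ (l : ℕ) (h : F), h ∈ M ^ l → h / g ^ l ∈ B := by
    intro l h hh
    rw [hBdef]
    exact pow_div_mem hg0 l h hh
  have hgη : Gn η M g := ⟨hg, hg0, fun m hm => by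
    have := hpow 1 m (by rwa [pow_one])
    rw [pow_one] at this
    exact hBη this⟩
  have hηU : (⟨η, hOη⟩ : ZR O F) ∈ U := by
    rw [hU]
    refine ⟨?_, ?_⟩
    · show Gn η (M ^ k) f
      refine h413_gn_of hg0 hBη' hf hf0 ?_
      refine ((hunitη _ (hpow k f hf)).2 ⟨W₀, hW₀, hW₀Z, ?_, ?_⟩).2
      · exact div_ne_zero hf0 (pow_ne_zero _ hg0)
      · exact h413_gn_inv hg hW₀f
    · show Gn η (M ^ 1) g
      rw [pow_one]
      exact hgη
  have hηZ : (⟨η, hOη⟩ : ZR O F) ∈ Z := by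
    by_contra hcon
    obtain ⟨l, h, hh, hηh, hsub⟩ := exists_bas (M := M) hZ.isOpen_compl hcon
    have hh0 : h ≠ 0 := hηh.2.1
    obtain ⟨W, hWU, hWZ, hW0, hWi⟩ := (hunitη _ (hpow l h hh)).1
      ⟨div_ne_zero hh0 (pow_ne_zero _ hg0), h413_gn_inv hg hηh⟩
    have : W ∈ bas M l h := h413_gn_of hg0 (hBdef ▸ hBW W hWU) hh hh0 hWi
    exact hsub this hWZ
  refine ⟨⟨η, hOη⟩, hηZ, U, hUo, hηU, g, hUg, ?_⟩
  intro W hWU hWZ x hx
  obtain ⟨a, ha, b, hb, hb0, hbW, rfl⟩ := hx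
  have ha' : a ∈ B := by rw [hBdef]; exact ha
  have hb' : b ∈ B := by rw [hBdef]; exact hb
  exact η.mul_mem _ _ (hBη ha') ((hunitη b hb').2 ⟨W, hWU, hWZ, hb0, hbW⟩).2

end Pool.Agent.H413.BR
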