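import Pool.Agent.H413.BR.Defs2
import Pool.Agent.H413.BR.B8

set_option autoImplicit false
set_option linter.unusedVariables false
set_option linter.unusedSectionVars false

namespace Pool.Agent.H413.BR

open scoped Topology
open IsLocalRing Pool.Agent.TH188.QS Pool.Agent.TH188.ARC Pool.Agent.W418.LU2
  Pool.Agent.H918R2.Quad

variable {O F : Type} [CommRing O] [Field F] [Algebra O F]

lemma h187_chart_le {M : Submodule O F} {g : F} {V : ValuationSubring F}
    (hOV : ∀ o, algebraMap O F o ∈ V) (h : ∀ m ∈ M, m / g ∈ V) :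
    (chart O M g).toSubring ≤ V.toSubring := by
  let V' : Subalgebra O F := { V.toSubring with algebraMap_mem' := hOV }
  have : chart O M g ≤ V' := Algebra.adjoin_le (by
    rintro _ ⟨m, hm, rfl⟩
    exact h m hm)
  exact this

lemma h187_gn_pow {M : Submodule O F} {g : F} {W : ValuationSubring F}
    (hOW : ∀ o, algebraMap O F o ∈ W) (h : Gn W M g) (k : ℕ) : ∀ m ∈ M ^ k, m / g ^ k ∈ W :=
  fun m hm => h187_chart_le hOW h.2.2 (pow_div_mem h.2.1 k m hm)

theorem cut_gn [IsNoetherianRing O] {M : Submodule O F} (hM : M.FG) (hne : ∃ g ∈ M, g ≠ 0)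
    (η : ZR O F) {g₀ : F} (hg₀ : Gn η.1 M g₀) :
    ∃ k₀, 1 ≤ k₀ ∧ ∀ k, k₀ ≤ k → ∀ (W : ZR O F) (Q : Subring F), LR W.1 M Q →
      ¬ Q ≤ η.1.toSubring → ∃ f ∈ cut η.1 η.2 (M ^ k) (g₀ ^ k), Gn W.1 (M ^ k) f := by
  obtain ⟨G, k₀, hG, hk₀, hgen⟩ := cut_gens hM hne η hg₀
  refine ⟨k₀, hk₀, fun k hk W Q hQ hnot => ?_⟩
  obtain ⟨g, hgG, hg⟩ := hG W
  have hg0 : g ≠ 0 := hg.2.1
  have hgk0 : g ^ k ≠ 0 := pow_ne_zero _ hg0
  have hWk := h187_gn_pow W.2 hg k
  by_cases hη : Gn η.1 M g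
  · -- `g` generates `M` at `η`
    have hBη := h187_chart_le η.2 hη.2.2
    have hBW := h187_chart_le W.2 hg.2.2
    have hQ' : Q = lo W.1.toSubring (chart O M g).toSubring :=
      LR.unique W.2 hQ ⟨g, hg.1, hg.2.1, hg.2.2, rfl⟩
    rw [hQ'] at hnot
    obtain ⟨x, hx, hxη⟩ := Set.not_subset.1 hnot
    obtain ⟨a, ha, b, hb, hb0, hbW, rfl⟩ := hx
    have hb1 : b⁻¹ ∉ η.1 := by
      intro h
      exact hxη (η.1.toSubring.mul_mem (hBη ha) h)
    have hbη : η.1.valuation b < 1 := by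
      have h1 : ¬ η.1.valuation b⁻¹ ≤ 1 := fun h => hb1 ((η.1.valuation_le_one_iff _).1 h)
      rw [not_le, map_inv₀] at h1
      have h2 : η.1.valuation b ≠ 0 := (Valuation.ne_zero_iff _).2 hb0
      exact (one_lt_inv₀ (zero_lt_iff.2 h2)).1 h1
    obtain ⟨n, c, f, hc, hf, hbsum⟩ := hgen k hk g hgG hη b hb hbη
    have hb2 : W.1.valuation b = 1 := by
      refine le_antisymm ((W.1.valuation_le_one_iff _).2 (hBW hb)) ?_
      have h1 := (W.1.valuation_le_one_iff _).2 hbW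
      rw [map_inv₀] at h1
      have h2 : W.1.valuation b ≠ 0 := (Valuation.ne_zero_iff _).2 hb0
      exact (inv_le_one₀ (zero_lt_iff.2 h2)).1 h1
    obtain ⟨i, hi⟩ : ∃ i, ¬ W.1.valuation (f i / g ^ k) < 1 := by
      by_contra hcon
      push Not at hcon
      have h1 : W.1.valuation b < 1 := by
        rw [hbsum]
        refine Valuation.map_sum_lt _ one_ne_zero fun i _ => ?_
        rw [map_mul]
        exact mul_lt_one_aux ((W.1.valuation_le_one_iff _).2 (hBW (hc i))) (hcon i)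
      rw [hb2] at h1
      exact lt_irrefl _ h1
    rw [not_lt] at hi
    have hfk : f i ∈ M ^ k := (hf i).1
    have hf0 : f i ≠ 0 := by
      intro h
      rw [h, zero_div, map_zero] at hi
      exact not_le.2 zero_lt_one hi
    refine ⟨f i, hf i, hfk, hf0, fun m hm => ?_⟩
    have h1 : m / f i = (m / g ^ k) * (f i / g ^ k)⁻¹ := by
      field_simp
    rw [h1]
    refine W.1.mul_mem _ _ (hWk m hm) ?_
    rw [← W.1.valuation_le_one_iff, map_inv₀]
    exact inv_le_one_of_one_le₀ hi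
  · -- `g` does not generate `M` at `η`
    have h1 : ∃ m ∈ M, m / g ∉ η.1 := by
      by_contra hcon
      push Not at hcon
      exact hη ⟨hg.1, hg0, hcon⟩
    obtain ⟨m, hm, hmη⟩ := h1
    have hm0 : m ≠ 0 := by
      rintro rfl
      apply hmη
      rw [zero_div]
      exact η.1.zero_mem
    have hlt : η.1.valuation (g / g₀) < 1 := by
      have h2 : g / g₀ = (m / g₀) * (m / g)⁻¹ := by
        have := hg₀.2.1
        field_simp
      rw [h2, map_mul]
      refine mul_lt_one_aux ((η.1.valuation_le_one_iff _).2 (hg₀.2.2 m hm)) ?_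
      have h3 : ¬ η.1.valuation (m / g) ≤ 1 := fun h => hmη ((η.1.valuation_le_one_iff _).1 h)
      rw [not_le] at h3
      rw [map_inv₀]
      exact inv_lt_one_of_one_lt₀ h3
    refine ⟨g ^ k, ⟨Submodule.pow_mem_pow _ hg.1 _, ?_⟩, Submodule.pow_mem_pow _ hg.1 _, hgk0, hWk⟩
    rw [← div_pow, map_pow]
    exact pow_lt_one₀ zero_le hlt (by omega)

end Pool.Agent.H413.BR
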