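import Pool.Agent.H413.BR.Defs2
import Pool.Agent.H413.BR.B1
import Pool.Agent.H413.BR.B2
import Pool.Agent.H413.BR.B3
import Pool.Agent.H413.BR.B4
import Pool.Agent.H413.BR.B7
import Pool.Agent.H413.BR.B9
import Pool.Agent.H413.BR.B10
import Pool.Agent.H413.BR.B11
import Pool.Agent.H413.BR.B22
import Pool.Agent.H413.BR.B24
import Pool.Agent.H413.BR.B25
import Pool.Agent.H413.BR.B26
import Pool.Agent.H413.BR.B27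

/-!
# Bounded contact: the engine
-/

set_option autoImplicit false
set_option linter.unusedVariables false
set_option linter.unusedSectionVars false

namespace Pool.Agent.H413.BR

open scoped Topology
open IsLocalRing Pool.Agent.TH188.QS Pool.Agent.TH188.ARC Pool.Agent.W418.LU2
  Pool.Agent.H918R2.Quad

/-- Noetherian induction on closed sets. -/
lemma h127_noeth_ind {X : Type} [TopologicalSpace X] [TopologicalSpace.NoetherianSpace X]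
    (P : Set X → Prop)
    (h : ∀ Z, IsClosed Z → (∀ Z', IsClosed Z' → Z' ⊂ Z → P Z') → P Z) :
    ∀ Z, IsClosed Z → P Z := by
  have hwf : WellFoundedLT (TopologicalSpace.Closeds X) := inferInstance
  intro Z hZ
  obtain ⟨C, rfl⟩ : ∃ C : TopologicalSpace.Closeds X, (C : Set X) = Z := ⟨⟨Z, hZ⟩, rfl⟩
  clear hZ
  induction C using hwf.induction with
  | _ C ih =>
    refine h _ C.isClosed fun Z' hZ' hlt => ?_
    exact ih ⟨Z', hZ'⟩ (by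
      rw [← SetLike.coe_ssubset_coe]
      exact hlt)

section

variable {O F : Type} [CommRing O] [Field F] [Algebra O F]

/-- The claim of the engine. -/
def h127_Cla (𝓜 : Submodule O F → Prop) (𝓕 : Set (ZR O F)) (ϖ : ZR O F → F) (m : ℕ)
    (M : Submodule O F) (Z : Set (ZR O F)) : Prop :=
  ∃ M', 𝓜 M' ∧ Dom M M' ∧
    (∀ (W : ZR O F) (Q : Subring F), LR W.1 M Q → IsRegularLocalRing Q → LR W.1 M' Q) ∧
    (∀ W ∈ 𝓕, W ∈ Z → ∀ Q, LR W.1 M Q → Lev W.1 (ϖ W) m Q → Rq W M') ∧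
    (∀ W, W ∉ Z → ∀ Q, LR W.1 M Q → LR W.1 M' Q)

lemma h127_cut_le (η : ZR O F) (N : Submodule O F) (h : F) : cut η.1 η.2 N h ≤ N :=
  fun m hm => hm.1

lemma h127_cut_fg [IsNoetherianRing O] (η : ZR O F) {M : Submodule O F} (hM : M.FG) (k : ℕ)
    (h : F) : (cut η.1 η.2 (M ^ k) h).FG := by
  have h1 : (M ^ k).FG := hM.pow k
  have h2 : IsNoetherian O (M ^ k : Submodule O F) := isNoetherian_of_fg_of_noetherian _ h1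
  exact (isNoetherian_submodule.1 h2) _ (h127_cut_le η _ h)

/-- A nonunit at `η` is a nonunit at `W`. -/
lemma h127_val_lt {W η : ZR O F} {M : Submodule O F} {Q : Subring F} (h : LR W.1 M Q)
    (hQ : Q ≤ η.1.toSubring) {e : F} (he : e ∈ Q) (he0 : e ≠ 0) (hlt : η.1.valuation e < 1) :
    W.1.valuation e < 1 := by
  have h1 : W.1.valuation e ≤ 1 := (W.1.valuation_le_one_iff e).2 (LR.le h he)
  rcases h1.lt_or_eq with h2 | h2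
  · exact h2
  · exfalso
    have h3 : e⁻¹ ∈ W.1.toSubring := by
      change e⁻¹ ∈ W.1
      rw [← W.1.valuation_le_one_iff, map_inv₀, h2, inv_one]
    have h4 : e⁻¹ ∈ η.1 := hQ (LR.ic h e he he0 h3)
    rw [← η.1.valuation_le_one_iff, map_inv₀] at h4
    have h5 : η.1.valuation e ≠ 0 := (Valuation.ne_zero_iff _).2 he0
    exact absurd ((inv_le_one₀ (zero_lt_iff.2 h5)).1 h4) (not_le.2 hlt)

/-- The main case: `Z` is the closure of the bad points. -/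
lemma h127_main [IsNoetherianRing O] (hHJ : HJ O) (hSR : SR O F) {𝓜 : Submodule O F → Prop}
    {Z₀ : Set (ZR O F)} (hcl : Cl 𝓜 Z₀) (𝓕 : Set (ZR O F)) (ϖ : ZR O F → F)
    (hϖ : ∀ W ∈ 𝓕, ϖ W ≠ 0 ∧ ϖ W ∈ W.1)
    (hdiv : ∀ W ∈ 𝓕, ∀ M, 𝓜 M → ∀ Q, LR W.1 M Q → ∀ z ∈ Q, W.1.valuation z < 1 →
      z * (ϖ W)⁻¹ ∈ W.1) (m : ℕ)
    (IH : ∀ m' < m, ∀ M, 𝓜 M → ∀ Z : Set (ZR O F), IsClosed[topM M] Z → Z ⊆ Z₀ →
      h127_Cla 𝓜 𝓕 ϖ m' M Z) (M : Submodule O F) (hM : 𝓜 M) (Z : Set (ZR O F))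
    (hZ : IsClosed[topM M] Z) (hZ0 : Z ⊆ Z₀)
    (IHZ : ∀ Z', IsClosed[topM M] Z' → Z' ⊂ Z → h127_Cla 𝓜 𝓕 ϖ m M Z')
    (hE : Z.Nonempty) (hcE : ∀ U : Set (ZR O F), IsOpen[topM M] U → (U ∩ Z).Nonempty →
      ∃ W ∈ U, W ∈ 𝓕 ∧ W ∈ Z ∧ ∃ Q, LR W.1 M Q ∧ Lev W.1 (ϖ W) m Q ∧ ¬ IsRegularLocalRing Q) :
    h127_Cla 𝓜 𝓕 ϖ m M Z := by
  have hMfg := hcl.fg M hM
  have hMne := hcl.ne M hM
  obtain ⟨η, hηZ, U, hU, hηU, g, hUg, hUle⟩ := exists_generic hMfg hMne hZ hE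
  have hηg := hUg η hηU
  have hnoe : IsNoetherianRing (chart O M g).toSubring := chart_noeth hMfg g
  obtain ⟨s₁, hs₁B, hs₁0, hs₁η, hs₁⟩ := nice_quot hHJ hMfg η hηg
  obtain ⟨s₂, hs₂B, hs₂0, hs₂η, hs₂⟩ := nice_gen hMfg η hηg
  obtain ⟨U₁, hU₁⟩ : ∃ U₁ : Set (ZR O F), U₁ = {W | Gn W.1 M g ∧ s₁ ≠ 0 ∧ s₁⁻¹ ∈ W.1} := ⟨_, rfl⟩
  obtain ⟨U₂, hU₂⟩ : ∃ U₂ : Set (ZR O F), U₂ = {W | Gn W.1 M g ∧ s₂ ≠ 0 ∧ s₂⁻¹ ∈ W.1} := ⟨_, rfl⟩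
  have hoU₁ : IsOpen[topM M] U₁ := by
    rw [hU₁]
    exact open_unit hηg.1 hηg.2.1 hs₁B
  have hoU₂ : IsOpen[topM M] U₂ := by
    rw [hU₂]
    exact open_unit hηg.1 hηg.2.1 hs₂B
  obtain ⟨U', hU'⟩ : ∃ U' : Set (ZR O F), U' = U ∩ U₁ ∩ U₂ := ⟨_, rfl⟩
  have hoU' : IsOpen[topM M] U' := by
    rw [hU']
    exact @IsOpen.inter _ (topM M) _ _ (@IsOpen.inter _ (topM M) _ _ hU hoU₁) hoU₂
  have hηU' : η ∈ U' := by
    rw [hU', hU₁, hU₂]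
    exact ⟨⟨hηU, hηg, hs₁0, hs₁η⟩, hηg, hs₂0, hs₂η⟩
  -- the local rings on the open set
  have hloc : ∀ W ∈ U', W ∈ Z → ∀ Q, LR W.1 M Q →
      Q = lo W.1.toSubring (chart O M g).toSubring ∧ Q ≤ η.1.toSubring ∧ Nice η.1 Q ∧
        lo η.1.toSubring Q = lo η.1.toSubring (chart O M g).toSubring := by
    intro W hW hWZ Q hQ
    rw [hU', hU₁, hU₂] at hW
    obtain ⟨⟨hWU, hWg, -, hW1⟩, -, -, hW2⟩ := hW
    have h1 : Q = lo W.1.toSubring (chart O M g).toSubring := LR.unique W.2 hQ (Gn.LR hWg)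
    have h2 := hUle W hWU hWZ
    rw [h1]
    exact ⟨rfl, h2, ⟨hs₁ W hWg hW1 h2, hs₂ W hWg hW2 h2⟩, lo_lo (Gn.le hWg) h2⟩
  obtain ⟨R, hR⟩ : ∃ R : Subring F, R = lo η.1.toSubring (chart O M g).toSubring := ⟨_, rfl⟩
  rw [← hR] at hloc
  have hRη : LR η.1 M R := hR ▸ Gn.LR hηg
  have hRle : R ≤ η.1.toSubring := LR.le hRη
  have hloR : lo η.1.toSubring R = R := IC.lo_eq (LR.ic hRη)
  obtain ⟨W₁, hW₁U, hW₁F, hW₁Z, Q₁, hQ₁, hL₁, hn₁⟩ := hcE U' hoU' ⟨η, hηU', hηZ⟩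
  have hRnr : ¬ IsRegularLocalRing R := by
    intro hreg
    apply hn₁
    obtain ⟨h1, h2, h3, h4⟩ := hloc W₁ hW₁U hW₁Z Q₁ hQ₁
    have h5 : Gn W₁.1 M g := by
      rw [hU', hU₁] at hW₁U
      exact hW₁U.1.2.1
    have h6 := lo_noeth (Gn.le h5) hnoe
    rw [← h1] at h6
    refine reg_of_nice h2 h6.1 h6.2 h3 ?_
    rw [h4]
    exact hreg
  -- the induction hypothesis for the complement of the open set
  obtain ⟨Z', hZ'⟩ : ∃ Z' : Set (ZR O F), Z' = Z ∩ U'ᶜ := ⟨_, rfl⟩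
  have hcZ' : IsClosed[topM M] Z' := by
    rw [hZ']
    exact @IsClosed.inter _ _ _ (topM M) hZ (@IsOpen.isClosed_compl _ (topM M) _ hoU')
  have hlt : Z' ⊂ Z := by
    rw [hZ']
    refine ⟨Set.inter_subset_left, fun h => ?_⟩
    exact (h hηZ).2 hηU'
  have hηZ' : η ∉ Z' := by
    rw [hZ']
    exact fun h => h.2 hηU'
  obtain ⟨M₁, hM₁, hd₁, hr₁, hp₁, hq₁⟩ := IHZ Z' hcZ' hlt
  have hM₁fg := hcl.fg M₁ hM₁
  have hM₁ne := hcl.ne M₁ hM₁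
  have hR₁ : LR η.1 M₁ R := hq₁ η hηZ' R hRη
  obtain ⟨g₁, hg₁, hg₁R⟩ := LR.gn hR₁
  obtain ⟨k₀, -, hbl⟩ := LR_bl hM₁fg hM₁ne η hg₁
  obtain ⟨k₁, -, hcut⟩ := cut_gn hM₁fg hM₁ne η hg₁
  obtain ⟨k₂, hstep⟩ := hcl.step M₁ hM₁ η (hZ0 hηZ) g₁ hg₁
  obtain ⟨k, hk0, hk1, hk2⟩ : ∃ k, k₀ ≤ k ∧ k₁ ≤ k ∧ k₂ ≤ k :=
    ⟨k₀ + k₁ + k₂, by omega, by omega, by omega⟩
  have hblk := hbl k hk0
  have hcutk := hcut k hk1
  have hstepk := hstep k hk2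
  have hNfg : (cut η.1 η.2 (M₁ ^ k) (g₁ ^ k)).FG := h127_cut_fg η hM₁fg k _
  have hNle : cut η.1 η.2 (M₁ ^ k) (g₁ ^ k) ≤ M₁ ^ k := h127_cut_le η _ _
  obtain ⟨N, hN⟩ : ∃ N, N = cut η.1 η.2 (M₁ ^ k) (g₁ ^ k) := ⟨_, rfl⟩
  rw [← hN] at hblk hcutk hstepk hNfg hNle
  have hNne : ∃ f ∈ N, f ≠ 0 := by
    obtain ⟨y, hy, hy0, hyη⟩ := exists_ne_of_not_regular hRle (by rw [hloR]; exact hRnr)
    obtain ⟨-, g₂, hg₂, hg₂0, -, -⟩ := hblk η R hR₁ hRle ⟨y, hy, hy0, hyη⟩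
    by_contra hcon
    push Not at hcon
    have h1 : N = ⊥ := (Submodule.eq_bot_iff _).2 hcon
    rw [h1, Submodule.mul_bot, Submodule.mem_bot] at hg₂
    exact hg₂0 hg₂
  have hM₂ : 𝓜 (M₁ * N) := hstepk hNne
  have hd₂ : Dom M₁ (M₁ * N) := ⟨N, hNfg, hNne, rfl⟩
  have hdM₂ : Dom M (M₁ * N) := hd₁.trans hd₂
  -- away from the centre nothing changes
  have h3 : ∀ (W : ZR O F) (Q : Subring F), LR W.1 M₁ Q → ¬ Q ≤ η.1.toSubring →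
      LR W.1 (M₁ * N) Q := by
    intro W Q hQ hn
    obtain ⟨f, hf, hfg⟩ := hcutk W Q hQ hn
    exact LR_mul_of_gn hNle hf hfg hQ
  have h3' : ∀ (W : ZR O F) (Q : Subring F), LR W.1 M₁ Q → IsRegularLocalRing Q →
      LR W.1 (M₁ * N) Q := by
    intro W Q hQ hreg
    refine h3 W Q hQ fun hle => hRnr ?_
    have h1 := hSR M₁ hM₁fg W η Q hQ hle hreg
    rw [LR.unique η.2 hR₁ (LR.gen hQ hle)]
    exact h1
  have h4 : ∀ (W : ZR O F), W ∉ Z → ∀ Q, LR W.1 M Q → LR W.1 (M₁ * N) Q := by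
    intro W hW Q hQ
    have hWZ' : W ∉ Z' := fun h => hW (hlt.1 h)
    refine h3 W Q (hq₁ W hWZ' Q hQ) fun hle => ?_
    obtain ⟨l, f, hf, hWf, hfZ⟩ := exists_bas (M := M) (U := Zᶜ) hZ.isOpen_compl hW
    exact hfZ (bas_gen hQ hle hWf) hηZ
  have h5 : ∀ (W : ZR O F), W ∈ 𝓕 → W ∈ U' → W ∈ Z → ∀ Q, LR W.1 M Q → Lev W.1 (ϖ W) m Q →
      ∃ m' < m, ∃ Q', LR W.1 (M₁ * N) Q' ∧ Lev W.1 (ϖ W) m' Q' := by
    intro W hWF hWU hWZ Q hQ hL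
    obtain ⟨h6, h7, h8, h9⟩ := hloc W hWU hWZ Q hQ
    have hWZ' : W ∉ Z' := by
      rw [hZ']
      exact fun h => h.2 hWU
    have hQ₁' := hq₁ W hWZ' Q hQ
    have hnr : ¬ IsRegularLocalRing (lo η.1.toSubring Q) := by
      rw [h9]
      exact hRnr
    obtain ⟨⟨e, he⟩, hbQ⟩ := hblk W Q hQ₁' h7 (exists_ne_of_not_regular h7 hnr)
    have heW : W.1.valuation e < 1 := h127_val_lt hQ₁' h7 he.mem he.ne he.lt
    obtain ⟨m', hm', hL'⟩ := lev_step (hϖ W hWF).1 h7 h8 hnr he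
      (hdiv W hWF M₁ hM₁ Q hQ₁' e he.mem heW) heW hL
    exact ⟨m', hm', _, hbQ, hL'⟩
  obtain ⟨m₀, hm₀, -⟩ := h5 W₁ hW₁F hW₁U hW₁Z Q₁ hQ₁ hL₁
  obtain ⟨n, rfl⟩ : ∃ n, m = n + 1 := ⟨m - 1, by omega⟩
  have hcZ₂ : IsClosed[topM (M₁ * N)] Z := by
    rw [← @isOpen_compl_iff _ _ (topM (M₁ * N))]
    exact Dom.isOpen hdM₂ hZ.isOpen_compl
  obtain ⟨M', hM', hd', hr', hp', hq'⟩ := IH n (Nat.lt_succ_self n) (M₁ * N) hM₂ Z hcZ₂ hZ0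
  refine ⟨M', hM', hdM₂.trans hd', fun W Q hQ hreg =>
    hr' W Q (h3' W Q (hr₁ W Q hQ hreg) hreg) hreg, ?_, ?_⟩
  · intro W hWF hWZ Q hQ hL
    by_cases hWU : W ∈ U'
    · obtain ⟨m', hm', Q', hQ', hL'⟩ := h5 W hWF hWU hWZ Q hQ hL
      exact hp' W hWF hWZ Q' hQ' (hL'.mono (hϖ W hWF).2 (by omega))
    · obtain ⟨Q₂, hQ₂, hreg⟩ := hp₁ W hWF (by rw [hZ']; exact ⟨hWZ, hWU⟩) Q hQ hL
      exact ⟨Q₂, hr' W Q₂ (h3' W Q₂ hQ₂ hreg) hreg, hreg⟩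
  · intro W hW Q hQ
    exact hq' W hW Q (h4 W hW Q hQ)

theorem engine [IsNoetherianRing O] (hHJ : HJ O) (hSR : SR O F)
    {𝓜 : Submodule O F → Prop}
    {Z₀ : Set (ZR O F)} (hcl : Cl 𝓜 Z₀) (𝓕 : Set (ZR O F)) (ϖ : ZR O F → F)
    (hϖ : ∀ W ∈ 𝓕, ϖ W ≠ 0 ∧ ϖ W ∈ W.1)
    (hdiv : ∀ W ∈ 𝓕, ∀ M, 𝓜 M → ∀ Q, LR W.1 M Q → ∀ z ∈ Q, W.1.valuation z < 1 →
      z * (ϖ W)⁻¹ ∈ W.1) (m : ℕ) :
    ∀ M, 𝓜 M → ∀ Z : Set (ZR O F), IsClosed[topM M] Z → Z ⊆ Z₀ →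
      ∃ M', 𝓜 M' ∧ Dom M M' ∧
        (∀ (W : ZR O F) (Q : Subring F), LR W.1 M Q → IsRegularLocalRing Q → LR W.1 M' Q) ∧
        (∀ W ∈ 𝓕, W ∈ Z → ∀ Q, LR W.1 M Q → Lev W.1 (ϖ W) m Q → Rq W M') ∧
        (∀ W, W ∉ Z → ∀ Q, LR W.1 M Q → LR W.1 M' Q) := by
  induction m using Nat.strong_induction_on with
  | _ m IH =>
    intro M hM
    have hnt := noeth_top (hcl.fg M hM) (hcl.ne M hM)
    refine @h127_noeth_ind _ (topM M) hnt (fun Z => Z ⊆ Z₀ → h127_Cla 𝓜 𝓕 ϖ m M Z) ?_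
    intro Z hZ ih hZ0
    obtain ⟨E, hE⟩ : ∃ E : Set (ZR O F), E = {W | W ∈ 𝓕 ∧ W ∈ Z ∧ ∃ Q, LR W.1 M Q ∧
      Lev W.1 (ϖ W) m Q ∧ ¬ IsRegularLocalRing Q} := ⟨_, rfl⟩
    have hEZ : E ⊆ Z := by
      rw [hE]
      exact fun W hW => hW.2.1
    -- points of `Z` which are not in `E`
    have hout : ∀ W ∈ 𝓕, W ∈ Z → W ∉ E → ∀ Q, LR W.1 M Q → Lev W.1 (ϖ W) m Q → Rq W M := by
      intro W hWF hWZ hWE Q hQ hL
      refine ⟨Q, hQ, ?_⟩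
      by_contra hcon
      apply hWE
      rw [hE]
      exact ⟨hWF, hWZ, Q, hQ, hL, hcon⟩
    have hclE : @closure _ (topM M) E ⊆ Z := @closure_minimal _ (topM M) _ _ hEZ hZ
    by_cases hcE : @closure _ (topM M) E = Z
    · rcases Z.eq_empty_or_nonempty with hZe | hZe
      · refine ⟨M, hM, Dom.refl M, fun W Q h _ => h, ?_, fun W _ Q hQ => hQ⟩
        intro W hWF hWZ
        rw [hZe] at hWZ
        exact absurd hWZ (Set.notMem_empty W)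
      · refine h127_main hHJ hSR hcl 𝓕 ϖ hϖ hdiv m (fun m' hm' => IH m' hm') M hM Z hZ hZ0
          (fun Z' hZ' hlt => ih Z' hZ' hlt (hlt.1.trans hZ0)) hZe ?_
        rintro U hU ⟨W, hWU, hWZ⟩
        rw [← hcE] at hWZ
        obtain ⟨W', hW'U, hW'E⟩ := (@mem_closure_iff _ (topM M) _ _).1 hWZ U hU hWU
        rw [hE] at hW'E
        exact ⟨W', hW'U, hW'E⟩
    · obtain ⟨M', hM', hd', hr', hp', hq'⟩ := ih _ (@isClosed_closure _ (topM M) E)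
        (hclE.ssubset_of_ne hcE) (hclE.trans hZ0)
      refine ⟨M', hM', hd', hr', ?_, fun W hW Q hQ => hq' W (fun h => hW (hclE h)) Q hQ⟩
      intro W hWF hWZ Q hQ hL
      by_cases hWE : W ∈ E
      · exact hp' W hWF (@subset_closure _ (topM M) E W hWE) Q hQ hL
      · obtain ⟨Q₂, hQ₂, hreg⟩ := hout W hWF hWZ hWE Q hQ hL
        exact ⟨Q₂, hr' W Q₂ hQ₂ hreg, hreg⟩

end

end Pool.Agent.H413.BR
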