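import Pool.Agent.H413.BR.Defs2

/-!
# BR31: the class of modules between `I ^ a • M₀ ^ D` and `M₀ ^ D` (by helper806)
-/

set_option autoImplicit false

namespace Pool.Agent.H413.BR

open scoped Topology
open IsLocalRing Pool.Agent.TH188.QS Pool.Agent.TH188.ARC Pool.Agent.W418.LU2
  Pool.Agent.H918R2.Quad

section eng

variable {O F : Type} [CommRing O] [Field F] [Algebra O F]

lemma h806_div_pow {η : ZR O F} {M : Submodule O F} {g : F} (h : Gn η.1 M g) (k : ℕ) :
    ∀ m ∈ M ^ k, m / g ^ k ∈ η.1 := by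
  induction k with
  | zero =>
    intro m hm
    rw [pow_zero, Submodule.mem_one] at hm
    obtain ⟨o, rfl⟩ := hm
    rw [pow_zero, div_one]
    exact η.2 o
  | succ k ih =>
    intro m hm
    rw [pow_succ] at hm
    induction hm using Submodule.mul_induction_on' with
    | mem_mul_mem x hx y hy =>
      have h1 : x * y / g ^ (k + 1) = x / g ^ k * (y / g) := by
        rw [pow_succ]
        exact (div_mul_div_comm _ _ _ _).symm
      rw [h1]
      exact η.1.mul_mem _ _ (ih x hx) (h.2.2 y hy)
    | add x _ y _ hx hy =>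
      rw [add_div]
      exact η.1.add_mem _ _ hx hy

lemma h806_A (I : Ideal O) (M N : Submodule O F) : I • (M * N) ≤ (I • M) * N := by
  rw [Submodule.smul_le]
  intro i hi x hx
  induction hx using Submodule.mul_induction_on' with
  | mem_mul_mem m hm n hn =>
    rw [← smul_mul_assoc]
    exact Submodule.mul_mem_mul (Submodule.smul_mem_smul hi hm) hn
  | add x _ y _ hx hy =>
    rw [smul_add]
    exact Submodule.add_mem _ hx hy

lemma h806_B (I : Ideal O) (M N : Submodule O F) : I • (M * N) ≤ M * (I • N) := by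
  rw [Submodule.smul_le]
  intro i hi x hx
  induction hx using Submodule.mul_induction_on' with
  | mem_mul_mem m hm n hn =>
    rw [← mul_smul_comm]
    exact Submodule.mul_mem_mul hm (Submodule.smul_mem_smul hi hn)
  | add x _ y _ hx hy =>
    rw [smul_add]
    exact Submodule.add_mem _ hx hy

lemma h806_pow {I : Ideal O} {M₀ M : Submodule O F} {a D : ℕ} (h : I ^ a • (M₀ ^ D) ≤ M) (k : ℕ) :
    I ^ (a * k) • (M₀ ^ (D * k)) ≤ M ^ k := by
  induction k with
  | zero =>
    rw [mul_zero, mul_zero, pow_zero, pow_zero, pow_zero]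
    exact Submodule.smul_le_right
  | succ k ih =>
    rw [Nat.mul_succ, Nat.mul_succ, pow_add, pow_add, pow_succ, mul_smul]
    exact ((Submodule.smul_mono le_rfl (h806_B _ _ _)).trans (h806_A _ _ _)).trans
      (mul_le_mul' ih h)

theorem cl_CI [IsNoetherianRing O] (I : Ideal O) (M₀ : Submodule O F) :
    Cl (CI I M₀) (ZI O F I) where
  fg M h := h.1
  ne M h := h.2.1
  step := by
    rintro M ⟨hfg, -, D, hD, hle, a, ha⟩ η hη g₀ hg
    refine ⟨0, fun k _ hf => ?_⟩
    obtain ⟨f, hfc, hf0⟩ := hf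
    obtain ⟨N, hN⟩ : ∃ N, N = cut η.1 η.2 (M ^ k) (g₀ ^ k) := ⟨_, rfl⟩
    rw [← hN] at hfc ⊢
    have hNle : N ≤ M ^ k := by
      rw [hN]
      exact fun x hx => hx.1
    have hI : I • (M ^ k) ≤ N := by
      rw [Submodule.smul_le]
      intro i hi m hm
      rw [hN]
      refine ⟨Submodule.smul_mem _ i hm, ?_⟩
      have h1 := h806_div_pow hg k m hm
      rw [Algebra.smul_def, mul_div_assoc, map_mul]
      have h2 : η.1.valuation (algebraMap O F i) < 1 := hη i hi
      have h3 : η.1.valuation (m / g₀ ^ k) ≤ 1 := (η.1.valuation_le_one_iff _).2 h1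
      calc η.1.valuation (algebraMap O F i) * η.1.valuation (m / g₀ ^ k)
          ≤ η.1.valuation (algebraMap O F i) * 1 := mul_le_mul_right h3 _
        _ < 1 := by rwa [mul_one]
    refine ⟨?_, ⟨g₀ * f, Submodule.mul_mem_mul hg.1 hfc, mul_ne_zero hg.2.1 hf0⟩, D * (k + 1),
      ?_, ?_, a * (k + 1) + 1, ?_⟩
    · refine Submodule.FG.mul hfg ?_
      exact Submodule.FG.of_le (Submodule.FG.pow hfg k) hNle
    · exact Nat.one_le_iff_ne_zero.2 (Nat.mul_ne_zero (by omega) (by omega))
    · rw [Nat.mul_succ, pow_add, mul_comm (M₀ ^ (D * k)), pow_mul M₀ D k]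
      exact mul_le_mul' hle (hNle.trans (pow_le_pow_left' hle k))
    · rw [pow_succ', mul_smul]
      have h1 := h806_pow ha (k + 1)
      refine (Submodule.smul_mono le_rfl h1).trans ?_
      rw [pow_succ']
      exact (h806_B _ _ _).trans (mul_le_mul' le_rfl hI)

end eng

end Pool.Agent.H413.BR
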