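import Pool.Agent.H413.BR.Defs2

set_option autoImplicit false
set_option linter.unusedVariables false
set_option linter.unusedSectionVars false

namespace Pool.Agent.H413.BR

open scoped Topology
open IsLocalRing Pool.Agent.TH188.QS Pool.Agent.TH188.ARC Pool.Agent.W418.LU2
  Pool.Agent.H918R2.Quad

section eng

variable {O F : Type} [CommRing O] [Field F] [Algebra O F]

/-- BR32. -/
theorem ZI_closed (I : Ideal O) (M : Submodule O F) : IsClosed[topM M] (ZI O F I) := by
  letI : TopologicalSpace (ZR O F) := topM M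
  have h : (ZI O F I)ᶜ = ⋃ i ∈ I, bas M 0 (algebraMap O F i) := by
    ext W
    constructor
    · intro hW
      have hW' : ¬ ∀ i ∈ I, W.1.valuation (algebraMap O F i) < 1 := hW
      push Not at hW'
      obtain ⟨i, hi, h1⟩ := hW'
      have hne : algebraMap O F i ≠ 0 := by
        intro h0
        rw [h0, map_zero] at h1
        exact absurd h1 (not_le.2 zero_lt_one)
      have hinv : (algebraMap O F i)⁻¹ ∈ W.1 := by
        rw [← W.1.valuation_le_one_iff, map_inv₀]
        exact inv_le_one_of_one_le₀ h1
      refine Set.mem_iUnion₂.2 ⟨i, hi, ?_, hne, ?_⟩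
      · rw [pow_zero]
        exact Submodule.mem_one.2 ⟨i, rfl⟩
      · intro m hm
        rw [pow_zero] at hm
        obtain ⟨o, rfl⟩ := Submodule.mem_one.1 hm
        rw [div_eq_mul_inv]
        exact mul_mem (W.2 o) hinv
    · intro hW
      obtain ⟨i, hi, h1⟩ := Set.mem_iUnion₂.1 hW
      intro hZ
      have hlt : W.1.valuation (algebraMap O F i) < 1 := hZ i hi
      have h2 := h1.2.2 1 (by rw [pow_zero]; exact Submodule.mem_one.2 ⟨1, map_one _⟩)
      rw [← W.1.valuation_le_one_iff, one_div, map_inv₀] at h2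
      have hpos : 0 < W.1.valuation (algebraMap O F i) :=
        zero_lt_iff.2 ((W.1.valuation.ne_zero_iff).2 h1.2.1)
      exact absurd ((one_le_inv₀ hpos).2 hlt.le) (not_le.2 (lt_of_le_of_ne h2 fun he => by
        rw [inv_eq_one] at he
        rw [he] at hlt
        exact lt_irrefl _ hlt))
  rw [← isOpen_compl_iff, h]
  exact isOpen_biUnion fun i _ => TopologicalSpace.isOpen_generateFrom_of_mem ⟨0, _, rfl⟩

end eng

end Pool.Agent.H413.BR
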