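import Pool.Agent.H413.BR.Defs2
import Pool.Agent.H413.BR.B2
import Pool.Agent.H413.BR.B9
import Pool.Agent.H413.BR.B10

set_option autoImplicit false
set_option linter.unusedVariables false
set_option linter.unusedSectionVars false

namespace Pool.Agent.H413.BR

open scoped Topology
open IsLocalRing Pool.Agent.TH188.QS Pool.Agent.TH188.ARC Pool.Agent.W418.LU2
  Pool.Agent.H918R2.Quad

section eng33

variable {O F : Type} [CommRing O] [Field F] [Algebra O F]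

theorem cl_CZ [IsNoetherianRing O] {M₀ : Submodule O F} {Z₀ : Set (ZR O F)}
    (hZ : IsClosed[topM M₀] Z₀) : Cl (CZ M₀ Z₀) Z₀ := by
  refine ⟨fun M h => h.1, fun M h => h.2.1, ?_⟩
  rintro M ⟨hfg, hne, hdom, hloc⟩ η hη g₀ hg₀
  obtain ⟨k₀, -, hk⟩ := cut_gn hfg hne η hg₀
  refine ⟨k₀, fun k hk0 hcut => ?_⟩
  have hle : cut η.1 η.2 (M ^ k) (g₀ ^ k) ≤ M ^ k := fun m hm => hm.1
  have hcfg : (cut η.1 η.2 (M ^ k) (g₀ ^ k)).FG := by
    have h1 : IsNoetherian O (M ^ k : Submodule O F) :=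
      isNoetherian_of_fg_of_noetherian _ (hfg.pow k)
    have h2 := isNoetherian_submodule.1 h1 _ hle
    exact h2
  obtain ⟨f, hf, hf0⟩ := hcut
  refine ⟨hfg.mul hcfg, ?_, hdom.trans ⟨_, hcfg, ⟨f, hf, hf0⟩, rfl⟩, ?_⟩
  · obtain ⟨g, hg, hg0⟩ := hne
    exact ⟨g * f, Submodule.mul_mem_mul hg hf, mul_ne_zero hg0 hf0⟩
  · intro W hW Q hQ
    have hnot : ¬ Q ≤ η.1.toSubring := by
      intro hle'
      have hopen : IsOpen[topM M₀] Z₀ᶜ := (@isOpen_compl_iff _ _ (topM M₀)).2 hZ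
      obtain ⟨l, f', -, hWb, hsub⟩ := exists_bas hopen (show W ∈ Z₀ᶜ from hW)
      exact hsub (bas_gen hQ hle' hWb) hη
    obtain ⟨f', hf', hgn⟩ := hk k hk0 W Q (hloc W hW Q hQ) hnot
    exact LR_mul_of_gn hle hf' hgn (hloc W hW Q hQ)

end eng33

end Pool.Agent.H413.BR
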