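import Pool.Agent.H413.BR.Defs2
import Pool.Agent.H413.BR.B34

/-!
# BR35: quadratic transforms of a one-dimensional domain
-/

set_option autoImplicit false
set_option linter.unusedVariables false
set_option linter.unusedSectionVars false

namespace Pool.Agent.H413.BR

open scoped Topology
open IsLocalRing Pool.Agent.TH188.QS Pool.Agent.TH188.ARC Pool.Agent.W418.LU2
  Pool.Agent.H918R2.Quad

section br35

variable {K : Type} [Field K]

lemma br35_lo_le {A S : Subring K} {L : Subfield K} (h : S ≤ L.toSubring) : lo A S ≤ L.toSubring := by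
  rintro y ⟨a, ha, b, hb, -, -, rfl⟩
  exact L.mul_mem (h ha) (L.inv_mem (h hb))

lemma br35_qt_le {A S : Subring K} {L : Subfield K} (h : S ≤ L.toSubring) : qt A S ≤ L.toSubring := by
  refine br35_lo_le ?_
  rw [Subring.closure_le]
  rintro t (ht | ⟨y, hy, z, -, hz, rfl⟩)
  · exact h ht
  · exact L.mul_mem (h hy) (L.inv_mem (h hz.mem))

lemma br35_qseq_le (W : ValuationSubring K) (D : Subring K) (n : ℕ) :
    qseq W D n ≤ (Subfield.closure (D : Set K)).toSubring := by
  induction n with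
  | zero => exact br35_lo_le fun y hy => Subfield.subset_closure hy
  | succ n ih => exact br35_qt_le ih

lemma br35_frac {W : ValuationSubring K} {D : Subring K} {n : ℕ} {y : K} (hy : y ∈ qseq W D n) :
    ∃ a ∈ D, ∃ b ∈ D, b ≠ 0 ∧ y * b = a := by
  have h1 : y ∈ Subfield.closure (D : Set K) := br35_qseq_le W D n hy
  rw [Subfield.mem_closure_iff] at h1
  obtain ⟨a, ha, b, hb, rfl⟩ := h1
  rw [Subring.closure_eq] at ha hb
  by_cases hb0 : b = 0
  · exact ⟨0, D.zero_mem, 1, D.one_mem, one_ne_zero, by rw [hb0]; simp⟩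
  · exact ⟨a, ha, b, hb, hb0, by field_simp⟩

/-- the multiples of `c` in `N` -/
def br35_sub {D₁ : Subring K} (N : Subring K) (h : D₁ ≤ N) (c : K) : Submodule D₁ K where
  carrier := {y | ∃ u ∈ N, y = c * u}
  add_mem' := by
    rintro _ _ ⟨u, hu, rfl⟩ ⟨u', hu', rfl⟩
    exact ⟨u + u', N.add_mem hu hu', by ring⟩
  zero_mem' := ⟨0, N.zero_mem, by ring⟩
  smul_mem' := by
    rintro a _ ⟨u, hu, rfl⟩
    refine ⟨(a : K) * u, N.mul_mem (h a.2) hu, ?_⟩
    change (a : K) * (c * u) = _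
    ring

lemma br35_mem {D₁ : Subring K} {N : Subring K} {h : D₁ ≤ N} {c y : K} :
    y ∈ br35_sub N h c ↔ ∃ u ∈ N, y = c * u := Iff.rfl

theorem dv_dim_one {K : Type} [Field K] {W : ValuationSubring K} {D : Subring K}
    (hD : D ≤ W.toSubring) (hnoe : IsNoetherianRing D)
    (hdim : Ring.DimensionLEOne (lo W.toSubring D)) (hne : ∃ y ∈ D, y ≠ 0 ∧ W.valuation y < 1)
    {x : K} (hx : x ∈ lo W.toSubring D) (hx0 : x ≠ 0) :
    ∃ n, ∀ z : ℕ → K, (∀ i < n, z i ∈ qseq W D i ∧ z i ≠ 0 ∧ W.valuation (z i) < 1) →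
      x * (∏ i ∈ Finset.range n, z i)⁻¹ ∉ W := by
  have hnoe1 : IsNoetherianRing (lo W.toSubring D) := noeth_lo hD
  obtain ⟨hQV, hmono, hAQ, hIC, -⟩ := seq_basic (Q := qseq W D) hD hne rfl (fun n => rfl)
  obtain ⟨-, hmi⟩ := seq_fg (Q := qseq W D) hD hne rfl (fun n => rfl)
  choose e he using hmi
  have hx1 : (⟨x, hx⟩ : lo W.toSubring D) ≠ 0 := fun h => hx0 (congrArg Subtype.val h)
  obtain ⟨L, hL⟩ := krull_akizuki (D := lo W.toSubring D) (K := K) Subtype.val_injective hx1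
  refine ⟨L + 1, fun z hz hcon => ?_⟩
  obtain ⟨n, hn⟩ : ∃ n, n = L + 1 := ⟨_, rfl⟩
  rw [← hn] at hz hcon
  obtain ⟨Z, hZ⟩ : ∃ Z : ℕ → K, ∀ j, Z j = ∏ i ∈ Finset.range j, z i := ⟨_, fun _ => rfl⟩
  obtain ⟨E, hE⟩ : ∃ E : ℕ → K, ∀ j, E j = ∏ i ∈ Finset.range j, e i := ⟨_, fun _ => rfl⟩
  have hZ1 : ∀ j, Z (j + 1) = Z j * z j := fun j => by rw [hZ, hZ, Finset.prod_range_succ]
  have hE1 : ∀ j, E (j + 1) = E j * e j := fun j => by rw [hE, hE, Finset.prod_range_succ]
  have hZ0 : ∀ j, j ≤ n → Z j ≠ 0 := by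
    intro j hj
    rw [hZ, Finset.prod_ne_zero_iff]
    intro i hi
    exact (hz i (lt_of_lt_of_le (Finset.mem_range.1 hi) hj)).2.1
  have hE0 : ∀ j, E j ≠ 0 := by
    intro j
    rw [hE, Finset.prod_ne_zero_iff]
    exact fun i _ => (he i).ne
  have hzW : ∀ i < n, z i ∈ W := fun i hi => hQV i (hz i hi).1
  have hze : ∀ i < n, z i * (e i)⁻¹ ∈ W := by
    intro i hi
    refine (he i).min _ (hz i hi).1 ?_
    rintro ⟨h0, h1⟩
    have h2 := (hz i hi).2.2
    have h3 : W.valuation ((z i)⁻¹) ≤ 1 := (W.valuation_le_one_iff _).2 h1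
    have h4 : W.valuation (z i * (z i)⁻¹) = 1 := by rw [mul_inv_cancel₀ h0, map_one]
    rw [map_mul] at h4
    have h5 : W.valuation (z i) * W.valuation ((z i)⁻¹) < 1 := mul_lt_one_of_lt_of_le h2 h3
    exact absurd h4 h5.ne
  -- `x / Z_j` is in `W`
  have hxZ : ∀ k, k ≤ n → x * (Z (n - k))⁻¹ ∈ W := by
    intro k
    induction k with
    | zero =>
      intro _
      rw [Nat.sub_zero, hZ]
      exact hcon
    | succ k ih =>
      intro hk
      have h1 := ih (by omega)
      have h2 : n - k = (n - (k + 1)) + 1 := by omega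
      rw [h2, hZ1] at h1
      have h3 : x * (Z (n - (k + 1)))⁻¹ =
          x * (Z (n - (k + 1)) * z (n - (k + 1)))⁻¹ * z (n - (k + 1)) := by
        have h4 := (hz (n - (k + 1)) (by omega)).2.1
        have h5 := hZ0 (n - (k + 1)) (by omega)
        field_simp
      rw [h3]
      exact W.mul_mem _ _ h1 (hzW _ (by omega))
  have hZE : ∀ j, j ≤ n → Z j * (E j)⁻¹ ∈ W := by
    intro j
    induction j with
    | zero =>
      intro _
      rw [hZ, hE, Finset.range_zero, Finset.prod_empty, Finset.prod_empty, inv_one, mul_one]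
      exact W.one_mem
    | succ j ih =>
      intro hj
      have h1 : Z (j + 1) * (E (j + 1))⁻¹ = (Z j * (E j)⁻¹) * (z j * (e j)⁻¹) := by
        rw [hZ1, hE1, mul_inv]
        ring
      rw [h1]
      exact W.mul_mem _ _ (ih (by omega)) (hze j (by omega))
  have hxE : ∀ j, j ≤ n → x * (E j)⁻¹ ∈ W := by
    intro j hj
    have h1 := hxZ (n - j) (by omega)
    have h2 : n - (n - j) = j := by omega
    rw [h2] at h1
    have h3 : x * (E j)⁻¹ = (x * (Z j)⁻¹) * (Z j * (E j)⁻¹) := by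
      have h4 := hZ0 j hj
      field_simp
    rw [h3]
    exact W.mul_mem _ _ h1 (hZE j hj)
  -- `x / E_j` is in `Q_j`
  have hxQ : ∀ j, j ≤ n → x * (E j)⁻¹ ∈ qseq W D j := by
    intro j
    induction j with
    | zero =>
      intro _
      rw [hE, Finset.range_zero, Finset.prod_empty, inv_one, mul_one]
      exact hx
    | succ j ih =>
      intro hj
      have h1 := ih (by omega)
      have h2 : x * (E (j + 1))⁻¹ = (x * (E j)⁻¹) * (e j)⁻¹ := by
        rw [hE1, mul_inv]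
        ring
      have h3 := hxE (j + 1) hj
      rw [h2] at h3 ⊢
      refine div_mem_qt (he j) h1 ?_
      rintro ⟨h4, h5⟩
      apply (he j).nu
      have h6 : (e j)⁻¹ = (x * (E j)⁻¹)⁻¹ * ((x * (E j)⁻¹) * (e j)⁻¹) := by
        rw [← mul_assoc, inv_mul_cancel₀ h4, one_mul]
      rw [h6]
      exact W.toSubring.mul_mem h5 h3
  have hDN : lo W.toSubring D ≤ qseq W D n := hmono (Nat.zero_le n)
  have heN : ∀ i, i ≤ n → e i ∈ qseq W D n := fun i hi => hmono hi (he i).mem
  have hfin := hL (qseq W D n) (fun a => hDN a.2) (by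
    intro y hy
    obtain ⟨a, ha, b, hb, hb0, hab⟩ := br35_frac hy
    exact ⟨⟨a, le_lo _ _ ha⟩, ⟨b, le_lo _ _ hb⟩, fun h => hb0 (congrArg Subtype.val h), hab⟩) n
    (fun i => br35_sub (qseq W D n) hDN (E (n - i))) ?_ ?_ ?_
  · omega
  · intro i hi
    have h2 : n - i = (n - (i + 1)) + 1 := by omega
    rw [lt_iff_le_and_ne]
    constructor
    · intro y hy
      obtain ⟨u, hu, rfl⟩ := br35_mem.1 hy
      refine br35_mem.2 ⟨e (n - (i + 1)) * u, Subring.mul_mem _ (heN _ (by omega)) hu, ?_⟩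
      rw [h2, hE1]
      ring
    · intro heq
      have h3 : E (n - (i + 1)) ∈ br35_sub (qseq W D n) hDN (E (n - (i + 1))) :=
        br35_mem.2 ⟨1, Subring.one_mem _, by ring⟩
      rw [← heq] at h3
      obtain ⟨u, hu, h4⟩ := br35_mem.1 h3
      rw [h2, hE1] at h4
      apply (he (n - (i + 1))).nu
      have h5 : (e (n - (i + 1)))⁻¹ = u := by
        have h6 := hE0 (n - (i + 1))
        have h7 := (he (n - (i + 1))).ne
        have h8 : e (n - (i + 1)) * u = 1 := by
          apply mul_left_cancel₀ h6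
          rw [← mul_assoc, ← h4, mul_one]
        exact (eq_inv_of_mul_eq_one_right h8).symm
      rw [h5]
      exact hQV n hu
  · intro y hy
    obtain ⟨u, hu, rfl⟩ := br35_mem.1 hy
    rw [Nat.sub_self, hE, Finset.range_zero, Finset.prod_empty, one_mul]
    exact hu
  · intro y hy
    refine br35_mem.2 ⟨x * (E n)⁻¹ * y, Subring.mul_mem _ (hxQ n le_rfl) hy, ?_⟩
    change x * y = _
    rw [Nat.sub_zero]
    have h6 := hE0 n
    field_simp

end br35

end Pool.Agent.H413.BR
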