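import Pool.Agent.H413.BR.Defs2

/-!
# BR36: the sequence of the quadratic transforms becomes regular
-/

set_option autoImplicit false
set_option linter.unusedVariables false
set_option linter.unusedSectionVars false

namespace Pool.Agent.H413.BR

open scoped Topology
open IsLocalRing Pool.Agent.TH188.QS Pool.Agent.TH188.ARC Pool.Agent.W418.LU2
  Pool.Agent.H918R2.Quad

theorem exists_reg_qseq {R : Type} [CommRing R] (hR : HJ R) {K : Type} [Field K]
    {V : ValuationSubring K} (ρ : R →+* K) {T : Set K} (hT : T.Finite)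
    (hAV : Subring.closure ((ρ.range : Set K) ∪ T) ≤ V.toSubring)
    (hne : ∃ y ∈ Subring.closure ((ρ.range : Set K) ∪ T), y ≠ 0 ∧ V.valuation y < 1)
    (hdv : ∀ x ∈ Subring.closure ((ρ.range : Set K) ∪ T), x ≠ 0 → ∃ n, ∀ z : ℕ → K,
      (∀ i < n, z i ∈ qseq V (Subring.closure ((ρ.range : Set K) ∪ T)) i ∧ z i ≠ 0 ∧
        V.valuation (z i) < 1) → x * (∏ i ∈ Finset.range n, z i)⁻¹ ∉ V) :
    ∃ m, IsRegularLocalRing (qseq V (Subring.closure ((ρ.range : Set K) ∪ T)) m) := by
  classical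
  set A := Subring.closure ((ρ.range : Set K) ∪ T) with hA
  obtain ⟨L, _, j, σ, hj, hLfr⟩ := exists_frac A
  have hji : Function.Injective j := j.injective
  have hρA : ∀ x : R, ρ x ∈ A := fun x => Subring.subset_closure (Or.inl ⟨x, rfl⟩)
  let ρ' : R →+* L := σ.comp (ρ.codRestrict A hρA)
  have hjρ : ∀ x, j (ρ' x) = ρ x := fun x => hj _
  let T' : Set L := {z | ∃ t : A, (t : K) ∈ T ∧ z = σ t}
  have hTT' : T' ⊆ (fun t : T => σ ⟨t, Subring.subset_closure (Or.inr t.2)⟩) ''
      Set.univ := by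
    rintro _ ⟨t, ht, rfl⟩
    exact ⟨⟨t, ht⟩, trivial, rfl⟩
  have hTfin : Finite T := hT
  have hT'f : T'.Finite := ((Set.finite_univ).image _).subset hTT'
  -- the image of `A`
  have hcl : (Subring.closure ((ρ'.range : Set L) ∪ T')).map j = A := by
    rw [RingHom.map_closure, hA]
    congr 1
    ext z
    constructor
    · rintro ⟨w, ⟨x, rfl⟩ | ⟨t, ht, rfl⟩, rfl⟩
      · exact Or.inl ⟨x, (hjρ x).symm⟩
      · right
        rw [hj]
        exact ht
    · rintro (⟨x, rfl⟩ | hz)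
      · exact ⟨ρ' x, Or.inl ⟨x, rfl⟩, hjρ x⟩
      · exact ⟨σ ⟨z, Subring.subset_closure (Or.inr hz)⟩, Or.inr
          ⟨⟨z, Subring.subset_closure (Or.inr hz)⟩, hz, rfl⟩, hj _⟩
  have hmemA : ∀ a : A, σ a ∈ Subring.closure ((ρ'.range : Set L) ∪ T') := by
    intro a
    have h1 : (a : K) ∈ (Subring.closure ((ρ'.range : Set L) ∪ T')).map j := by
      rw [hcl]; exact a.2
    obtain ⟨w, hw, hwa⟩ := h1
    have h2 : w = σ a := hji (by rw [hwa, hj])
    rwa [← h2]
  have hfr : ∀ z : L, Fr (Subring.closure ((ρ'.range : Set L) ∪ T')) z := by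
    intro z
    obtain ⟨a, b, hb, rfl⟩ := hLfr z
    have hb0 : σ b ≠ 0 := by
      intro h
      apply hb
      apply Subtype.ext
      rw [← hj b, h, map_zero]
      rfl
    exact ⟨_, hmemA a, _, hmemA b, hb0, rfl⟩
  obtain ⟨S, _, _, _, φ, hφr, r, f, D, hf, hgen, hdet⟩ := hR L ρ' T' hT'f hfr
  have hrange : (j.comp φ).range = A := by
    rw [← hcl, ← hφr]
    ext z
    constructor
    · rintro ⟨s, rfl⟩
      exact ⟨φ s, ⟨s, rfl⟩, rfl⟩
    · rintro ⟨_, ⟨s, rfl⟩, rfl⟩
      exact ⟨s, rfl⟩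
  have hdet' : (Matrix.of fun i k => (j.comp φ) (D k (f i))).det ≠ 0 := by
    have h1 : (Matrix.of fun i k => (j.comp φ) (D k (f i))) =
        j.mapMatrix (Matrix.of fun i k => φ (D k (f i))) := by
      ext i k
      rfl
    rw [h1, ← RingHom.map_det]
    exact fun h => hdet (hji (by rw [map_zero]; exact h))
  have hdetA : (Matrix.of fun i k => (j.comp φ) (D k (f i))).det ∈ A := by
    have h1 : (Matrix.of fun i k => (j.comp φ) (D k (f i))) =
        (j.comp φ).mapMatrix (Matrix.of fun i k => D k (f i)) := by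
      ext i k
      rfl
    rw [h1, ← RingHom.map_det, ← hrange]
    exact ⟨_, rfl⟩
  have hnoe : IsNoetherianRing (j.comp φ).range := isNoetherianRing_of_surjective _ _
    (j.comp φ).rangeRestrict (j.comp φ).rangeRestrict_surjective
  rw [hrange] at hnoe
  obtain ⟨-, hmi⟩ := seq_fg (Q := qseq V A) hAV hne rfl (fun n => rfl)
  have hD : ∀ k, Der (j.comp φ) (fun s => (j.comp φ) (D k s)) := fun k =>
    { add := fun a b => by rw [map_add, map_add]
      mul := fun a b => by
        rw [Derivation.leibniz, smul_eq_mul, smul_eq_mul, map_add, map_mul, map_mul] }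
  have hφV : ∀ s, (j.comp φ) s ∈ V := fun s => hAV (by rw [← hrange]; exact ⟨s, rfl⟩)
  refine exists_regular' (Q := qseq V A) hφV hD (C := 1) one_ne_zero
    (fun k s => by rw [one_mul]; exact hφV _) (f₀ := f) (fun i => ?_) (fun s hs => ?_)
    (by rw [hrange]; rfl) (fun n => rfl) hmi ?_
  · rw [RingHom.comp_apply, hf, map_zero]
  · have h1 : φ s = 0 := hji (by rw [map_zero]; exact hs)
    obtain ⟨t, ht, hts⟩ := hgen s h1
    exact ⟨t, fun h => ht (hji (by rw [map_zero]; exact h)), hts⟩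
  · obtain ⟨n, hn⟩ := hdv _ hdetA hdet'
    refine ⟨n, fun z hz => ?_⟩
    rw [one_pow, one_mul]
    exact hn z hz

end Pool.Agent.H413.BR
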