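import Pool.Agent.H413.BR.Defs3
import Pool.Agent.H413.BR.B6
import Pool.Agent.H413.BR.B14
import Pool.Agent.H413.BR.B16
import Pool.Agent.H413.BR.B26
import Pool.Agent.H413.BR.B35
import Pool.Agent.H413.BR.B36

/-!
# BR37: Serre's theorem in the case of coheight one (helper284 for helper413)
-/

set_option autoImplicit false
set_option linter.unusedVariables false
set_option linter.unusedSectionVars false

namespace Pool.Agent.H413.BR

open scoped Topology
open IsLocalRing Pool.Agent.TH188.QS Pool.Agent.TH188.ARC Pool.Agent.W418.LU2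
  Pool.Agent.H918R2.Quad

namespace XBR37

variable {F : Type} [Field F]

lemma val_one_inv {V : ValuationSubring F} {y : F} (hy : y ∈ V) (h0 : y ≠ 0)
    (h : ¬ V.valuation y < 1) : y⁻¹ ∈ V := by
  rw [val_lt_iff h0, not_not] at h
  exact h

/-- The localization of a regular local ring with regular quotient. -/
theorem reg_end {η : ValuationSubring F} {P : Subring F} (hP : P ≤ η.toSubring)
    (hreg : IsRegularLocalRing P) (him : IsRegularLocalRing (im (residue η) P)) :
    IsRegularLocalRing (lo η.toSubring P) := by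
  classical
  obtain ⟨𝔮, h𝔮⟩ : ∃ 𝔮 : Ideal P, 𝔮 = RingHom.ker (R26.th η P hP) := ⟨_, rfl⟩
  have hmem : ∀ y : P, y ∈ 𝔮 ↔ η.valuation (y : F) < 1 := by
    intro y
    rw [h𝔮, RingHom.mem_ker, R26.th_ker]
  have hq : IsRegularLocalRing (P ⧸ 𝔮) := by
    rw [h𝔮]
    exact IsRegularLocalRing.of_ringEquiv
      (RingHom.quotientKerEquivOfSurjective (R26.th_surj η P hP)).symm
  obtain ⟨s, e, he, hqe, hind, -⟩ := exch hq (le_refl 𝔮) (fun i : Fin 0 => (i.elim0 : P))
    (fun i => i.elim0) le_sup_left (fun c t ht h i => i.elim0)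
  have hie : Ind e := by
    have h1 := hind.comp Sum.inl Sum.inl_injective
    rwa [Sum.elim_comp_inl] at h1
  have hqe' : 𝔮 = Ideal.span (Set.range e) := by
    rw [hqe, Set.range_eq_empty (fun i : Fin 0 => (i.elim0 : P)), Ideal.span_empty, sup_bot_eq]
  refine reg_loc e hie (θ := Subring.inclusion (le_lo η.toSubring P)) ?_
    (Subring.inclusion_injective _)
  rw [← hqe']
  refine ⟨?_, ?_, ?_⟩
  · intro y hy
    rw [hmem] at hy
    rw [isUnit_lo_iff hP]
    have h0 : (y : F) ≠ 0 := by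
      intro h
      apply hy
      rw [h, map_zero]
      exact zero_lt_one
    exact ⟨h0, val_one_inv (hP y.2) h0 hy⟩
  · intro y hy hu
    rw [hmem] at hy
    rw [isUnit_lo_iff hP] at hu
    exact (val_lt_iff hu.1).1 hy hu.2
  · rintro ⟨z, a, ha, b, hb, hb0, hbA, rfl⟩
    refine ⟨⟨a, ha⟩, ⟨b, hb⟩, ?_, ?_⟩
    · rw [hmem, val_lt_iff hb0, not_not]
      exact hbA
    · apply Subtype.ext
      change a * b⁻¹ * b = a
      rw [mul_assoc, inv_mul_cancel₀ hb0, mul_one]

lemma lo_le_of {A D C : Subring F} (hD : D ≤ C) (h : ∀ b ∈ C, b ≠ 0 → b⁻¹ ∈ A → b⁻¹ ∈ C) :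
    lo A D ≤ C := by
  rintro z ⟨a, ha, b, hb, hb0, hbA, rfl⟩
  exact C.mul_mem (hD ha) (h b (hD hb) hb0 hbA)

end XBR37

open XBR37 in
/-- BR37. Serre's theorem in the case of coheight one. -/
theorem serre_step {R₀ : Type} [CommRing R₀] [IsNoetherianRing R₀] (hR₀ : HJ R₀) {F : Type}
    [Field F] (ρ : R₀ →+* F) {T : Set F} (hT : T.Finite) {W η : ValuationSubring F}
    (hW : Subring.closure ((ρ.range : Set F) ∪ T) ≤ W.toSubring)
    (hη : lo W.toSubring (Subring.closure ((ρ.range : Set F) ∪ T)) ≤ η.toSubring)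
    (hreg : IsRegularLocalRing (lo W.toSubring (Subring.closure ((ρ.range : Set F) ∪ T))))
    (hdim : Ring.DimensionLEOne
      (im (residue η) (lo W.toSubring (Subring.closure ((ρ.range : Set F) ∪ T))))) :
    IsRegularLocalRing (lo η.toSubring (Subring.closure ((ρ.range : Set F) ∪ T))) := by
  classical
  have hnoeρ : IsNoetherianRing ρ.range := isNoetherianRing_of_surjective _ _ ρ.rangeRestrict
    ρ.rangeRestrict_surjective
  have hnoeB : IsNoetherianRing (Subring.closure ((ρ.range : Set F) ∪ T)) := noeth_cl hT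
  -- the image of the ring
  have hBη0 : Subring.closure ((ρ.range : Set F) ∪ T) ≤ η.toSubring := (le_lo _ _).trans hη
  have hρη : ∀ x : R₀, ρ x ∈ η := fun x => hBη0 (Subring.subset_closure (Or.inl ⟨x, rfl⟩))
  let ρ₁ : R₀ →+* η := ρ.codRestrict η.toSubring hρη
  let ρ' : R₀ →+* ResidueField η := (residue η).comp ρ₁
  have hρ' : ∀ x, Pr (residue η) (ρ x) (ρ' x) := fun x => res_pr (hρη x)
  have hTη : ∀ t ∈ T, t ∈ η := fun t ht => hBη0 (Subring.subset_closure (Or.inr ht))
  obtain ⟨T₂, hT₂⟩ : ∃ T₂ : Set (ResidueField η), T₂ = {w | ∃ t ∈ T, Pr (residue η) t w} :=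
    ⟨_, rfl⟩
  have hT₂f : T₂.Finite := by
    have h1 : T₂ ⊆ (fun t : F => if ht : t ∈ η then residue η ⟨t, ht⟩ else 0) '' T := by
      rw [hT₂]
      rintro w ⟨t, ht, htw⟩
      refine ⟨t, ht, ?_⟩
      simp only [dif_pos (hTη t ht)]
      exact (res_pr (hTη t ht)).unique htw
    exact (hT.image _).subset h1
  have him : im (residue η) (Subring.closure ((ρ.range : Set F) ∪ T)) =
      Subring.closure ((ρ'.range : Set (ResidueField η)) ∪ T₂) := by
    refine im_closure ?_ ?_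
    · rintro u (⟨x, rfl⟩ | hu)
      · exact ⟨ρ' x, Or.inl ⟨x, rfl⟩, hρ' x⟩
      · refine ⟨_, Or.inr ?_, res_pr (hTη u hu)⟩
        rw [hT₂]
        exact ⟨u, hu, res_pr (hTη u hu)⟩
    · rintro w (⟨x, rfl⟩ | hw)
      · exact ⟨ρ x, Or.inl ⟨x, rfl⟩, hρ' x⟩
      · rw [hT₂] at hw
        obtain ⟨t, ht, h⟩ := hw
        exact ⟨t, Or.inr ht, h⟩
  obtain ⟨B, hB⟩ : ∃ B : Subring F, B = Subring.closure ((ρ.range : Set F) ∪ T) := ⟨_, rfl⟩
  rw [← hB] at hW hη hreg hdim hnoeB him hBη0 ⊢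
  obtain ⟨R, hR⟩ : ∃ R : Subring F, R = lo W.toSubring B := ⟨_, rfl⟩
  rw [← hR] at hη hreg hdim
  have hBR : B ≤ R := by rw [hR]; exact le_lo _ _
  have hRW : R ≤ W.toSubring := by rw [hR]; exact lo_le hW
  have hRu : ∀ y ∈ R, y ≠ 0 → y⁻¹ ∈ W.toSubring → y⁻¹ ∈ R := by
    intro y hy h0 h1
    rw [hR] at hy ⊢
    exact inv_mem_lo hW hy h0 h1
  by_cases hne0 : ∃ y ∈ B, ¬ η.valuation y < 1 ∧ W.valuation y < 1
  swap
  · -- `R` is the local ring at `η`
    have h1 : lo η.toSubring B = R := by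
      apply le_antisymm
      · rintro z ⟨a, ha, b, hb, hb0, hbη, rfl⟩
        refine R.mul_mem (hBR ha) (hRu b (hBR hb) hb0 ?_)
        have h2 : ¬ W.valuation b < 1 := by
          intro h3
          refine hne0 ⟨b, hb, ?_, h3⟩
          rw [val_lt_iff hb0, not_not]
          exact hbη
        exact val_one_inv (hW hb) hb0 h2
      · rw [hR]
        rintro z ⟨a, ha, b, hb, hb0, hbW, rfl⟩
        exact ⟨a, ha, b, hb, hb0, hη (hRu b (hBR hb) hb0 hbW), rfl⟩
    rw [h1]
    exact hreg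
  -- a valuation ring of the residue field
  obtain ⟨y₀, hy₀B, hy₀η, hy₀W⟩ := hne0
  have hIR : IsLocalRing (im (residue η) R) :=
    IsLocalRing.of_surjective' (R26.th η R hη) (R26.th_surj η R hη)
  obtain ⟨V, hRV, hVm⟩ := exists_val (im (residue η) R) (maximalIdeal (im (residue η) R))
  have hmaxR : ∀ y : R, y ∈ maximalIdeal R ↔ W.valuation (y : F) < 1 := by
    intro y
    have hu : IsUnit y ↔ (y : F) ≠ 0 ∧ (y : F)⁻¹ ∈ W.toSubring := by
      constructor
      · intro hy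
        obtain ⟨z, hz⟩ := isUnit_iff_exists_inv.1 hy
        have h1 : (y : F) * z = 1 := congrArg Subtype.val hz
        refine ⟨left_ne_zero_of_mul_eq_one h1, ?_⟩
        rw [← eq_inv_of_mul_eq_one_right h1]
        exact hRW z.2
      · rintro ⟨h0, h1⟩
        refine isUnit_iff_exists_inv.2 ⟨⟨_, hRu _ y.2 h0 h1⟩, Subtype.ext ?_⟩
        exact mul_inv_cancel₀ h0
    rw [mem_maximalIdeal, mem_nonunits_iff, hu, ← R26.nu_iff (hRW y.2)]
    rfl
  have hRA : R ≤ AA F (residue η) V := by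
    intro y hy
    exact ⟨_, hRV ⟨y, hy, res_pr (hη hy)⟩, res_pr (hη hy)⟩
  have hAη : AA F (residue η) V ≤ η.toSubring := by
    rintro z ⟨w, -, h⟩
    exact pr_mem h
  have hICR : IC (AA F (residue η) V) R := by
    intro y hy h0 h1
    obtain ⟨h2, h3⟩ := (Pr.inv_AA (res_pr (hη hy))).1 ⟨h0, h1⟩
    refine hRu y hy h0 (val_one_inv (hRW hy) h0 ?_)
    intro h4
    have h5 : (⟨y, hy⟩ : R) ∈ maximalIdeal R := (hmaxR _).2 h4
    have h6 := mem_max_of_surj (R26.th η R hη) (R26.th_surj η R hη) h5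
    rw [hVm] at h6
    exact (val_lt_iff h2).1 h6 h3
  have hloAB : lo (AA F (residue η) V) B = R := by
    apply le_antisymm
    · exact (lo_mono hBR).trans (le_of_eq hICR.lo_eq)
    · rw [hR]
      rintro z ⟨a, ha, b, hb, hb0, hbW, rfl⟩
      exact ⟨a, ha, b, hb, hb0, hRA (hRu b (hBR hb) hb0 hbW), rfl⟩
  have him0 : im (residue η) R = lo V.toSubring (im (residue η) B) := by
    rw [← im_lo (hBR.trans hRA), hloAB]
  have hBV : im (residue η) B ≤ V.toSubring := (im_mono hBR).trans hRV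
  have hnoeD : IsNoetherianRing (im (residue η) B) :=
    isNoetherianRing_of_surjective _ _ (R26.th η B hBη0) (R26.th_surj η B hBη0)
  have hne : ∃ y ∈ im (residue η) B, y ≠ 0 ∧ V.valuation y < 1 := by
    refine ⟨residue η ⟨y₀, hBη0 hy₀B⟩, ⟨y₀, hy₀B, res_pr (hBη0 hy₀B)⟩, ?_, ?_⟩
    · intro h
      rw [residue_eq_zero_iff, ValuationSubring.valuation_lt_one_iff] at h
      exact hy₀η h
    · have h5 : (⟨y₀, hBR hy₀B⟩ : R) ∈ maximalIdeal R := (hmaxR _).2 hy₀W
      have h6 := mem_max_of_surj (R26.th η R hη) (R26.th_surj η R hη) h5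
      rw [hVm] at h6
      exact h6
  obtain ⟨-, hmi⟩ := seq_fg (Q := qseq V (im (residue η) B)) hBV hne rfl (fun n => rfl)
  -- the sequence upstairs
  have hseq : ∀ n, ∃ P : Subring F, P ≤ AA F (residue η) V ∧ IC (AA F (residue η) V) P ∧
      IsRegularLocalRing P ∧ im (residue η) P = qseq V (im (residue η) B) n ∧
      P ≤ lo η.toSubring B ∧ B ≤ P := by
    intro n
    induction n with
    | zero =>
      refine ⟨R, hRA, hICR, hreg, him0, ?_, hBR⟩
      rw [← hloAB]
      refine lo_le_of (le_lo _ _) fun b hb hb0 hbA => ?_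
      exact inv_mem_lo hBη0 hb hb0 (hAη hbA)
    | succ n ih =>
      obtain ⟨P, hPA, hIC, hPreg, hPim, hPlo, hBP⟩ := ih
      obtain ⟨e, he⟩ := hmi n
      rw [← hPim] at he
      obtain ⟨z, hz, hze⟩ := he.mem
      have hM := he.lift hPA hz hze
      obtain ⟨κ, _, x', hx', -, -⟩ := regP_step loc_AA (RegP.of_reg hPA hIC hPreg) hM
      refine ⟨qt (AA F (residue η) V) P, qt_le hPA, ic_qt hPA, hx'.reg, ?_, ?_,
        hBP.trans (le_qt _ _)⟩
      · rw [im_qt hPA he hz hze, hPim]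
        rfl
      · rw [qt_eq hPA hM]
        have hzi : z⁻¹ ∈ lo η.toSubring B := by
          refine inv_mem_lo hBη0 (hPlo hz) hM.ne ?_
          exact pr_mem (hze.inv he.ne)
        refine lo_le_of ?_ fun b hb hb0 hbA => inv_mem_lo hBη0 hb hb0 (hAη hbA)
        rw [Subring.closure_le]
        rintro t (ht | ⟨y, hy, -, rfl⟩)
        · exact hPlo ht
        · exact (lo η.toSubring B).mul_mem (hPlo hy) hzi
  -- some transform downstairs is regular
  have hdim' : Ring.DimensionLEOne (lo V.toSubring (im (residue η) B)) := by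
    rw [← him0]
    exact hdim
  have hdv : ∀ x ∈ im (residue η) B, x ≠ 0 → ∃ n, ∀ z : ℕ → ResidueField η,
      (∀ i < n, z i ∈ qseq V (im (residue η) B) i ∧ z i ≠ 0 ∧ V.valuation (z i) < 1) →
        x * (∏ i ∈ Finset.range n, z i)⁻¹ ∉ V := fun x hx hx0 =>
    dv_dim_one hBV hnoeD hdim' hne (le_lo _ _ hx) hx0
  have hfin : ∃ m, IsRegularLocalRing (qseq V (im (residue η) B) m) := by
    rw [him] at hdv hne hBV ⊢
    exact exists_reg_qseq hR₀ ρ' hT₂f hBV hne hdv
  obtain ⟨m, hm⟩ := hfin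
  obtain ⟨P, hPA, hIC, hPreg, hPim, hPlo, hBP⟩ := hseq m
  have hfinal : lo η.toSubring B = lo η.toSubring P := by
    apply le_antisymm
    · exact lo_mono hBP
    · exact lo_le_lo hBη0 hPlo
  rw [hfinal]
  refine reg_end (hPA.trans hAη) hPreg ?_
  rw [hPim]
  exact hm

end Pool.Agent.H413.BR
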