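import Pool.Agent.H413.BR.Defs2
import Pool.Agent.H413.BR.B6
import Pool.Agent.H413.BR.B37

/-!
# BR38: Serre's theorem for rings of finite type over a base with `HJ`
-/

set_option autoImplicit false
set_option linter.unusedVariables false
set_option linter.unusedSectionVars false

namespace Pool.Agent.H413.BR

open scoped Topology
open IsLocalRing Pool.Agent.TH188.QS Pool.Agent.TH188.ARC Pool.Agent.W418.LU2
  Pool.Agent.H918R2.Quad

section h356

variable {F : Type} [Field F]

lemma h356_unit {V : ValuationSubring F} {b : F} (h : ¬ V.valuation b < 1) :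
    b ≠ 0 ∧ b⁻¹ ∈ V := by
  have hb0 : b ≠ 0 := by
    rintro rfl
    apply h
    rw [map_zero]
    exact zero_lt_one
  refine ⟨hb0, ?_⟩
  rw [← V.valuation_le_one_iff, map_inv₀]
  exact inv_le_one_of_one_le₀ (not_lt.1 h)

lemma h356_unit' {V : ValuationSubring F} {b : F} (hb0 : b ≠ 0) (hb : b⁻¹ ∈ V) :
    ¬ V.valuation b < 1 := by
  intro h
  have h1 : V.valuation b⁻¹ ≤ 1 := (V.valuation_le_one_iff _).2 hb
  have h2 : V.valuation b * V.valuation b⁻¹ = 1 := by
    rw [← map_mul, mul_inv_cancel₀ hb0, map_one]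
  have h3 : V.valuation b * V.valuation b⁻¹ < 1 :=
    mul_lt_one_of_lt_of_le h h1
  exact h3.ne h2

lemma h356_lo_le {W η : ValuationSubring F} {B : Subring F} (hB : B ≤ η.toSubring)
    (h : ∀ b ∈ B, η.valuation b < 1 → W.valuation b < 1) :
    lo W.toSubring B ≤ η.toSubring := by
  rintro _ ⟨a, ha, b, hb, hb0, hbW, rfl⟩
  refine η.toSubring.mul_mem (hB ha) ?_
  have h1 : ¬ W.valuation b < 1 := h356_unit' hb0 hbW
  exact (h356_unit fun h2 => h1 (h b hb h2)).2

lemma h356_lo_le' {W η : ValuationSubring F} {B : Subring F} (hW : B ≤ W.toSubring)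
    (h : lo W.toSubring B ≤ η.toSubring) {b : F} (hb : b ∈ B) (h1 : η.valuation b < 1) :
    W.valuation b < 1 := by
  by_contra hcon
  obtain ⟨h2, h3⟩ := h356_unit hcon
  exact h356_unit' h2 (h (inv_mem_lo hW (le_lo _ _ hb) h2 h3)) h1

/-- the centre -/
def h356_cen (V : ValuationSubring F) {B : Subring F} (hB : B ≤ V.toSubring) : Ideal B :=
  (maximalIdeal V).comap
    ({ toFun := fun b => ⟨b, hB b.2⟩
       map_one' := rfl
       map_mul' := fun _ _ => rfl
       map_zero' := rfl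
       map_add' := fun _ _ => rfl } : B →+* V)

lemma h356_cen_prime (V : ValuationSubring F) {B : Subring F} (hB : B ≤ V.toSubring) :
    (h356_cen V hB).IsPrime := by
  unfold h356_cen
  infer_instance

lemma h356_mem (V : ValuationSubring F) {B : Subring F} (hB : B ≤ V.toSubring) (b : B) :
    b ∈ h356_cen V hB ↔ V.valuation (b : F) < 1 := by
  unfold h356_cen
  rw [Ideal.mem_comap, V.valuation_lt_one_iff]
  rfl

theorem h356_dim {B : Subring F} {W η : ValuationSubring F} (hW : B ≤ W.toSubring)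
    (hη : lo W.toSubring B ≤ η.toSubring)
    (hmax : ∀ 𝔮 : Ideal B, 𝔮.IsPrime → (∀ b : B, η.valuation (b : F) < 1 → b ∈ 𝔮) →
      (∀ b ∈ 𝔮, W.valuation (b : F) < 1) → (∃ b ∈ 𝔮, ¬ η.valuation (b : F) < 1) →
      ∀ b : B, W.valuation (b : F) < 1 → b ∈ 𝔮) :
    Ring.DimensionLEOne (im (residue η) (lo W.toSubring B)) := by
  have hBη : B ≤ η.toSubring := (le_lo _ _).trans hη
  let I := im (residue η) (lo W.toSubring B)
  let inc : B →+* η :=
    { toFun := fun b => ⟨b, hBη b.2⟩
      map_one' := rfl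
      map_mul' := fun _ _ => rfl
      map_zero' := rfl
      map_add' := fun _ _ => rfl }
  have hPr : ∀ b : B, Pr (residue η) (b : F) (residue η (inc b)) := fun b =>
    Pr.alg (F := F) (φ := residue η) (inc b)
  let ψ : B →+* I := ((residue η).comp inc).codRestrict I fun b => ⟨b, le_lo _ _ b.2, hPr b⟩
  have hψ : ∀ b : B, ((ψ b : I) : ResidueField η) = residue η (inc b) := fun b => rfl
  have hψ0 : ∀ b : B, ψ b = 0 ↔ η.valuation (b : F) < 1 := by
    intro b
    rw [← Subtype.coe_inj, hψ]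
    change residue η (inc b) = 0 ↔ _
    rw [residue_eq_zero_iff, η.valuation_lt_one_iff]
    rfl
  -- units of `W` in `B` are units of `I`
  have hun : ∀ b : B, ¬ W.valuation (b : F) < 1 → ∃ c : I, ψ b * c = 1 := by
    intro b hb
    have h1 : ¬ η.valuation (b : F) < 1 := fun h => hb (h356_lo_le' hW hη b.2 h)
    have h2 : residue η (inc b) ≠ 0 := by
      intro h
      exact h1 ((hψ0 b).1 (Subtype.ext h))
    obtain ⟨h3, h4⟩ := h356_unit hb
    refine ⟨⟨(residue η (inc b))⁻¹, (b : F)⁻¹, inv_mem_lo hW (le_lo _ _ b.2) h3 h4,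
      (hPr b).inv h2⟩, Subtype.ext ?_⟩
    change residue η (inc b) * (residue η (inc b))⁻¹ = 1
    exact mul_inv_cancel₀ h2
  -- all elements of `I` are fractions
  have hfr : ∀ w : I, ∃ a b : B, ¬ W.valuation (b : F) < 1 ∧ w * ψ b = ψ a := by
    rintro ⟨w, z, ⟨a, ha, b, hb, hb0, hbW, rfl⟩, hw⟩
    refine ⟨⟨a, ha⟩, ⟨b, hb⟩, h356_unit' hb0 hbW, Subtype.ext ?_⟩
    change w * residue η (inc ⟨b, hb⟩) = residue η (inc ⟨a, ha⟩)
    have h1 := hw.mul (hPr ⟨b, hb⟩)
    have h2 : a * b⁻¹ * b = a := by field_simp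
    change Pr (residue η) (a * b⁻¹ * b) _ at h1
    rw [h2] at h1
    exact h1.unique (hPr ⟨a, ha⟩)
  refine ⟨fun {𝔮} h0 hp => ?_⟩
  have hp' : (𝔮.comap ψ).IsPrime := Ideal.comap_isPrime ψ 𝔮
  have key : ∀ b : B, W.valuation (b : F) < 1 → b ∈ 𝔮.comap ψ := by
    refine hmax _ hp' (fun b hb => ?_) (fun b hb => ?_) ?_
    · rw [Ideal.mem_comap, (hψ0 b).2 hb]
      exact 𝔮.zero_mem
    · by_contra hcon
      obtain ⟨c, hc⟩ := hun b hcon
      apply hp.ne_top
      rw [Ideal.eq_top_iff_one, ← hc]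
      exact 𝔮.mul_mem_right _ hb
    · obtain ⟨w, hw, hw0⟩ := Submodule.exists_mem_ne_zero_of_ne_bot h0
      obtain ⟨a, b, hb, hab⟩ := hfr w
      refine ⟨a, ?_, fun h => hw0 ?_⟩
      · rw [Ideal.mem_comap, ← hab]
        exact 𝔮.mul_mem_right _ hw
      · obtain ⟨c, hc⟩ := hun b hb
        rw [(hψ0 a).2 h] at hab
        calc w = w * (ψ b * c) := by rw [hc, mul_one]
          _ = (w * ψ b) * c := by ring
          _ = 0 := by rw [hab, zero_mul]
  have hu : ∀ w : I, w ∉ 𝔮 → ∃ c : I, w * c = 1 := by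
    intro w hw
    obtain ⟨a, b, hb, hab⟩ := hfr w
    have ha : ¬ W.valuation (a : F) < 1 := by
      intro h
      obtain ⟨c, hc⟩ := hun b hb
      apply hw
      have h1 : w = ψ a * c := by
        rw [← hab, mul_assoc, hc, mul_one]
      rw [h1]
      exact 𝔮.mul_mem_right _ (key a h)
    obtain ⟨c, hc⟩ := hun a ha
    refine ⟨ψ b * c, ?_⟩
    rw [← mul_assoc, hab, hc]
  refine Ideal.isMaximal_iff.2 ⟨fun h => hp.ne_top ((Ideal.eq_top_iff_one _).2 h), ?_⟩
  intro J w hJ hw hwJ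
  obtain ⟨c, hc⟩ := hu w hw
  rw [← hc]
  exact J.mul_mem_right _ hwJ

theorem serre_ft {R₀ : Type} [CommRing R₀] [IsNoetherianRing R₀] (hR₀ : HJ R₀) {F : Type}
    [Field F] (ρ : R₀ →+* F) {T : Set F} (hT : T.Finite) {W η : ValuationSubring F}
    (hW : Subring.closure ((ρ.range : Set F) ∪ T) ≤ W.toSubring)
    (hη : lo W.toSubring (Subring.closure ((ρ.range : Set F) ∪ T)) ≤ η.toSubring)
    (hreg : IsRegularLocalRing (lo W.toSubring (Subring.closure ((ρ.range : Set F) ∪ T)))) :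
    IsRegularLocalRing (lo η.toSubring (Subring.closure ((ρ.range : Set F) ∪ T))) := by
  obtain ⟨B, hBd⟩ : ∃ B, B = Subring.closure ((ρ.range : Set F) ∪ T) := ⟨_, rfl⟩
  have hnoe : IsNoetherianRing B := by
    rw [hBd]
    have h1 : IsNoetherianRing ρ.range :=
      isNoetherianRing_of_surjective R₀ ρ.range ρ.rangeRestrict ρ.rangeRestrict_surjective
    exact noeth_cl hT
  have main : ∀ n : ℕ, ∀ (W η : ValuationSubring F) (hW : B ≤ W.toSubring),
      lo W.toSubring B ≤ η.toSubring → IsRegularLocalRing (lo W.toSubring B) →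
      (h356_cen W hW).height ≤ n → IsRegularLocalRing (lo η.toSubring B) := by
    intro n
    induction n using Nat.strong_induction_on with
    | _ n ih =>
    intro W η hW hη hreg hn
    have hBη : B ≤ η.toSubring := (le_lo _ _).trans hη
    by_cases hcase : ∀ b ∈ B, W.valuation b < 1 → η.valuation b < 1
    · have h1 : lo η.toSubring B = lo W.toSubring B := by
        apply le_antisymm
        · refine fun x hx => ?_
          obtain ⟨a, ha, b, hb, hb0, hbη, rfl⟩ := hx
          exact ⟨a, ha, b, hb, hb0, (h356_unit fun h => h356_unit' hb0 hbη (hcase b hb h)).2, rfl⟩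
        · refine fun x hx => ?_
          obtain ⟨a, ha, b, hb, hb0, hbW, rfl⟩ := hx
          exact ⟨a, ha, b, hb, hb0,
            (h356_unit fun h => h356_unit' hb0 hbW (h356_lo_le' hW hη hb h)).2, rfl⟩
      rw [h1]
      exact hreg
    · push Not at hcase
      obtain ⟨b₀, hb₀, hb₀W, hb₀η⟩ := hcase
      -- a maximal prime strictly below the centre of `W`
      let S : Set (Ideal B) := {𝔮 | 𝔮.IsPrime ∧ (∀ b : B, η.valuation (b : F) < 1 → b ∈ 𝔮) ∧
        (∀ b ∈ 𝔮, W.valuation (b : F) < 1) ∧ ∃ b : B, W.valuation (b : F) < 1 ∧ b ∉ 𝔮}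
      have hS : S.Nonempty := by
        refine ⟨h356_cen η hBη, h356_cen_prime η hBη, fun b hb => (h356_mem η hBη b).2 hb,
          fun b hb => h356_lo_le' hW hη b.2 ((h356_mem η hBη b).1 hb), ⟨b₀, hb₀⟩, hb₀W, ?_⟩
        rw [h356_mem]
        exact not_lt.2 hb₀η
      obtain ⟨𝔭, ⟨hp1, hp2, hp3, hp4⟩, hpm⟩ := set_has_maximal_iff_noetherian.2 hnoe S hS
      obtain ⟨η', hη'B, hη'⟩ := exists_val B 𝔭
      have h1 : lo W.toSubring B ≤ η'.toSubring :=
        h356_lo_le hη'B fun b hb h => hp3 ⟨b, hb⟩ ((hη' ⟨b, hb⟩).2 h)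
      have h2 : lo η'.toSubring B ≤ η.toSubring :=
        h356_lo_le hBη fun b hb h => (hη' ⟨b, hb⟩).1 (hp2 ⟨b, hb⟩ h)
      have hdim : Ring.DimensionLEOne (im (residue η') (lo W.toSubring B)) := by
        refine h356_dim hW h1 fun 𝔮 hq hq1 hq2 hq3 b hb => ?_
        by_contra hcon
        obtain ⟨c, hc, hcη⟩ := hq3
        refine hpm 𝔮 ⟨hq, fun b hb => hq1 b ((hη' b).1 (hp2 b hb)), hq2, b, hb, hcon⟩ ?_
        refine lt_of_le_of_ne (fun x hx => hq1 x ((hη' x).1 hx)) fun h => hcη ?_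
        rw [← h] at hc
        exact (hη' c).1 hc
      have hreg' : IsRegularLocalRing (lo η'.toSubring B) := by
        subst hBd
        exact serre_step hR₀ ρ hT hW h1 hreg hdim
      have hce : h356_cen η' hη'B = 𝔭 := by
        ext b
        rw [h356_mem, hη' b]
      have hpr := h356_cen_prime W hW
      have hlt : 𝔭 < h356_cen W hW := by
        refine lt_of_le_of_ne (fun x hx => (h356_mem W hW x).2 (hp3 x hx)) fun h => ?_
        obtain ⟨b, hb, hb'⟩ := hp4
        apply hb'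
        rw [h]
        exact (h356_mem W hW b).2 hb
      have hht : Ideal.height 𝔭 < (h356_cen W hW).height :=
        Ideal.height_strict_mono_of_isPrime_of_isPrime hlt
      have hht' : Ideal.height 𝔭 < n := lt_of_lt_of_le hht hn
      obtain ⟨m, hm⟩ := ENat.ne_top_iff_exists.1 (hht'.trans (ENat.natCast_lt_top n)).ne
      have hmn : m < n := by
        rw [← hm] at hht'
        exact_mod_cast hht'
      refine ih m hmn η' η hη'B h2 hreg' ?_
      rw [hce, hm]
  rw [← hBd] at hW hη hreg ⊢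
  have hpr := h356_cen_prime W hW
  have hfin : (h356_cen W hW).height ≠ ⊤ := Ideal.height_ne_top hpr.ne_top
  obtain ⟨m, hm⟩ := ENat.ne_top_iff_exists.1 hfin
  exact main m W η hW hη hreg hm.symm.le

end h356

end Pool.Agent.H413.BR
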