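import Pool.Agent.H413.BR.Defs2
import Pool.Agent.H413.BR.B38

set_option autoImplicit false
set_option linter.unusedVariables false
set_option linter.unusedSectionVars false

namespace Pool.Agent.H413.BR

open scoped Topology
open IsLocalRing Pool.Agent.TH188.QS Pool.Agent.TH188.ARC Pool.Agent.W418.LU2
  Pool.Agent.H918R2.Quad

namespace BR39

variable {O F : Type} [CommRing O] [Field F] [Algebra O F]

/-- Charts are of finite type. -/
theorem chart_cl {M : Submodule O F} (hM : M.FG) (g : F) : ∃ T : Set F, T.Finite ∧
    (chart O M g).toSubring = Subring.closure (((algebraMap O F).range : Set F) ∪ T) := by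
  obtain ⟨s, hs⟩ := hM
  have h1 : chart O M g = Algebra.adjoin O ((fun m => m / g) '' (s : Set F)) := by
    apply le_antisymm
    · refine Algebra.adjoin_le ?_
      rintro _ ⟨m, hm, rfl⟩
      change m / g ∈ Algebra.adjoin O ((fun m => m / g) '' (s : Set F))
      rw [← hs] at hm
      induction hm using Submodule.span_induction with
      | mem m hm => exact Algebra.subset_adjoin ⟨m, hm, rfl⟩
      | zero => rw [zero_div]; exact Subalgebra.zero_mem _
      | add a b _ _ ha hb => rw [add_div]; exact Subalgebra.add_mem _ ha hb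
      | smul c a _ ha => rw [smul_div_assoc]; exact Subalgebra.smul_mem _ ha c
    · refine Algebra.adjoin_mono ?_
      rintro _ ⟨m, hm, rfl⟩
      exact ⟨m, hs ▸ Submodule.subset_span hm, rfl⟩
  exact ⟨_, s.finite_toSet.image _, by rw [h1, adjoin_toSubring]⟩

end BR39

variable {O F : Type} [CommRing O] [Field F] [Algebra O F]

/-- BR39. -/
theorem sr_hj [IsNoetherianRing O] (hHJ : HJ O) : SR O F := by
  intro M hM W η Q hQ hQη hreg
  obtain ⟨g, hg, rfl⟩ := LR.gn hQ
  have hle := hg.le
  rw [lo_lo hle hQη]
  obtain ⟨T, hT, hc⟩ := BR39.chart_cl hM g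
  rw [hc] at hreg hQη hle ⊢
  exact serre_ft hHJ (algebraMap O F) hT hle hQη hreg

end Pool.Agent.H413.BR
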