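import Pool.Agent.H413.BR.Defs2
import Pool.Agent.H413.BR.B6
import Pool.Agent.H413.BR.B23

/-!
# Bounded contact: a uniform integer
-/

set_option autoImplicit false
set_option linter.unusedVariables false
set_option linter.unusedSectionVars false

namespace Pool.Agent.H413.BR

open IsLocalRing Pool.Agent.TH188.QS Pool.Agent.TH188.ARC Pool.Agent.W418.LU2
  Pool.Agent.H918R2.Quad

section h413li

variable {F : Type} [Field F]

/-- Minors of presentations. -/
def h413_GM {S : Type} [CommRing S] (φ : S →+* F) (δ : F) : Prop :=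
  ∃ (r : ℕ) (f : Fin r → S) (D : Fin r → Derivation ℤ S S),
    (∀ i, φ (f i) = 0) ∧
    (∀ s, φ s = 0 → ∃ t, φ t ≠ 0 ∧ t * s ∈ Ideal.span (Set.range f)) ∧
    δ = (Matrix.of fun i j => φ (D j (f i))).det

lemma h413_GM_of {S : Type} [CommRing S] (φ : S →+* F) {r : ℕ} (f : Fin r → S)
    (D : Fin r → S → S) (hadd : ∀ j a b, D j (a + b) = D j a + D j b)
    (hmul : ∀ j a b, D j (a * b) = a * D j b + b * D j a)
    (hf : ∀ i, φ (f i) = 0)
    (hgen : ∀ s, φ s = 0 → ∃ t, φ t ≠ 0 ∧ t * s ∈ Ideal.span (Set.range f)) :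
    h413_GM φ (Matrix.of fun i j => φ (D j (f i))).det := by
  let D' : Fin r → Derivation ℤ S S := fun j =>
    Derivation.mk' (AddMonoidHom.toIntLinearMap (AddMonoidHom.mk' (D j) (hadd j))) (by
      intro a b
      exact hmul j a b)
  exact ⟨r, f, D', hf, hgen, rfl⟩

lemma h413_range_eq {n : ℕ} (x : Fin n → F) :
    (MvPolynomial.aeval x : MvPolynomial (Fin n) ℤ →ₐ[ℤ] F).toRingHom.range =
      Subring.closure (Set.range x) := by
  have h1 : Algebra.adjoin ℤ (Set.range x) =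
      (MvPolynomial.aeval x : MvPolynomial (Fin n) ℤ →ₐ[ℤ] F).range :=
    Algebra.adjoin_range_eq_range_aeval ℤ x
  rw [Algebra.adjoin_int] at h1
  ext z
  constructor
  · rintro ⟨s, hs⟩
    have h2 : z ∈ (MvPolynomial.aeval x : MvPolynomial (Fin n) ℤ →ₐ[ℤ] F).range := ⟨s, hs⟩
    rw [← h1] at h2
    exact h2
  · intro hz
    have h2 : z ∈ subalgebraOfSubring (Subring.closure (Set.range x)) := hz
    rw [h1] at h2
    obtain ⟨s, hs⟩ := h2
    exact ⟨s, hs⟩

/-- A minor which does not vanish at the point. -/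
theorem h413_gm_at [CharZero F] {n : ℕ} (x : Fin n → F) {A : Subring F}
    (hregA : IsRegularLocalRing A)
    (hBA : Subring.closure (Set.range x) ≤ A)
    (hN : ∀ m : ℕ, m ≠ 0 → ((m : F))⁻¹ ∈ A)
    (hAfr : ∀ a ∈ A, ∃ b ∈ Subring.closure (Set.range x), ∃ c ∈ Subring.closure (Set.range x),
      c ≠ 0 ∧ c⁻¹ ∈ A ∧ a = b * c⁻¹) :
    ∃ δ ∈ Subring.closure (Set.range x), δ ≠ 0 ∧ δ⁻¹ ∈ A ∧
      h413_GM (MvPolynomial.aeval x : MvPolynomial (Fin n) ℤ →ₐ[ℤ] F).toRingHom δ := by
  classical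
  let S := MvPolynomial (Fin n) ℤ
  let φ : S →+* F := (MvPolynomial.aeval x : S →ₐ[ℤ] F).toRingHom
  have hφr : φ.range = Subring.closure (Set.range x) := h413_range_eq x
  have hφA : ∀ s, φ s ∈ A := fun s => hBA (hφr ▸ ⟨s, rfl⟩)
  let φA : S →+* A := φ.codRestrict A hφA
  -- units of `A`
  have hunitA : ∀ a : A, residue A a ≠ 0 ↔ IsUnit a := by
    intro a
    rw [Ne, residue_eq_zero_iff, mem_maximalIdeal, mem_nonunits_iff, not_not]
  have hunit_of : ∀ a : A, (a : F) ≠ 0 → (a : F)⁻¹ ∈ A → IsUnit a := by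
    intro a ha ha'
    exact isUnit_iff_exists_inv.2 ⟨⟨_, ha'⟩, Subtype.ext (mul_inv_cancel₀ ha)⟩
  let L₁ := ResidueField A
  have hch : CharZero L₁ := by
    refine charZero_of_inj_zero fun m hm => ?_
    by_contra hm0
    have h1 : residue A (m : A) = 0 := by rw [map_natCast]; exact hm
    have h2 : ((m : A) : F) = (m : F) := by push_cast; rfl
    have h3 : IsUnit (m : A) := by
      apply hunit_of
      · rw [h2]
        exact_mod_cast hm0
      · rw [h2]
        exact hN m hm0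
    exact (hunitA _).2 h3 h1
  let _ : Algebra S L₁ := ((residue A).comp φA).toAlgebra
  let _ : Algebra ℤ L₁ := ((algebraMap S L₁).comp (algebraMap ℤ S)).toAlgebra
  have hst : @IsScalarTower ℤ S L₁ Algebra.toSMul Algebra.toSMul Algebra.toSMul :=
    IsScalarTower.of_algebraMap_eq fun _ => rfl
  have hOinj : Function.Injective (algebraMap ℤ L₁) := RingHom.injective_int _
  have hH : Subsingleton (Algebra.H1Cotangent ℤ L₁) := h1_charZero hOinj
  have hfr : ∀ z : L₁, ∃ a b : S, algebraMap S L₁ b ≠ 0 ∧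
      z * algebraMap S L₁ b = algebraMap S L₁ a := by
    intro z
    obtain ⟨a, rfl⟩ := residue_surjective z
    obtain ⟨b, hb, c, hc, hc0, hcA, habc⟩ := hAfr a a.2
    obtain ⟨s, hs⟩ : b ∈ φ.range := by rw [hφr]; exact hb
    obtain ⟨t, ht⟩ : c ∈ φ.range := by rw [hφr]; exact hc
    have hsA : φA s = ⟨b, hBA hb⟩ := Subtype.ext hs
    have htA : φA t = ⟨c, hBA hc⟩ := Subtype.ext ht
    refine ⟨s, t, ?_, ?_⟩
    · change residue A (φA t) ≠ 0
      rw [hunitA, htA]
      exact hunit_of _ hc0 hcA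
    · change residue A a * residue A (φA t) = residue A (φA s)
      rw [← map_mul]
      congr 1
      rw [hsA, htA]
      apply Subtype.ext
      change (a : F) * c = b
      rw [habc, mul_assoc, inv_mul_cancel₀ hc0, mul_one]
  set I : Ideal S := RingHom.ker (algebraMap S L₁) with hI
  have hIp : I.IsPrime := RingHom.ker_isPrime _
  have hIm : ∀ s, s ∈ I ↔ residue A (φA s) = 0 := fun s => by
    rw [hI, RingHom.mem_ker]
    rfl
  let O' := Localization.AtPrime I
  have hO' : IsRegularLocalRing O' := IsRegularRing.isRegularLocalRing_localization I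
  let 𝔭 : Ideal S := RingHom.ker φ
  have h𝔭 : 𝔭 ≤ I := by
    intro s hs
    rw [hIm]
    have : φA s = 0 := Subtype.ext (RingHom.mem_ker.1 hs)
    rw [this, map_zero]
  have hunit : ∀ y : I.primeCompl, IsUnit (φA y) := by
    intro y
    rw [← hunitA]
    exact fun h1 => y.2 ((hIm _).2 h1)
  let θ : O' →+* A := IsLocalization.lift (M := I.primeCompl) hunit
  have hθ : ∀ s, θ (algebraMap S O' s) = φA s := fun s => IsLocalization.lift_eq hunit s
  have hθs : Function.Surjective θ := by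
    intro a
    obtain ⟨b, hb, c, hc, hc0, hcA, habc⟩ := hAfr a a.2
    obtain ⟨s, hs⟩ : b ∈ φ.range := by rw [hφr]; exact hb
    obtain ⟨t, ht⟩ : c ∈ φ.range := by rw [hφr]; exact hc
    have hsA : φA s = ⟨b, hBA hb⟩ := Subtype.ext hs
    have htA : φA t = ⟨c, hBA hc⟩ := Subtype.ext ht
    have htI : t ∈ I.primeCompl := by
      intro h1
      have h2 := (hIm t).1 h1
      rw [htA] at h2
      exact (hunitA _).2 (hunit_of ⟨c, hBA hc⟩ hc0 hcA) h2
    refine ⟨IsLocalization.mk' O' s ⟨t, htI⟩, ?_⟩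
    rw [IsLocalization.lift_mk'_spec]
    change φA s = φA t * a
    rw [hsA, htA]
    apply Subtype.ext
    change b = c * a
    rw [habc]
    field_simp
  have hθk : RingHom.ker θ = 𝔭.map (algebraMap S O') := by
    apply le_antisymm
    · intro y hy
      obtain ⟨s, t, rfl⟩ := IsLocalization.exists_mk'_eq I.primeCompl y
      have h1 : θ (IsLocalization.mk' O' s t) * φA t = φA s := by
        rw [← hθ, ← hθ, ← map_mul, IsLocalization.mk'_spec]
      rw [RingHom.mem_ker.1 hy, zero_mul] at h1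
      have h2 : s ∈ 𝔭 := RingHom.mem_ker.2 (congrArg Subtype.val h1).symm
      rw [IsLocalization.mk'_eq_mul_mk'_one]
      exact Ideal.mul_mem_right _ _ (Ideal.mem_map_of_mem _ h2)
    · rw [Ideal.map_le_iff_le_comap]
      intro s hs
      rw [Ideal.mem_comap, RingHom.mem_ker, hθ]
      exact Subtype.ext (RingHom.mem_ker.1 hs)
  have hreg : IsRegularLocalRing (O' ⧸ 𝔭.map (algebraMap S O')) := by
    rw [← hθk]
    exact IsRegularLocalRing.of_ringEquiv (RingHom.quotientKerEquivOfSurjective hθs).symm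
  have hIp' : (RingHom.ker (algebraMap S L₁)).IsPrime := hIp
  have hloc : IsLocalization.AtPrime O' (RingHom.ker (algebraMap S L₁)) :=
    inferInstanceAs (IsLocalization.AtPrime O' I)
  obtain ⟨r, f, D, hf, hgen, hdet⟩ := exists_jac_at (k₀ := ℤ) (O := O') hH hfr 𝔭 h𝔭
  have hdA : (Matrix.of fun i j => φ (D j (f i))).det = ((Matrix.of fun i j =>
      φA (D j (f i))).det : A) := by
    have h1 := RingHom.map_det A.subtype (Matrix.of fun i j => φA (D j (f i)))
    exact h1.symm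
  have hd0 : IsUnit (Matrix.of fun i j => φA (D j (f i))).det := by
    rw [← hunitA]
    intro h1
    apply hdet
    have h2 := RingHom.map_det (residue A) (Matrix.of fun i j => φA (D j (f i)))
    rw [h1] at h2
    exact h2.symm
  have hgen' : ∀ s, φ s = 0 → ∃ t, φ t ≠ 0 ∧ t * s ∈ Ideal.span (Set.range f) := by
    intro s hs
    obtain ⟨t, ht, hts⟩ := hgen s (RingHom.mem_ker.2 hs)
    refine ⟨t, fun h1 => ht ?_, hts⟩
    have h2 : φA t = 0 := Subtype.ext h1
    change residue A (φA t) = 0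
    rw [h2, map_zero]
  obtain ⟨u, hu⟩ := isUnit_iff_exists_inv.1 hd0
  have hu' : (Matrix.of fun i j => φ (D j (f i))).det * (u : F) = 1 := by
    rw [hdA]
    exact congrArg Subtype.val hu
  refine ⟨(Matrix.of fun i j => φ (D j (f i))).det, ?_, left_ne_zero_of_mul_eq_one hu', ?_,
    h413_GM_of φ f (fun j s => D j s) (fun j a b => map_add _ _ _) (fun j a b => ?_)
      (fun i => RingHom.mem_ker.1 (hf i)) hgen'⟩
  · rw [← hφr]
    have h1 := RingHom.map_det φ (Matrix.of fun i j => D j (f i))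
    refine ⟨(Matrix.of fun i j => D j (f i)).det, ?_⟩
    rw [h1]
    rfl
  · rw [← eq_inv_of_mul_eq_one_right hu']
    exact u.2
  · exact (D j).leibniz a b

/-- BR40. A uniform integer. -/
theorem lev_int [CharZero F] {T : Set F} (hT : T.Finite)
    (hreg : ∀ η : ValuationSubring F, Subring.closure T ≤ η.toSubring →
      (∀ n : ℕ, n ≠ 0 → ((n : F))⁻¹ ∈ η) → IsRegularLocalRing (lo η.toSubring (Subring.closure T))) :
    ∃ N : ℕ, N ≠ 0 ∧ ∀ W : ValuationSubring F, Subring.closure T ≤ W.toSubring →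
      ∀ (ϖ : F) (m : ℕ), ((N : F))⁻¹ * ϖ ^ m ∈ W →
        Lev W ϖ m (lo W.toSubring (Subring.closure T)) := by
  classical
  obtain ⟨n, x, -, hx⟩ := hT.fin_param
  subst hx
  set B : Subring F := Subring.closure (Set.range x) with hB
  let S := MvPolynomial (Fin n) ℤ
  let φ : S →+* F := (MvPolynomial.aeval x : S →ₐ[ℤ] F).toRingHom
  have hφr : φ.range = B := h413_range_eq x
  let J : Ideal B := Ideal.span {b : B | h413_GM φ (b : F)}
  -- the submonoid of nonzero integers
  let Z : Submonoid B := (Submonoid.map (Nat.castRingHom B) (nonZeroDivisors ℕ))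
  have hZ : ∀ z : B, z ∈ Z ↔ ∃ m : ℕ, m ≠ 0 ∧ (m : B) = z := by
    intro z
    constructor
    · rintro ⟨m, hm, rfl⟩
      exact ⟨m, nonZeroDivisors.ne_zero hm, rfl⟩
    · rintro ⟨m, hm, rfl⟩
      exact ⟨m, mem_nonZeroDivisors_of_ne_zero hm, rfl⟩
  have hdis : ¬ Disjoint (J : Set B) Z := by
    intro hdis
    obtain ⟨𝔭, h𝔭, hJ𝔭, h𝔭Z⟩ := Ideal.exists_le_prime_disjoint J Z hdis
    obtain ⟨η, hBη, hη⟩ := exists_val B 𝔭
    have hint : ∀ m : ℕ, m ≠ 0 → ((m : F))⁻¹ ∈ η := by
      intro m hm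
      have h1 : (m : B) ∉ 𝔭 := by
        intro h2
        exact Set.disjoint_left.1 h𝔭Z h2 ((hZ _).2 ⟨m, hm, rfl⟩)
      rw [hη] at h1
      rw [← η.valuation_le_one_iff, map_inv₀]
      have h3 : ((m : B) : F) = (m : F) := by push_cast; rfl
      rw [h3, not_lt] at h1
      exact inv_le_one_of_one_le₀ h1
    have hreg' := hreg η hBη hint
    obtain ⟨δ, hδB, hδ0, hδA, hδ⟩ := h413_gm_at x hreg' (le_lo _ _)
      (fun m hm => by
        refine inv_mem_lo hBη (le_lo _ _ (natCast_mem B m)) (by exact_mod_cast hm) (hint m hm))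
      (fun a ha => by
        obtain ⟨b, hb, c, hc, hc0, hcη, habc⟩ := mem_lo.1 ha
        exact ⟨b, hb, c, hc, hc0, inv_mem_lo hBη (le_lo _ _ hc) hc0 hcη, habc⟩)
    have h1 : (⟨δ, hδB⟩ : B) ∈ 𝔭 := hJ𝔭 (Ideal.subset_span hδ)
    rw [hη] at h1
    have h2 : η.valuation (δ⁻¹) ≤ 1 := (η.valuation_le_one_iff _).2 (lo_le hBη hδA)
    rw [map_inv₀] at h2
    have h3 : 0 < η.valuation δ := (Valuation.pos_iff _).2 hδ0
    have h4 : 1 ≤ η.valuation δ := (inv_le_one₀ h3).1 h2
    exact absurd h1 (not_lt.2 h4)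
  obtain ⟨z, hzJ, hzZ⟩ := Set.not_disjoint_iff.1 hdis
  obtain ⟨N, hN0, rfl⟩ := (hZ z).1 hzZ
  refine ⟨N, hN0, ?_⟩
  intro W hBW ϖ m hm
  -- some minor divides `N` at `W`
  have key : ∀ c ∈ J, (c : F) ≠ 0 → ∃ δ : F, h413_GM φ δ ∧ δ ≠ 0 ∧
      W.valuation (c : F) ≤ W.valuation δ := by
    intro c hc
    induction hc using Submodule.span_induction with
    | mem b hb => exact fun h0 => ⟨b, hb, h0, le_rfl⟩
    | zero => exact fun h0 => absurd rfl h0
    | add a b ha hb iha ihb =>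
      intro h0
      have h1 : W.valuation ((a + b : B) : F) ≤ max (W.valuation (a : F)) (W.valuation (b : F)) :=
        W.valuation.map_add _ _
      rcases le_max_iff.1 h1 with h2 | h2
      · have ha0 : (a : F) ≠ 0 := by
          intro h3
          rw [h3, map_zero, le_zero_iff, map_eq_zero] at h2
          exact h0 h2
        obtain ⟨δ, h3, h4, h5⟩ := iha ha0
        exact ⟨δ, h3, h4, h2.trans h5⟩
      · have hb0 : (b : F) ≠ 0 := by
          intro h3
          rw [h3, map_zero, le_zero_iff, map_eq_zero] at h2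
          exact h0 h2
        obtain ⟨δ, h3, h4, h5⟩ := ihb hb0
        exact ⟨δ, h3, h4, h2.trans h5⟩
    | smul a b hb ihb =>
      intro h0
      have h0' : (a : F) * (b : F) ≠ 0 := h0
      obtain ⟨δ, h3, h4, h5⟩ := ihb (right_ne_zero_of_mul h0')
      refine ⟨δ, h3, h4, le_trans ?_ h5⟩
      have h6 : W.valuation ((a • b : B) : F) = W.valuation (a : F) * W.valuation (b : F) := by
        rw [← map_mul]
        rfl
      rw [h6]
      exact mul_le_of_le_one_left' ((W.valuation_le_one_iff _).2 (hBW a.2))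
  have hNF : ((N : B) : F) = (N : F) := by push_cast; rfl
  have hNF0 : (N : F) ≠ 0 := by exact_mod_cast hN0
  obtain ⟨δ, ⟨r, f, D, hf, hgen, hδ⟩, hδ0, hle⟩ := key _ hzJ (by rw [hNF]; exact hNF0)
  rw [hNF] at hle
  rw [← hφr]
  have hφW : ∀ s, φ s ∈ W := fun s => hBW (hφr ▸ ⟨s, rfl⟩)
  refine lev_init hφW D hf hgen (by rw [← hδ]; exact hδ0) ?_
  rw [← hδ]
  have h1 : δ⁻¹ * ϖ ^ m = (δ⁻¹ * (N : F)) * ((N : F)⁻¹ * ϖ ^ m) := by
    field_simp
  rw [h1]
  refine W.mul_mem _ _ ?_ hm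
  rw [← W.valuation_le_one_iff, map_mul, map_inv₀]
  have h3 : 0 < W.valuation δ := (Valuation.pos_iff _).2 hδ0
  exact (inv_mul_le_one₀ h3).2 hle

end h413li

end Pool.Agent.H413.BR
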