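import Pool.Agent.H413.BR.Defs2
import Pool.Agent.H413.BR.B11
import Pool.Agent.H413.BR.B22
import Pool.Agent.H413.BR.B24
import Pool.Agent.H413.BR.B25

set_option autoImplicit false
set_option linter.unusedVariables false
set_option linter.unusedSectionVars false

namespace Pool.Agent.H413.BR

open scoped Topology
open IsLocalRing Pool.Agent.TH188.QS Pool.Agent.TH188.ARC Pool.Agent.W418.LU2
  Pool.Agent.H918R2.Quad

section gen

variable {O F : Type} [CommRing O] [Field F] [Algebra O F]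

/-- BR42. Measure zero means regular. -/
theorem lev_zero [IsNoetherianRing O] (hHJ : HJ O) {M : Submodule O F} (hM : M.FG)
    (hne : ∃ g ∈ M, g ≠ 0) {W : ZR O F} {Q : Subring F} (hQ : LR W.1 M Q) {ϖ : F}
    (hL : Lev W.1 ϖ 0 Q) : IsRegularLocalRing Q := by
  by_contra hnr
  have hQW : Q ≤ W.1.toSubring := LR.le hQ
  have hlo : lo W.1.toSubring Q = Q := IC.lo_eq (LR.ic hQ)
  have hL1 : Lev W.1 1 0 Q := by
    obtain ⟨S, _, _, φ, r, D, hD, f₀, P, g, ω, h1, h2, h3, h4⟩ := hL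
    refine ⟨S, inferInstance, inferInstance, φ, r, D, hD, f₀, P, g, ω, h1, h2, h3, ?_⟩
    rwa [pow_zero] at h4 ⊢
  have hnr' : ¬ IsRegularLocalRing (lo W.1.toSubring Q) := by
    rw [hlo]
    exact hnr
  have hy := exists_ne_of_not_regular hQW hnr'
  obtain ⟨g, hg, hgQ⟩ := LR.gn hQ
  have hloW : lo W.1.toSubring (chart O M g).toSubring ≤ W.1.toSubring := by
    rw [hgQ]
    exact hQW
  obtain ⟨s₁, -, -, hs₁, h₁⟩ := nice_quot hHJ hM W hg
  obtain ⟨s₂, -, -, hs₂, h₂⟩ := nice_gen hM W hg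
  have hn₁ := h₁ W hg hs₁ hloW
  have hn₂ := h₂ W hg hs₂ hloW
  rw [hgQ] at hn₁ hn₂
  obtain ⟨k₀, -, hk⟩ := LR_bl hM hne W hg
  obtain ⟨⟨e, he⟩, -⟩ := hk k₀ le_rfl W Q hQ hQW hy
  have heW : e * (1 : F)⁻¹ ∈ W.1 := by
    rw [inv_one, mul_one]
    exact hQW he.mem
  obtain ⟨m', hm', -⟩ := lev_step one_ne_zero hQW ⟨hn₁, hn₂⟩ hnr' he heW he.lt hL1
  exact Nat.not_lt_zero _ hm'

end gen

end Pool.Agent.H413.BR
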