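import Pool.Agent.H413.BR.Defs2
import Pool.Agent.H413.BR.B30

/-! BR43 (helper323) -/

set_option autoImplicit false
set_option linter.unusedVariables false
set_option linter.unusedSectionVars false

namespace Pool.Agent.H413.BR

open scoped Topology
open IsLocalRing Pool.Agent.TH188.QS Pool.Agent.TH188.ARC Pool.Agent.W418.LU2
  Pool.Agent.H918R2.Quad

variable {O F : Type} [CommRing O] [Field F] [Algebra O F]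

theorem main_gen [IsNoetherianRing O] (hHJ : HJ O) (hSR : SR O F) {𝓜 : Submodule O F → Prop}
    {Z₀ : Set (ZR O F)} (hcl : Cl 𝓜 Z₀) {M₀ : Submodule O F} (hM₀ : 𝓜 M₀)
    (hiso : ∀ M, 𝓜 M → ∀ η, η ∉ Z₀ → ∀ Q, LR η.1 M₀ Q → LR η.1 M Q)
    (hZ : IsClosed[topM M₀] Z₀) (hreg : ∀ W, W ∉ Z₀ → Rq W M₀) (m : ℕ) :
    ∃ M', 𝓜 M' ∧ Dom M₀ M' ∧
      (∀ (W : ZR O F) (Q : Subring F), LR W.1 M₀ Q → IsRegularLocalRing Q → LR W.1 M' Q) ∧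
      ∀ (W η : ZR O F) (ϖ : F), W.1 ≤ η.1 → η ∉ Z₀ → ϖ ≠ 0 → ϖ ∈ W.1 →
        (∀ Q₀, LR η.1 M₀ Q₀ → ∀ z ∈ Q₀, W.1.valuation z < 1 → z * ϖ⁻¹ ∈ W.1) →
        (∀ Q, LR W.1 M₀ Q → Lev W.1 ϖ m Q) → Rq W M' := by
  classical
  -- local rings exist
  have hex : ∀ W : ZR O F, ∃ Q, LR W.1 M₀ Q := by
    intro W
    obtain ⟨g₀, hg₀, hg₀0⟩ := hcl.ne M₀ hM₀
    obtain ⟨g, hg, hg0, hgW⟩ := exists_gen_max W.2 (hcl.fg M₀ hM₀) hg₀ hg₀0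
    exact ⟨_, g, hg, hg0, hgW, rfl⟩
  obtain ⟨𝓕, h𝓕⟩ : ∃ 𝓕 : Set (ZR O F), 𝓕 = {W | ∃ ϖ : F, ∃ η : ZR O F, W.1 ≤ η.1 ∧ η ∉ Z₀ ∧
      ϖ ≠ 0 ∧ ϖ ∈ W.1 ∧
      (∀ Q₀, LR η.1 M₀ Q₀ → ∀ z ∈ Q₀, W.1.valuation z < 1 → z * ϖ⁻¹ ∈ W.1) ∧
      (∀ Q, LR W.1 M₀ Q → Lev W.1 ϖ m Q)} := ⟨_, rfl⟩
  obtain ⟨ϖ, hϖ⟩ : ∃ ϖ : ZR O F → F, ∀ W ∈ 𝓕, ∃ η : ZR O F, W.1 ≤ η.1 ∧ η ∉ Z₀ ∧
      ϖ W ≠ 0 ∧ ϖ W ∈ W.1 ∧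
      (∀ Q₀, LR η.1 M₀ Q₀ → ∀ z ∈ Q₀, W.1.valuation z < 1 → z * (ϖ W)⁻¹ ∈ W.1) ∧
      (∀ Q, LR W.1 M₀ Q → Lev W.1 (ϖ W) m Q) := by
    refine ⟨fun W => if h : W ∈ {W : ZR O F | ∃ ϖ : F, ∃ η : ZR O F, W.1 ≤ η.1 ∧ η ∉ Z₀ ∧
      ϖ ≠ 0 ∧ ϖ ∈ W.1 ∧
      (∀ Q₀, LR η.1 M₀ Q₀ → ∀ z ∈ Q₀, W.1.valuation z < 1 → z * ϖ⁻¹ ∈ W.1) ∧
      (∀ Q, LR W.1 M₀ Q → Lev W.1 ϖ m Q)} then Classical.choose h else 1, fun W hW => ?_⟩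
    rw [h𝓕] at hW
    simp only [dif_pos hW]
    exact Classical.choose_spec hW
  obtain ⟨M', h1, h2, h3, h4, h5⟩ := engine hHJ hSR hcl 𝓕 ϖ
    (fun W hW => by
      obtain ⟨η, _, _, a, b, _, _⟩ := hϖ W hW
      exact ⟨a, b⟩)
    (fun W hW M hM Q hQ z hz hzW => by
      obtain ⟨η, hWη, hη, a, b, c, _⟩ := hϖ W hW
      obtain ⟨Q₀, hQ₀⟩ := hex η
      refine c Q₀ hQ₀ z ?_ hzW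
      have hQ₀' := hiso M hM η hη Q₀ hQ₀
      obtain ⟨g, hg, hg0, hgW, rfl⟩ := hQ
      have h6 : LR η.1 M (lo η.1.toSubring (chart O M g).toSubring) :=
        ⟨g, hg, hg0, fun x hx => hWη (hgW x hx), rfl⟩
      rw [LR.unique η.2 hQ₀' h6]
      obtain ⟨x, hx, y, hy, hy0, hyW, rfl⟩ := hz
      exact ⟨x, hx, y, hy, hy0, hWη hyW, rfl⟩) m M₀ hM₀ Z₀ hZ le_rfl
  refine ⟨M', h1, h2, h3, fun W η ϖ' hWη hη hϖ0 hϖW hdiv hlev => ?_⟩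
  by_cases hWZ : W ∈ Z₀
  · have hW𝓕 : W ∈ 𝓕 := by
      rw [h𝓕]
      exact ⟨ϖ', η, hWη, hη, hϖ0, hϖW, hdiv, hlev⟩
    obtain ⟨Q, hQ⟩ := hex W
    obtain ⟨_, _, _, _, _, _, hl⟩ := hϖ W hW𝓕
    exact h4 W hW𝓕 hWZ Q hQ (hl Q hQ)
  · obtain ⟨Q, hQ, hr⟩ := hreg W hWZ
    exact ⟨Q, h3 W Q hQ hr, hr⟩

end Pool.Agent.H413.BR
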