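import Pool.Agent.H413.BR.Defs2

/-!
# BR44: local rings of commensurable modules (helper947)
-/

set_option autoImplicit false
set_option linter.unusedVariables false
set_option linter.unusedSectionVars false

namespace Pool.Agent.H413.BR

open scoped Topology
open IsLocalRing Pool.Agent.TH188.QS Pool.Agent.TH188.ARC Pool.Agent.W418.LU2
  Pool.Agent.H918R2.Quad

section gen

variable {O F : Type} [CommRing O] [Field F] [Algebra O F]

theorem CI_iso {I : Ideal O} {M₀ M : Submodule O F} (h : CI I M₀ M) {η : ZR O F}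
    (hη : η ∉ ZI O F I) {Q : Subring F} (hQ : LR η.1 M₀ Q) : LR η.1 M Q := by
  obtain ⟨-, -, D, hD1, hMle, a, haM⟩ := h
  obtain ⟨g, hg, hg0, hgW, rfl⟩ := hQ
  have hη' : ∃ i ∈ I, ¬ η.1.valuation (algebraMap O F i) < 1 := by
    by_contra hcon
    push Not at hcon
    exact hη fun i hi => hcon i hi
  obtain ⟨i, hi, hi1⟩ := hη'
  obtain ⟨c, hc⟩ : ∃ c : F, c = algebraMap O F i := ⟨_, rfl⟩
  rw [← hc] at hi1
  have hc0 : c ≠ 0 := by
    rintro rfl
    apply hi1
    rw [map_zero]
    exact zero_lt_one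
  have hcinv : c⁻¹ ∈ η.1 := by
    rw [← η.1.valuation_le_one_iff, map_inv₀]
    exact inv_le_one_of_one_le₀ (not_lt.1 hi1)
  have hca0 : c ^ a ≠ 0 := pow_ne_zero _ hc0
  have hcainv : (c ^ a)⁻¹ ∈ η.1 := by
    rw [← inv_pow]
    exact pow_mem hcinv a
  have hgD : g ^ D ≠ 0 := pow_ne_zero _ hg0
  have hBW : (chart O M₀ g).toSubring ≤ η.1.toSubring := chart_le_V η.2 hgW
  have hmem : ∀ y ∈ M₀ ^ D, c ^ a * y ∈ M := by
    intro y hy
    have h1 : (i ^ a) • y ∈ I ^ a • (M₀ ^ D) := Submodule.smul_mem_smul (Ideal.pow_mem_pow hi a) hy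
    have h2 : (i ^ a) • y = c ^ a * y := by
      rw [Algebra.smul_def, map_pow, hc]
    rw [h2] at h1
    exact haM h1
  refine ⟨c ^ a * g ^ D, hmem _ (Submodule.pow_mem_pow _ hg D), mul_ne_zero hca0 hgD, ?_, ?_⟩
  · intro m hm
    have h1 : m / (c ^ a * g ^ D) = (m / g ^ D) * (c ^ a)⁻¹ := by
      field_simp
    rw [h1]
    exact η.1.mul_mem _ _ (hBW (pow_div_mem hg0 D m (hMle hm))) hcainv
  · apply le_antisymm
    · refine lo_le_lo hBW ?_
      let L : Subalgebra O F :=
        { lo η.1.toSubring (chart O M₀ g).toSubring with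
          algebraMap_mem' := fun o => le_lo _ _ (Subalgebra.algebraMap_mem (chart O M₀ g) o) }
      have h1 : chart O M (c ^ a * g ^ D) ≤ L := by
        refine Algebra.adjoin_le ?_
        rintro _ ⟨m, hm, rfl⟩
        change m / (c ^ a * g ^ D) ∈ L
        refine ⟨m / g ^ D, pow_div_mem hg0 D m (hMle hm), c ^ a, ?_, hca0, hcainv, ?_⟩
        · rw [hc, ← map_pow]
          exact Subalgebra.algebraMap_mem (chart O M₀ g) (i ^ a)
        · field_simp
      exact h1
    · refine lo_mono ?_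
      have h1 : chart O M₀ g ≤ chart O M (c ^ a * g ^ D) := by
        refine Algebra.adjoin_le ?_
        rintro _ ⟨m, hm, rfl⟩
        change m / g ∈ chart O M (c ^ a * g ^ D)
        obtain ⟨D', rfl⟩ : ∃ D', D = D' + 1 := ⟨D - 1, by omega⟩
        have h2 : m / g = (c ^ a * (g ^ D' * m)) / (c ^ a * g ^ (D' + 1)) := by
          rw [pow_succ]
          field_simp
        rw [h2]
        refine Algebra.subset_adjoin ⟨c ^ a * (g ^ D' * m), hmem _ ?_, rfl⟩
        rw [pow_succ]
        exact Submodule.mul_mem_mul (Submodule.pow_mem_pow _ hg D') hm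
      exact h1

end gen

end Pool.Agent.H413.BR
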