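import Pool.Agent.H413.BR.Defs2
import Pool.Agent.H413.BR.B6

/-!
# BR45: the composite valuation ring attached to a trait
-/

set_option autoImplicit false
set_option linter.unusedVariables false
set_option linter.unusedSectionVars false

namespace Pool.Agent.H413.BR

open scoped Topology
open IsLocalRing Pool.Agent.TH188.QS Pool.Agent.TH188.ARC Pool.Agent.W418.LU2
  Pool.Agent.H918R2.Quad

section br45

theorem br45_ord (R : Type) [CommRing R] [IsDomain R] [IsDiscreteValuationRing R] :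
    ∃ o : R → ℕ, (∀ x y, x ≠ 0 → y ≠ 0 → o (x * y) = o x + o y) ∧
      (∀ x y, x ≠ 0 → y ≠ 0 → (x ∣ y ↔ o x ≤ o y)) ∧
      (∀ x (d : ℕ), x ∉ maximalIdeal R ^ (d + 1) → x ≠ 0 ∧ o x ≤ d) ∧
      (∀ x, x ≠ 0 → (x ∈ maximalIdeal R ↔ 0 < o x)) := by
  classical
  obtain ⟨p, hp⟩ := IsDiscreteValuationRing.exists_irreducible R
  have h : ∀ x : R, x ≠ 0 → ∃ n, Associated x (p ^ n) := fun x hx =>
    IsDiscreteValuationRing.associated_pow_irreducible hx hp
  have h' : ∀ x : R, ∃ n : ℕ, x ≠ 0 → Associated x (p ^ n) := by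
    intro x
    by_cases hx : x ≠ 0
    · obtain ⟨n, hn⟩ := h x hx
      exact ⟨n, fun _ => hn⟩
    · exact ⟨0, fun h1 => absurd h1 hx⟩
  choose o ho using h'
  have hpw : ∀ a b : ℕ, p ^ a ∣ p ^ b ↔ a ≤ b := fun a b =>
    pow_dvd_pow_iff hp.ne_zero hp.not_isUnit
  have hdvd : ∀ x y, x ≠ 0 → y ≠ 0 → (x ∣ y ↔ o x ≤ o y) := by
    intro x y hx hy
    rw [(ho x hx).dvd_iff_dvd_left, (ho y hy).dvd_iff_dvd_right, hpw]
  have hpd : ∀ (n : ℕ) (x : R), x ≠ 0 → (p ^ n ∣ x ↔ n ≤ o x) := by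
    intro n x hx
    rw [(ho x hx).dvd_iff_dvd_right, hpw]
  refine ⟨o, ?_, hdvd, ?_, ?_⟩
  · intro x y hx hy
    have h1 : Associated (p ^ o (x * y)) (p ^ (o x + o y)) := by
      rw [pow_add]
      exact (ho (x * y) (mul_ne_zero hx hy)).symm.trans ((ho x hx).mul_mul (ho y hy))
    exact le_antisymm ((hpw _ _).1 h1.dvd) ((hpw _ _).1 h1.symm.dvd)
  · intro x d hx
    rw [hp.maximalIdeal_eq, Ideal.span_singleton_pow, Ideal.mem_span_singleton] at hx
    have hx0 : x ≠ 0 := by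
      rintro rfl
      exact hx (dvd_zero _)
    refine ⟨hx0, ?_⟩
    rw [hpd _ _ hx0] at hx
    omega
  · intro x hx
    rw [hp.maximalIdeal_eq, Ideal.mem_span_singleton]
    have h1 := hpd 1 x hx
    rw [pow_one] at h1
    rw [h1]
    exact Nat.succ_le_iff

theorem br45_val {F : Type} [Field F] (η : ValuationSubring F) {x : F} (hx : x ∈ η) :
    η.valuation x < 1 ↔ ¬ (x ≠ 0 ∧ x⁻¹ ∈ η) := by
  constructor
  · rintro h ⟨h0, h1⟩
    have h2 : η.valuation x⁻¹ ≤ 1 := (η.valuation_le_one_iff _).2 h1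
    have h3 : η.valuation x * η.valuation x⁻¹ = 1 := by
      rw [← map_mul, mul_inv_cancel₀ h0, map_one]
    have h4 : η.valuation x * η.valuation x⁻¹ < 1 := by
      calc η.valuation x * η.valuation x⁻¹ ≤ η.valuation x * 1 := mul_le_mul_right h2 _
        _ = η.valuation x := mul_one _
        _ < 1 := h
    exact absurd h3 h4.ne
  · intro h
    have h1 : η.valuation x ≤ 1 := (η.valuation_le_one_iff _).2 hx
    refine lt_of_le_of_ne h1 fun h2 => h ⟨?_, ?_⟩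
    · rintro rfl
      rw [map_zero] at h2
      exact zero_ne_one h2
    · rw [← η.valuation_le_one_iff, map_inv₀, h2, inv_one]

/-- The composite valuation ring, closure under inverses. -/
theorem br45_inv {F : Type} [Field F] (η : ValuationSubring F)
    (V : ValuationSubring (ResidueField η)) (y : F) (hy : y ∈ η) :
    (∃ h : y ∈ η, residue η ⟨y, h⟩ ∈ V) ∨ (∃ h : y⁻¹ ∈ η, residue η ⟨y⁻¹, h⟩ ∈ V) := by
  by_cases h0 : residue η ⟨y, hy⟩ = 0
  · left
    refine ⟨hy, ?_⟩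
    rw [h0]
    exact V.zero_mem
  · have hy1 : y ≠ 0 ∧ y⁻¹ ∈ η := by
      by_contra hc
      rw [← br45_val η hy] at hc
      exact h0 ((residue_eq_zero_iff _).2 ((η.valuation_lt_one_iff ⟨y, hy⟩).2 hc))
    rcases V.mem_or_inv_mem (residue η ⟨y, hy⟩) with h | h
    · exact Or.inl ⟨hy, h⟩
    · right
      refine ⟨hy1.2, ?_⟩
      have h2 : residue η ⟨y⁻¹, hy1.2⟩ = (residue η ⟨y, hy⟩)⁻¹ := by
        apply eq_inv_of_mul_eq_one_left
        rw [← map_mul, ← map_one (residue η)]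
        congr 1
        exact Subtype.ext (inv_mul_cancel₀ hy1.1)
      rw [h2]
      exact h

/-- The composite valuation ring. -/
def br45_W {F : Type} [Field F] (η : ValuationSubring F)
    (V : ValuationSubring (ResidueField η)) : ValuationSubring F where
  carrier := {z | ∃ h : z ∈ η, residue η ⟨z, h⟩ ∈ V}
  mul_mem' := by
    rintro a b ⟨ha, ha'⟩ ⟨hb, hb'⟩
    exact ⟨η.mul_mem _ _ ha hb, V.mul_mem _ _ ha' hb'⟩
  one_mem' := ⟨η.one_mem, by
    have : residue η ⟨1, η.one_mem⟩ = 1 := map_one (residue η)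
    rw [this]
    exact V.one_mem⟩
  add_mem' := by
    rintro a b ⟨ha, ha'⟩ ⟨hb, hb'⟩
    exact ⟨η.add_mem _ _ ha hb, V.add_mem _ _ ha' hb'⟩
  zero_mem' := ⟨η.zero_mem, by
    have : residue η ⟨0, η.zero_mem⟩ = 0 := map_zero (residue η)
    rw [this]
    exact V.zero_mem⟩
  neg_mem' := by
    rintro a ⟨ha, ha'⟩
    exact ⟨η.neg_mem _ ha, V.neg_mem _ ha'⟩
  mem_or_inv_mem' := by
    intro x
    rcases η.mem_or_inv_mem x with h | h
    · exact br45_inv η V x h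
    · rcases br45_inv η V x⁻¹ h with h1 | h1
      · exact Or.inr h1
      · rw [inv_inv] at h1
        exact Or.inl h1

theorem br45_mem {F : Type} [Field F] {η : ValuationSubring F}
    {V : ValuationSubring (ResidueField η)} {z : F} (h : z ∈ η) :
    z ∈ br45_W η V ↔ residue η ⟨z, h⟩ ∈ V :=
  ⟨fun h1 => h1.2, fun h1 => ⟨h, h1⟩⟩

/-- `x` is the residue of a fraction with value `r`. -/
def br45_Rel {B κ R : Type} [CommRing B] [Field κ] [CommRing R] (ρ : B →+* κ) (γ : B →+* R)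
    (x : κ) (r : R) : Prop := ∃ b c : B, γ c ≠ 0 ∧ γ b = γ c * r ∧ x * ρ c = ρ b

theorem br45_fld {B κ R : Type} [CommRing B] [Field κ] [CommRing R] [IsDomain R]
    [IsDiscreteValuationRing R] (ρ : B →+* κ) (γ : B →+* R) (hργ : ∀ b, ρ b = 0 ↔ γ b = 0) :
    ∃ V : ValuationSubring κ, ∀ b c : B, γ c ≠ 0 → (ρ b * (ρ c)⁻¹ ∈ V ↔ γ c ∣ γ b) := by
  classical
  have huniq : ∀ x r r', br45_Rel ρ γ x r → br45_Rel ρ γ x r' → r = r' := by
    rintro x r r' ⟨b, c, hc, hb, hx⟩ ⟨b', c', hc', hb', hx'⟩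
    have h1 : ρ (b * c' - b' * c) = 0 := by
      rw [map_sub, map_mul, map_mul, ← hx, ← hx']
      ring
    rw [hργ, map_sub, map_mul, map_mul, hb, hb', sub_eq_zero] at h1
    have h2 : γ c * γ c' * r = γ c * γ c' * r' := by
      calc γ c * γ c' * r = γ c * r * γ c' := by ring
        _ = γ c' * r' * γ c := h1
        _ = γ c * γ c' * r' := by ring
    exact mul_left_cancel₀ (mul_ne_zero hc hc') h2
  have hmul : ∀ x y r s, br45_Rel ρ γ x r → br45_Rel ρ γ y s → br45_Rel ρ γ (x * y) (r * s) := by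
    rintro x y r s ⟨b, c, hc, hb, hx⟩ ⟨b', c', hc', hb', hx'⟩
    refine ⟨b * b', c * c', ?_, ?_, ?_⟩
    · rw [map_mul]
      exact mul_ne_zero hc hc'
    · rw [map_mul, map_mul, hb, hb']
      ring
    · rw [map_mul, map_mul, ← hx, ← hx']
      ring
  have hadd : ∀ x y r s, br45_Rel ρ γ x r → br45_Rel ρ γ y s → br45_Rel ρ γ (x + y) (r + s) := by
    rintro x y r s ⟨b, c, hc, hb, hx⟩ ⟨b', c', hc', hb', hx'⟩
    refine ⟨b * c' + b' * c, c * c', ?_, ?_, ?_⟩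
    · rw [map_mul]
      exact mul_ne_zero hc hc'
    · rw [map_add, map_mul, map_mul, map_mul, hb, hb']
      ring
    · rw [map_add, map_mul, map_mul, map_mul, ← hx, ← hx']
      ring
  have hone : br45_Rel ρ γ 1 1 := ⟨1, 1, by rw [map_one]; exact one_ne_zero, by simp, by simp⟩
  have hzero : br45_Rel ρ γ 0 0 := ⟨0, 1, by rw [map_one]; exact one_ne_zero, by simp, by simp⟩
  have hneg : ∀ x r, br45_Rel ρ γ x r → br45_Rel ρ γ (-x) (-r) := by
    rintro x r ⟨b, c, hc, hb, hx⟩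
    refine ⟨-b, c, hc, ?_, ?_⟩
    · rw [map_neg, hb]
      ring
    · rw [map_neg, ← hx]
      ring
  let S : Subring κ :=
    { carrier := {x | ∃ r, br45_Rel ρ γ x r}
      mul_mem' := by
        rintro x y ⟨r, hr⟩ ⟨s, hs⟩
        exact ⟨r * s, hmul x y r s hr hs⟩
      one_mem' := ⟨1, hone⟩
      add_mem' := by
        rintro x y ⟨r, hr⟩ ⟨s, hs⟩
        exact ⟨r + s, hadd x y r s hr hs⟩
      zero_mem' := ⟨0, hzero⟩
      neg_mem' := by
        rintro x ⟨r, hr⟩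
        exact ⟨-r, hneg x r hr⟩ }
  have hS : ∀ x : S, br45_Rel ρ γ (x : κ) x.2.choose := fun x => x.2.choose_spec
  let ψ : S →+* R :=
    { toFun := fun x => x.2.choose
      map_one' := huniq 1 _ _ (hS 1) hone
      map_mul' := fun x y => huniq ((x : κ) * y) _ _ (hS (x * y)) (hmul _ _ _ _ (hS x) (hS y))
      map_zero' := huniq 0 _ _ (hS 0) hzero
      map_add' := fun x y => huniq ((x : κ) + y) _ _ (hS (x + y)) (hadd _ _ _ _ (hS x) (hS y)) }
  have hψ : ∀ (x : S) r, br45_Rel ρ γ (x : κ) r → ψ x = r := fun x r h => huniq _ _ _ (hS x) h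
  have hprime : ((maximalIdeal R).comap ψ).IsPrime := Ideal.comap_isPrime ψ (maximalIdeal R)
  obtain ⟨V, hSV, hV⟩ := exists_val S ((maximalIdeal R).comap ψ)
  have hrel : ∀ b c r, γ c ≠ 0 → γ b = γ c * r → br45_Rel ρ γ (ρ b * (ρ c)⁻¹) r := by
    intro b c r hc hb
    have hc' : ρ c ≠ 0 := fun h => hc ((hργ c).1 h)
    refine ⟨b, c, hc, hb, ?_⟩
    rw [mul_assoc, inv_mul_cancel₀ hc', mul_one]
  obtain ⟨o, ho1, ho2, ho3, ho4⟩ := br45_ord R
  refine ⟨V, fun b c hc => ⟨fun hbc => ?_, ?_⟩⟩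
  · by_contra hnd
    have hb0 : γ b ≠ 0 := by
      intro h
      rw [h] at hnd
      exact hnd (dvd_zero _)
    have hle : ¬ o (γ c) ≤ o (γ b) := fun h => hnd ((ho2 _ _ hc hb0).2 h)
    obtain ⟨r, hr⟩ := (ho2 _ _ hb0 hc).2 (by omega)
    have hr0 : r ≠ 0 := by
      rintro rfl
      rw [mul_zero] at hr
      exact hc hr
    have hrm : r ∈ maximalIdeal R := by
      rw [ho4 r hr0]
      have h1 := ho1 (γ b) r hb0 hr0
      rw [← hr] at h1
      omega
    have h2 : br45_Rel ρ γ (ρ c * (ρ b)⁻¹) r := hrel c b r hb0 hr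
    have h3 : (⟨ρ c * (ρ b)⁻¹, ⟨r, h2⟩⟩ : S) ∈ (maximalIdeal R).comap ψ := by
      rw [Ideal.mem_comap, hψ _ r h2]
      exact hrm
    have h4 := (hV _).1 h3
    have h5 : ρ c * (ρ b)⁻¹ ∈ V := hSV (⟨r, h2⟩ : ρ c * (ρ b)⁻¹ ∈ S)
    refine (br45_val V h5).1 h4 ⟨?_, ?_⟩
    · exact mul_ne_zero (fun h => hc ((hργ c).1 h)) (inv_ne_zero fun h => hb0 ((hργ b).1 h))
    · rw [mul_inv, inv_inv, mul_comm]
      exact hbc
  · rintro ⟨r, hr⟩
    exact hSV (⟨r, hrel b c r hc hr⟩ : ρ b * (ρ c)⁻¹ ∈ S)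

theorem trait_val {F : Type} [Field F] {B : Subring F} {R : Type} [CommRing R] [IsDomain R]
    [IsDiscreteValuationRing R] (γ : B →+* R) :
    ∃ (η W : ValuationSubring F) (ϖ : F), W ≤ η ∧ B ≤ W.toSubring ∧
      (∀ b : B, η.valuation (b : F) < 1 ↔ γ b = 0) ∧
      (∀ b c : B, γ c ≠ 0 → ((b : F) * (c : F)⁻¹ ∈ W ↔ γ c ∣ γ b)) ∧
      (∀ b : B, W.valuation (b : F) < 1 ↔ γ b ∈ maximalIdeal R) ∧
      ϖ ≠ 0 ∧ ϖ ∈ W ∧ (∀ z ∈ lo η.toSubring B, W.valuation z < 1 → z * ϖ⁻¹ ∈ W) ∧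
      ∀ (b : B) (d : ℕ), γ b ∉ maximalIdeal R ^ (d + 1) → (b : F)⁻¹ * ϖ ^ d ∈ W := by
  classical
  have hprime : (RingHom.ker γ).IsPrime := RingHom.ker_isPrime γ
  obtain ⟨η, hBη, hη⟩ := exists_val B (RingHom.ker γ)
  have hη' : ∀ b : B, η.valuation (b : F) < 1 ↔ γ b = 0 := fun b => by
    rw [← hη b, RingHom.mem_ker]
  let ρ : B →+* ResidueField η := (residue η).comp (Subring.inclusion hBη)
  have hρ : ∀ b : B, ρ b = residue η ⟨(b : F), hBη b.2⟩ := fun b => rfl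
  have hργ : ∀ b, ρ b = 0 ↔ γ b = 0 := by
    intro b
    rw [hρ, residue_eq_zero_iff, η.valuation_lt_one_iff]
    exact hη' b
  obtain ⟨V, hV⟩ := br45_fld ρ γ hργ
  have hWη : br45_W η V ≤ η := fun z hz => hz.1
  have hc0 : ∀ c : B, γ c ≠ 0 → (c : F) ≠ 0 ∧ (c : F)⁻¹ ∈ η := by
    intro c hc
    by_contra h
    exact hc ((hη' c).1 ((br45_val η (hBη c.2)).2 h))
  have h4 : ∀ b c : B, γ c ≠ 0 → ((b : F) * (c : F)⁻¹ ∈ br45_W η V ↔ γ c ∣ γ b) := by
    intro b c hc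
    obtain ⟨hc1, hc2⟩ := hc0 c hc
    have hmem : (b : F) * (c : F)⁻¹ ∈ η := η.mul_mem _ _ (hBη b.2) hc2
    rw [br45_mem hmem, ← hV b c hc]
    have hcρ : ρ c ≠ 0 := fun h => hc ((hργ c).1 h)
    have h1 : residue η ⟨(b : F) * (c : F)⁻¹, hmem⟩ = ρ b * (ρ c)⁻¹ := by
      rw [eq_mul_inv_iff_mul_eq₀ hcρ, hρ, hρ, ← map_mul]
      congr 1
      apply Subtype.ext
      change (b : F) * (c : F)⁻¹ * (c : F) = b
      rw [mul_assoc, inv_mul_cancel₀ hc1, mul_one]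
    rw [h1]
  have hBW : B ≤ (br45_W η V).toSubring := by
    intro b hb
    have h1 := (h4 ⟨b, hb⟩ 1 (by rw [map_one]; exact one_ne_zero)).2 (by
      rw [map_one]
      exact one_dvd _)
    rw [OneMemClass.coe_one, inv_one, mul_one] at h1
    exact h1
  obtain ⟨o, ho1, ho2, ho3, ho4⟩ := br45_ord R
  have h5 : ∀ b : B, (br45_W η V).valuation (b : F) < 1 ↔ γ b ∈ maximalIdeal R := by
    intro b
    rw [br45_val _ (hBW b.2)]
    by_cases hb : γ b = 0
    · rw [hb]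
      refine ⟨fun _ => Ideal.zero_mem _, fun _ h => ?_⟩
      exact (br45_val η (hBη b.2)).1 ((hη' b).2 hb) ⟨h.1, hWη h.2⟩
    · have hb0 := hc0 b hb
      have h1 := h4 1 b hb
      rw [OneMemClass.coe_one, one_mul, map_one] at h1
      have h2 : γ b ∣ 1 ↔ γ b ∉ maximalIdeal R := by
        rw [mem_maximalIdeal, mem_nonunits_iff, not_not, isUnit_iff_dvd_one]
      constructor
      · intro h
        by_contra h3
        exact h ⟨hb0.1, h1.2 (h2.2 h3)⟩
      · intro h h3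
        exact h2.1 (h1.1 h3.2) h
  refine ⟨η, br45_W η V, ?_⟩
  by_cases hcase : ∃ b c : B, γ b ≠ 0 ∧ γ c ≠ 0 ∧ o (γ c) < o (γ b)
  · -- the least positive order
    have hex : ∃ e : ℕ, 0 < e ∧ ∃ b c : B, γ b ≠ 0 ∧ γ c ≠ 0 ∧ o (γ b) = o (γ c) + e := by
      obtain ⟨b, c, hb, hc, hlt⟩ := hcase
      exact ⟨o (γ b) - o (γ c), by omega, b, c, hb, hc, by omega⟩
    obtain ⟨he0, b₁, c₁, hb₁, hc₁, he⟩ := Nat.find_spec hex
    have hmin : ∀ e' : ℕ, 0 < e' → (∃ b c : B, γ b ≠ 0 ∧ γ c ≠ 0 ∧ o (γ b) = o (γ c) + e') →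
        Nat.find hex ≤ e' := fun e' h1 h2 => Nat.find_min' hex ⟨h1, h2⟩
    generalize Nat.find hex = e at he0 he hmin
    have hb₁0 := hc0 b₁ hb₁
    have hc₁0 := hc0 c₁ hc₁
    refine ⟨(b₁ : F) * (c₁ : F)⁻¹, hWη, hBW, hη', h4, h5,
      mul_ne_zero hb₁0.1 (inv_ne_zero hc₁0.1), ?_, ?_, ?_⟩
    · exact (h4 b₁ c₁ hc₁).2 ((ho2 _ _ hc₁ hb₁).2 (by omega))
    · rintro z ⟨x, hx, y, hy, hy0, hyη, rfl⟩ hz
      have hγy : γ ⟨y, hy⟩ ≠ 0 := by
        intro h
        exact (br45_val η (hBη hy)).1 ((hη' ⟨y, hy⟩).2 h) ⟨hy0, hyη⟩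
      have h6 : x * y⁻¹ * ((b₁ : F) * (c₁ : F)⁻¹)⁻¹ =
          ((⟨x, hx⟩ * c₁ : B) : F) * ((⟨y, hy⟩ * b₁ : B) : F)⁻¹ := by
        rw [Subring.coe_mul, Subring.coe_mul, mul_inv, inv_inv, mul_inv]
        ring
      rw [h6, h4 _ _ (by rw [map_mul]; exact mul_ne_zero hγy hb₁), map_mul, map_mul]
      by_cases hγx : γ ⟨x, hx⟩ = 0
      · rw [hγx, zero_mul]
        exact dvd_zero _
      · have hx0 := hc0 ⟨x, hx⟩ hγx
        rw [ho2 _ _ (mul_ne_zero hγy hb₁) (mul_ne_zero hγx hc₁), ho1 _ _ hγy hb₁,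
          ho1 _ _ hγx hc₁]
        have hzW : x * y⁻¹ ∈ br45_W η V := by
          rw [← ValuationSubring.valuation_le_one_iff]
          exact hz.le
        have h7 := (br45_val _ hzW).1 hz
        have h8 : ¬ γ ⟨x, hx⟩ ∣ γ ⟨y, hy⟩ := by
          intro h9
          refine h7 ⟨mul_ne_zero hx0.1 (inv_ne_zero hy0), ?_⟩
          rw [mul_inv, inv_inv, mul_comm]
          exact (h4 ⟨y, hy⟩ ⟨x, hx⟩ hγx).2 h9
        rw [ho2 _ _ hγx hγy] at h8
        have h9 := hmin (o (γ ⟨x, hx⟩) - o (γ ⟨y, hy⟩)) (by omega)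
          ⟨⟨x, hx⟩, ⟨y, hy⟩, hγx, hγy, by omega⟩
        omega
    · intro b d hb
      obtain ⟨hb0, hbd⟩ := ho3 _ _ hb
      have hopow : ∀ (x : R) (n : ℕ), x ≠ 0 → o (x ^ n) = n * o x := by
        intro x n hx
        induction n with
        | zero =>
          rw [pow_zero, zero_mul]
          have h6 := ho1 1 1 one_ne_zero one_ne_zero
          rw [one_mul] at h6
          omega
        | succ n ih =>
          rw [pow_succ, ho1 _ _ (pow_ne_zero n hx) hx, ih]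
          ring
      have h6 : (b : F)⁻¹ * ((b₁ : F) * (c₁ : F)⁻¹) ^ d =
          ((b₁ ^ d : B) : F) * ((b * c₁ ^ d : B) : F)⁻¹ := by
        rw [Subring.coe_mul, Subring.coe_pow, Subring.coe_pow, mul_inv, mul_pow, inv_pow]
        ring
      have hne : γ (b * c₁ ^ d) ≠ 0 := by
        rw [map_mul, map_pow]
        exact mul_ne_zero hb0 (pow_ne_zero d hc₁)
      rw [h6, h4 _ _ hne, map_mul, map_pow, map_pow,
        ho2 _ _ (mul_ne_zero hb0 (pow_ne_zero d hc₁)) (pow_ne_zero d hb₁),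
        ho1 _ _ hb0 (pow_ne_zero d hc₁), hopow _ _ hc₁, hopow _ _ hb₁, he]
      have h7 : d ≤ d * e := Nat.le_mul_of_pos_right d he0
      rw [mul_add]
      omega
  · -- all orders are zero
    push Not at hcase
    have hunit : ∀ b : B, γ b ≠ 0 → o (γ b) = 0 := by
      intro b hb
      have h6 := hcase b 1 hb (by rw [map_one]; exact one_ne_zero)
      rw [map_one] at h6
      have h7 := ho1 1 1 one_ne_zero one_ne_zero
      rw [one_mul] at h7
      omega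
    refine ⟨1, hWη, hBW, hη', h4, h5, one_ne_zero, ValuationSubring.one_mem _, ?_, ?_⟩
    · intro z _ hz
      rw [inv_one, mul_one, ← ValuationSubring.valuation_le_one_iff]
      exact hz.le
    · intro b d hb
      obtain ⟨hb0, -⟩ := ho3 _ _ hb
      rw [one_pow, mul_one]
      have h6 := h4 1 b hb0
      rw [OneMemClass.coe_one, one_mul] at h6
      rw [h6, map_one, ho2 _ _ hb0 one_ne_zero, hunit b hb0]
      exact Nat.zero_le _

end br45

end Pool.Agent.H413.BR
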