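import Pool.Agent.H413.BR.Defs2

/-! BR46 (helper323) -/

set_option autoImplicit false
set_option linter.unusedVariables false
set_option linter.unusedSectionVars false

namespace Pool.Agent.H413.BR

open scoped Topology
open IsLocalRing Pool.Agent.TH188.QS Pool.Agent.TH188.ARC Pool.Agent.W418.LU2
  Pool.Agent.H918R2.Quad

/-- the extension of `γ` to fractions whose values are in `R` -/
theorem h413_ext_frac {F : Type} [Field F] {B B' : Subring F} {R : Type} [CommRing R] [IsDomain R]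
    (γ : B →+* R)
    (h : ∀ x ∈ B', ∃ b c : B, γ c ≠ 0 ∧ x = (b : F) * (c : F)⁻¹ ∧ γ c ∣ γ b) :
    ∃ γ' : B' →+* R, ∀ (x : B') (b c : B), γ c ≠ 0 → (x : F) = (b : F) * (c : F)⁻¹ →
      γ b = γ' x * γ c := by
  have hne : ∀ c : B, γ c ≠ 0 → (c : F) ≠ 0 := by
    intro c hc h0
    apply hc
    have : c = 0 := Subtype.ext h0
    rw [this, map_zero]
  have hex : ∀ x : B', ∃ r : R, ∃ b c : B, γ c ≠ 0 ∧ (x : F) = (b : F) * (c : F)⁻¹ ∧
      γ b = r * γ c := by
    intro x
    obtain ⟨b, c, hc, hx, r, hr⟩ := h x x.2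
    exact ⟨r, b, c, hc, hx, by rw [hr, mul_comm]⟩
  choose v vb vc hvc hvx hv using hex
  have key : ∀ (x : B') (b c : B), γ c ≠ 0 → (x : F) = (b : F) * (c : F)⁻¹ →
      γ b = v x * γ c := by
    intro x b c hc hx
    have h1 : (b : F) * (vc x : F) = (vb x : F) * (c : F) := by
      have h2 : (b : F) * (c : F)⁻¹ = (vb x : F) * (vc x : F)⁻¹ := by rw [← hx, hvx]
      have h3 := hne c hc
      have h4 := hne _ (hvc x)
      field_simp at h2
      rw [h2, mul_comm]
    have h2 : b * vc x = vb x * c := Subtype.ext h1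
    have h3 := congrArg γ h2
    rw [map_mul, map_mul, hv x] at h3
    apply mul_right_cancel₀ (hvc x)
    rw [h3]
    ring
  have huniq : ∀ (x : B') (r : R) (b c : B), γ c ≠ 0 → (x : F) = (b : F) * (c : F)⁻¹ →
      γ b = r * γ c → v x = r := by
    intro x r b c hc hx hr
    have h1 := key x b c hc hx
    rw [hr] at h1
    exact (mul_right_cancel₀ hc h1).symm
  refine ⟨{ toFun := v, map_one' := ?_, map_mul' := ?_, map_zero' := ?_, map_add' := ?_ }, key⟩
  · refine huniq 1 1 1 1 (by rw [map_one]; exact one_ne_zero) ?_ ?_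
    · change (1 : F) = (1 : F) * (1 : F)⁻¹
      simp
    · rw [map_one, mul_one]
  · intro x y
    refine huniq (x * y) (v x * v y) (vb x * vb y) (vc x * vc y) ?_ ?_ ?_
    · rw [map_mul]
      exact mul_ne_zero (hvc x) (hvc y)
    · change (x : F) * (y : F) = ((vb x : F) * (vb y : F)) * ((vc x : F) * (vc y : F))⁻¹
      rw [hvx x, hvx y, mul_inv]
      ring
    · rw [map_mul, map_mul, hv x, hv y]
      ring
  · refine huniq 0 0 0 1 (by rw [map_one]; exact one_ne_zero) ?_ ?_
    · change (0 : F) = (0 : F) * (1 : F)⁻¹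
      simp
    · rw [map_zero, zero_mul]
  · intro x y
    refine huniq (x + y) (v x + v y) (vb x * vc y + vb y * vc x) (vc x * vc y) ?_ ?_ ?_
    · rw [map_mul]
      exact mul_ne_zero (hvc x) (hvc y)
    · change (x : F) + (y : F) = ((vb x : F) * (vc y : F) + (vb y : F) * (vc x : F)) *
        ((vc x : F) * (vc y : F))⁻¹
      rw [hvx x, hvx y]
      have h3 := hne _ (hvc x)
      have h4 := hne _ (hvc y)
      field_simp
    · rw [map_add, map_mul, map_mul, map_mul, hv x, hv y]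
      ring

variable {O F : Type} [CommRing O] [Field F] [Algebra O F]

theorem h413_Gn_mul {W : ValuationSubring F} {M J : Submodule O F} {g j : F} (hg : Gn W M g)
    (hj : Gn W J j) : Gn W (M * J) (g * j) := by
  refine ⟨Submodule.mul_mem_mul hg.1 hj.1, mul_ne_zero hg.2.1 hj.2.1, fun x hx => ?_⟩
  induction hx using Submodule.mul_induction_on' with
  | mem_mul_mem a ha b hb =>
    rw [mul_div_mul_comm]
    exact W.mul_mem _ _ (hg.2.2 a ha) (hj.2.2 b hb)
  | add a _ b _ ha hb =>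
    rw [add_div]
    exact W.add_mem _ _ ha hb

theorem lift_trait {M₀ J : Submodule O F} {g : F}
    (hg : g ∈ M₀) (hg0 : g ≠ 0) {R : Type} [CommRing R] [IsDomain R] [IsDiscreteValuationRing R]
    (γ : (chart O M₀ g).toSubring →+* R) {η W : ZR O F} (hWη : W.1 ≤ η.1)
    (hB : (chart O M₀ g).toSubring ≤ W.1.toSubring)
    (hη : ∀ b : (chart O M₀ g).toSubring, η.1.valuation (b : F) < 1 ↔ γ b = 0)
    (hW : ∀ b c : (chart O M₀ g).toSubring, γ c ≠ 0 → ((b : F) * (c : F)⁻¹ ∈ W.1 ↔ γ c ∣ γ b))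
    (hiso : ∃ Q, LR η.1 M₀ Q ∧ LR η.1 (M₀ * J) Q) (hr : Rq W (M₀ * J)) {j : F}
    (hj : Gn W.1 J j) :
    ∃ γ' : (chart O (M₀ * J) (g * j)).toSubring →+* R,
      (∀ (b : F) (hb : b ∈ (chart O M₀ g).toSubring)
        (hb' : b ∈ (chart O (M₀ * J) (g * j)).toSubring), γ' ⟨b, hb'⟩ = γ ⟨b, hb⟩) ∧
      IsRegularLocalRing (Localization.AtPrime ((maximalIdeal R).comap γ')) := by
  have hGW : Gn W.1 M₀ g := ⟨hg, hg0, fun m hm => hB (Algebra.subset_adjoin ⟨m, hm, rfl⟩)⟩
  have hGη : Gn η.1 M₀ g := ⟨hg, hg0, fun m hm => hWη (hGW.2.2 m hm)⟩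
  have hjη : Gn η.1 J j := ⟨hj.1, hj.2.1, fun m hm => hWη (hj.2.2 m hm)⟩
  have hGW' : Gn W.1 (M₀ * J) (g * j) := h413_Gn_mul hGW hj
  have hGη' : Gn η.1 (M₀ * J) (g * j) := h413_Gn_mul hGη hjη
  have hB' : (chart O (M₀ * J) (g * j)).toSubring ≤ W.1.toSubring := hGW'.le
  -- the localizations at `η` agree
  have hlo : lo η.1.toSubring (chart O (M₀ * J) (g * j)).toSubring =
      lo η.1.toSubring (chart O M₀ g).toSubring := by
    obtain ⟨Q, hQ, hQ'⟩ := hiso
    rw [LR.unique η.2 hGη'.LR hQ', LR.unique η.2 hGη.LR hQ]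
  have hfr : ∀ x ∈ (chart O (M₀ * J) (g * j)).toSubring,
      ∃ b c : (chart O M₀ g).toSubring, γ c ≠ 0 ∧ x = (b : F) * (c : F)⁻¹ ∧ γ c ∣ γ b := by
    intro x hx
    have h1 : x ∈ lo η.1.toSubring (chart O M₀ g).toSubring := by
      rw [← hlo]
      exact le_lo _ _ hx
    obtain ⟨b, hb, c, hc, hc0, hcη, hxbc⟩ := h1
    have hγc : γ ⟨c, hc⟩ ≠ 0 := by
      intro h0
      have h2 := (hη ⟨c, hc⟩).2 h0
      exact (val_lt_iff hc0).1 h2 hcη
    refine ⟨⟨b, hb⟩, ⟨c, hc⟩, hγc, hxbc, ?_⟩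
    rw [← hW _ _ hγc]
    change b * c⁻¹ ∈ W.1
    rw [← hxbc]
    exact hB' hx
  obtain ⟨γ', hγ'⟩ := h413_ext_frac γ hfr
  refine ⟨γ', fun b hb hb' => ?_, ?_⟩
  · have h1 := hγ' ⟨b, hb'⟩ ⟨b, hb⟩ 1 (by rw [map_one]; exact one_ne_zero) (by
      change b = b * (1 : F)⁻¹
      simp)
    rw [map_one, mul_one] at h1
    exact h1.symm
  · refine regular_localization (chart O (M₀ * J) (g * j)).toSubring.subtype
      Subtype.val_injective W.1 _ (fun x => ?_) (fun x => hB' x.2) ?_
    · change γ' x ∈ maximalIdeal R ↔ W.1.valuation (x : F) < 1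
      obtain ⟨b, c, hc, hx, hdvd⟩ := hfr x x.2
      have h1 := hγ' x b c hc hx
      have hc0 : (c : F) ≠ 0 := by
        intro h0
        apply hc
        have : c = 0 := Subtype.ext h0
        rw [this, map_zero]
      rw [← not_iff_not, mem_maximalIdeal, mem_nonunits_iff, not_not]
      constructor
      · intro hu
        have hb : γ b ≠ 0 := by
          rw [h1]
          exact mul_ne_zero hu.ne_zero hc
        have hb0 : (b : F) ≠ 0 := by
          intro h0
          apply hb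
          have : b = 0 := Subtype.ext h0
          rw [this, map_zero]
        have hx0 : (x : F) ≠ 0 := by
          rw [hx]
          exact mul_ne_zero hb0 (inv_ne_zero hc0)
        rw [val_lt_iff hx0, not_not]
        have h2 : (x : F)⁻¹ = (c : F) * (b : F)⁻¹ := by
          rw [hx, mul_inv, inv_inv, mul_comm]
        rw [h2, hW c b hb, h1]
        obtain ⟨u, hu⟩ := hu
        refine ⟨((u⁻¹ : Rˣ) : R), ?_⟩
        rw [← hu]
        have h3 : ((u : R) * γ c) * ((u⁻¹ : Rˣ) : R) = ((u : R) * ((u⁻¹ : Rˣ) : R)) * γ c := by ring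
        rw [h3, Units.mul_inv, one_mul]
      · intro hxW
        have hx0 : (x : F) ≠ 0 := by
          intro h0
          apply hxW
          rw [h0, map_zero]
          exact zero_lt_one
        rw [val_lt_iff hx0, not_not] at hxW
        have hb0 : (b : F) ≠ 0 := by
          intro h0
          apply hx0
          rw [hx, h0, zero_mul]
        have hb : γ b ≠ 0 := by
          intro h0
          have h2 := (hη b).2 h0
          rw [val_lt_iff hb0] at h2
          apply h2
          have h3 : (b : F)⁻¹ = (x : F)⁻¹ * (c : F)⁻¹ := by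
            rw [hx, mul_inv, inv_inv, mul_assoc, mul_inv_cancel₀ hc0, mul_one]
          rw [h3]
          refine η.1.mul_mem _ _ (hWη hxW) ?_
          by_contra h4
          exact hc ((hη c).1 ((val_lt_iff hc0).2 h4))
        have h2 : (x : F)⁻¹ = (c : F) * (b : F)⁻¹ := by
          rw [hx, mul_inv, inv_inv, mul_comm]
        rw [h2, hW c b hb, h1] at hxW
        obtain ⟨u, hu⟩ := hxW
        have h3 : γ c * (γ' x * u) = γ c * 1 := by
          rw [mul_one]
          conv_rhs => rw [hu]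
          ring
        exact IsUnit.of_mul_eq_one u (mul_left_cancel₀ hc h3)
    · obtain ⟨Q, hQ, hQr⟩ := hr
      rw [Subring.range_subtype, LR.unique W.2 hGW'.LR hQ]
      exact hQr

end Pool.Agent.H413.BR
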