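import Pool.Agent.H413.BR.Defs2
import Pool.Agent.H413.BR.B6
import Pool.Agent.H413.BR.B23

/-!
# Bounded contact: BR47, the uniform bound for the Jacobian minors over an arbitrary field
(helper898, after BR29 by helper955)
-/

set_option autoImplicit false
set_option linter.unusedVariables false
set_option linter.unusedSectionVars false

namespace Pool.Agent.H413.BR

open scoped Topology
open IsLocalRing Pool.Agent.TH188.QS Pool.Agent.TH188.ARC Pool.Agent.W418.LU2
  Pool.Agent.H918R2.Quad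

namespace BR47

variable {F : Type} [Field F]

/-- The minors. -/
def Dl {S : Type} [CommRing S] (φ : S →+* F) (d : F) : Prop :=
  ∃ (r : ℕ) (f : Fin r → S) (D : Fin r → Derivation ℤ S S), (∀ i, φ (f i) = 0) ∧
      (∀ s, φ s = 0 → ∃ t, φ t ≠ 0 ∧ t * s ∈ Ideal.span (Set.range f)) ∧
      d ≠ 0 ∧ d = (Matrix.of fun i j => φ (D j (f i))).det

/-- The equations with a minor which is a unit at the centre of `η`. -/
theorem jac_val (k₀ : Type) {k : Type} [Field k₀] [PerfectField k₀] [Field k] [Algebra k₀ k]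
    [Algebra.FormallySmooth k₀ k] (ρ : k →+* F) {n : ℕ} (x : Fin n → F)
    {η : ValuationSubring F} (hη : (MvPolynomial.eval₂Hom ρ x).range ≤ η.toSubring)
    (hreg : IsRegularLocalRing (lo η.toSubring (MvPolynomial.eval₂Hom ρ x).range)) :
    ∃ d, Dl (MvPolynomial.eval₂Hom ρ x) d ∧ d⁻¹ ∈ η := by
  classical
  let S := MvPolynomial (Fin n) k
  let φ : S →+* F := MvPolynomial.eval₂Hom ρ x
  let A : Subring F := lo η.toSubring φ.range
  have hregA : IsRegularLocalRing A := hreg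
  have hφA : ∀ s, φ s ∈ A := fun s => le_lo _ _ ⟨s, rfl⟩
  let φA : S →+* A := φ.codRestrict A hφA
  have hφAc : ∀ s, ((φA s : A) : F) = φ s := fun s => rfl
  have hunit : ∀ a : A, IsUnit a ↔ (a : F) ≠ 0 ∧ (a : F)⁻¹ ∈ η := fun a =>
    isUnit_lo_iff (A := η.toSubring) (S := φ.range) hη a
  let L₁ := ResidueField A
  have hres : ∀ a : A, residue A a ≠ 0 ↔ (a : F) ≠ 0 ∧ (a : F)⁻¹ ∈ η := by
    intro a
    rw [← hunit, Ne, residue_eq_zero_iff, mem_maximalIdeal, mem_nonunits_iff, not_not]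
  let _ : Algebra S L₁ := ((residue A).comp φA).toAlgebra
  have hsm : Algebra.FormallySmooth k₀ S := Algebra.FormallySmooth.comp k₀ k S
  let _ : Algebra k₀ L₁ := ((algebraMap S L₁).comp (algebraMap k₀ S)).toAlgebra
  have hst : IsScalarTower k₀ S L₁ := IsScalarTower.of_algebraMap_eq fun _ => rfl
  have hH : Subsingleton (Algebra.H1Cotangent k₀ L₁) := h1_perfect
  have hfr : ∀ z : L₁, ∃ a b : S, algebraMap S L₁ b ≠ 0 ∧
      z * algebraMap S L₁ b = algebraMap S L₁ a := by
    intro z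
    obtain ⟨⟨y, b, ⟨s, rfl⟩, c, ⟨t, rfl⟩, hc0, hcη, hy⟩, rfl⟩ := residue_surjective z
    refine ⟨s, t, ?_, ?_⟩
    · change residue A (φA t) ≠ 0
      rw [hres]
      exact ⟨hc0, hcη⟩
    · change residue A ⟨y, _⟩ * residue A (φA t) = residue A (φA s)
      rw [← map_mul]
      congr 1
      apply Subtype.ext
      change y * φ t = φ s
      rw [hy, mul_assoc, inv_mul_cancel₀ hc0, mul_one]
  set I : Ideal S := RingHom.ker (algebraMap S L₁) with hI
  have hIp : I.IsPrime := RingHom.ker_isPrime _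
  have hIm : ∀ s, s ∉ I ↔ φ s ≠ 0 ∧ (φ s)⁻¹ ∈ η := fun s => by
    rw [hI, RingHom.mem_ker]
    exact hres (φA s)
  let O' := Localization.AtPrime I
  have hO' : IsRegularLocalRing O' := IsRegularRing.isRegularLocalRing_localization I
  let 𝔭 : Ideal S := RingHom.ker φ
  have h𝔭 : 𝔭 ≤ I := by
    intro s hs
    by_contra h1
    exact ((hIm s).1 h1).1 (RingHom.mem_ker.1 hs)
  have hunit' : ∀ y : I.primeCompl, IsUnit (φA y) := by
    intro y
    rw [hunit]
    exact (hIm _).1 y.2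
  let θ : O' →+* A := IsLocalization.lift (M := I.primeCompl) hunit'
  have hθ : ∀ s, θ (algebraMap S O' s) = φA s := fun s => IsLocalization.lift_eq hunit' s
  have hθs : Function.Surjective θ := by
    rintro ⟨y, b, ⟨s, rfl⟩, c, ⟨t, rfl⟩, hc0, hcη, hy⟩
    have htI : t ∈ I.primeCompl := (hIm t).2 ⟨hc0, hcη⟩
    refine ⟨IsLocalization.mk' O' s ⟨t, htI⟩, ?_⟩
    rw [IsLocalization.lift_mk'_spec]
    apply Subtype.ext
    change φ s = φ t * y
    have h1 : φ t ≠ 0 := hc0
    have h2 : y = φ s * (φ t)⁻¹ := hy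
    rw [h2]
    field_simp
  have hθk : RingHom.ker θ = 𝔭.map (algebraMap S O') := by
    apply le_antisymm
    · intro y hy
      obtain ⟨s, t, rfl⟩ := IsLocalization.exists_mk'_eq I.primeCompl y
      have h1 : θ (IsLocalization.mk' O' s t) * φA t = φA s := by
        rw [← hθ, ← hθ, ← map_mul, IsLocalization.mk'_spec]
      rw [RingHom.mem_ker.1 hy, zero_mul] at h1
      have h2 : s ∈ 𝔭 := RingHom.mem_ker.2 (congrArg Subtype.val h1).symm
      rw [IsLocalization.mk'_eq_mul_mk'_one]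
      exact Ideal.mul_mem_right _ _ (Ideal.mem_map_of_mem _ h2)
    · rw [Ideal.map_le_iff_le_comap]
      intro s hs
      rw [Ideal.mem_comap, RingHom.mem_ker, hθ]
      exact Subtype.ext (RingHom.mem_ker.1 hs)
  have hreg' : IsRegularLocalRing (O' ⧸ 𝔭.map (algebraMap S O')) := by
    rw [← hθk]
    exact IsRegularLocalRing.of_ringEquiv (RingHom.quotientKerEquivOfSurjective hθs).symm
  have hIp' : (RingHom.ker (algebraMap S L₁)).IsPrime := hIp
  have hloc : IsLocalization.AtPrime O' (RingHom.ker (algebraMap S L₁)) :=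
    inferInstanceAs (IsLocalization.AtPrime O' I)
  obtain ⟨r, f, D, hf, hgen, hdet⟩ := exists_jac_at (k₀ := k₀) (O := O') hH hfr 𝔭 h𝔭
  have hdA : (Matrix.of fun i j => φ (D j (f i))).det = ((Matrix.of fun i j =>
      φA (D j (f i))).det : A) := by
    have h1 := RingHom.map_det A.subtype (Matrix.of fun i j => φA (D j (f i)))
    exact h1.symm
  have hd0 : residue A (Matrix.of fun i j => φA (D j (f i))).det ≠ 0 := by
    intro h1
    apply hdet
    have h2 := RingHom.map_det (residue A) (Matrix.of fun i j => φA (D j (f i)))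
    rw [h1] at h2
    exact h2.symm
  rw [hres, ← hdA] at hd0
  refine ⟨_, ⟨r, f, fun j => (D j).restrictScalars ℤ, fun i => RingHom.mem_ker.1 (hf i), ?_, hd0.1, rfl⟩,
    hd0.2⟩
  intro s hs
  obtain ⟨t, ht, hts⟩ := hgen s (RingHom.mem_ker.2 hs)
  exact ⟨t, ((hIm t).1 fun h1 => ht (RingHom.mem_ker.1 h1)).1, hts⟩


theorem lev_aux {k : Type} [Field k] (ρ : k →+* F)
    (hjac : ∀ (n : ℕ) (x : Fin n → F) (η : ValuationSubring F),
      (MvPolynomial.eval₂Hom ρ x).range ≤ η.toSubring →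
      IsRegularLocalRing (lo η.toSubring (MvPolynomial.eval₂Hom ρ x).range) →
      ∃ d, Dl (MvPolynomial.eval₂Hom ρ x) d ∧ d⁻¹ ∈ η) {T : Set F}
    (hT : T.Finite) {h : F} (hh : h ∈ Subring.closure ((ρ.range : Set F) ∪ T)) (hh0 : h ≠ 0)
    (hreg : ∀ η : ValuationSubring F, Subring.closure ((ρ.range : Set F) ∪ T) ≤ η.toSubring →
      h⁻¹ ∈ η → IsRegularLocalRing (lo η.toSubring (Subring.closure ((ρ.range : Set F) ∪ T)))) :
    ∃ N : ℕ, ∀ W : ValuationSubring F, Subring.closure ((ρ.range : Set F) ∪ T) ≤ W.toSubring →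
      ∀ (ϖ : F) (m : ℕ), h⁻¹ * ϖ ^ m ∈ W →
        Lev W ϖ (N * m) (lo W.toSubring (Subring.closure ((ρ.range : Set F) ∪ T))) := by
  classical
  obtain ⟨n, x, rfl⟩ := exists_fin_range hT
  rw [← range_eval] at hh hreg ⊢
  set φ := MvPolynomial.eval₂Hom ρ x with hφ
  let B : Subring F := φ.range
  let J : Ideal B := Ideal.span {d : B | Dl φ (d : F)}
  have hrad : (⟨h, hh⟩ : B) ∈ J.radical := by
    rw [Ideal.radical_eq_sInf, Submodule.mem_sInf]
    rintro 𝔮 ⟨hJ𝔮, h𝔮⟩
    by_contra hh𝔮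
    obtain ⟨η, hη, hη𝔮⟩ := exists_val B 𝔮
    have hhη : h⁻¹ ∈ η := by
      have h1 : ¬ η.valuation h < 1 := fun h2 => hh𝔮 ((hη𝔮 ⟨h, hh⟩).2 h2)
      rw [← η.valuation_le_one_iff, map_inv₀]
      exact inv_le_one_of_one_le₀ (not_lt.1 h1)
    obtain ⟨d, hdl, hdη⟩ := hjac n x η hη (hreg η hη hhη)
    have hdet : d ≠ 0 := by
      obtain ⟨r, f, D, hf, hgen, hdet, hd⟩ := hdl
      exact hdet
    have hdB : d ∈ B := by
      obtain ⟨r, f, D, hf, hgen, hdet, rfl⟩ := hdl
      have h1 := RingHom.map_det φ (Matrix.of fun i j => D j (f i))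
      exact ⟨_, h1⟩
    have h2 : (⟨d, hdB⟩ : B) ∈ J := Ideal.subset_span hdl
    have h3 := (hη𝔮 ⟨d, hdB⟩).1 (hJ𝔮 h2)
    have h4 : η.valuation d⁻¹ ≤ 1 := (η.valuation_le_one_iff _).2 hdη
    have h5 : η.valuation (d * d⁻¹) < 1 := by
      rw [map_mul]
      calc η.valuation d * η.valuation d⁻¹ ≤ η.valuation d * 1 := mul_le_mul_right h4 _
        _ < 1 := by rw [mul_one]; exact h3
    rw [mul_inv_cancel₀ hdet, map_one] at h5
    exact lt_irrefl _ h5
  obtain ⟨N, hN⟩ := hrad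
  refine ⟨N, fun W hW ϖ m hm => ?_⟩
  obtain ⟨d, ⟨r, f, D, hf, hgen, hdet, hd⟩, hdW⟩ : ∃ d, Dl φ d ∧ d⁻¹ * h ^ N ∈ W := by
    by_contra hcon
    push Not at hcon
    have hlt : ∀ d, Dl φ d → W.valuation d < W.valuation (h ^ N) := by
      intro d hd
      have hd0 : d ≠ 0 := by
        obtain ⟨r, f, D, hf, hgen, hdet, -⟩ := hd
        exact hdet
      have h1 := hcon d hd
      rw [← W.valuation_le_one_iff, not_le, map_mul, map_inv₀] at h1
      have h2 : 0 < W.valuation d := by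
        rw [zero_lt_iff, Ne, map_eq_zero]
        exact hd0
      rwa [one_lt_inv_mul₀ h2] at h1
    have hall : ∀ y ∈ J, W.valuation (y : F) < W.valuation (h ^ N) := by
      intro y hy
      induction hy using Submodule.span_induction with
      | mem y hy => exact hlt _ hy
      | zero =>
        rw [ZeroMemClass.coe_zero, map_zero, zero_lt_iff, Ne, map_eq_zero]
        exact pow_ne_zero _ hh0
      | add a b _ _ ha hb => exact Valuation.map_add_lt _ ha hb
      | smul c a _ ha =>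
        rw [smul_eq_mul, Subring.coe_mul, map_mul]
        refine lt_of_le_of_lt ?_ ha
        calc W.valuation (c : F) * W.valuation (a : F) ≤ 1 * W.valuation (a : F) :=
              mul_le_mul_left ((W.valuation_le_one_iff _).2 (hW c.2)) _
          _ = W.valuation (a : F) := one_mul _
    exact lt_irrefl _ (hall _ hN)
  refine lev_init (fun s => hW ⟨s, rfl⟩) D hf hgen (by rw [← hd]; exact hdet) ?_
  rw [← hd]
  have e : d⁻¹ * ϖ ^ (N * m) = d⁻¹ * h ^ N * (h⁻¹ * ϖ ^ m) ^ N := by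
    rw [mul_pow, ← pow_mul, mul_comm m N, inv_pow]
    have : h ^ N ≠ 0 := pow_ne_zero _ hh0
    field_simp
  rw [e]
  exact W.mul_mem _ _ hdW (W.pow_mem hm N)

end BR47

variable {F : Type} [Field F]

/-- BR47. -/
theorem lev_field {k : Type} [Field k] (ρ : k →+* F) {T : Set F}
    (hT : T.Finite) {h : F} (hh : h ∈ Subring.closure ((ρ.range : Set F) ∪ T)) (hh0 : h ≠ 0)
    (hreg : ∀ η : ValuationSubring F, Subring.closure ((ρ.range : Set F) ∪ T) ≤ η.toSubring →
      h⁻¹ ∈ η → IsRegularLocalRing (lo η.toSubring (Subring.closure ((ρ.range : Set F) ∪ T)))) :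
    ∃ N : ℕ, ∀ W : ValuationSubring F, Subring.closure ((ρ.range : Set F) ∪ T) ≤ W.toSubring →
      ∀ (ϖ : F) (m : ℕ), h⁻¹ * ϖ ^ m ∈ W →
        Lev W ϖ (N * m) (lo W.toSubring (Subring.closure ((ρ.range : Set F) ∪ T))) := by
  refine BR47.lev_aux ρ ?_ hT hh hh0 hreg
  obtain ⟨p, hp⟩ := CharP.exists k
  rcases Nat.eq_zero_or_pos p with rfl | hpos
  · have h1 : CharZero k := CharP.charP_to_charZero k
    have h2 : Algebra.FormallySmooth ℚ k := ⟨inferInstance, h1_perfect⟩
    exact fun n x η h3 h4 => BR47.jac_val ℚ ρ x h3 h4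
  · have hpp : p.Prime := (CharP.char_is_prime_or_zero k p).resolve_right hpos.ne'
    have : Fact p.Prime := ⟨hpp⟩
    let _ : Algebra (ZMod p) k := ZMod.algebra k p
    have h2 : Algebra.FormallySmooth (ZMod p) k := ⟨inferInstance, h1_perfect⟩
    exact fun n x η h3 h4 => BR47.jac_val (ZMod p) ρ x h3 h4

end Pool.Agent.H413.BR
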