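import Pool.Agent.H413.BR.Defs3
import Pool.Agent.H413.BR.B47

/-!
# Bounded contact: BR50, the bound for a blowing up of `M₀` over a field (helper738)
-/

set_option autoImplicit false
set_option linter.unusedVariables false
set_option linter.unusedSectionVars false

namespace Pool.Agent.H413.BR

open scoped Topology
open IsLocalRing Pool.Agent.TH188.QS Pool.Agent.TH188.ARC Pool.Agent.W418.LU2
  Pool.Agent.H918R2.Quad

namespace BR50

variable {O F : Type} [CommRing O] [Field F] [Algebra O F]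

/-- Charts are of finite type. -/
theorem chart_cl {M : Submodule O F} (hM : M.FG) (g : F) : ∃ T : Set F, T.Finite ∧
    (chart O M g).toSubring = Subring.closure (((algebraMap O F).range : Set F) ∪ T) := by
  obtain ⟨s, hs⟩ := hM
  have h1 : chart O M g = Algebra.adjoin O ((fun m => m / g) '' (s : Set F)) := by
    apply le_antisymm
    · refine Algebra.adjoin_le ?_
      rintro _ ⟨m, hm, rfl⟩
      change m / g ∈ Algebra.adjoin O ((fun m => m / g) '' (s : Set F))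
      rw [← hs] at hm
      induction hm using Submodule.span_induction with
      | mem m hm => exact Algebra.subset_adjoin ⟨m, hm, rfl⟩
      | zero => rw [zero_div]; exact Subalgebra.zero_mem _
      | add a b _ _ ha hb => rw [add_div]; exact Subalgebra.add_mem _ ha hb
      | smul c a _ ha => rw [smul_div_assoc]; exact Subalgebra.smul_mem _ ha c
    · refine Algebra.adjoin_mono ?_
      rintro _ ⟨m, hm, rfl⟩
      exact ⟨m, hs ▸ Submodule.subset_span hm, rfl⟩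
  exact ⟨_, s.finite_toSet.image _, by rw [h1, adjoin_toSubring]⟩

/-- A generator of largest value in a finite set of generators. -/
theorem gen_max {W : ValuationSubring F} (hOW : ∀ o, algebraMap O F o ∈ W)
    {M : Submodule O F} {G : Finset F} (hG : Submodule.span O (G : Set F) = M) {g : F} (hg : g ∈ M)
    (hg0 : g ≠ 0) : ∃ j ∈ G, j ∈ M ∧ j ≠ 0 ∧ ∀ m ∈ M, m / j ∈ W := by
  classical
  have hne : (G.filter fun j => j ≠ 0).Nonempty := by
    by_contra h
    rw [Finset.not_nonempty_iff_eq_empty] at h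
    apply hg0
    have h1 : g ∈ Submodule.span O (G : Set F) := by rw [hG]; exact hg
    have h2 : Submodule.span O (G : Set F) ≤ ⊥ := by
      rw [Submodule.span_le]
      intro j hj
      by_contra hj0
      have : j ∈ G.filter fun j => j ≠ 0 := Finset.mem_filter.2 ⟨hj, hj0⟩
      rw [h] at this
      exact absurd this (Finset.notMem_empty _)
    exact (Submodule.mem_bot O).1 (h2 h1)
  obtain ⟨j, hjG, hjmax⟩ := Finset.exists_max_image _ (fun j => W.valuation j) hne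
  rw [Finset.mem_filter] at hjG
  refine ⟨j, hjG.1, by rw [← hG]; exact Submodule.subset_span hjG.1, hjG.2, fun m hm => ?_⟩
  rw [← hG] at hm
  induction hm using Submodule.span_induction with
  | mem m hm =>
    by_cases hm0 : m = 0
    · rw [hm0, zero_div]; exact W.zero_mem
    · rw [← W.valuation_le_one_iff, map_div₀]
      exact div_le_one_of_le₀ (hjmax m (Finset.mem_filter.2 ⟨hm, hm0⟩)) zero_le
  | zero => rw [zero_div]; exact W.zero_mem
  | add a b _ _ ha hb => rw [add_div]; exact W.add_mem _ _ ha hb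
  | smul c a _ ha =>
    rw [Algebra.smul_def, mul_div_assoc]
    exact W.mul_mem _ _ (hOW c) ha

/-- A product of generators generates the product. -/
theorem gn_mul {W : ValuationSubring F} {M J : Submodule O F} {g j : F} (hg : Gn W M g)
    (hj : Gn W J j) : Gn W (M * J) (g * j) := by
  refine ⟨Submodule.mul_mem_mul hg.1 hj.1, mul_ne_zero hg.2.1 hj.2.1, fun m hm => ?_⟩
  induction hm using Submodule.mul_induction_on' with
  | mem_mul_mem a ha b hb =>
    rw [mul_div_mul_comm]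
    exact W.mul_mem _ _ (hg.2.2 a ha) (hj.2.2 b hb)
  | add x _ y _ hx hy =>
    rw [add_div]
    exact W.add_mem _ _ hx hy

/-- The chart of `M` is contained in the chart of `M * J`. -/
theorem chart_le_mul {M J : Submodule O F} {g j : F} (hj : j ∈ J) (hj0 : j ≠ 0) :
    (chart O M g).toSubring ≤ (chart O (M * J) (g * j)).toSubring := by
  have h1 : chart O M g ≤ chart O (M * J) (g * j) := by
    refine Algebra.adjoin_le ?_
    rintro _ ⟨m, hm, rfl⟩
    change m / g ∈ chart O (M * J) (g * j)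
    refine Algebra.subset_adjoin ⟨m * j, Submodule.mul_mem_mul hm hj, ?_⟩
    rw [mul_div_mul_right _ _ hj0]
  exact h1

end BR50

/-- BR50. -/
theorem lev_CZ {k F : Type} [Field k] [Field F] [Algebra k F] {M₀ : Submodule k F} (hM₀ : M₀.FG)
    (hne : ∃ g ∈ M₀, g ≠ 0) {D : ℕ} {N : Set F} (hNfin : N.Finite)
    (hN : N ⊆ (M₀ ^ D : Submodule k F)) {Z₀ : Set (ZR k F)}
    (hZ₀ : ∀ W : ZR k F, W ∈ Z₀ ↔ ∀ f ∈ N, ¬ Gn W.1 (M₀ ^ D) f) (hreg : ∀ W, W ∉ Z₀ → Rq W M₀)
    {M : Submodule k F} (hM : CZ M₀ Z₀ M) (d : ℕ) :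
    ∃ m : ℕ, ∀ (W : ZR k F) (ϖ : F), ϖ ∈ W.1 → Ct M₀ N D W.1 ϖ d →
      ∀ Q, LR W.1 M Q → Lev W.1 ϖ m Q := by
  classical
  obtain ⟨hMfg, hMne, ⟨J, hJ, hJne, rfl⟩, hiso⟩ := hM
  obtain ⟨G, hG⟩ := hM₀
  obtain ⟨S, hS⟩ := hJ
  have hGM : ∀ g ∈ G, g ∈ M₀ := fun g hg => hG ▸ Submodule.subset_span hg
  have hSJ : ∀ j ∈ S, j ∈ J := fun j hj => hS ▸ Submodule.subset_span hj
  -- the uniform bound for one chart
  have hone : ∀ q : F × F × F, ∃ n : ℕ, q.1 ∈ G → q.1 ≠ 0 → q.2.1 ∈ S → q.2.1 ≠ 0 → q.2.2 ∈ N →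
      q.2.2 ≠ 0 → ∀ W : ZR k F, Gn W.1 (M₀ * J) (q.1 * q.2.1) → ∀ (ϖ : F) (m : ℕ),
        (q.2.2 / q.1 ^ D)⁻¹ * ϖ ^ m ∈ W.1 →
        Lev W.1 ϖ (n * m) (lo W.1.toSubring (chart k (M₀ * J) (q.1 * q.2.1)).toSubring) := by
    rintro ⟨g, j, f⟩
    by_cases hq : g ∈ G ∧ g ≠ 0 ∧ j ∈ S ∧ j ≠ 0 ∧ f ∈ N ∧ f ≠ 0
    · obtain ⟨hgG, hg0, hjS, hj0, hfN, hf0⟩ := hq
      obtain ⟨T, hT, hB⟩ := BR50.chart_cl hMfg (g * j)
      have hle := BR50.chart_le_mul (M := M₀) (g := g) (hSJ j hjS) hj0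
      have hf : f ∈ M₀ ^ D := hN hfN
      have hh : f / g ^ D ∈ (chart k (M₀ * J) (g * j)).toSubring := hle (pow_div_mem hg0 D f hf)
      have hh0 : f / g ^ D ≠ 0 := div_ne_zero hf0 (pow_ne_zero _ hg0)
      have hr : ∀ η : ValuationSubring F,
          (chart k (M₀ * J) (g * j)).toSubring ≤ η.toSubring → (f / g ^ D)⁻¹ ∈ η →
          IsRegularLocalRing (lo η.toSubring (chart k (M₀ * J) (g * j)).toSubring) := by
        intro η hη hinv
        have hkη : ∀ o, algebraMap k F o ∈ η := fun o =>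
          hη (Subalgebra.algebraMap_mem (chart k (M₀ * J) (g * j)) o)
        have hgn : Gn η (M₀ * J) (g * j) := ⟨Submodule.mul_mem_mul (hGM g hgG) (hSJ j hjS),
          mul_ne_zero hg0 hj0, fun m hm => hη (Algebra.subset_adjoin ⟨m, hm, rfl⟩)⟩
        have hnot : (⟨η, hkη⟩ : ZR k F) ∉ Z₀ := by
          intro h1
          refine (hZ₀ _).1 h1 f hfN ⟨hf, hf0, fun m hm => ?_⟩
          have h1 : m / f = m / g ^ D * (f / g ^ D)⁻¹ := by
            have := pow_ne_zero D hg0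
            field_simp
          rw [h1]
          exact η.mul_mem _ _ (hη (hle (pow_div_mem hg0 D m hm))) hinv
        obtain ⟨Q, hQ, hQr⟩ := hreg ⟨η, hkη⟩ hnot
        have hQ' := hiso ⟨η, hkη⟩ hnot Q hQ
        rw [LR.unique hkη (Gn.LR hgn) hQ']
        exact hQr
      rw [hB] at hh hr
      obtain ⟨n, hn⟩ := lev_field (algebraMap k F) hT hh hh0 hr
      refine ⟨n, fun _ _ _ _ _ _ W hW ϖ m hm => ?_⟩
      have h1 := hW.le
      rw [hB] at h1
      change Lev W.1 ϖ (n * m) (lo W.1.toSubring (chart k (M₀ * J) (g * j)).toSubring)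
      rw [hB]
      exact hn W.1 h1 ϖ m hm
    · exact ⟨0, fun h1 h2 h3 h4 h5 h6 => absurd ⟨h1, h2, h3, h4, h5, h6⟩ hq⟩
  choose n hn using hone
  obtain ⟨m, hm⟩ : ∃ m : ℕ, ∀ g ∈ G, ∀ j ∈ S, ∀ f ∈ N, n (g, j, f) * d ≤ m :=
    ⟨(G ×ˢ (S ×ˢ hNfin.toFinset)).sup fun q => n q * d, fun g hg j hj f hf =>
      Finset.le_sup (f := fun q => n q * d) (Finset.mk_mem_product hg
        (Finset.mk_mem_product hj (hNfin.mem_toFinset.2 hf)))⟩
  refine ⟨m, fun W ϖ hϖ hCt Q hQ => ?_⟩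
  obtain ⟨f, hfN, hf0, g, hg, hin⟩ := hCt
  obtain ⟨j₀, hj₀, hj₀0⟩ := hJne
  obtain ⟨g', hg'G, hg'M, hg'0, hg'⟩ := BR50.gen_max W.2 hG hg.1 hg.2.1
  obtain ⟨j', hj'S, hj'J, hj'0, hj'⟩ := BR50.gen_max W.2 hS hj₀ hj₀0
  have hgn : Gn W.1 (M₀ * J) (g' * j') :=
    BR50.gn_mul ⟨hg'M, hg'0, hg'⟩ ⟨hj'J, hj'0, hj'⟩
  have h1 : (f / g' ^ D)⁻¹ * ϖ ^ d ∈ W.1 := by
    have h2 : (f / g' ^ D)⁻¹ * ϖ ^ d = ((f / g ^ D)⁻¹ * ϖ ^ d) * (g' / g) ^ D := by
      have := hg.2.1
      have h3 := pow_ne_zero D this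
      have h4 := pow_ne_zero D hg'0
      rw [div_pow]
      field_simp
    rw [h2]
    exact W.1.mul_mem _ _ hin (pow_mem (hg.2.2 g' hg'M) D)
  have h2 := hn (g', j', f) hg'G hg'0 hj'S hj'0 hfN hf0 W hgn ϖ d h1
  rw [LR.unique W.2 hQ (Gn.LR hgn)]
  exact h2.mono hϖ (hm g' hg'G j' hj'S f hfN)

end Pool.Agent.H413.BR
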