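import Pool.Agent.H413.BR.Defs3
import Pool.Agent.H413.BR.B40
import Pool.Agent.H413.BR.B44

/-!
# BR51: the bound over the integers (helper921)
-/

set_option autoImplicit false
set_option linter.unusedVariables false
set_option linter.unusedSectionVars false

namespace Pool.Agent.H413.BR

open scoped Topology
open IsLocalRing Pool.Agent.TH188.QS Pool.Agent.TH188.ARC Pool.Agent.W418.LU2
  Pool.Agent.H918R2.Quad

section h921ci

/-- A generator of largest value in a finite set of generators. -/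
theorem h921_gen_max {O F : Type} [CommRing O] [Field F] [Algebra O F] {W : ValuationSubring F}
    (hOW : ∀ o, algebraMap O F o ∈ W)
    {M : Submodule O F} {G : Finset F} (hG : Submodule.span O (G : Set F) = M) {g : F} (hg : g ∈ M)
    (hg0 : g ≠ 0) : ∃ j ∈ G, j ∈ M ∧ j ≠ 0 ∧ ∀ m ∈ M, m / j ∈ W := by
  classical
  have hne : (G.filter fun j => j ≠ 0).Nonempty := by
    by_contra h
    rw [Finset.not_nonempty_iff_eq_empty] at h
    apply hg0
    have h1 : g ∈ Submodule.span O (G : Set F) := by rw [hG]; exact hg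
    have h2 : Submodule.span O (G : Set F) ≤ ⊥ := by
      rw [Submodule.span_le]
      intro j hj
      by_contra hj0
      have : j ∈ G.filter fun j => j ≠ 0 := Finset.mem_filter.2 ⟨hj, hj0⟩
      rw [h] at this
      exact absurd this (Finset.notMem_empty _)
    exact (Submodule.mem_bot O).1 (h2 h1)
  obtain ⟨j, hjG, hjmax⟩ := Finset.exists_max_image _ (fun j => W.valuation j) hne
  rw [Finset.mem_filter] at hjG
  refine ⟨j, hjG.1, by rw [← hG]; exact Submodule.subset_span hjG.1, hjG.2, fun m hm => ?_⟩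
  rw [← hG] at hm
  induction hm using Submodule.span_induction with
  | mem m hm =>
    by_cases hm0 : m = 0
    · rw [hm0, zero_div]; exact W.zero_mem
    · rw [← W.valuation_le_one_iff, map_div₀]
      exact div_le_one_of_le₀ (hjmax m (Finset.mem_filter.2 ⟨hm, hm0⟩)) zero_le
  | zero => rw [zero_div]; exact W.zero_mem
  | add a b _ _ ha hb => rw [add_div]; exact W.add_mem _ _ ha hb
  | smul c a _ ha =>
    rw [Algebra.smul_def, mul_div_assoc]
    exact W.mul_mem _ _ (hOW c) ha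

/-- The charts over the integers are finitely generated rings. -/
theorem h921_chart {F : Type} [Field F] {M : Submodule ℤ F} {s : Finset F}
    (hs : Submodule.span ℤ (s : Set F) = M)
    (g : F) : (chart ℤ M g).toSubring = Subring.closure ((fun m => m / g) '' (s : Set F)) := by
  apply le_antisymm
  · let C : Subalgebra ℤ F :=
      subalgebraOfSubring (Subring.closure ((fun m => m / g) '' (s : Set F)))
    have h1 : chart ℤ M g ≤ C := by
      refine Algebra.adjoin_le ?_
      rintro _ ⟨m, hm, rfl⟩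
      change m / g ∈ C
      rw [← hs] at hm
      induction hm using Submodule.span_induction with
      | mem m hm => exact Subring.subset_closure ⟨m, hm, rfl⟩
      | zero => rw [zero_div]; exact Subalgebra.zero_mem _
      | add a b _ _ ha hb => rw [add_div]; exact Subalgebra.add_mem _ ha hb
      | smul c a _ ha =>
        rw [smul_div_assoc]
        exact Subalgebra.smul_mem _ ha c
    exact h1
  · refine Subring.closure_le.2 ?_
    rintro _ ⟨m, hm, rfl⟩
    exact Algebra.subset_adjoin ⟨m, hs ▸ Submodule.subset_span hm, rfl⟩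

/-- Integers divide powers of `ϖ` of bounded exponent. -/
theorem h921_pow {F : Type} [Field F] (d : ℕ) (n : ℕ) (hn : n ≠ 0) :
    ∃ k : ℕ, ∀ (W : ValuationSubring F) (ϖ : F), ϖ ∈ W →
      (∀ p : ℕ, p.Prime → (p : F)⁻¹ * ϖ ^ d ∈ W) → ((n : F))⁻¹ * ϖ ^ k ∈ W := by
  induction n using induction_on_primes with
  | zero => exact absurd rfl hn
  | one =>
    refine ⟨0, fun W ϖ hϖ h => ?_⟩
    rw [Nat.cast_one, inv_one, pow_zero, one_mul]
    exact W.one_mem
  | prime_mul p a hp ih =>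
    obtain ⟨k, hk⟩ := ih (right_ne_zero_of_mul hn)
    refine ⟨d + k, fun W ϖ hϖ h => ?_⟩
    have h1 : ((p * a : ℕ) : F)⁻¹ * ϖ ^ (d + k) = ((p : F)⁻¹ * ϖ ^ d) * ((a : F)⁻¹ * ϖ ^ k) := by
      rw [Nat.cast_mul, mul_inv, pow_add]
      ring
    rw [h1]
    exact W.mul_mem _ _ (h p hp) (hk W ϖ hϖ h)

/-- BR51. The bound over the integers. -/
theorem lev_CI {F : Type} [Field F] [CharZero F] {M₀ : Submodule ℤ F} {N : ℕ} (hN : N ≠ 0)
    (hreg : ∀ W : ZR ℤ F, (∀ n : ℕ, n ≠ 0 → ((n : F))⁻¹ ∈ W.1) → Rq W M₀)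
    {M : Submodule ℤ F} (hM : CI (Ideal.span {(N : ℤ)}) M₀ M) (d : ℕ) :
    ∃ m : ℕ, ∀ (W : ZR ℤ F) (ϖ : F), ϖ ∈ W.1 → (∀ p : ℕ, p.Prime → (p : F)⁻¹ * ϖ ^ d ∈ W.1) →
      ∀ Q, LR W.1 M Q → Lev W.1 ϖ m Q := by
  classical
  obtain ⟨G, hG⟩ := hM.1
  -- the bound on one chart
  have hone : ∀ g : F, ∃ k : ℕ, g ∈ G → g ≠ 0 → ∀ (W : ZR ℤ F) (ϖ : F), Gn W.1 M g → ϖ ∈ W.1 →
      (∀ p : ℕ, p.Prime → (p : F)⁻¹ * ϖ ^ d ∈ W.1) →
        Lev W.1 ϖ k (lo W.1.toSubring (chart ℤ M g).toSubring) := by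
    intro g
    by_cases hg : g ∈ G ∧ g ≠ 0
    · obtain ⟨hgG, hg0⟩ := hg
      have hgM : g ∈ M := hG ▸ Submodule.subset_span hgG
      have hB := h921_chart hG g
      have hr : ∀ η : ValuationSubring F,
          Subring.closure ((fun m => m / g) '' (G : Set F)) ≤ η.toSubring →
          (∀ n : ℕ, n ≠ 0 → ((n : F))⁻¹ ∈ η) →
          IsRegularLocalRing
            (lo η.toSubring (Subring.closure ((fun m => m / g) '' (G : Set F)))) := by
        intro η hη hint
        rw [← hB] at hη ⊢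
        have hkη : ∀ o, algebraMap ℤ F o ∈ η := fun o =>
          hη (Subalgebra.algebraMap_mem (chart ℤ M g) o)
        have hgn : Gn η M g := ⟨hgM, hg0, fun m hm => hη (Algebra.subset_adjoin ⟨m, hm, rfl⟩)⟩
        obtain ⟨Q, hQ, hQr⟩ := hreg ⟨η, hkη⟩ hint
        have hZI : (⟨η, hkη⟩ : ZR ℤ F) ∉ ZI ℤ F (Ideal.span {(N : ℤ)}) := by
          intro hmem
          have h1 := hmem (N : ℤ) (Ideal.mem_span_singleton_self _)
          have h2 : (algebraMap ℤ F (N : ℤ)) = (N : F) := by simp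
          rw [h2] at h1
          have h3 := (η.valuation_le_one_iff _).2 (hint N hN)
          rw [map_inv₀] at h3
          have h4 : η.valuation (N : F) ≠ 0 := by
            rw [Ne, map_eq_zero]
            exact_mod_cast hN
          have h5 : (1 : η.ValueGroup) < (η.valuation (N : F))⁻¹ :=
            (one_lt_inv₀ (zero_lt_iff.2 h4)).2 h1
          exact absurd h3 (not_le.2 h5)
        have hQ' := CI_iso hM hZI hQ
        rw [LR.unique hkη (Gn.LR hgn) hQ']
        exact hQr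
      obtain ⟨n, hn0, hn⟩ := lev_int (G.finite_toSet.image _) hr
      obtain ⟨k, hk⟩ := h921_pow (F := F) d n hn0
      refine ⟨k, fun _ _ W ϖ hW hϖ hp => ?_⟩
      have h1 := hW.le
      rw [hB] at h1 ⊢
      exact hn W.1 h1 ϖ k (hk W.1 ϖ hϖ hp)
    · exact ⟨0, fun h1 h2 => absurd ⟨h1, h2⟩ hg⟩
  choose k hk using hone
  refine ⟨∑ g ∈ G, k g, fun W ϖ hϖ hp Q hQ => ?_⟩
  obtain ⟨g₀, hg₀, hg₀Q⟩ := LR.gn hQ
  obtain ⟨g, hgG, hgM, hg0, hgW⟩ := h921_gen_max W.2 hG hg₀.1 hg₀.2.1
  have hgn : Gn W.1 M g := ⟨hgM, hg0, hgW⟩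
  rw [LR.unique W.2 hQ (Gn.LR hgn)]
  exact (hk g hgG hg0 W ϖ hgn hϖ hp).mono hϖ
    (Finset.single_le_sum (f := k) (fun _ _ => Nat.zero_le _) hgG)

end h921ci

end Pool.Agent.H413.BR
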