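import Pool.Agent.H413.BR.Defs3
import Pool.Agent.H413.BR.B3
import Pool.Agent.H413.BR.B43

/-!
# BR52: the sequence of blowings up (helper703)
-/

set_option autoImplicit false
set_option linter.unusedVariables false
set_option linter.unusedSectionVars false

namespace Pool.Agent.H413.BR

open scoped Topology
open IsLocalRing Pool.Agent.TH188.QS Pool.Agent.TH188.ARC Pool.Agent.W418.LU2
  Pool.Agent.H918R2.Quad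

section gen52

variable {O F : Type} [CommRing O] [Field F] [Algebra O F]

theorem BR52_dom_refl (M₀ : Submodule O F) : Dom M₀ M₀ := by
  refine ⟨1, ?_, ⟨1, ?_, one_ne_zero⟩, (mul_one M₀).symm⟩
  · rw [Submodule.one_eq_span]
    exact Submodule.fg_span_singleton 1
  · exact Submodule.one_le.1 le_rfl

theorem BR52_dom_mul {M₀ M J : Submodule O F} (h : Dom M₀ M) (hJ : J.FG)
    (hJne : ∃ j ∈ J, j ≠ 0) : Dom M₀ (M * J) := by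
  obtain ⟨K, hK, ⟨l, hl, hl0⟩, rfl⟩ := h
  obtain ⟨j, hj, hj0⟩ := hJne
  exact ⟨K * J, hK.mul hJ, ⟨l * j, Submodule.mul_mem_mul hl hj, mul_ne_zero hl0 hj0⟩,
    mul_assoc _ _ _⟩

theorem seq_gen [IsNoetherianRing O] (hHJ : HJ O) (hSR : SR O F)
    {𝓜 : Submodule O F → Prop}
    {Z₀ : Set (ZR O F)} (hcl : Cl 𝓜 Z₀) {M₀ : Submodule O F} (hM₀ : 𝓜 M₀)
    (hiso : ∀ M, 𝓜 M → ∀ η, η ∉ Z₀ → ∀ Q, LR η.1 M₀ Q → LR η.1 M Q)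
    (hZ : IsClosed[topM M₀] Z₀) (hreg : ∀ W, W ∉ Z₀ → Rq W M₀) (C : ℕ → ZR O F → F → Prop)
    (hC0 : ∀ W ϖ, C 0 W ϖ → W ∉ Z₀)
    (hlev : ∀ M, 𝓜 M → Dom M₀ M → ∀ d, ∃ m, ∀ (W : ZR O F) (ϖ : F), ϖ ∈ W.1 → C d W ϖ →
      ∀ Q, LR W.1 M Q → Lev W.1 ϖ m Q) :
    ∃ K : ℕ → Submodule O F, (∀ d, (K d).FG ∧ ∃ j ∈ K d, j ≠ 0) ∧
      (∀ d, 𝓜 (Mo M₀ K d)) ∧
      (∀ (d : ℕ) (W : ZR O F) (Q : Subring F), LR W.1 (Mo M₀ K d) Q → IsRegularLocalRing Q →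
        LR W.1 (Mo M₀ K (d + 1)) Q) ∧
      ∀ (d : ℕ) (W η : ZR O F) (ϖ : F), W.1 ≤ η.1 → η ∉ Z₀ → ϖ ≠ 0 → ϖ ∈ W.1 →
        (∀ Q₀, LR η.1 M₀ Q₀ → ∀ z ∈ Q₀, W.1.valuation z < 1 → z * ϖ⁻¹ ∈ W.1) → C d W ϖ →
        Rq W (Mo M₀ K d) := by
  classical
  -- local rings of `M₀` exist
  have hex : ∀ W : ZR O F, ∃ Q, LR W.1 M₀ Q := by
    intro W
    obtain ⟨g₀, hg₀, hg₀0⟩ := hcl.ne M₀ hM₀
    obtain ⟨g, hg, hg0, hgW⟩ := exists_gen_max W.2 (hcl.fg M₀ hM₀) hg₀ hg₀0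
    exact ⟨_, g, hg, hg0, hgW, rfl⟩
  -- off `Z₀` the local rings are those of `M₀`
  have hback : ∀ M, 𝓜 M → ∀ η : ZR O F, η ∉ Z₀ → ∀ Q, LR η.1 M Q → LR η.1 M₀ Q := by
    intro M hM η hη Q hQ
    obtain ⟨Q₀, hQ₀⟩ := hex η
    have h1 := hiso M hM η hη Q₀ hQ₀
    have h2 : Q = Q₀ := LR.unique η.2 hQ h1
    rw [h2]
    exact hQ₀
  -- the step
  have hstep : ∀ (d : ℕ) (M : Submodule O F), 𝓜 M ∧ Dom M₀ M → ∃ J : Submodule O F,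
      J.FG ∧ (∃ j ∈ J, j ≠ 0) ∧ 𝓜 (M * J) ∧
      (∀ (W : ZR O F) (Q : Subring F), LR W.1 M Q → IsRegularLocalRing Q → LR W.1 (M * J) Q) ∧
      ∀ (W η : ZR O F) (ϖ : F), W.1 ≤ η.1 → η ∉ Z₀ → ϖ ≠ 0 → ϖ ∈ W.1 →
        (∀ Q₀, LR η.1 M₀ Q₀ → ∀ z ∈ Q₀, W.1.valuation z < 1 → z * ϖ⁻¹ ∈ W.1) →
        C (d + 1) W ϖ → Rq W (M * J) := by
    rintro d M ⟨hM, hdom⟩
    obtain ⟨m, hm⟩ := hlev M hM hdom (d + 1)
    have hZM : IsClosed[topM M] Z₀ := by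
      have h1 : IsOpen[topM M₀] Z₀ᶜ := (@isOpen_compl_iff _ Z₀ (topM M₀)).2 hZ
      exact (@isOpen_compl_iff _ Z₀ (topM M)).1 (hdom.isOpen h1)
    obtain ⟨M', hM', ⟨J, hJ, hJne, hMJ⟩, h1, h2⟩ := main_gen hHJ hSR hcl hM
      (fun M' hM' η hη Q hQ => hiso M' hM' η hη Q (hback M hM η hη Q hQ)) hZM
      (fun W hW => by
        obtain ⟨Q, hQ, hQr⟩ := hreg W hW
        exact ⟨Q, hiso M hM W hW Q hQ, hQr⟩) m
    subst hMJ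
    refine ⟨J, hJ, hJne, hM', h1, ?_⟩
    intro W η ϖ hWη hη hϖ0 hϖ hz hC
    refine h2 W η ϖ hWη hη hϖ0 hϖ ?_ (hm W ϖ hϖ hC)
    intro Q₀ hQ₀
    exact hz Q₀ (hback M hM η hη Q₀ hQ₀)
  -- the choice of the step
  obtain ⟨f, hf⟩ : ∃ f : ℕ → Submodule O F → Submodule O F, ∀ (d : ℕ) (M : Submodule O F),
      𝓜 M ∧ Dom M₀ M → (f d M).FG ∧ (∃ j ∈ f d M, j ≠ 0) ∧ 𝓜 (M * f d M) ∧
      (∀ (W : ZR O F) (Q : Subring F), LR W.1 M Q → IsRegularLocalRing Q →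
        LR W.1 (M * f d M) Q) ∧
      ∀ (W η : ZR O F) (ϖ : F), W.1 ≤ η.1 → η ∉ Z₀ → ϖ ≠ 0 → ϖ ∈ W.1 →
        (∀ Q₀, LR η.1 M₀ Q₀ → ∀ z ∈ Q₀, W.1.valuation z < 1 → z * ϖ⁻¹ ∈ W.1) →
        C (d + 1) W ϖ → Rq W (M * f d M) := by
    have h : ∀ (d : ℕ) (M : Submodule O F), ∃ J : Submodule O F, 𝓜 M ∧ Dom M₀ M →
        J.FG ∧ (∃ j ∈ J, j ≠ 0) ∧ 𝓜 (M * J) ∧
        (∀ (W : ZR O F) (Q : Subring F), LR W.1 M Q → IsRegularLocalRing Q →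
          LR W.1 (M * J) Q) ∧
        ∀ (W η : ZR O F) (ϖ : F), W.1 ≤ η.1 → η ∉ Z₀ → ϖ ≠ 0 → ϖ ∈ W.1 →
          (∀ Q₀, LR η.1 M₀ Q₀ → ∀ z ∈ Q₀, W.1.valuation z < 1 → z * ϖ⁻¹ ∈ W.1) →
          C (d + 1) W ϖ → Rq W (M * J) := by
      intro d M
      by_cases hM : 𝓜 M ∧ Dom M₀ M
      · obtain ⟨J, hJ⟩ := hstep d M hM
        exact ⟨J, fun _ => hJ⟩
      · exact ⟨M, fun h => absurd h hM⟩
    choose f hf using h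
    exact ⟨f, hf⟩
  -- the sequence of models
  obtain ⟨S, hS0, hS1⟩ : ∃ S : ℕ → Submodule O F, S 0 = M₀ ∧ ∀ d, S (d + 1) = S d * f d (S d) :=
    ⟨fun n => Nat.rec M₀ (fun d M => M * f d M) n, rfl, fun _ => rfl⟩
  obtain ⟨K, hK⟩ : ∃ K : ℕ → Submodule O F, ∀ d, K d = f d (S d) := ⟨_, fun _ => rfl⟩
  have hSgood : ∀ d, 𝓜 (S d) ∧ Dom M₀ (S d) := by
    intro d
    induction d with
    | zero =>
      rw [hS0]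
      exact ⟨hM₀, BR52_dom_refl M₀⟩
    | succ d ih =>
      have h := hf d (S d) ih
      rw [hS1]
      exact ⟨h.2.2.1, BR52_dom_mul ih.2 h.1 h.2.1⟩
  have hSM : ∀ d, Mo M₀ K d = S d := by
    intro d
    induction d with
    | zero => rw [hS0, Mo, Finset.range_zero, Finset.prod_empty, mul_one]
    | succ d ih =>
      rw [hS1, ← hK, ← ih, Mo, Mo, Finset.prod_range_succ, mul_assoc]
  refine ⟨K, ?_, ?_, ?_, ?_⟩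
  · intro d
    have h := hf d (S d) (hSgood d)
    rw [hK]
    exact ⟨h.1, h.2.1⟩
  · intro d
    rw [hSM]
    exact (hSgood d).1
  · intro d W Q hQ hQr
    rw [hSM] at hQ ⊢
    rw [hS1]
    exact (hf d (S d) (hSgood d)).2.2.2.1 W Q hQ hQr
  · intro d W η ϖ hWη hη hϖ0 hϖ hz hC
    rw [hSM]
    rcases d with _ | d
    · rw [hS0]
      exact hreg W (hC0 W ϖ hC)
    · rw [hS1]
      exact (hf d (S d) (hSgood d)).2.2.2.2 W η ϖ hWη hη hϖ0 hϖ hz hC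

end gen52

end Pool.Agent.H413.BR
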