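import Pool.Agent.H413.BR.Defs3
import Pool.Agent.H413.BR.B6
import Pool.Agent.H413.BR.B46

/-! BR53 (helper94 for helper413) -/

set_option autoImplicit false
set_option linter.unusedVariables false
set_option linter.unusedSectionVars false

namespace Pool.Agent.H413.BR

open scoped Topology
open IsLocalRing Pool.Agent.TH188.QS Pool.Agent.TH188.ARC Pool.Agent.W418.LU2
  Pool.Agent.H918R2.Quad

variable {O F : Type} [CommRing O] [Field F] [Algebra O F]

/-- A valuation ring with given centre on a subalgebra. -/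
theorem h94_val (B : Subalgebra O F) (P : Ideal B) [P.IsPrime] :
    ∃ V : ValuationSubring F, B.toSubring ≤ V.toSubring ∧
      ∀ b : B, b ∈ P ↔ V.valuation (b : F) < 1 := by
  let e : B.toSubring →+* B :=
    { toFun := fun x => ⟨x.1, x.2⟩
      map_one' := rfl
      map_mul' := fun _ _ => rfl
      map_zero' := rfl
      map_add' := fun _ _ => rfl }
  obtain ⟨V, hV, h⟩ := exists_val B.toSubring (P.comap e)
  exact ⟨V, hV, fun b => h ⟨b.1, b.2⟩⟩

/-- The local ring at a valuation ring is the localization at its centre. -/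
theorem h94_lo_regular {B : Subalgebra O F} {V : ValuationSubring F}
    (hBV : B.toSubring ≤ V.toSubring) (P : Ideal B) [P.IsPrime]
    (hPV : ∀ b : B, b ∈ P ↔ V.valuation (b : F) < 1)
    (hreg : IsRegularLocalRing (Localization.AtPrime P)) :
    IsRegularLocalRing (lo V.toSubring B.toSubring) := by
  have hu : ∀ y : P.primeCompl, ((y : B) : F) ≠ 0 ∧ ((y : B) : F)⁻¹ ∈ V := by
    intro y
    have h1 : ¬ V.valuation ((y : B) : F) < 1 := fun h => y.2 ((hPV _).2 h)
    have h0 : ((y : B) : F) ≠ 0 := by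
      intro h
      apply h1
      rw [h, map_zero]; exact zero_lt_one
    refine ⟨h0, ?_⟩
    rw [val_lt_iff h0, not_not] at h1
    exact h1
  let ι : B →+* lo V.toSubring B.toSubring :=
    { toFun := fun x => ⟨x.1, le_lo V.toSubring B.toSubring x.2⟩
      map_one' := rfl
      map_mul' := fun _ _ => rfl
      map_zero' := rfl
      map_add' := fun _ _ => rfl }
  have hι : ∀ y : P.primeCompl, IsUnit (ι y) := by
    intro y
    refine isUnit_iff_exists_inv.2 ⟨⟨((y : B) : F)⁻¹, 1, B.toSubring.one_mem, _, (y : B).2,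
      (hu y).1, (hu y).2, by rw [one_mul]⟩, ?_⟩
    exact Subtype.ext (mul_inv_cancel₀ (hu y).1)
  let θ : Localization.AtPrime P →+* lo V.toSubring B.toSubring :=
    IsLocalization.lift (M := P.primeCompl) hι
  have hθ : Function.Bijective θ := by
    refine ⟨?_, ?_⟩
    · rw [injective_iff_map_eq_zero]
      intro z hz
      obtain ⟨a, y, rfl⟩ := IsLocalization.exists_mk'_eq P.primeCompl z
      have h1 : ι a = ι y * 0 := (IsLocalization.lift_mk'_spec (S := Localization.AtPrime P)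
        (hg := hι) a 0 y).1 hz
      rw [mul_zero] at h1
      have h2 : a = 0 := Subtype.ext (congrArg (fun w : lo V.toSubring B.toSubring => (w : F)) h1)
      rw [h2, IsLocalization.mk'_zero]
    · rintro ⟨_, a, ha, b, hb, hb0, hbi, rfl⟩
      have hbP : (⟨b, hb⟩ : B) ∈ P.primeCompl := by
        intro h
        exact (val_lt_iff hb0).1 ((hPV ⟨b, hb⟩).1 h) hbi
      refine ⟨IsLocalization.mk' _ (⟨a, ha⟩ : B) ⟨⟨b, hb⟩, hbP⟩, ?_⟩
      rw [IsLocalization.lift_mk'_spec]
      apply Subtype.ext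
      change a = b * (a * b⁻¹)
      field_simp
  exact IsRegularLocalRing.of_ringEquiv (RingEquiv.ofBijective θ hθ)

theorem principal_of_LR {M K : Submodule O F} (hM : M.FG) (hMne : ∃ g ∈ M, g ≠ 0) (hK : K.FG)
    (hKne : ∃ j ∈ K, j ≠ 0)
    (h : ∀ (W : ZR O F) (Q : Subring F), LR W.1 M Q → IsRegularLocalRing Q → LR W.1 (M * K) Q)
    {g : F} (hg : g ∈ M) (hg0 : g ≠ 0) (P : Ideal (chart O M g)) [P.IsPrime]
    (hP : IsRegularLocalRing (Localization.AtPrime P)) : PrincipalAt M K g P := by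
  obtain ⟨V, hBV, hV⟩ := h94_val (chart O M g) P
  have hO : ∀ o, algebraMap O F o ∈ V := fun o => hBV ((chart O M g).algebraMap_mem o)
  have hgW : Gn V M g := ⟨hg, hg0, fun m hm => hBV (Algebra.subset_adjoin ⟨m, hm, rfl⟩)⟩
  have hreg := h94_lo_regular hBV P hV hP
  have hLR : LR V (M * K) (lo V.toSubring (chart O M g).toSubring) := h ⟨V, hO⟩ _ hgW.LR hreg
  obtain ⟨j₀, hj₀, hj₀0⟩ := hKne
  obtain ⟨j, hj, hj0, hjW⟩ := exists_gen_max hO hK hj₀ hj₀0
  have hgj : Gn V (M * K) (g * j) := h413_Gn_mul hgW ⟨hj, hj0, hjW⟩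
  have hQ := LR.unique hO hgj.LR hLR
  refine ⟨j, hj, hj0, fun l hl => ?_⟩
  have h1 : l / j ∈ lo V.toSubring (chart O M g).toSubring := by
    rw [← hQ]
    refine le_lo _ _ (Algebra.subset_adjoin ⟨g * l, Submodule.mul_mem_mul hg hl, ?_⟩)
    rw [mul_div_mul_left _ _ hg0]
  obtain ⟨a, ha, s, hs, hs0, hsV, hx⟩ := h1
  refine ⟨⟨a, ha⟩, ⟨s, hs⟩, fun hsP => ?_, ?_⟩
  · exact (val_lt_iff hs0).1 ((hV ⟨s, hs⟩).1 hsP) hsV
  · change l * s = j * a
    rw [div_eq_iff hj0] at hx
    rw [hx]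
    field_simp

end Pool.Agent.H413.BR
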