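import Pool.Agent.H413.BR.Defs3
import Pool.Agent.H413.BR.B45
import Pool.Agent.H413.BR.B46

/-!
# BR54 (helper383 for helper413)
-/

set_option autoImplicit false
set_option linter.unusedVariables false
set_option linter.unusedSectionVars false

namespace Pool.Agent.H413.BR

open scoped Topology
open IsLocalRing Pool.Agent.TH188.QS Pool.Agent.TH188.ARC Pool.Agent.W418.LU2
  Pool.Agent.H918R2.Quad

section gen

variable {O F : Type} [CommRing O] [Field F] [Algebra O F]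

/-- BR54. -/
theorem trait_lifts {M₀ J : Submodule O F} (hJ : J.FG) (hJne : ∃ j ∈ J, j ≠ 0) {g : F}
    (hg : g ∈ M₀) (hg0 : g ≠ 0) {R : Type} [CommRing R] [IsDomain R] [IsDiscreteValuationRing R]
    (γ : chart O M₀ g →+* R)
    (h : ∀ (W η : ZR O F) (ϖ : F), W.1 ≤ η.1 → Gn W.1 M₀ g → ϖ ≠ 0 → ϖ ∈ W.1 →
      (∀ b : chart O M₀ g, η.1.valuation (b : F) < 1 ↔ γ b = 0) →
      (∀ z ∈ lo η.1.toSubring (chart O M₀ g).toSubring, W.1.valuation z < 1 → z * ϖ⁻¹ ∈ W.1) →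
      (∀ (b : chart O M₀ g) (d : ℕ), γ b ∉ maximalIdeal R ^ (d + 1) →
        (b : F)⁻¹ * ϖ ^ d ∈ W.1) →
      Rq W (M₀ * J) ∧ ∃ Q, LR η.1 M₀ Q ∧ LR η.1 (M₀ * J) Q) : LiftsReg M₀ J g R γ := by
  obtain ⟨j₀, hj₀, hj₀0⟩ := hJne
  obtain ⟨η, W, ϖ, hWη, hBW, hη, hW, hWm, hϖ0, hϖ, hlo, hd⟩ :=
    trait_val (B := (chart O M₀ g).toSubring) (R := R) γ
  have hOW : ∀ o, algebraMap O F o ∈ W := fun o => hBW ((chart O M₀ g).algebraMap_mem o)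
  have hOη : ∀ o, algebraMap O F o ∈ η := fun o => hWη (hOW o)
  have hgn : Gn W M₀ g := ⟨hg, hg0, fun m hm =>
    hBW (Algebra.subset_adjoin ⟨m, hm, rfl⟩ : m / g ∈ chart O M₀ g)⟩
  obtain ⟨hr, hiso⟩ := h ⟨W, hOW⟩ ⟨η, hOη⟩ ϖ hWη hgn hϖ0 hϖ hη hlo hd
  obtain ⟨j, hj, hj0, hjW⟩ := exists_gen_max hOW hJ hj₀ hj₀0
  obtain ⟨γ', hext, hreg⟩ := lift_trait (η := ⟨η, hOη⟩) (W := ⟨W, hOW⟩) hg hg0 γ hWη hBW hη hW
    hiso hr (j := j) ⟨hj, hj0, hjW⟩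
  exact ⟨j, hj, hj0, γ', hext, hreg⟩

end gen

end Pool.Agent.H413.BR
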