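import Pool.Agent.H413.BR.Defs3
import Pool.Agent.H413.BR.B3
import Pool.Agent.H413.BR.B33
import Pool.Agent.H413.BR.B39
import Pool.Agent.H413.BR.B50
import Pool.Agent.H413.BR.B52
import Pool.Agent.H413.BR.B53
import Pool.Agent.H413.BR.B54

/-!
# BR55: the sequence of blowings up over a field (helper772 for helper413)
-/

set_option autoImplicit false
set_option linter.unusedVariables false
set_option linter.unusedSectionVars false

namespace Pool.Agent.H413.BR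

open scoped Topology
open IsLocalRing Pool.Agent.TH188.QS Pool.Agent.TH188.ARC Pool.Agent.W418.LU2
  Pool.Agent.H918R2.Quad


section br55

variable {O F : Type} [CommRing O] [Field F] [Algebra O F]

/-- The local ring at the centre of `V` is regular if the localization at the centre is. -/
theorem br55_reg_lo {B : Subalgebra O F} {V : ValuationSubring F}
    (hBV : B.toSubring ≤ V.toSubring)
    (hreg : ∀ (P : Ideal B) [P.IsPrime], (∀ b : B, b ∈ P ↔ V.valuation (b : F) < 1) →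
      IsRegularLocalRing (Localization.AtPrime P)) :
    IsRegularLocalRing (lo V.toSubring B.toSubring) := by
  let P : Ideal B :=
    { carrier := {b | V.valuation (b : F) < 1}
      zero_mem' := by
        change V.valuation ((0 : B) : F) < 1
        rw [ZeroMemClass.coe_zero, map_zero]; exact zero_lt_one
      add_mem' := fun {a b} ha hb => by
        change V.valuation ((a + b : B) : F) < 1
        exact Valuation.map_add_lt _ ha hb
      smul_mem' := fun c a ha => by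
        change V.valuation ((c * a : B) : F) < 1
        rw [Subalgebra.coe_mul, map_mul]
        exact mul_lt_one_aux ((V.valuation_le_one_iff _).2 (hBV c.2)) ha }
  have hP : P.IsPrime := by
    refine ⟨?_, ?_⟩
    · rw [Ne, Ideal.eq_top_iff_one]
      change ¬ V.valuation ((1 : B) : F) < 1
      rw [OneMemClass.coe_one, map_one]
      exact lt_irrefl _
    · intro a b hab
      change V.valuation ((a * b : B) : F) < 1 at hab
      rw [Subalgebra.coe_mul, map_mul] at hab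
      by_contra hcon
      rw [not_or] at hcon
      have ha : V.valuation (a : F) = 1 := le_antisymm ((V.valuation_le_one_iff _).2 (hBV a.2))
        (not_lt.1 hcon.1)
      have hb : V.valuation (b : F) = 1 := le_antisymm ((V.valuation_le_one_iff _).2 (hBV b.2))
        (not_lt.1 hcon.2)
      rw [ha, hb, one_mul] at hab
      exact lt_irrefl _ hab
  have hu : ∀ y : P.primeCompl, ((y : B) : F) ≠ 0 ∧ ((y : B) : F)⁻¹ ∈ V := by
    intro y
    have h1 : ¬ V.valuation ((y : B) : F) < 1 := y.2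
    have h0 : ((y : B) : F) ≠ 0 := by
      intro h
      apply h1
      rw [h, map_zero]; exact zero_lt_one
    refine ⟨h0, ?_⟩
    rw [val_lt_iff h0, not_not] at h1
    exact h1
  let ι : B →+* lo V.toSubring B.toSubring :=
    (Subring.inclusion (le_lo V.toSubring B.toSubring) : B.toSubring →+* _)
  have hι : ∀ y : P.primeCompl, IsUnit (ι y) := by
    intro y
    refine isUnit_iff_exists_inv.2 ⟨⟨((y : B) : F)⁻¹, 1, B.one_mem, _, (y : B).2, (hu y).1,
      (hu y).2, by rw [one_mul]⟩, ?_⟩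
    exact Subtype.ext (mul_inv_cancel₀ (hu y).1)
  let θ : Localization.AtPrime P →+* lo V.toSubring B.toSubring :=
    IsLocalization.lift (M := P.primeCompl) hι
  have hθ : Function.Bijective θ := by
    refine ⟨?_, ?_⟩
    · rw [injective_iff_map_eq_zero]
      intro z hz
      obtain ⟨a, y, rfl⟩ := IsLocalization.exists_mk'_eq P.primeCompl z
      have h1 : ι a = ι y * 0 := (IsLocalization.lift_mk'_spec (S := Localization.AtPrime P)
        (hg := hι) a 0 y).1 hz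
      rw [mul_zero] at h1
      have h2 : a = 0 := Subtype.ext (congrArg (fun w : lo V.toSubring B.toSubring => (w : F)) h1)
      rw [h2, IsLocalization.mk'_zero]
    · rintro ⟨_, a, ha, b, hb, hb0, hbi, rfl⟩
      have hbP : (⟨b, hb⟩ : B) ∈ P.primeCompl := by
        intro h
        have h1 : V.valuation b < 1 := h
        exact (val_lt_iff hb0).1 h1 hbi
      refine ⟨IsLocalization.mk' _ (⟨a, ha⟩ : B) ⟨⟨b, hb⟩, hbP⟩, ?_⟩
      rw [IsLocalization.lift_mk'_spec]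
      apply Subtype.ext
      change a = b * (a * b⁻¹)
      field_simp
  have := hreg P (fun b => Iff.rfl)
  exact IsRegularLocalRing.of_ringEquiv (RingEquiv.ofBijective θ hθ)

/-- A unit of a chart is a generator. -/
theorem br55_gn {M : Submodule O F} {D : ℕ} {W : ValuationSubring F} {f g : F}
    (hf : f ∈ M ^ D) (hf0 : f ≠ 0) (hg0 : g ≠ 0)
    (hW : (chart O M g).toSubring ≤ W.toSubring) (h : (f / g ^ D)⁻¹ ∈ W) :
    Gn W (M ^ D) f := by
  refine ⟨hf, hf0, fun m hm => ?_⟩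
  have h1 : m / f = m / g ^ D * (f / g ^ D)⁻¹ := by
    have := pow_ne_zero D hg0
    field_simp
  rw [h1]
  exact W.mul_mem _ _ (hW (pow_div_mem hg0 D m hm)) h

theorem br55_prod {K : ℕ → Submodule O F} (hK : ∀ d, (K d).FG ∧ ∃ j ∈ K d, j ≠ 0) (d : ℕ) :
    (∏ i ∈ Finset.range d, K i).FG ∧ ∃ j ∈ ∏ i ∈ Finset.range d, K i, j ≠ 0 := by
  induction d with
  | zero =>
    rw [Finset.prod_range_zero]
    refine ⟨?_, 1, Submodule.mem_one.2 ⟨1, map_one _⟩, one_ne_zero⟩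
    rw [Submodule.one_eq_span]
    exact Submodule.fg_span_singleton 1
  | succ d ih =>
    rw [Finset.prod_range_succ]
    obtain ⟨h1, j, hj, hj0⟩ := ih
    obtain ⟨h2, l, hl, hl0⟩ := hK d
    exact ⟨h1.mul h2, j * l, Submodule.mul_mem_mul hj hl, mul_ne_zero hj0 hl0⟩

end br55

/-- BR55. -/
theorem seq_field {k F : Type} [Field k] [Field F] [Algebra k F] (M₀ : Submodule k F)
    (hM₀ : M₀.FG) (hne : ∃ g ∈ M₀, g ≠ 0) (D : ℕ) (N : Set F) (hNfin : N.Finite)
    (hN : N ⊆ (M₀ ^ D : Submodule k F))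
    (hreg : ∀ g ∈ M₀, g ≠ 0 → ∀ (P : Ideal (chart k M₀ g)) [P.IsPrime],
      (∃ f ∈ N, ∀ h : f / g ^ D ∈ chart k M₀ g, (⟨_, h⟩ : chart k M₀ g) ∉ P) →
      IsRegularLocalRing (Localization.AtPrime P)) :
    ∃ K : ℕ → Submodule k F, (∀ d, (K d).FG ∧ ∃ j ∈ K d, j ≠ 0) ∧
      (∀ (d : ℕ), ∀ g ∈ Mo M₀ K d, g ≠ 0 → ∀ (P : Ideal (chart k (Mo M₀ K d) g)) [P.IsPrime],
        IsRegularLocalRing (Localization.AtPrime P) → PrincipalAt (Mo M₀ K d) (K d) g P) ∧
      ∀ (d : ℕ), ∀ g ∈ M₀, g ≠ 0 → ∀ (R : Type) [CommRing R] [IsDomain R]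
        [IsDiscreteValuationRing R] (γ : chart k M₀ g →+* R),
        (∃ f ∈ N, ∀ h : f / g ^ D ∈ chart k M₀ g, γ ⟨_, h⟩ ∉ maximalIdeal R ^ (d + 1)) →
        LiftsReg M₀ (∏ i ∈ Finset.range d, K i) g R γ := by
  classical
  -- the closed set
  obtain ⟨Z₀, hZ₀⟩ : ∃ Z₀ : Set (ZR k F), ∀ W, W ∈ Z₀ ↔ ∀ f ∈ N, ¬ Gn W.1 (M₀ ^ D) f :=
    ⟨{W | ∀ f ∈ N, ¬ Gn W.1 (M₀ ^ D) f}, fun W => Iff.rfl⟩
  have hnot : ∀ W : ZR k F, W ∉ Z₀ ↔ ∃ f ∈ N, Gn W.1 (M₀ ^ D) f := by
    intro W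
    rw [hZ₀]
    push Not
    rfl
  have hclosed : IsClosed[topM M₀] Z₀ := by
    have h1 : Z₀ᶜ = ⋃ f ∈ N, bas M₀ D f := by
      ext W
      rw [Set.mem_compl_iff, hnot, Set.mem_iUnion₂]
      constructor
      · rintro ⟨f, hf, h⟩
        exact ⟨f, hf, h⟩
      · rintro ⟨f, hf, h⟩
        exact ⟨f, hf, h⟩
    have h2 : IsOpen[topM M₀] Z₀ᶜ := by
      rw [h1]
      let _ := topM M₀
      exact isOpen_biUnion fun f _ => TopologicalSpace.isOpen_generateFrom_of_mem ⟨D, f, rfl⟩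
    let _ := topM M₀
    exact isOpen_compl_iff.1 h2
  have hHJ : HJ k := hj_field
  have hSR : SR k F := sr_hj hHJ
  -- the model is regular outside of the closed set
  have hRq : ∀ W : ZR k F, W ∉ Z₀ → Rq W M₀ := by
    intro W hW
    obtain ⟨f, hf, hgn⟩ := (hnot W).1 hW
    obtain ⟨g₀, hg₀, hg₀0⟩ := hne
    obtain ⟨g, hg, hg0, hgW⟩ := exists_gen_max W.2 hM₀ hg₀ hg₀0
    have hG : Gn W.1 M₀ g := ⟨hg, hg0, hgW⟩
    refine ⟨_, Gn.LR hG, br55_reg_lo hG.le fun P hP hPW => ?_⟩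
    refine hreg g hg hg0 P ⟨f, hf, fun h hcon => ?_⟩
    rw [hPW] at hcon
    have h0 : f / g ^ D ≠ 0 := div_ne_zero hgn.2.1 (pow_ne_zero _ hg0)
    refine (val_lt_iff h0).1 hcon ?_
    rw [inv_div]
    exact hgn.2.2 _ (Submodule.pow_mem_pow _ hg _)
  have hCZ0 : CZ M₀ Z₀ M₀ := ⟨hM₀, hne, Dom.refl M₀, fun W _ Q hQ => hQ⟩
  have hC0 : ∀ (W : ZR k F) (ϖ : F), Ct M₀ N D W.1 ϖ 0 → W ∉ Z₀ := by
    rintro W ϖ ⟨f, hf, hf0, g, hg, h⟩
    rw [pow_zero, mul_one] at h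
    exact (hnot W).2 ⟨f, hf, br55_gn (hN hf) hf0 hg.2.1 hg.le h⟩
  obtain ⟨K, hK, hKM, hKiso, hKreg⟩ := seq_gen hHJ hSR (cl_CZ hclosed) hCZ0
    (fun M h => h.2.2.2) hclosed hRq (fun d W ϖ => Ct M₀ N D W.1 ϖ d) hC0
    (fun M hM _ d => lev_CZ hM₀ hne hNfin hN hZ₀ hRq hM d)
  have hMo : ∀ d, Mo M₀ K (d + 1) = Mo M₀ K d * K d := by
    intro d
    unfold Mo
    rw [Finset.prod_range_succ, mul_assoc]
  refine ⟨K, hK, ?_, ?_⟩
  · intro d g hg hg0 P hP hPreg
    refine principal_of_LR (hKM d).1 (hKM d).2.1 (hK d).1 (hK d).2 (fun W Q h1 h2 => ?_) hg hg0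
      P hPreg
    have h3 := hKiso d W Q h1 h2
    rwa [hMo] at h3
  · intro d g hg hg0 R _ _ _ γ hγ
    obtain ⟨f, hf, hγf⟩ := hγ
    have hmem : f / g ^ D ∈ chart k M₀ g := pow_div_mem hg0 D f (hN hf)
    have hγa := hγf hmem
    have hγ0 : γ ⟨_, hmem⟩ ≠ 0 := by
      intro h
      apply hγa
      rw [h]
      exact Ideal.zero_mem _
    have ha0 : f / g ^ D ≠ 0 := by
      intro h
      apply hγ0
      have h1 : (⟨_, hmem⟩ : chart k M₀ g) = 0 := Subtype.ext h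
      rw [h1, map_zero]
    have hf0 : f ≠ 0 := by
      intro h
      apply ha0
      rw [h, zero_div]
    refine trait_lifts (br55_prod hK d).1 (br55_prod hK d).2 hg hg0 γ
      (fun W η ϖ hWη hgW hϖ0 hϖW hη hz hγd => ?_)
    have hgη : Gn η.1 M₀ g := ⟨hg, hg0, fun m hm => hWη (hgW.2.2 m hm)⟩
    have h1 : ¬ η.1.valuation (f / g ^ D) < 1 := fun h => hγ0 ((hη ⟨_, hmem⟩).1 h)
    have h2 : (f / g ^ D)⁻¹ ∈ η.1 := by
      rw [val_lt_iff ha0, not_not] at h1
      exact h1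
    have hηZ : η ∉ Z₀ := (hnot η).2 ⟨f, hf, br55_gn (hN hf) hf0 hg0 hgη.le h2⟩
    have hCt : Ct M₀ N D W.1 ϖ d := ⟨f, hf, hf0, g, hgW, hγd ⟨_, hmem⟩ d hγa⟩
    refine ⟨hKreg d W η ϖ hWη hηZ hϖ0 hϖW (fun Q₀ hQ₀ z hzQ hzW => ?_) hCt,
      _, Gn.LR hgη, (hKM d).2.2.2 η hηZ _ (Gn.LR hgη)⟩
    rw [LR.unique η.2 hQ₀ (Gn.LR hgη)] at hzQ
    exact hz z hzQ hzW

end Pool.Agent.H413.BR
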