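import Pool.Agent.H413.BR.Defs3
import Pool.Agent.H413.BR.B31
import Pool.Agent.H413.BR.B32
import Pool.Agent.H413.BR.B39
import Pool.Agent.H413.BR.B40
import Pool.Agent.H413.BR.B42
import Pool.Agent.H413.BR.B44
import Pool.Agent.H413.BR.B51
import Pool.Agent.H413.BR.B52
import Pool.Agent.H413.BR.B53
import Pool.Agent.H413.BR.B54
import Pool.Graph.R_seed8.TH188.QS.Bases

/-!
# Bounded contact: the sequence of blowings up over the integers (BR56)
-/

set_option autoImplicit false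
set_option linter.unusedVariables false
set_option linter.unusedSectionVars false

namespace Pool.Agent.H413.BR

open scoped Topology
open IsLocalRing Pool.Agent.TH188.QS Pool.Agent.TH188.ARC Pool.Agent.W418.LU2
  Pool.Agent.H918R2.Quad

namespace BR56

section aux

variable {O F : Type} [CommRing O] [Field F] [Algebra O F]

/-- One of the coordinates generates. -/
lemma exists_gn {n : ℕ} (y : Fin (n + 1) → F) (hy : ∀ i, y i ≠ 0) (W : ZR O F) :
    ∃ i, Gn W.1 (Submodule.span O (Set.range y)) (y i) := by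
  obtain ⟨i, -, hi⟩ := Finset.exists_max_image Finset.univ (fun i => W.1.valuation (y i))
    Finset.univ_nonempty
  refine ⟨i, Submodule.subset_span ⟨i, rfl⟩, hy i, fun m hm => ?_⟩
  induction hm using Submodule.span_induction with
  | mem m hm =>
    obtain ⟨j, rfl⟩ := hm
    rw [← W.1.valuation_le_one_iff, map_div₀]
    exact div_le_one_of_le₀ (hi j (Finset.mem_univ j)) zero_le
  | zero => rw [zero_div]; exact W.1.zero_mem
  | add a b _ _ ha hb => rw [add_div]; exact W.1.add_mem _ _ ha hb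
  | smul c a _ ha =>
    rw [Algebra.smul_def, mul_div_assoc]
    exact W.1.mul_mem _ _ (W.2 c) ha

/-- A finite nonempty family of nonzero generators. -/
lemma exists_fam {J : Submodule O F} (hJ : J.FG) (hne : ∃ j ∈ J, j ≠ 0) :
    ∃ (m : ℕ) (z : Fin (m + 1) → F), (∀ l, z l ≠ 0) ∧ Submodule.span O (Set.range z) = J := by
  classical
  obtain ⟨G, hG⟩ := hJ
  obtain ⟨j, hj, hj0⟩ := hne
  have hspan : Submodule.span O ((G.filter fun j => j ≠ 0 : Finset F) : Set F) = J := by
    rw [← hG]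
    apply le_antisymm
    · refine Submodule.span_mono ?_
      intro x hx
      exact (Finset.mem_filter.1 hx).1
    · rw [Submodule.span_le]
      intro x hx
      by_cases hx0 : x = 0
      · rw [hx0]; exact Submodule.zero_mem _
      · exact Submodule.subset_span (Finset.mem_filter.2 ⟨hx, hx0⟩)
  have hcard : (G.filter fun j => j ≠ 0).card ≠ 0 := by
    intro h
    rw [Finset.card_eq_zero] at h
    rw [h, Finset.coe_empty, Submodule.span_empty] at hspan
    rw [← hspan] at hj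
    exact hj0 ((Submodule.mem_bot O).1 hj)
  obtain ⟨m, hm⟩ := Nat.exists_eq_succ_of_ne_zero hcard
  let e := (G.filter fun j => j ≠ 0).equivFinOfCardEq hm
  refine ⟨m, fun l => (e.symm l : F), fun l => (Finset.mem_filter.1 (e.symm l).2).2, ?_⟩
  rw [← hspan]
  congr 1
  ext x
  constructor
  · rintro ⟨l, rfl⟩
    exact (e.symm l).2
  · intro hx
    exact ⟨e ⟨x, hx⟩, by simp⟩

/-- The coordinate rings are the charts. -/
lemma coord_eq {n : ℕ} (y : Fin (n + 1) → F) (i : Fin (n + 1)) :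
    coordRing O y i = chart O (Submodule.span O (Set.range y)) (y i) :=
  (chart_span y (y i)).symm

/-- Localizations at the centre. -/
lemma reg_lo {B : Subalgebra O F} {V : ValuationSubring F} (hBV : B.toSubring ≤ V.toSubring)
    (P : Ideal B) [hP : P.IsPrime] (hPV : ∀ b : B, b ∈ P ↔ V.valuation (b : F) < 1)
    (hreg : IsRegularLocalRing (Localization.AtPrime P)) :
    IsRegularLocalRing (lo V.toSubring B.toSubring) := by
  have hu : ∀ y : P.primeCompl, ((y : B) : F) ≠ 0 ∧ ((y : B) : F)⁻¹ ∈ V := by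
    intro y
    have h1 : ¬ V.valuation ((y : B) : F) < 1 := fun h => y.2 ((hPV _).2 h)
    have h0 : ((y : B) : F) ≠ 0 := by
      intro h
      apply h1
      rw [h, map_zero]; exact zero_lt_one
    refine ⟨h0, ?_⟩
    rw [Pool.Agent.TH188.ARC.val_lt_iff h0, not_not] at h1
    exact h1
  let ι : B →+* lo V.toSubring B.toSubring :=
    (Subring.inclusion (le_lo V.toSubring B.toSubring) : B.toSubring →+* _)
  have hι : ∀ y : P.primeCompl, IsUnit (ι y) := by
    intro y
    refine isUnit_iff_exists_inv.2 ⟨⟨((y : B) : F)⁻¹, 1, B.one_mem, _, (y : B).2, (hu y).1,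
      (hu y).2, by rw [one_mul]⟩, ?_⟩
    exact Subtype.ext (mul_inv_cancel₀ (hu y).1)
  let θ : Localization.AtPrime P →+* lo V.toSubring B.toSubring :=
    IsLocalization.lift (M := P.primeCompl) hι
  have hθ : Function.Bijective θ := by
    refine ⟨?_, ?_⟩
    · rw [injective_iff_map_eq_zero]
      intro z hz
      obtain ⟨a, y, rfl⟩ := IsLocalization.exists_mk'_eq P.primeCompl z
      have h1 : ι a = ι y * 0 := (IsLocalization.lift_mk'_spec (S := Localization.AtPrime P)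
        (hg := hι) a 0 y).1 hz
      rw [mul_zero] at h1
      have h2 : a = 0 := Subtype.ext (congrArg (fun w : lo V.toSubring B.toSubring => (w : F)) h1)
      rw [h2, IsLocalization.mk'_zero]
    · rintro ⟨_, a, ha, b, hb, hb0, hbi, rfl⟩
      have hbP : (⟨b, hb⟩ : B) ∈ P.primeCompl := by
        intro h
        have h1 : V.valuation b < 1 := (hPV _).1 h
        exact (Pool.Agent.TH188.ARC.val_lt_iff hb0).1 h1 hbi
      refine ⟨IsLocalization.mk' _ (⟨a, ha⟩ : B) ⟨⟨b, hb⟩, hbP⟩, ?_⟩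
      rw [IsLocalization.lift_mk'_spec]
      apply Subtype.ext
      change a = b * (a * b⁻¹)
      field_simp
  exact IsRegularLocalRing.of_ringEquiv (RingEquiv.ofBijective θ hθ)

/-- The centre of a valuation ring. -/
def ctr' (B : Subalgebra O F) (V : ValuationSubring F) (hBV : B.toSubring ≤ V.toSubring) :
    Ideal B where
  carrier := {b | V.valuation (b : F) < 1}
  zero_mem' := by
    change V.valuation ((0 : B) : F) < 1
    rw [ZeroMemClass.coe_zero, map_zero]; exact zero_lt_one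
  add_mem' := fun {a b} ha hb => by
    change V.valuation ((a + b : B) : F) < 1
    exact Valuation.map_add_lt _ ha hb
  smul_mem' := fun c a ha => by
    change V.valuation ((c * a : B) : F) < 1
    rw [Subalgebra.coe_mul, map_mul]
    exact mul_lt_one_aux ((V.valuation_le_one_iff _).2 (hBV c.2)) ha

lemma ctr'_prime (B : Subalgebra O F) (V : ValuationSubring F)
    (hBV : B.toSubring ≤ V.toSubring) : (ctr' B V hBV).IsPrime := by
  refine ⟨?_, ?_⟩
  · rw [Ne, Ideal.eq_top_iff_one]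
    change ¬ V.valuation ((1 : B) : F) < 1
    rw [OneMemClass.coe_one, map_one]
    exact lt_irrefl _
  · intro a b hab
    change V.valuation ((a * b : B) : F) < 1 at hab
    rw [Subalgebra.coe_mul, map_mul] at hab
    by_contra hcon
    rw [not_or] at hcon
    have ha : V.valuation (a : F) = 1 := le_antisymm ((V.valuation_le_one_iff _).2 (hBV a.2))
      (not_lt.1 hcon.1)
    have hb : V.valuation (b : F) = 1 := le_antisymm ((V.valuation_le_one_iff _).2 (hBV b.2))
      (not_lt.1 hcon.2)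
    rw [ha, hb, one_mul] at hab
    exact lt_irrefl _ hab

end aux

section int

variable {F : Type} [Field F]

lemma coord_closure {n : ℕ} (y : Fin (n + 1) → F) (i : Fin (n + 1)) :
    (coordRing ℤ y i).toSubring = Subring.closure (Set.range fun j => y j / y i) := by
  have h1 : (coordRing ℤ y i).toSubring = Subring.closure (((algebraMap ℤ F).range : Set F) ∪
      Set.range fun j => y j / y i) := adjoin_toSubring _
  rw [h1]
  apply le_antisymm
  · rw [Subring.closure_le]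
    rintro x (⟨r, rfl⟩ | hx)
    · rw [eq_intCast]
      exact intCast_mem _ r
    · exact Subring.subset_closure hx
  · exact Subring.closure_mono Set.subset_union_right

lemma pow_aux {W : ValuationSubring F} {ϖ : F} (hϖ : ϖ ∈ W) (d : ℕ)
    (h : ∀ p : ℕ, p.Prime → (p : F)⁻¹ * ϖ ^ d ∈ W) :
    ∀ N : ℕ, N ≠ 0 → (N : F)⁻¹ * ϖ ^ (d * N) ∈ W := by
  intro N
  induction N using Nat.strong_induction_on with
  | _ N ih =>
    intro hN
    by_cases h1 : N = 1
    · subst h1
      rw [Nat.cast_one, inv_one, one_mul]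
      exact pow_mem hϖ _
    · have hp := Nat.minFac_prime h1
      obtain ⟨c, hc⟩ := Nat.minFac_dvd N
      set p := N.minFac with hpdef
      have hc0 : c ≠ 0 := by
        rintro rfl
        exact hN (by rw [hc, mul_zero])
      have h2 := hp.two_le
      have hcN : c < N := by
        rw [hc]
        nlinarith [Nat.pos_of_ne_zero hc0]
      have h3 := ih c hcN hc0
      have h4 : (N : F)⁻¹ * ϖ ^ (d * N) =
          ((p : F)⁻¹ * ϖ ^ d) * ((c : F)⁻¹ * ϖ ^ (d * c)) * ϖ ^ (d * (N - 1 - c)) := by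
        have h5 : (N : F) = (p : F) * (c : F) := by
          rw [← Nat.cast_mul, ← hc]
        have h6 : d * N = d + d * c + d * (N - 1 - c) := by
          have h7 : N = 1 + c + (N - 1 - c) := by omega
          calc d * N = d * (1 + c + (N - 1 - c)) := by rw [← h7]
            _ = _ := by ring
        rw [h5, h6, pow_add, pow_add, mul_inv]
        ring
      rw [h4]
      exact W.mul_mem _ _ (W.mul_mem _ _ (h p hp) h3) (pow_mem hϖ _)

lemma ne_zero_aux {R : Type} [CommRing R] [IsDomain R] (h : ∀ p : ℕ, p.Prime → (p : R) ≠ 0) :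
    ∀ N : ℕ, N ≠ 0 → (N : R) ≠ 0 := by
  intro N
  induction N using Nat.strong_induction_on with
  | _ N ih =>
    intro hN
    by_cases h1 : N = 1
    · subst h1
      rw [Nat.cast_one]
      exact one_ne_zero
    · have hp := Nat.minFac_prime h1
      obtain ⟨c, hc⟩ := Nat.minFac_dvd N
      set p := N.minFac with hpdef
      have hc0 : c ≠ 0 := by
        rintro rfl
        exact hN (by rw [hc, mul_zero])
      have h2 := hp.two_le
      have hcN : c < N := by
        rw [hc]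
        nlinarith [Nat.pos_of_ne_zero hc0]
      rw [hc, Nat.cast_mul]
      exact mul_ne_zero (h p hp) (ih c hcN hc0)

/-- Products of the centres. -/
lemma prod_fg {O : Type} [CommRing O] [Algebra O F] {K : ℕ → Submodule O F}
    (hK : ∀ d, (K d).FG ∧ ∃ j ∈ K d, j ≠ 0) (d : ℕ) :
    (∏ i ∈ Finset.range d, K i).FG ∧ ∃ j ∈ ∏ i ∈ Finset.range d, K i, j ≠ 0 := by
  induction d with
  | zero =>
    rw [Finset.range_zero, Finset.prod_empty]
    refine ⟨⟨{1}, ?_⟩, ⟨1, Submodule.one_le.1 le_rfl, one_ne_zero⟩⟩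
    rw [Finset.coe_singleton]
    exact Submodule.one_eq_span.symm
  | succ d ih =>
    obtain ⟨h1, j, hj, hj0⟩ := ih
    obtain ⟨h2, l, hl, hl0⟩ := hK d
    rw [Finset.prod_range_succ]
    exact ⟨h1.mul h2, j * l, Submodule.mul_mem_mul hj hl, mul_ne_zero hj0 hl0⟩

end int

end BR56


theorem seq_int {F : Type} [Field F] [CharZero F] (M₀ : Submodule ℤ F)
    (hM₀ : M₀.FG) (hne : ∃ g ∈ M₀, g ≠ 0)
    (hreg : ∀ g ∈ M₀, g ≠ 0 → ∀ (P : Ideal (chart ℤ M₀ g)) [P.IsPrime],
      (∀ t : ℕ, t ≠ 0 → (t : chart ℤ M₀ g) ∉ P) → IsRegularLocalRing (Localization.AtPrime P)) :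
    ∃ K : ℕ → Submodule ℤ F, (∀ d, (K d).FG ∧ ∃ j ∈ K d, j ≠ 0) ∧
      (∀ (d : ℕ), ∀ g ∈ Mo M₀ K d, g ≠ 0 → ∀ (P : Ideal (chart ℤ (Mo M₀ K d) g)) [P.IsPrime],
        IsRegularLocalRing (Localization.AtPrime P) → PrincipalAt (Mo M₀ K d) (K d) g P) ∧
      ∀ (d : ℕ), ∀ g ∈ M₀, g ≠ 0 → ∀ (R : Type) [CommRing R] [IsDomain R]
        [IsDiscreteValuationRing R] (γ : chart ℤ M₀ g →+* R),
        (∀ p : ℕ, p.Prime → (p : R) ∉ maximalIdeal R ^ (d + 1)) →
        LiftsReg M₀ (∏ i ∈ Finset.range d, K i) g R γ := by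
  classical
  have hHJ : HJ ℤ := hj_dedekind
  obtain ⟨n, y, hy, hspan⟩ := BR56.exists_fam hM₀ hne
  have hyM : ∀ i, y i ∈ M₀ := fun i => by
    rw [← hspan]
    exact Submodule.subset_span ⟨i, rfl⟩
  have hgn : ∀ W : ZR ℤ F, ∃ i, Gn W.1 M₀ (y i) := by
    intro W
    have h1 := BR56.exists_gn (O := ℤ) y hy W
    rw [hspan] at h1
    exact h1
  have hcl : ∀ i, (chart ℤ M₀ (y i)).toSubring =
      Subring.closure (Set.range fun j => y j / y i) := by
    intro i
    rw [← BR56.coord_closure, BR56.coord_eq, hspan]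
  -- the uniform integers
  have hlev : ∀ i, ∃ N : ℕ, N ≠ 0 ∧ ∀ W : ValuationSubring F,
      (chart ℤ M₀ (y i)).toSubring ≤ W.toSubring → ∀ (ϖ : F) (m : ℕ), ((N : F))⁻¹ * ϖ ^ m ∈ W →
        Lev W ϖ m (lo W.toSubring (chart ℤ M₀ (y i)).toSubring) := by
    intro i
    have h1 : ∀ η : ValuationSubring F, (chart ℤ M₀ (y i)).toSubring ≤ η.toSubring →
        (∀ n : ℕ, n ≠ 0 → ((n : F))⁻¹ ∈ η) →
        IsRegularLocalRing (lo η.toSubring (chart ℤ M₀ (y i)).toSubring) := by
      intro η hη hn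
      have hp := BR56.ctr'_prime (chart ℤ M₀ (y i)) η hη
      refine BR56.reg_lo hη (BR56.ctr' (chart ℤ M₀ (y i)) η hη) (fun b => Iff.rfl)
        (hreg (y i) (hyM i) (hy i) _ fun t ht h => ?_)
      have h2 : η.valuation (((t : chart ℤ M₀ (y i)) : chart ℤ M₀ (y i)) : F) < 1 := h
      have h3 : (((t : chart ℤ M₀ (y i)) : chart ℤ M₀ (y i)) : F) = (t : F) := rfl
      rw [h3] at h2
      exact (Pool.Agent.TH188.ARC.val_lt_iff (Nat.cast_ne_zero.2 ht)).1 h2 (hn t ht)
    rw [hcl] at h1 ⊢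
    exact lev_int (Set.finite_range _) h1
  choose N hN0 hN using hlev
  set Nn : ℕ := ∏ i, N i with hNn
  have hNn0 : Nn ≠ 0 := Finset.prod_ne_zero_iff.2 fun i _ => hN0 i
  have hNF : (Nn : F) ≠ 0 := Nat.cast_ne_zero.2 hNn0
  have hdiv : ∀ (i : Fin (n + 1)) (W : ValuationSubring F) (x : F), (Nn : F)⁻¹ * x ∈ W →
      (N i : F)⁻¹ * x ∈ W := by
    intro i W x hx
    obtain ⟨c, hc⟩ : N i ∣ Nn := Finset.dvd_prod_of_mem N (Finset.mem_univ i)
    have h1 : (N i : F)⁻¹ * x = ((Nn : F)⁻¹ * x) * (c : F) := by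
      have h2 : (N i : F) ≠ 0 := Nat.cast_ne_zero.2 (hN0 i)
      have h3 : (c : F) ≠ 0 := by
        intro h
        apply hNF
        rw [hc, Nat.cast_mul, h, mul_zero]
      rw [hc, Nat.cast_mul, mul_inv]
      field_simp
    rw [h1]
    exact W.mul_mem _ _ hx (natCast_mem W c)
  -- the zero set
  set I : Ideal ℤ := Ideal.span {(Nn : ℤ)} with hI
  have hmem : ∀ W : ZR ℤ F, W ∉ ZI ℤ F I → (Nn : F)⁻¹ ∈ W.1 := by
    intro W hW
    by_contra hcon
    apply hW
    intro x hx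
    obtain ⟨c, rfl⟩ := Ideal.mem_span_singleton.1 hx
    have h1 : W.1.valuation (Nn : F) < 1 := (Pool.Agent.TH188.ARC.val_lt_iff hNF).2 hcon
    rw [map_mul, map_mul]
    have h2 : algebraMap ℤ F (Nn : ℤ) = (Nn : F) := by simp
    rw [h2]
    exact mul_lt_one_aux' h1 ((W.1.valuation_le_one_iff _).2 (W.2 c))
  have hnot : ∀ η : ZR ℤ F, ¬ η.1.valuation (Nn : F) < 1 → η ∉ ZI ℤ F I := by
    intro η hη h
    apply hη
    have h1 := h (Nn : ℤ) (Ideal.subset_span rfl)
    have h2 : algebraMap ℤ F (Nn : ℤ) = (Nn : F) := by simp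
    rwa [h2] at h1
  have hnot' : ∀ η : ZR ℤ F, (Nn : F)⁻¹ ∈ η.1 → η ∉ ZI ℤ F I := fun η h =>
    hnot η fun h1 => (Pool.Agent.TH188.ARC.val_lt_iff hNF).1 h1 h
  have hL : ∀ (W : ZR ℤ F) (ϖ : F) (m : ℕ), (Nn : F)⁻¹ * ϖ ^ m ∈ W.1 → ∀ Q, LR W.1 M₀ Q →
      Lev W.1 ϖ m Q := by
    intro W ϖ m h Q hQ
    obtain ⟨i, hi⟩ := hgn W
    rw [LR.unique W.2 hQ (Gn.LR hi)]
    exact hN i W.1 hi.le ϖ m (hdiv i W.1 _ h)
  have hRq : ∀ W, W ∉ ZI ℤ F I → Rq W M₀ := by
    intro W hW
    obtain ⟨i, hi⟩ := hgn W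
    refine ⟨_, Gn.LR hi, lev_zero hHJ hM₀ hne (Gn.LR hi) (ϖ := 1)
      (hL W 1 0 ?_ _ (Gn.LR hi))⟩
    rw [pow_zero, mul_one]
    exact hmem W hW
  have hCI : CI I M₀ M₀ := by
    refine ⟨hM₀, hne, 1, le_rfl, by rw [pow_one], 0, ?_⟩
    rw [pow_one, pow_zero, Ideal.one_eq_top, Submodule.top_smul]
  obtain ⟨K, hK1, hK2, hK3, hK4⟩ := seq_gen hHJ (sr_hj hHJ) (cl_CI I M₀) hCI
    (fun M hM η hη Q hQ => CI_iso hM hη hQ) (ZI_closed I M₀) hRq
    (fun d W ϖ => ∀ p : ℕ, p.Prime → (p : F)⁻¹ * ϖ ^ d ∈ W.1)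
    (fun W ϖ hC => by
      refine hnot' W ?_
      have h1 := BR56.pow_aux (W := W.1) (ϖ := 1) W.1.one_mem 0 (fun p hp => by
        have h2 := hC p hp
        rw [pow_zero] at h2 ⊢
        exact h2) Nn hNn0
      rw [zero_mul, pow_zero, mul_one] at h1
      exact h1)
    (fun M hM _ d => lev_CI hNn0 (fun W hW => hRq W (hnot' W (hW Nn hNn0))) hM d)
  refine ⟨K, hK1, ?_, ?_⟩
  · intro d g hg hg0 P _ hP
    refine principal_of_LR (hK2 d).1 (hK2 d).2.1 (hK1 d).1 (hK1 d).2 (fun W Q hQ hr => ?_)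
      hg hg0 P hP
    have h1 := hK3 d W Q hQ hr
    have h2 : Mo M₀ K (d + 1) = Mo M₀ K d * K d := by
      unfold Mo
      rw [Finset.prod_range_succ, mul_assoc]
    rw [h2] at h1
    exact h1
  · intro d g hg hg0 R _ _ _ γ hγ
    obtain ⟨hJ, hJne⟩ := BR56.prod_fg hK1 d
    refine trait_lifts hJ hJne hg hg0 γ ?_
    intro W η ϖ hWη hGn hϖ0 hϖW hη hϖd hpow
    have hchar : ∀ t : ℕ, t ≠ 0 → (t : R) ≠ 0 := BR56.ne_zero_aux fun p hp h =>
      hγ p hp (by rw [h]; exact Submodule.zero_mem _)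
    have hηZ : η ∉ ZI ℤ F I := by
      apply hnot
      intro h
      have h1 := (hη (Nn : chart ℤ M₀ g)).1 h
      rw [map_natCast] at h1
      exact hchar Nn hNn0 h1
    have hpr : ∀ p : ℕ, p.Prime → (p : F)⁻¹ * ϖ ^ d ∈ W.1 := by
      intro p hp
      refine hpow (p : chart ℤ M₀ g) d ?_
      rw [map_natCast]
      exact hγ p hp
    have hGη : Gn η.1 M₀ g := ⟨hg, hg0, fun m hm => hWη (hGn.2.2 m hm)⟩
    refine ⟨?_, _, Gn.LR hGη, CI_iso (hK2 d) hηZ (Gn.LR hGη)⟩
    refine hK4 d W η ϖ hWη hηZ hϖ0 hϖW (fun Q₀ hQ₀ x hx hx1 => ?_) hpr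
    rw [LR.unique η.2 hQ₀ (Gn.LR hGη)] at hx
    exact hϖd x hx hx1

end Pool.Agent.H413.BR
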