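import Pool.Graph.R_seed8.TH188.ARC.A16
import Mathlib.Topology.NoetherianSpace

/-!
# Bounded contact: definitions
-/

set_option autoImplicit false
set_option linter.unusedVariables false
set_option linter.unusedSectionVars false

namespace Pool.Agent.H413.BR

open IsLocalRing Pool.Agent.TH188.QS Pool.Agent.TH188.ARC Pool.Agent.W418.LU2
  Pool.Agent.H918R2.Quad

section mod

variable {O F : Type} [CommRing O] [Field F] [Algebra O F]

/-- The valuation rings of `F` over `O`. -/
abbrev ZR (O F : Type) [CommRing O] [Field F] [Algebra O F] : Type :=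
  {W : ValuationSubring F // ∀ o, algebraMap O F o ∈ W}

/-- `g` generates `M` at `W`. -/
def Gn (W : ValuationSubring F) (M : Submodule O F) (g : F) : Prop :=
  g ∈ M ∧ g ≠ 0 ∧ ∀ m ∈ M, m / g ∈ W

/-- The basic open sets of the model attached to `M`. -/
def bas (M : Submodule O F) (k : ℕ) (f : F) : Set (ZR O F) := {W | Gn W.1 (M ^ k) f}

/-- The topology of the model attached to `M`. -/
def topM (M : Submodule O F) : TopologicalSpace (ZR O F) :=
  TopologicalSpace.generateFrom {U | ∃ k f, U = bas M k f}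

/-- `M'` is a blowing up of `M`. -/
def Dom (M M' : Submodule O F) : Prop :=
  ∃ J : Submodule O F, J.FG ∧ (∃ j ∈ J, j ≠ 0) ∧ M' = M * J

end mod

section loc

variable {F : Type} [Field F]

/-- `e` is an element of smallest order of the prime ideal of `Q` cut out by `η`. -/
structure MinP (W η : ValuationSubring F) (Q : Subring F) (e : F) : Prop where
  mem : e ∈ Q
  ne : e ≠ 0
  lt : η.valuation e < 1
  min : ∀ y ∈ Q, η.valuation y < 1 → y / e ∈ W

/-- The local ring at `W` of the blowing up of `Q` along the prime ideal cut out by `η`. -/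
def bl (W η : ValuationSubring F) (Q : Subring F) : Subring F :=
  lo W.toSubring (Subring.closure ((Q : Set F) ∪
    {t | ∃ y ∈ Q, ∃ e, η.valuation y < 1 ∧ MinP W η Q e ∧ t = y / e}))

/-- `y` is in the square of the maximal ideal of the local ring `R` dominated by `η`. -/
def Sq (η : ValuationSubring F) (R : Subring F) (y : F) : Prop :=
  ∃ (n : ℕ) (u v : Fin n → F), (∀ i, u i ∈ R ∧ η.valuation (u i) < 1) ∧
    (∀ i, v i ∈ R ∧ η.valuation (v i) < 1) ∧ y = ∑ i, u i * v i

/-- The prime ideal of `Q` cut out by `η` has as many generators as it has at its generic point. -/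
def Nice2 (η : ValuationSubring F) (Q : Subring F) : Prop :=
  ∃ (ρ : ℕ) (b : Fin ρ → F), (∀ i, b i ∈ Q ∧ η.valuation (b i) < 1) ∧
    (∀ y ∈ Q, η.valuation y < 1 → ∃ c : Fin ρ → F, (∀ i, c i ∈ Q) ∧ y = ∑ i, c i * b i) ∧
    ∀ c : Fin ρ → F, (∀ i, c i ∈ lo η.toSubring Q) →
      Sq η (lo η.toSubring Q) (∑ i, c i * b i) → ∀ i, η.valuation (c i) < 1

/-- `Q` is nice along the prime ideal cut out by `η`: the quotient is regular and the prime ideal
has as many generators as it has at its generic point. -/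
def Nice (η : ValuationSubring F) (Q : Subring F) : Prop :=
  IsRegularLocalRing (im (residue η) Q) ∧ Nice2 η Q

end loc

/-- `θ` presents `T` as the localization of the quotient of `S` by the kernel of `θ` at the
prime `𝔫`. -/
structure LocQ {S T : Type} [CommRing S] [CommRing T] (θ : S →+* T) (𝔫 : Ideal S) : Prop where
  unit : ∀ y, y ∉ 𝔫 → IsUnit (θ y)
  nonunit : ∀ y ∈ 𝔫, ¬ IsUnit (θ y)
  frac : ∀ z : T, ∃ a y : S, y ∉ 𝔫 ∧ z * θ y = θ a

section lev

variable {S K : Type} [CommRing S] [IsDomain S] [Field K]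

/-- A regular ambient local ring with equations whose Jacobian minor is nonzero. -/
structure LS {φ : S →+* K} (V : ValuationSubring K) {r : ℕ} {D : Fin r → S → K}
    (hD : ∀ j, Der φ (D j)) (Q : Subring K) (P : Subring (FractionRing S))
    (g : Fin r → FractionRing S) (ω : K) : Prop where
  PW : P ≤ AA (FractionRing S) φ V
  ic : IC (AA (FractionRing S) φ V) P
  reg : IsRegularLocalRing P
  SP : ∀ s, algebraMap S (FractionRing S) s ∈ P
  imQ : im φ P = Q
  ω0 : ω ≠ 0
  bd : ∀ j, P ≤ BB (FractionRing S) V (hD j) ω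
  gP : ∀ i, g i ∈ P
  g0 : ∀ i, Pr φ (g i) 0
  det0 : (Matrix.of fun i j => dd φ (D j) (g i)).det ≠ 0

/-- The ambient local ring of the blowing up. -/
noncomputable def blP (φ : S →+* K) (V η : ValuationSubring K) (P : Subring (FractionRing S))
    (z : FractionRing S) : Subring (FractionRing S) :=
  lo (AA (FractionRing S) φ V) (Subring.closure ((P : Set (FractionRing S)) ∪
    {t | ∃ y ∈ P, ∃ w : K, Pr φ y w ∧ η.valuation w < 1 ∧ t = y * z⁻¹}))

/-- The order of the Jacobian minor is at most `m` times the order of `ϖ`. -/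
def Lev (V : ValuationSubring K) (ϖ : K) (m : ℕ) (Q : Subring K) : Prop :=
  ∃ (S : Type) (_ : CommRing S) (_ : IsDomain S) (φ : S →+* K) (r : ℕ) (D : Fin r → S → K)
    (hD : ∀ j, Der φ (D j)) (f₀ : Fin r → S) (P : Subring (FractionRing S))
    (g : Fin r → FractionRing S) (ω : K),
    (∀ i, φ (f₀ i) = 0) ∧
    (∀ s, φ s = 0 → ∃ t, φ t ≠ 0 ∧ t * s ∈ Ideal.span (Set.range f₀)) ∧
    LS V hD Q P g ω ∧
    (ω ^ r * (Matrix.of fun i j => dd φ (D j) (g i)).det)⁻¹ * ϖ ^ m ∈ V

end lev

/-- Generizations of regular points are regular. -/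
def SR (O F : Type) [CommRing O] [Field F] [Algebra O F] : Prop :=
  ∀ (M : Submodule O F), M.FG → ∀ (W η : ZR O F) (Q : Subring F), LR W.1 M Q →
    Q ≤ η.1.toSubring → IsRegularLocalRing Q → IsRegularLocalRing (lo η.1.toSubring Q)

end Pool.Agent.H413.BR
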