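import Pool.Agent.H413.BR.Ax

/-!
# Bounded contact: more definitions
-/

set_option autoImplicit false
set_option linter.unusedVariables false
set_option linter.unusedSectionVars false

namespace Pool.Agent.H413.BR

open scoped Topology
open IsLocalRing Pool.Agent.TH188.QS Pool.Agent.TH188.ARC Pool.Agent.W418.LU2
  Pool.Agent.H918R2.Quad

section eng

variable {O F : Type} [CommRing O] [Field F] [Algebra O F]

/-- The model attached to `M` is regular at the centre of `W`. -/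
def Rq (W : ZR O F) (M : Submodule O F) : Prop := ∃ Q, LR W.1 M Q ∧ IsRegularLocalRing Q

/-- A class of modules stable under the blowings up with centre in `Z₀`. -/
structure Cl (𝓜 : Submodule O F → Prop) (Z₀ : Set (ZR O F)) : Prop where
  fg : ∀ M, 𝓜 M → M.FG
  ne : ∀ M, 𝓜 M → ∃ g ∈ M, g ≠ 0
  step : ∀ M, 𝓜 M → ∀ η ∈ Z₀, ∀ g₀, Gn η.1 M g₀ → ∃ k₁ : ℕ, ∀ k, k₁ ≤ k →
    (∃ f ∈ cut η.1 η.2 (M ^ k) (g₀ ^ k), f ≠ 0) → 𝓜 (M * cut η.1 η.2 (M ^ k) (g₀ ^ k))

/-- Modules between `I ^ a • M₀ ^ D` and `M₀ ^ D`. -/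
def CI (I : Ideal O) (M₀ M : Submodule O F) : Prop :=
  M.FG ∧ (∃ g ∈ M, g ≠ 0) ∧ ∃ D, 1 ≤ D ∧ M ≤ M₀ ^ D ∧ ∃ a : ℕ, I ^ a • (M₀ ^ D) ≤ M

/-- The zero set of `I`. -/
def ZI (O F : Type) [CommRing O] [Field F] [Algebra O F] (I : Ideal O) : Set (ZR O F) :=
  {W | ∀ i ∈ I, W.1.valuation (algebraMap O F i) < 1}

/-- Blowings up of `M₀` which are isomorphisms outside of `Z₀`. -/
def CZ (M₀ : Submodule O F) (Z₀ : Set (ZR O F)) (M : Submodule O F) : Prop :=
  M.FG ∧ (∃ g ∈ M, g ≠ 0) ∧ Dom M₀ M ∧ ∀ W, W ∉ Z₀ → ∀ Q, LR W.1 M₀ Q → LR W.1 M Q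

end eng

section final

/-- The coordinate ring of the chart `y i ≠ 0` of the projective model with the coordinates
`y`. -/
def coordRing (O : Type) {F : Type} [CommRing O] [Field F] [Algebra O F] {n : ℕ}
    (y : Fin (n + 1) → F) (i : Fin (n + 1)) : Subalgebra O F :=
  Algebra.adjoin O (Set.range fun j => y j / y i)

/-- The coordinate ring of a chart of the blowing up. -/
def blowRing (O : Type) {F : Type} [CommRing O] [Field F] [Algebra O F] {n m : ℕ}
    (y : Fin (n + 1) → F) (z : Fin (m + 1) → F) (i : Fin (n + 1)) (b : Fin (m + 1)) :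
    Subalgebra O F :=
  Algebra.adjoin O ((Set.range fun j => y j / y i) ∪ Set.range fun l => z l / z b)

/-- `X'` (coordinates `y i z l`) is an isomorphism over the point `P` of `X` (coordinates `y`). -/
def IsoAt (O : Type) {F : Type} [CommRing O] [Field F] [Algebra O F] {n m : ℕ}
    (y : Fin (n + 1) → F) (z : Fin (m + 1) → F) (i : Fin (n + 1))
    (P : Ideal (coordRing O y i)) : Prop :=
  ∃ b, ∀ l, ∃ a s : coordRing O y i, s ∉ P ∧ z l * (s : F) = z b * (a : F)

/-- The trait `γ` lifts to `X'` and `X'` is regular at the image of the closed point. -/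
def LiftsRegularly (O : Type) {F : Type} [CommRing O] [Field F] [Algebra O F] {n m : ℕ}
    (y : Fin (n + 1) → F) (z : Fin (m + 1) → F) (i : Fin (n + 1)) (R : Type) [CommRing R]
    [IsLocalRing R] (γ : coordRing O y i →+* R) : Prop :=
  ∃ (b : Fin (m + 1)) (γ' : blowRing O y z i b →+* R),
    (∀ (u : F) (hu : u ∈ coordRing O y i) (hu' : u ∈ blowRing O y z i b),
      γ' ⟨u, hu'⟩ = γ ⟨u, hu⟩) ∧
    IsRegularLocalRing (Localization.AtPrime ((maximalIdeal R).comap γ'))

end final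

end Pool.Agent.H413.BR
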