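import Pool.Agent.H413.BR.Defs2

/-!
# Bounded contact: definitions for the sequence of blowings up
-/

set_option autoImplicit false
set_option linter.unusedVariables false
set_option linter.unusedSectionVars false

namespace Pool.Agent.H413.BR

open scoped Topology
open IsLocalRing Pool.Agent.TH188.QS Pool.Agent.TH188.ARC Pool.Agent.W418.LU2
  Pool.Agent.H918R2.Quad

variable {O F : Type} [CommRing O] [Field F] [Algebra O F]

/-- Some form `f ∈ N` of degree `D` on the model attached to `M₀` has value at most `d` times the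
value of `ϖ` at `W`. -/
def Ct (M₀ : Submodule O F) (N : Set F) (D : ℕ) (W : ValuationSubring F) (ϖ : F) (d : ℕ) : Prop :=
  ∃ f ∈ N, f ≠ 0 ∧ ∃ g, Gn W M₀ g ∧ (f / g ^ D)⁻¹ * ϖ ^ d ∈ W

/-- The model `M₀ * K 0 * ... * K (d - 1)`. -/
def Mo (M₀ : Submodule O F) (K : ℕ → Submodule O F) (d : ℕ) : Submodule O F :=
  M₀ * ∏ i ∈ Finset.range d, K i

/-- The fractional ideal sheaf generated by `K` is principal at the point `P` of the chart `g` of
the model attached to `M`: the blowing up of `K` is an isomorphism at `P`. -/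
def PrincipalAt (M K : Submodule O F) (g : F) (P : Ideal (chart O M g)) : Prop :=
  ∃ j ∈ K, j ≠ 0 ∧ ∀ l ∈ K, ∃ a s : chart O M g, s ∉ P ∧ l * (s : F) = j * (a : F)

/-- The trait `γ` of the model attached to `M` lifts to the model attached to `M * J`, which is
regular at the image of the closed point. -/
def LiftsReg (M J : Submodule O F) (g : F) (R : Type) [CommRing R] [IsLocalRing R]
    (γ : chart O M g →+* R) : Prop :=
  ∃ j ∈ J, j ≠ 0 ∧ ∃ γ' : chart O (M * J) (g * j) →+* R,
    (∀ (b : F) (hb : b ∈ chart O M g) (hb' : b ∈ chart O (M * J) (g * j)),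
      γ' ⟨b, hb'⟩ = γ ⟨b, hb⟩) ∧
    IsRegularLocalRing (Localization.AtPrime ((maximalIdeal R).comap γ'))

end Pool.Agent.H413.BR
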