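import Pool.Agent.H413.BR.B32
import Pool.Agent.H413.BR.B31
import Pool.Agent.H413.BR.B40
import Pool.Agent.H413.BR.B42
import Pool.Agent.H413.BR.B43
import Pool.Agent.H413.BR.B44
import Pool.Agent.H413.BR.B45
import Pool.Agent.H413.RV.Deg

/-!
# Bounded ramification
-/

set_option autoImplicit false
set_option linter.unusedVariables false
set_option linter.unusedSectionVars false

namespace Pool.Agent.H413.BR

open scoped Topology
open IsLocalRing Pool.Agent.TH188.QS Pool.Agent.TH188.ARC Pool.Agent.W418.LU2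
  Pool.Agent.H918R2.Quad Pool.Agent.H413.RV

/-- The localization at the centre is regular, so is `lo`. -/
theorem lo_reg_of_loc {F : Type} [Field F] {B : Subring F} {V : ValuationSubring F}
    (hBV : B ≤ V.toSubring)
    (h : ∀ P : Ideal B, [P.IsPrime] → IsRegularLocalRing (Localization.AtPrime P)) :
    IsRegularLocalRing (lo V.toSubring B) := by
  let P : Ideal B :=
    { carrier := {b | V.valuation (b : F) < 1}
      zero_mem' := by
        change V.valuation ((0 : B) : F) < 1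
        rw [ZeroMemClass.coe_zero, map_zero]; exact zero_lt_one
      add_mem' := fun {a b} ha hb => by
        change V.valuation ((a + b : B) : F) < 1
        exact Valuation.map_add_lt _ ha hb
      smul_mem' := fun c a ha => by
        change V.valuation ((c * a : B) : F) < 1
        rw [Subring.coe_mul, map_mul]
        exact mul_lt_one_aux ((V.valuation_le_one_iff _).2 (hBV c.2)) ha }
  have hP : P.IsPrime := by
    refine ⟨?_, ?_⟩
    · rw [Ne, Ideal.eq_top_iff_one]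
      change ¬ V.valuation ((1 : B) : F) < 1
      rw [OneMemClass.coe_one, map_one]
      exact lt_irrefl _
    · intro a b hab
      change V.valuation ((a * b : B) : F) < 1 at hab
      rw [Subring.coe_mul, map_mul] at hab
      by_contra hcon
      rw [not_or] at hcon
      have ha : V.valuation (a : F) = 1 := le_antisymm ((V.valuation_le_one_iff _).2 (hBV a.2))
        (not_lt.1 hcon.1)
      have hb : V.valuation (b : F) = 1 := le_antisymm ((V.valuation_le_one_iff _).2 (hBV b.2))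
        (not_lt.1 hcon.2)
      rw [ha, hb, one_mul] at hab
      exact lt_irrefl _ hab
  have hu : ∀ y : P.primeCompl, ((y : B) : F) ≠ 0 ∧ ((y : B) : F)⁻¹ ∈ V := by
    intro y
    have h1 : ¬ V.valuation ((y : B) : F) < 1 := y.2
    have h0 : ((y : B) : F) ≠ 0 := by
      intro h
      apply h1
      rw [h, map_zero]; exact zero_lt_one
    refine ⟨h0, ?_⟩
    rw [val_lt_iff h0, not_not] at h1
    exact h1
  let ι : B →+* lo V.toSubring B := Subring.inclusion (le_lo V.toSubring B)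
  have hι : ∀ y : P.primeCompl, IsUnit (ι y) := by
    intro y
    refine isUnit_iff_exists_inv.2 ⟨⟨((y : B) : F)⁻¹, 1, B.one_mem, _, (y : B).2, (hu y).1,
      (hu y).2, by rw [one_mul]⟩, ?_⟩
    exact Subtype.ext (mul_inv_cancel₀ (hu y).1)
  let θ : Localization.AtPrime P →+* lo V.toSubring B :=
    IsLocalization.lift (M := P.primeCompl) hι
  have hθ : Function.Bijective θ := by
    refine ⟨?_, ?_⟩
    · rw [injective_iff_map_eq_zero]
      intro z hz
      obtain ⟨a, y, rfl⟩ := IsLocalization.exists_mk'_eq P.primeCompl z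
      have h1 : ι a = ι y * 0 := (IsLocalization.lift_mk'_spec (S := Localization.AtPrime P)
        (hg := hι) a 0 y).1 hz
      rw [mul_zero] at h1
      have h2 : a = 0 := Subtype.ext (congrArg (fun w : lo V.toSubring B => (w : F)) h1)
      rw [h2, IsLocalization.mk'_zero]
    · rintro ⟨_, a, ha, b, hb, hb0, hbi, rfl⟩
      have hbP : (⟨b, hb⟩ : B) ∈ P.primeCompl := by
        intro h
        have h1 : V.valuation b < 1 := h
        exact (val_lt_iff hb0).1 h1 hbi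
      refine ⟨IsLocalization.mk' _ (⟨a, ha⟩ : B) ⟨⟨b, hb⟩, hbP⟩, ?_⟩
      rw [IsLocalization.lift_mk'_spec]
      apply Subtype.ext
      change a = b * (a * b⁻¹)
      field_simp
  have := h P
  exact IsRegularLocalRing.of_ringEquiv (RingEquiv.ofBijective θ hθ)

lemma exists_pow_mul_mem {L : Type} [Field L] (V : ValuationSubring L) [IsDiscreteValuationRing V]
    {p : L} (hp : V.valuation p < 1) (z : L) : ∃ n : ℕ, p ^ n * z ∈ V := by
  have hpV : p ∈ V := (V.valuation_le_one_iff p).1 hp.le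
  by_cases hz : z ∈ V
  · exact ⟨0, by rw [pow_zero, one_mul]; exact hz⟩
  have hz0 : z ≠ 0 := by
    rintro rfl
    exact hz V.zero_mem
  have hzi : z⁻¹ ∈ V := (V.mem_or_inv_mem z).resolve_left hz
  obtain ⟨ϖ, hϖ⟩ := IsDiscreteValuationRing.exists_irreducible V
  have h0 : (⟨z⁻¹, hzi⟩ : V) ≠ 0 := fun h => inv_ne_zero hz0 (congrArg Subtype.val h)
  obtain ⟨n, u, hu⟩ := IsDiscreteValuationRing.eq_unit_mul_pow_irreducible h0 hϖ
  have hpm : (⟨p, hpV⟩ : V) ∈ maximalIdeal V := (V.valuation_lt_one_iff _).2 hp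
  rw [hϖ.maximalIdeal_eq, Ideal.mem_span_singleton] at hpm
  obtain ⟨c, hc⟩ := pow_dvd_pow_of_dvd hpm n
  refine ⟨n, ?_⟩
  have h1 : (⟨p, hpV⟩ : V) ^ n = ⟨z⁻¹, hzi⟩ * ((u⁻¹ : Vˣ) * c) := by
    rw [hu, hc]
    have := u.mul_inv
    linear_combination (-(ϖ ^ n * c)) * this
  have h2 := congrArg (fun w : V => (w : L)) h1
  have h3 : p ^ n = z⁻¹ * (((u⁻¹ : Vˣ) : V) * c : V) := h2
  rw [h3, mul_comm z⁻¹, mul_assoc, inv_mul_cancel₀ hz0, mul_one]
  exact Subtype.coe_prop _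

/-- The valuation ring attached to a trait through the local ring `A`. -/
theorem exists_tr_ram {F L : Type} [Field F] [Field L] (A : Subring F) (π : A →+* L)
    (VL : ValuationSubring L) [IsDiscreteValuationRing VL]
    (hu : ∀ a : A, π a ≠ 0 → (a : F)⁻¹ ∈ A) (p : ℕ) (hpL : (p : L) ≠ 0)
    (hp : VL.valuation (p : L) < 1) :
    ∃ (W η : ValuationSubring F) (ϖ : F), Tr A π VL W ∧ W ≤ η ∧ A ≤ η.toSubring ∧
      (∀ a : A, π a = 0 → η.valuation (a : F) < 1) ∧ ϖ ≠ 0 ∧ ϖ ∈ W ∧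
      (∀ z ∈ A, W.valuation z < 1 → z * ϖ⁻¹ ∈ W) ∧
      ∀ (q d : ℕ), ((q : ℕ) : VL) ∉ maximalIdeal VL ^ (d + 1) → (q : F)⁻¹ * ϖ ^ d ∈ W := by
  let B : Subring F :=
    { carrier := {x | ∃ h : x ∈ A, π ⟨x, h⟩ ∈ VL}
      mul_mem' := by
        rintro x y ⟨hx, hx'⟩ ⟨hy, hy'⟩
        exact ⟨A.mul_mem hx hy, by
          have h : (⟨x * y, A.mul_mem hx hy⟩ : A) = ⟨x, hx⟩ * ⟨y, hy⟩ := rfl
          rw [h, map_mul]
          exact VL.mul_mem _ _ hx' hy'⟩
      one_mem' := ⟨A.one_mem, by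
        have h : (⟨1, A.one_mem⟩ : A) = 1 := rfl
        rw [h, map_one]
        exact VL.one_mem⟩
      add_mem' := by
        rintro x y ⟨hx, hx'⟩ ⟨hy, hy'⟩
        exact ⟨A.add_mem hx hy, by
          have h : (⟨x + y, A.add_mem hx hy⟩ : A) = ⟨x, hx⟩ + ⟨y, hy⟩ := rfl
          rw [h, map_add]
          exact VL.add_mem _ _ hx' hy'⟩
      zero_mem' := ⟨A.zero_mem, by
        have h : (⟨0, A.zero_mem⟩ : A) = 0 := rfl
        rw [h, map_zero]
        exact VL.zero_mem⟩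
      neg_mem' := by
        rintro x ⟨hx, hx'⟩
        exact ⟨A.neg_mem hx, by
          have h : (⟨-x, A.neg_mem hx⟩ : A) = -⟨x, hx⟩ := rfl
          rw [h, map_neg]
          exact VL.neg_mem _ hx'⟩ }
  have hBA : B ≤ A := fun x hx => hx.1
  let γ : B →+* VL := (π.comp (Subring.inclusion hBA)).codRestrict VL.toSubring
    (fun b => b.2.2)
  have hγ : ∀ b : B, ((γ b : VL) : L) = π ⟨b, b.2.1⟩ := fun b => rfl
  obtain ⟨η, W, ϖ, hWη, hBW, hη, hdiv, hlt, hϖ0, hϖW, hmin, hord⟩ := trait_val (F := F) (B := B) γ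
  -- integers
  have hnB : ∀ n : ℕ, (n : F) ∈ B := fun n => natCast_mem B n
  have hγn : ∀ n : ℕ, γ ⟨(n : F), hnB n⟩ = (n : VL) := fun n => map_natCast γ n
  have hpB : ∀ n : ℕ, ((p : F)) ^ n ∈ B := fun n => pow_mem (hnB p) n
  have hγp : ∀ n : ℕ, ((γ ⟨_, hpB n⟩ : VL) : L) = (p : L) ^ n := by
    intro n
    rw [hγ]
    have h1 : (⟨(p : F) ^ n, (hpB n).1⟩ : A) = ((p : ℕ) : A) ^ n := Subtype.ext (by
      rw [Subring.coe_pow, Subring.coe_natCast])
    rw [h1, map_pow, map_natCast]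
  have hγp0 : ∀ n : ℕ, γ ⟨_, hpB n⟩ ≠ 0 := fun n h => pow_ne_zero n hpL (by
    rw [← hγp n, h]; rfl)
  have hpF : ∀ n : ℕ, (p : F) ^ n ≠ 0 := fun n h => hγp0 n (by
    have h1 : (⟨_, hpB n⟩ : B) = 0 := Subtype.ext h
    rw [h1, map_zero])
  have hfr : ∀ a : A, ∃ n : ℕ, (p : F) ^ n * (a : F) ∈ B := by
    intro a
    obtain ⟨n, hn⟩ := exists_pow_mul_mem VL hp (π a)
    refine ⟨n, A.mul_mem (hBA (hpB n)) a.2, ?_⟩
    have h1 : (⟨(p : F) ^ n * (a : F), A.mul_mem (hBA (hpB n)) a.2⟩ : A) = ((p : ℕ) : A) ^ n * a :=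
      Subtype.ext (by rw [Subring.coe_mul, Subring.coe_pow, Subring.coe_natCast])
    rw [h1, map_mul, map_pow, map_natCast]
    exact hn
  have hpη : ∀ n : ℕ, ((p : F) ^ n)⁻¹ ∈ η := by
    intro n
    have h1 : ¬ η.valuation ((p : F) ^ n) < 1 := fun h => hγp0 n ((hη ⟨_, hpB n⟩).1 h)
    by_contra h2
    exact h1 ((val_lt_iff (hpF n)).2 h2)
  have hmem : ∀ a : A, (a : F) ∈ W ↔ π a ∈ VL := by
    intro a
    obtain ⟨n, hn⟩ := hfr a
    have h1 := hdiv ⟨_, hn⟩ ⟨_, hpB n⟩ (hγp0 n)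
    have h2 : (p : F) ^ n * (a : F) * ((p : F) ^ n)⁻¹ = a := by
      rw [mul_comm ((p : F) ^ n), mul_assoc, mul_inv_cancel₀ (hpF n), mul_one]
    have h3 : ((p : F) ^ n * (a : F) * ((p : F) ^ n)⁻¹ ∈ W ↔
      γ ⟨_, hpB n⟩ ∣ γ ⟨_, hn⟩) := h1
    rw [h2] at h3
    rw [h3]
    have h4 : ((γ ⟨_, hn⟩ : VL) : L) = (p : L) ^ n * π a := by
      rw [hγ]
      have h5 : (⟨(p : F) ^ n * (a : F), hn.1⟩ : A) = ((p : ℕ) : A) ^ n * a :=
        Subtype.ext (by rw [Subring.coe_mul, Subring.coe_pow, Subring.coe_natCast])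
      rw [h5, map_mul, map_pow, map_natCast]
    constructor
    · rintro ⟨c, hc⟩
      have h5 := congrArg (fun w : VL => (w : L)) hc
      have h6 : (p : L) ^ n * π a = (p : L) ^ n * (c : L) := by
        rw [← h4, ← hγp n]
        exact h5
      rw [mul_left_cancel₀ (pow_ne_zero n hpL) h6]
      exact c.2
    · intro h
      refine ⟨⟨π a, h⟩, Subtype.ext ?_⟩
      change ((γ ⟨_, hn⟩ : VL) : L) = ((γ ⟨_, hpB n⟩ : VL) : L) * π a
      rw [h4, hγp]
  refine ⟨W, η, ϖ, ⟨hu, hmem, fun a => ?_⟩, hWη, ?_, ?_, hϖ0, hϖW, ?_, ?_⟩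
  · constructor
    · intro h
      have h1 : (a : F) ∈ W := (W.valuation_le_one_iff _).1 h.le
      have h2 : (a : F) ∈ B := ⟨a.2, (hmem a).1 h1⟩
      have h3 := (hlt ⟨_, h2⟩).1 h
      have h4 := (VL.valuation_lt_one_iff _).1 h3
      exact h4
    · intro h
      have h1 : π a ∈ VL := (VL.valuation_le_one_iff _).1 h.le
      have h2 : (a : F) ∈ B := ⟨a.2, h1⟩
      exact (hlt ⟨_, h2⟩).2 ((VL.valuation_lt_one_iff _).2 h)
  · intro a ha
    obtain ⟨n, hn⟩ := hfr ⟨a, ha⟩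
    have h2 : (p : F) ^ n * a * ((p : F) ^ n)⁻¹ = a := by
      rw [mul_comm ((p : F) ^ n), mul_assoc, mul_inv_cancel₀ (hpF n), mul_one]
    change a ∈ η
    rw [← h2]
    exact η.mul_mem _ _ (hWη (hBW hn)) (hpη n)
  · intro a ha
    have h2 : (a : F) ∈ B := ⟨a.2, by
      change π a ∈ VL
      rw [ha]
      exact VL.zero_mem⟩
    exact (hη ⟨_, h2⟩).2 (Subtype.ext ha)
  · intro z hz hzW
    obtain ⟨n, hn⟩ := hfr ⟨z, hz⟩
    refine hmin z ⟨_, hn, _, hpB n, hpF n, hpη n, ?_⟩ hzW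
    change z = (p : F) ^ n * z * ((p : F) ^ n)⁻¹
    rw [mul_comm ((p : F) ^ n), mul_assoc, mul_inv_cancel₀ (hpF n), mul_one]
  · intro q d hq
    exact hord ⟨_, hnB q⟩ d (by rw [hγn]; exact hq)

end Pool.Agent.H413.BR
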