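import Pool.Agent.H413.BR.Ram
import Pool.Agent.H413.BR.B39
import Pool.Agent.H413.BR.B51
import Pool.Agent.H413.BR.B56

/-!
# Bounded ramification: the module
-/

set_option autoImplicit false
set_option linter.unusedVariables false
set_option linter.unusedSectionVars false

namespace Pool.Agent.H413.BR

open scoped Topology
open IsLocalRing Pool.Agent.TH188.QS Pool.Agent.TH188.ARC Pool.Agent.W418.LU2
  Pool.Agent.H918R2.Quad Pool.Agent.H413.RV

/-- The charts are finitely generated rings. -/
theorem chart_closure {O F : Type} [CommRing O] [Field F] [Algebra O F] [Module.Finite ℤ O]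
    {M : Submodule O F} (hM : M.FG) (g : F) :
    ∃ T : Set F, T.Finite ∧ (chart O M g).toSubring = Subring.closure T := by
  classical
  obtain ⟨s, hs⟩ := hM
  obtain ⟨t, ht⟩ := (Module.Finite.fg_top : (⊤ : Submodule ℤ O).FG)
  refine ⟨(algebraMap O F '' (t : Set O)) ∪ ((fun m => m / g) '' (s : Set F)),
    (t.finite_toSet.image _).union (s.finite_toSet.image _), ?_⟩
  have hO : ∀ o : O, algebraMap O F o ∈
      Subring.closure ((algebraMap O F '' (t : Set O)) ∪ ((fun m => m / g) '' (s : Set F))) := by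
    intro o
    have h1 : o ∈ Submodule.span ℤ (t : Set O) := by rw [ht]; exact Submodule.mem_top
    induction h1 using Submodule.span_induction with
    | mem o ho => exact Subring.subset_closure (Or.inl ⟨o, ho, rfl⟩)
    | zero => rw [map_zero]; exact Subring.zero_mem _
    | add a b _ _ ha hb => rw [map_add]; exact Subring.add_mem _ ha hb
    | smul c a _ ha => rw [map_zsmul]; exact Subring.zsmul_mem _ ha c
  apply le_antisymm
  · let C : Subalgebra O F :=
      { Subring.closure ((algebraMap O F '' (t : Set O)) ∪ ((fun m => m / g) '' (s : Set F))) with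
        algebraMap_mem' := hO }
    have h1 : chart O M g ≤ C := by
      refine Algebra.adjoin_le ?_
      rintro _ ⟨m, hm, rfl⟩
      change m / g ∈ C
      rw [← hs] at hm
      induction hm using Submodule.span_induction with
      | mem m hm => exact Subring.subset_closure (Or.inr ⟨m, hm, rfl⟩)
      | zero => rw [zero_div]; exact Subalgebra.zero_mem _
      | add a b _ _ ha hb => rw [add_div]; exact Subalgebra.add_mem _ ha hb
      | smul c a _ ha =>
        rw [smul_div_assoc]
        exact Subalgebra.smul_mem _ ha c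
    exact h1
  · refine Subring.closure_le.2 ?_
    rintro _ (⟨o, ho, rfl⟩ | ⟨m, hm, rfl⟩)
    · exact Subalgebra.algebraMap_mem (chart O M g) o
    · exact Algebra.subset_adjoin ⟨m, hs ▸ Submodule.subset_span hm, rfl⟩

/-- One module which is regular at the centres of all traits of bounded ramification, and which
keeps the regularity at all other valuations. -/
theorem ram_all {O F : Type} [CommRing O] [Field F] [Algebra O F] [IsDedekindDomain O]
    [Module.Finite ℤ O] {K : Type} [Field K]
    [Algebra O K] [IsFractionRing O K] [Algebra K F] [IsScalarTower O K F] [CharZero K]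
    (hint : ∀ o : O, IsIntegral ℤ o) (hHJ : HJ O) {ι : Type} [Fintype ι] [Nonempty ι]
    (y : ι → F) (hy : ∀ i, y i ≠ 0)
    (hreg : ∀ (i : ι) (P : Ideal (Algebra.adjoin K (Set.range fun j => y j / y i)).toSubring)
      [P.IsPrime], IsRegularLocalRing (Localization.AtPrime P)) (d : ℕ) {D : ℕ}
    {M : Submodule O F} (hM : Cm (Submodule.span O (Set.range y)) D M) :
    ∃ (D' : ℕ) (M' : Submodule O F), Cm (Submodule.span O (Set.range y)) D' M' ∧
      (∀ (W η : ZR O F) (ϖ : F), W.1 ≤ η.1 → (∀ n : ℕ, n ≠ 0 → ((n : F))⁻¹ ∈ η.1) → ϖ ≠ 0 →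
        ϖ ∈ W.1 → (∀ Q₀, LR η.1 M Q₀ → ∀ z ∈ Q₀, W.1.valuation z < 1 → z * ϖ⁻¹ ∈ W.1) →
        (∀ p : ℕ, p.Prime → (p : F)⁻¹ * ϖ ^ d ∈ W.1) → Rg W.1 M') ∧
      ∀ W : ValuationSubring F, (∀ o, algebraMap O F o ∈ W) → Rg W M → Rg W M' := by
  classical
  -- generators of `M`
  obtain ⟨G, hG⟩ := hM.fg
  obtain ⟨g₀, hg₀, hg₀0⟩ := hM.ne
  let ι' : Type := {z : F // z ∈ G ∧ z ≠ 0}
  have hfin : Finite ι' := (G.finite_toSet.subset fun z hz => hz.1 :
    {z : F | z ∈ G ∧ z ≠ 0}.Finite).to_subtype
  have hft : Fintype ι' := Fintype.ofFinite ι'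
  let y' : ι' → F := fun z => z.1
  have hy' : ∀ i, y' i ≠ 0 := fun i => i.2.2
  have hspan : Submodule.span O (Set.range y') = M := by
    rw [← hG]
    apply le_antisymm
    · rw [Submodule.span_le]
      rintro _ ⟨i, rfl⟩
      exact Submodule.subset_span i.2.1
    · rw [Submodule.span_le]
      intro z hz
      by_cases h0 : z = 0
      · rw [h0]
        exact Submodule.zero_mem _
      · exact Submodule.subset_span ⟨⟨z, hz, h0⟩, rfl⟩
  have hyM : ∀ i, y' i ∈ M := fun i => by
    rw [← hspan]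
    exact Submodule.subset_span ⟨i, rfl⟩
  have hreg' : ∀ (i : ι') (P : Ideal (Algebra.adjoin K (Set.range fun j => y' j / y' i)).toSubring)
      [P.IsPrime], IsRegularLocalRing (Localization.AtPrime P) := fun i P hP =>
    reg_veronese y hy hreg hM.pos y' hy' (span_eq_of_cm (K := K) y hM y' hspan) i P
  have hF0 : CharZero F := charZero_of_injective_algebraMap (algebraMap K F).injective
  have hO0 : CharZero O := by
    refine ⟨fun a b h => ?_⟩
    have h1 := congrArg (algebraMap O K) h
    rw [map_natCast, map_natCast] at h1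
    exact_mod_cast h1
  -- some `y' i` generates `M`
  have hgn : ∀ W : ZR O F, ∃ i, Gn W.1 M (y' i) := by
    intro W
    obtain ⟨j, hjG, hjM, hj0, hjW⟩ := h921_gen_max W.2 hG hg₀ hg₀0
    exact ⟨⟨j, hjG, hj0⟩, hjM, hj0, hjW⟩
  -- the uniform integers
  have hlev : ∀ i : ι', ∃ N : ℕ, N ≠ 0 ∧ ∀ W : ValuationSubring F,
      (chart O M (y' i)).toSubring ≤ W.toSubring → ∀ (ϖ : F) (m : ℕ), ((N : F))⁻¹ * ϖ ^ m ∈ W →
        Lev W ϖ m (lo W.toSubring (chart O M (y' i)).toSubring) := by
    intro i
    obtain ⟨T, hT, hBT⟩ := chart_closure hM.fg (y' i)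
    have h1 : ∀ η : ValuationSubring F, (chart O M (y' i)).toSubring ≤ η.toSubring →
        (∀ n : ℕ, n ≠ 0 → ((n : F))⁻¹ ∈ η) →
        IsRegularLocalRing (lo η.toSubring (chart O M (y' i)).toSubring) := by
      intro η hη hn
      have hOη : ∀ o, algebraMap O F o ∈ η := fun o =>
        hη (Subalgebra.algebraMap_mem (chart O M (y' i)) o)
      have hOi : ∀ o : O, o ≠ 0 → (algebraMap O F o)⁻¹ ∈ η := by
        intro o ho
        have hcomap := Ideal.comap_ne_bot_of_integral_mem (I := Ideal.span {o}) ho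
          (Ideal.mem_span_singleton_self _) (hint _)
        obtain ⟨n, hn', hn0⟩ := Submodule.exists_mem_ne_zero_of_ne_bot hcomap
        rw [Ideal.mem_comap, Ideal.mem_span_singleton] at hn'
        obtain ⟨c, hc⟩ := hn'
        have h2 : ((n : ℤ) : F) = algebraMap O F o * algebraMap O F c := by
          rw [← map_mul, ← hc, eq_intCast, map_intCast]
        have hnF : ((n : ℤ) : F) ≠ 0 := by exact_mod_cast hn0
        have h3 : ((n : ℤ) : F)⁻¹ ∈ η := by
          rcases Int.natAbs_eq n with h | h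
          · rw [h, Int.cast_natCast]
            exact hn _ (Int.natAbs_ne_zero.2 hn0)
          · rw [h, Int.cast_neg, Int.cast_natCast, inv_neg]
            exact η.neg_mem _ (hn _ (Int.natAbs_ne_zero.2 hn0))
        have ho0 : algebraMap O F o ≠ 0 := fun h => hnF (by rw [h2, h, zero_mul])
        have hc0 : algebraMap O F c ≠ 0 := fun h => hnF (by rw [h2, h, mul_zero])
        have h4 : (algebraMap O F o)⁻¹ = ((n : ℤ) : F)⁻¹ * algebraMap O F c := by
          rw [h2]
          field_simp
        rw [h4]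
        exact η.mul_mem _ _ h3 (hOη c)
      have hle1 : (chart O M (y' i)).toSubring ≤
          (Algebra.adjoin K (Set.range fun j => y' j / y' i)).toSubring := by
        let C : Subalgebra O F :=
          (Algebra.adjoin K (Set.range fun j => y' j / y' i)).restrictScalars O
        have h2 : chart O M (y' i) ≤ C := by
          refine Algebra.adjoin_le ?_
          rintro _ ⟨m, hm, rfl⟩
          change m / y' i ∈ C
          rw [← hspan] at hm
          induction hm using Submodule.span_induction with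
          | mem m hm =>
            obtain ⟨j, rfl⟩ := hm
            exact Algebra.subset_adjoin ⟨j, rfl⟩
          | zero => rw [zero_div]; exact Subalgebra.zero_mem _
          | add a b _ _ ha hb => rw [add_div]; exact Subalgebra.add_mem _ ha hb
          | smul c a _ ha =>
            rw [smul_div_assoc]
            exact Subalgebra.smul_mem _ ha c
        exact h2
      have hle2 : (Algebra.adjoin K (Set.range fun j => y' j / y' i)).toSubring ≤
          lo η.toSubring (chart O M (y' i)).toSubring := by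
        let C : Subalgebra K F :=
          { lo η.toSubring (chart O M (y' i)).toSubring with
            algebraMap_mem' := fun k => by
              obtain ⟨a, b, hb, rfl⟩ := IsFractionRing.div_surjective (A := O) k
              have hb0 : b ≠ 0 := nonZeroDivisors.ne_zero hb
              refine ⟨algebraMap O F a, Subalgebra.algebraMap_mem (chart O M (y' i)) a,
                algebraMap O F b, Subalgebra.algebraMap_mem (chart O M (y' i)) b, ?_,
                hOi b hb0, ?_⟩
              · rw [IsScalarTower.algebraMap_apply O K F]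
                exact (map_ne_zero _).2 fun h => hb0 (IsFractionRing.injective O K (by
                  rw [h, map_zero]))
              · rw [map_div₀, ← IsScalarTower.algebraMap_apply, ← IsScalarTower.algebraMap_apply,
                  div_eq_mul_inv] }
        have h2 : Algebra.adjoin K (Set.range fun j => y' j / y' i) ≤ C := by
          refine Algebra.adjoin_le ?_
          rintro _ ⟨j, rfl⟩
          exact le_lo _ _ (Algebra.subset_adjoin ⟨y' j, hyM j, rfl⟩)
        exact h2
      have hlo : lo η.toSubring (chart O M (y' i)).toSubring =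
          lo η.toSubring (Algebra.adjoin K (Set.range fun j => y' j / y' i)).toSubring :=
        le_antisymm (lo_mono hle1) (lo_le_lo hη hle2)
      rw [hlo]
      exact lo_reg_of_loc (hle2.trans (lo_le hη)) fun P hP => hreg' i P
    rw [hBT] at h1 ⊢
    exact lev_int hT h1
  choose N hN0 hN using hlev
  set Nn : ℕ := ∏ i, N i with hNn
  have hNn0 : Nn ≠ 0 := Finset.prod_ne_zero_iff.2 fun i _ => hN0 i
  have hNF : (Nn : F) ≠ 0 := Nat.cast_ne_zero.2 hNn0
  have hdiv : ∀ (i : ι') (W : ValuationSubring F) (x : F), (Nn : F)⁻¹ * x ∈ W →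
      (N i : F)⁻¹ * x ∈ W := by
    intro i W x hx
    obtain ⟨c, hc⟩ : N i ∣ Nn := Finset.dvd_prod_of_mem N (Finset.mem_univ i)
    have h1 : (N i : F)⁻¹ * x = ((Nn : F)⁻¹ * x) * (c : F) := by
      have h2 : (N i : F) ≠ 0 := Nat.cast_ne_zero.2 (hN0 i)
      have h3 : (c : F) ≠ 0 := by
        intro h
        apply hNF
        rw [hc, Nat.cast_mul, h, mul_zero]
      rw [hc, Nat.cast_mul, mul_inv]
      field_simp
    rw [h1]
    exact W.mul_mem _ _ hx (natCast_mem W c)
  -- the zero set
  set I : Ideal O := Ideal.span {(Nn : O)} with hI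
  have hmem : ∀ W : ZR O F, W ∉ ZI O F I → (Nn : F)⁻¹ ∈ W.1 := by
    intro W hW
    by_contra hcon
    apply hW
    intro x hx
    obtain ⟨c, rfl⟩ := Ideal.mem_span_singleton.1 hx
    have h1 : W.1.valuation (Nn : F) < 1 := (Pool.Agent.TH188.ARC.val_lt_iff hNF).2 hcon
    rw [map_mul, map_mul, map_natCast]
    exact mul_lt_one_aux' h1 ((W.1.valuation_le_one_iff _).2 (W.2 c))
  have hnot : ∀ η : ZR O F, ¬ η.1.valuation (Nn : F) < 1 → η ∉ ZI O F I := by
    intro η hη h
    apply hη
    have h1 := h (Nn : O) (Ideal.subset_span rfl)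
    rwa [map_natCast] at h1
  have hnot' : ∀ η : ZR O F, (Nn : F)⁻¹ ∈ η.1 → η ∉ ZI O F I := fun η h =>
    hnot η fun h1 => (Pool.Agent.TH188.ARC.val_lt_iff hNF).1 h1 h
  have hL : ∀ (W : ZR O F) (ϖ : F) (m : ℕ), (Nn : F)⁻¹ * ϖ ^ m ∈ W.1 → ∀ Q, LR W.1 M Q →
      Lev W.1 ϖ m Q := by
    intro W ϖ m h Q hQ
    obtain ⟨i, hi⟩ := hgn W
    rw [LR.unique W.2 hQ (Gn.LR hi)]
    exact hN i W.1 hi.le ϖ m (hdiv i W.1 _ h)
  have hRq : ∀ W, W ∉ ZI O F I → Rq W M := by
    intro W hW
    obtain ⟨i, hi⟩ := hgn W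
    refine ⟨_, Gn.LR hi, lev_zero hHJ hM.fg hM.ne (Gn.LR hi) (ϖ := 1)
      (hL W 1 0 ?_ _ (Gn.LR hi))⟩
    rw [pow_zero, mul_one]
    exact hmem W hW
  have hCI : CI I M M := by
    refine ⟨hM.fg, hM.ne, 1, le_rfl, by rw [pow_one], 0, ?_⟩
    rw [pow_one, pow_zero, Ideal.one_eq_top, Submodule.top_smul]
  obtain ⟨M', hM', -, hpres, hall⟩ := main_gen hHJ (sr_hj hHJ) (cl_CI I M) hCI
    (fun M hM η hη Q hQ => CI_iso hM hη hQ) (ZI_closed I M) hRq (d * Nn)
  obtain ⟨hfg, hne', D', hD', hle, a, ha⟩ := hM'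
  refine ⟨D * D', M', cm_trans hM ⟨hD', hfg, hle, fun z hz => ?_, hne'⟩, ?_, ?_⟩
  · refine ⟨(Nn : O) ^ a, pow_ne_zero _ (Nat.cast_ne_zero.2 hNn0), ?_⟩
    exact ha (Submodule.smul_mem_smul (Ideal.pow_mem_pow (Ideal.mem_span_singleton_self _) a) hz)
  · intro W η ϖ hWη hη hϖ0 hϖW hd hp
    obtain ⟨Q, ⟨g, hg, hg0, hgW, rfl⟩, hr⟩ := hall W η ϖ hWη (hnot' η (hη Nn hNn0)) hϖ0 hϖW hd
      (hL W ϖ (d * Nn) (BR56.pow_aux hϖW d hp Nn hNn0))
    exact ⟨g, hg, hg0, hgW, hr⟩
  · rintro W hOW ⟨g, hg, hg0, hgW, hr⟩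
    obtain ⟨g', hg', hg'0, hg'W, hlo⟩ := hpres ⟨W, hOW⟩ _ ⟨g, hg, hg0, hgW, rfl⟩ hr
    exact ⟨g', hg', hg'0, hg'W, by rw [hlo]; exact hr⟩

end Pool.Agent.H413.BR
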