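import Pool.Agent.H413.RV.Sch3
import Pool.Agent.H413.RV.Deg
import Pool.Agent.H413.BR.Ram2

/-!
# Models which are regular at all points of bounded ramification, along the closures of the points
of bounded degree and at the centres of finitely many independent valuations
-/

set_option autoImplicit false

open AlgebraicGeometry CategoryTheory Limits Pointwise HomogeneousLocalization

namespace Pool.Agent.H413.SC5

open Pool.Agent.W418.LU2 Pool.Agent.TH188.QS Pool.Agent.TH188.ARC Pool.Agent.H176.DT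
  Pool.Agent.H918R2.Quad Pool.Agent.H968R2.Quad Pool.Agent.W559.GF Pool.Agent.W930.GF
  Pool.Agent.W191.GF
open Pool.Agent.Q299.TD (AllGP)
open Pool.Agent.Q299.RM (Im tr_mem point_data' hasStage_of_pt)
open Pool.Agent.H413.RV
open Pool.Agent.H413.BR (ram_all exists_tr_ram)

/-- Models of a regular integral projective scheme over a number field which are regular at the
specializations of all points with values in discretely valued fields of absolute ramification index
at most `d₀`, along the closures of the points of degree at most `d₀` and at the centres of finitely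
many independent valuations of the residue fields of points. -/
theorem main5 {O K : Type} [CommRing O] [IsDedekindDomain O] [Field K] [NumberField K]
    [Algebra O K] [IsFractionRing O K] [Module.Finite ℤ O] (hint : ∀ o : O, IsIntegral ℤ o)
    {X : Scheme.{0}} [IsIntegral X] (f : X ⟶ Spec (CommRingCat.of K))
    {A : Type} [CommRing A] [Algebra K A] (𝒜 : ℕ → Submodule K A) [GradedAlgebra 𝒜]
    (h0 : ∀ a ∈ 𝒜 0, ∃ q : K, algebraMap K A q = a) (s : Finset A) (hs : ∀ a ∈ s, a ∈ 𝒜 1)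
    (hgen : Algebra.adjoin K (s : Set A) = ⊤) (i : X ≅ Proj 𝒜)
    (hif : i.hom ≫ Proj.toSpecZero 𝒜 ≫ Spec.map (CommRingCat.ofHom (algebraMap K (𝒜 0))) = f)
    {ι : Type} [Finite ι] (x : ι → X) (hx : Function.Injective x)
    (hreg : ∀ z : X, IsRegularLocalRing (X.presheaf.stalk z)) (d₀ : ℕ) (J : ι → Type)
    [∀ t, Finite (J t)]
    (W : ∀ t, J t → ValuationSubring (X.residueField (x t))) (σ : ∀ t, K →+* X.residueField (x t))
    (hσ : ∀ t, X.fromSpecResidueField (x t) ≫ f = Spec.map (CommRingCat.ofHom (σ t)))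
    (p : ∀ t, J t → O) (hp0 : ∀ t j, p t j ≠ 0)
    (hOW : ∀ t j o, σ t (algebraMap O K o) ∈ W t j)
    (hpW : ∀ t j z, ∃ n : ℕ, σ t (algebraMap O K (p t j)) ^ n * z ∈ W t j)
    (hpi : ∀ t j, (σ t (algebraMap O K (p t j)))⁻¹ ∉ W t j)
    (hind : ∀ t j j', j ≠ j' → ∀ U : ValuationSubring (X.residueField (x t)),
      W t j ≤ U → W t j' ≤ U → U = ⊤)
    (hW : ∀ t j, AllGP ((σ t).comp (algebraMap O K)) (W t j)) :
    ∃ (F : Type) (_ : Field F) (_ : Algebra K F) (_ : Algebra O F) (_ : IsScalarTower O K F)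
      (M : Submodule O F) (g : F) (_ : g ∈ M) (_ : g ≠ 0)
      (e : pullback (modelMap M) (Spec.map (CommRingCat.ofHom (algebraMap O K))) ≅ X), M.FG ∧
      e.hom ≫ f = pullback.snd _ _ ∧
      (∀ t j, ∃ ζ : Spec (CommRingCat.of (W t j)) ⟶ model M,
        Spec.map (CommRingCat.ofHom (W t j).subtype) ≫ ζ =
          X.fromSpecResidueField (x t) ≫ e.inv ≫ pullback.fst _ _ ∧
        IsRegularLocalRing ((model M).presheaf.stalk
          (ζ (IsLocalRing.closedPoint (W t j) : PrimeSpectrum (W t j))))) ∧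
      (∀ (L : Type) [Field L] (VL : ValuationSubring L) [IsDiscreteValuationRing VL] (p : ℕ),
        p ≠ 0 → VL.valuation (p : L) < 1 → (∀ q : ℕ, q.Prime →
          ((q : ℕ) : VL) ∉ IsLocalRing.maximalIdeal VL ^ (d₀ + 1)) →
        ∀ ψ : Spec (CommRingCat.of L) ⟶ X, ∃ ζ : Spec (CommRingCat.of VL) ⟶ model M,
          Spec.map (CommRingCat.ofHom VL.subtype) ≫ ζ = ψ ≫ e.inv ≫ pullback.fst _ _ ∧
          IsRegularLocalRing ((model M).presheaf.stalk
            (ζ (IsLocalRing.closedPoint VL : PrimeSpectrum VL)))) ∧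
      ∀ (L : Type) [Field L] [NumberField L], Module.finrank ℚ L ≤ d₀ →
        ∀ (ψ : Spec (CommRingCat.of L) ⟶ X) (z : model M),
        (ψ ≫ e.inv ≫ pullback.fst _ _) (thePt L) ⤳ z →
        IsRegularLocalRing ((model M).presheaf.stalk z) := by
  classical
  have hPne : Nonempty (Proj 𝒜) := ⟨i.hom (genericPoint X)⟩
  have hP : IsIntegral (Proj 𝒜) := isIntegral_of_isOpenImmersion i.inv
  obtain ⟨F, hF, η, hη⟩ := exists_generic (Proj 𝒜)
  let fP : Proj 𝒜 ⟶ Spec (CommRingCat.of K) :=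
    Proj.toSpecZero 𝒜 ≫ Spec.map (CommRingCat.ofHom (algebraMap K (𝒜 0)))
  obtain ⟨φ, hφ⟩ := Spec.map_surjective (η ≫ fP)
  let _ : Algebra K F := φ.hom.toAlgebra
  have hηK : η ≫ fP = Spec.map (CommRingCat.ofHom (algebraMap K F)) := hφ.symm
  let _ : Algebra O F := ((algebraMap K F).comp (algebraMap O K)).toAlgebra
  have hst : IsScalarTower O K F := IsScalarTower.of_algebraMap_eq' rfl
  have hOF : Function.Injective (algebraMap O F) := by
    rw [IsScalarTower.algebraMap_eq O K F]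
    exact (algebraMap K F).injective.comp (IsFractionRing.injective O K)
  obtain ⟨ι₀, hι, hne, y, hy, hat⟩ := proj_atlas 𝒜 η h0 s hs hgen hη hηK
  have hsep : IsSeparated fP := inferInstance
  choose D π y₀ V₀ sX hPt hTr₀ hπ hπσ hsη hψ using fun t =>
    point_data' (O := O) y hy i hηK hat (x t) (hreg (x t)) (σ t) (by
      rw [← hσ t, ← hif]) ⊤
  choose V hTr using fun (t : ι) (j : J t) => exists_tr (D t) (π t) (W t j) (hPt t).unit
  have hσI : ∀ t o, Im (π t) (algebraMap O F o) (σ t (algebraMap O K o)) := fun t o =>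
    ⟨(hPt t).OA o, hπσ t o⟩
  have hOV : ∀ t j o, algebraMap O F o ∈ V t j := fun t j o =>
    (tr_mem (hTr t j) (hσI t o)).2 (hOW t j o)
  have hσp : ∀ t t' (j : J t), σ t' (algebraMap O K (p t j)) ≠ 0 := fun t t' j =>
    (map_ne_zero _).2 fun h => hp0 t j (IsFractionRing.injective O K (by rw [h, map_zero]))
  have hM₀ : (Submodule.span O (Set.range y)).FG := Submodule.fg_span (Set.finite_range y)
  obtain ⟨i₀⟩ := hne
  have hne : Nonempty ι₀ := ⟨i₀⟩
  have hne₀ : ∃ g ∈ Submodule.span O (Set.range y), g ≠ 0 :=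
    ⟨y i₀, Submodule.subset_span ⟨i₀, rfl⟩, hy i₀⟩
  obtain ⟨d, M₁, hM₁, hR₁⟩ := family hOF hM₀ hne₀ (ι := Σ t, J t) (fun q => V q.1 q.2)
    (fun q => p q.1 q.2) (fun q => hp0 q.1 q.2) (fun q => hOV q.1 q.2)
    (fun _ P => IsRegularLocalRing P)
    (by
      rintro d M hM ⟨t, j⟩ ⟨t', j'⟩ hne
      by_cases htt : t = t'
      · subst htt
        have hjj : j ≠ j' := by
          rintro rfl
          exact hne rfl
        obtain ⟨z, hz0, hz, hz'⟩ := exists_sep (hind t j j' hjj) (hOW t j _) (hσp t t j) (hpi t j)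
          (hOW t j' _) (hσp t t j') (hpi t j')
        obtain ⟨N, hN, h1, -⟩ := sep_same hM (hPt t) (hTr t j) (hTr t j') (hπ t) (hOV t j)
          (hOV t j') (p t j) (p t j') (hp0 t j) (hp0 t j') (σ := (σ t).comp (algebraMap O K))
          (hπσ t) (hpW t j) (hpW t j') hz0 hz hz'
        exact ⟨N, hN, h1⟩
      · obtain ⟨g, hg⟩ := Gen.exists (hOV t j) hM.fg hM.ne
        obtain ⟨g', hg'⟩ := Gen.exists (hOV t' j') hM.fg hM.ne
        by_cases hA : ∃ (e : ℕ) (s : F), s ∈ M ^ e ∧ Im (π t) (s / g ^ e) 0 ∧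
            ∃ w, w ≠ 0 ∧ Im (π t') (s / g' ^ e) w
        · obtain ⟨e, s, hs, hs0, w, hw, hsw⟩ := hA
          obtain ⟨N, hN, h1, -⟩ := sep_form hM (hPt t) (hPt t') (hTr t j) (hTr t' j') (hOV t j)
            (hOV t' j') (p t j) (p t' j') (hp0 t j) (hp0 t' j')
            (σ := (σ t).comp (algebraMap O K)) (hπσ t) (σ' := (σ t').comp (algebraMap O K))
            (hπσ t') (hpW t' j') hg hg' hs hs0 hsw hw
          exact ⟨N, hN, h1⟩
        by_cases hB : ∃ (e : ℕ) (s : F), s ∈ M ^ e ∧ Im (π t') (s / g' ^ e) 0 ∧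
            ∃ w, w ≠ 0 ∧ Im (π t) (s / g ^ e) w
        · obtain ⟨e, s, hs, hs0, w, hw, hsw⟩ := hB
          obtain ⟨N, hN, -, h1⟩ := sep_form hM (hPt t') (hPt t) (hTr t' j') (hTr t j) (hOV t' j')
            (hOV t j) (p t' j') (p t j) (hp0 t' j') (hp0 t j)
            (σ := (σ t').comp (algebraMap O K)) (hπσ t') (σ' := (σ t).comp (algebraMap O K))
            (hπσ t) (hpW t j) hg' hg hs hs0 hsw hw
          exact ⟨N, hN, h1⟩
        exfalso
        obtain ⟨hMD, -⟩ := frac_chart (hTr t j) (hPt t).OA (hPt t).OL (hPt t).mem (hPt t).ne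
          (hPt t).MA (hPt t).fr hM.pos hM.le hM.comm hg.1 hg.2.1 hg.2.2
        obtain ⟨hMD', -⟩ := frac_chart (hTr t' j') (hPt t').OA (hPt t').OL (hPt t').mem
          (hPt t').ne (hPt t').MA (hPt t').fr hM.pos hM.le hM.comm hg'.1 hg'.2.1 hg'.2.2
        have hCD := chart_le_A (hPt t).OA hMD
        have hCD' := chart_le_A (hPt t').OA hMD'
        have h1 : D t ≤ D t' := local_le hM (hPt t) (hPt t') (hTr t j) (hTr t' j') hg hg'
          fun e s hs h2 => by
            have h3 : Im (π t) (s / g ^ e) (π t ⟨_, hCD (pow_div_mem hg.2.1 e s hs)⟩) :=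
              ⟨_, rfl⟩
            by_contra h4
            exact hB ⟨e, s, hs, h2, _, fun h5 => h4 (by rw [h5] at h3; exact h3), h3⟩
        have h2 : D t' ≤ D t := local_le hM (hPt t') (hPt t) (hTr t' j') (hTr t j) hg' hg
          fun e s hs h2 => by
            have h3 : Im (π t') (s / g' ^ e) (π t' ⟨_, hCD' (pow_div_mem hg'.2.1 e s hs)⟩) :=
              ⟨_, rfl⟩
            by_contra h4
            exact hA ⟨e, s, hs, h2, _, fun h5 => h4 (by rw [h5] at h3; exact h3), h3⟩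
        exact htt (hx (point_unique i fP η (le_antisymm h1 h2) (π t) (π t')
          (hPt t).unit (hPt t').unit (sX t) (sX t') (hsη t) (hsη t') (hψ t) (hψ t'))))
    (by
      rintro ⟨t, j⟩ d M hM g hg
      exact hasStage_of_pt hM (hPt t) (hTr t j) (hπ t) (hOV t j) (p t j) (hp0 t j)
        (σ := (σ t).comp (algebraMap O K)) (hπσ t) (hpW t j) (hW t j) hg.1 hg.2.1 hg.2.2)
  have hregP : ∀ z : (Proj 𝒜 : Scheme.{0}), IsRegularLocalRing ((Proj 𝒜).presheaf.stalk z) := by
    intro z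
    have h1 := hreg (i.inv z)
    have e := (asIso (i.inv.stalkMap z)).commRingCatIsoToRingEquiv
    exact IsRegularLocalRing.of_ringEquiv e
  have hreg' : ∀ (i : ι₀) (P : Ideal (Algebra.adjoin K (Set.range fun j => y j / y i)).toSubring)
      [P.IsPrime], IsRegularLocalRing (Localization.AtPrime P) := by
    intro i P hP
    obtain ⟨J, hJ, hJη, hcov⟩ := hat.charts
    have := hJ i
    exact regular_of_stalk hregP (J i) P
  have hO0 : CharZero O := by
    refine ⟨fun a b h => ?_⟩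
    have h1 := congrArg (algebraMap O K) h
    rw [map_natCast, map_natCast] at h1
    exact_mod_cast h1
  obtain ⟨dr, Mr, hMr, hram, hpresr⟩ := ram_all (K := K) hint hj_dedekind y hy hreg' d₀ hM₁
  obtain ⟨d', M, hM, hall, hpres⟩ := degree_all (K := K) hint y hy hreg' d₀ hMr
  have hR : ∀ t j, Rg (V t j) M := fun t j => hpres _ (hOV t j) (hpresr _ (hOV t j) (by
    obtain ⟨g₁, ⟨hg₁, hg₁0, hMV⟩, hregC⟩ := hR₁ ⟨t, j⟩
    exact ⟨g₁, hg₁, hg₁0, hMV, hregC⟩))
  obtain ⟨g, hg, hg0⟩ := hM.ne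
  obtain ⟨e, he, heη⟩ := mainAt y hy hM.pos hM.fg hM.le hM.comm hsep hηK hat g hg hg0
  have hpM : IsProper (modelMap M) := modelMap_isProper M hOF hM.fg
  refine ⟨F, hF, inferInstance, inferInstance, hst, M, g, hg, hg0, e ≪≫ i.symm, hM.fg, ?_, ?_,
    ?_, ?_⟩
  · rw [← hif]
    change (e.hom ≫ i.inv) ≫ i.hom ≫ fP = _
    rw [← he]
    simp
  · intro t j
    have h := hPt t
    obtain ⟨g₁, hg₁, hg₁0, hMV, hregC⟩ := hR t j
    obtain ⟨hMA, hfr⟩ := frac_chart (hTr t j) h.OA h.OL h.mem h.ne h.MA h.fr hM.pos hM.le hM.comm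
      hg₁ hg₁0 hMV
    have hBA := chart_le_A h.OA hMA
    obtain ⟨jY, hjY, hjYU, hjYη⟩ := Pool.Agent.W398.GF.isChart M g₁ hg₁ hg₁0
    have hss : sX t ≫ e.inv ≫ pullback.fst _ _ =
        Spec.map (CommRingCat.ofHom (Subring.inclusion hBA)) ≫ jY := by
      have hd : IsDominant (io (D t)) := ⟨io_dense (D t)⟩
      have h1 : io (D t) ≫ sX t ≫ e.inv ≫ pullback.fst _ _ =
          io (D t) ≫ Spec.map (CommRingCat.ofHom (Subring.inclusion hBA)) ≫ jY := by
        have h2 : io (D t) ≫ Spec.map (CommRingCat.ofHom (Subring.inclusion hBA)) ≫ jY =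
            Pool.Agent.W398.GF.eta M g₁ hg₁ hg₁0 := by
          rw [← Category.assoc, ← hjYη]
          congr 1
          change Spec.map _ ≫ Spec.map _ = Spec.map _
          rw [← Spec.map_comp]
          rfl
        rw [h2, ← Category.assoc, hsη t, heη]
        exact Pool.Agent.W398.GF.eta_eq M hg hg₁ hg0 hg₁0
      refine ext_of_isDominant_of_isSeparated (modelMap M) ?_ (io (D t)) h1
      apply io_mono
      have h2 := congrArg (fun m => m ≫ modelMap M) h1
      simp only [Category.assoc] at h2 ⊢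
      exact h2
    obtain ⟨ζ, hζ, hr⟩ := extend_chart (hTr t j) (chart_le_V (hOV t j) hMV)
      hBA hregC jY
    refine ⟨ζ, ?_, hr⟩
    rw [hζ]
    have h3 : X.fromSpecResidueField (x t) ≫ (e ≪≫ i.symm).inv ≫ pullback.fst (modelMap M)
        (Spec.map (CommRingCat.ofHom (algebraMap O K))) =
        (X.fromSpecResidueField (x t) ≫ i.hom) ≫ e.inv ≫ pullback.fst _ _ := by simp
    rw [h3, hψ t, Category.assoc]
    change _ = Spec.map _ ≫ sX t ≫ e.inv ≫ pullback.fst _ _
    rw [hss, ← Category.assoc, ← Spec.map_comp]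
    rfl
  · intro L _ VL _ p hp0' hp hd ψ₀
    let ψ : Spec (CommRingCat.of L) ⟶ Proj 𝒜 := ψ₀ ≫ i.hom
    obtain ⟨i₁, j, hj, α, hjη, hαψ⟩ := factor_chart hat ψ
    have hkp : (RingHom.ker α).IsPrime := RingHom.ker_isPrime _
    obtain ⟨A', π', hA', hπα', hPt'⟩ := pt_of (O := O) (K := K) y hy i₁ α
      (hreg' i₁ (RingHom.ker α))
    -- integers
    have hnL : ∀ n : ℕ, n ≠ 0 → (n : L) ≠ 0 := by
      intro n hn h
      have h1 := hPt'.OL (n : O) (Nat.cast_ne_zero.2 hn)
      apply h1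
      have h2 : (⟨algebraMap O F (n : O), hPt'.OA _⟩ : A') = ((n : ℕ) : A') := Subtype.ext (by
        change algebraMap O F (n : O) = (((n : ℕ) : A') : F)
        rw [map_natCast, Subring.coe_natCast])
      rw [h2, map_natCast]
      exact h
    have hnA : ∀ n : ℕ, n ≠ 0 → (n : F)⁻¹ ∈ A' := by
      intro n hn
      have h1 := hPt'.unit ((n : ℕ) : A') (by rw [map_natCast]; exact hnL n hn)
      rw [Subring.coe_natCast] at h1
      exact h1
    have hpL : (p : L) ≠ 0 := hnL p hp0'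
    obtain ⟨W', η', ϖ, hTr', hWη, hAη, hη0, hϖ0, hϖW, hmin, hord⟩ :=
      exists_tr_ram A' π' VL hPt'.unit p hpL hp
    have hOW' : ∀ o, algebraMap O F o ∈ W' := by
      intro o
      refine (hTr'.mem ⟨_, hPt'.OA o⟩).2 ?_
      have h1 : IsIntegral ℤ (π' ⟨_, hPt'.OA o⟩) := by
        have h2 := (hint o).map (((π').comp ((algebraMap O F).codRestrict A' hPt'.OA)).toIntAlgHom)
        exact h2
      have h2 : IsIntegral VL (π' ⟨_, hPt'.OA o⟩) := h1.tower_top
      obtain ⟨v, hv⟩ := IsIntegrallyClosed.isIntegral_iff.1 h2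
      rw [← hv]
      exact v.2
    have hRr : Rg W' Mr := by
      refine hram ⟨W', hOW'⟩ ⟨η', fun o => hAη (hPt'.OA o)⟩ ϖ hWη (fun n hn => hAη (hnA n hn))
        hϖ0 hϖW ?_ fun q hq => hord q d₀ (hd q hq)
      intro Q₀ hQ₀ z hz hzW
      obtain ⟨g₁, hg₁, hg₁0, hMV⟩ : ∃ g₁, g₁ ∈ M₁ ∧ g₁ ≠ 0 ∧ ∀ m ∈ M₁, m / g₁ ∈ W' := by
        obtain ⟨g₀, hg₀, hg₀0⟩ := hM₁.ne
        obtain ⟨g₁, hg₁, hg₁0, hMV⟩ := exists_gen_max hOW' hM₁.fg hg₀ hg₀0
        exact ⟨g₁, hg₁, hg₁0, hMV⟩
      obtain ⟨hMA, -⟩ := frac_chart hTr' hPt'.OA hPt'.OL hPt'.mem hPt'.ne hPt'.MA hPt'.fr hM₁.pos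
        hM₁.le hM₁.comm hg₁ hg₁0 hMV
      have hBA := chart_le_A hPt'.OA hMA
      have h1 : Q₀ = lo η'.toSubring (chart O M₁ g₁).toSubring :=
        LR.unique (fun o => hAη (hPt'.OA o)) hQ₀ ⟨g₁, hg₁, hg₁0, fun m hm => hWη (hMV m hm), rfl⟩
      rw [h1] at hz
      obtain ⟨a, ha, b, hb, hb0, hbη, rfl⟩ := hz
      refine hmin _ (A'.mul_mem (hBA ha) (hPt'.unit ⟨b, hBA hb⟩ fun h2 => ?_)) hzW
      exact (val_lt_iff hb0).1 (hη0 ⟨b, hBA hb⟩ h2) hbη
    have hR' : Rg W' M := hpres _ hOW' hRr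
    let sX' : Spec (CommRingCat.of A') ⟶ Proj 𝒜 :=
      Spec.map (CommRingCat.ofHom (Subring.inclusion hA')) ≫ j
    have hsη' : io A' ≫ sX' = η := by
      change io A' ≫ Spec.map _ ≫ j = η
      rw [← Category.assoc, ← hjη]
      congr 1
      change Spec.map _ ≫ Spec.map _ = Spec.map _
      rw [← Spec.map_comp]
      rfl
    have hψ' : ψ = Spec.map (CommRingCat.ofHom π') ≫ sX' := by
      rw [← hαψ]
      change _ = Spec.map _ ≫ Spec.map _ ≫ j
      rw [← Category.assoc, ← Spec.map_comp]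
      congr 2
      ext b
      exact (hπα' b).symm
    obtain ⟨g₁, hg₁, hg₁0, hMV, hregC⟩ := hR'
    obtain ⟨hMA, -⟩ := frac_chart hTr' hPt'.OA hPt'.OL hPt'.mem hPt'.ne hPt'.MA hPt'.fr hM.pos
      hM.le hM.comm hg₁ hg₁0 hMV
    have hBA := chart_le_A hPt'.OA hMA
    obtain ⟨jY, hjY, hjYU, hjYη⟩ := Pool.Agent.W398.GF.isChart M g₁ hg₁ hg₁0
    have hss : sX' ≫ e.inv ≫ pullback.fst _ _ =
        Spec.map (CommRingCat.ofHom (Subring.inclusion hBA)) ≫ jY := by
      have hd : IsDominant (io A') := ⟨io_dense A'⟩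
      have h1 : io A' ≫ sX' ≫ e.inv ≫ pullback.fst _ _ =
          io A' ≫ Spec.map (CommRingCat.ofHom (Subring.inclusion hBA)) ≫ jY := by
        have h2 : io A' ≫ Spec.map (CommRingCat.ofHom (Subring.inclusion hBA)) ≫ jY =
            Pool.Agent.W398.GF.eta M g₁ hg₁ hg₁0 := by
          rw [← Category.assoc, ← hjYη]
          congr 1
          change Spec.map _ ≫ Spec.map _ = Spec.map _
          rw [← Spec.map_comp]
          rfl
        rw [h2, ← Category.assoc, hsη', heη]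
        exact Pool.Agent.W398.GF.eta_eq M hg hg₁ hg0 hg₁0
      refine ext_of_isDominant_of_isSeparated (modelMap M) ?_ (io A') h1
      apply io_mono
      have h2 := congrArg (fun m => m ≫ modelMap M) h1
      simp only [Category.assoc] at h2 ⊢
      exact h2
    obtain ⟨ζ, hζ, hr⟩ := extend_chart hTr' (chart_le_V hOW' hMV) hBA hregC jY
    refine ⟨ζ, ?_, hr⟩
    rw [hζ]
    have h3 : ψ₀ ≫ (e ≪≫ i.symm).inv ≫ pullback.fst (modelMap M)
        (Spec.map (CommRingCat.ofHom (algebraMap O K))) = ψ ≫ e.inv ≫ pullback.fst _ _ := by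
      simp [ψ]
    rw [h3, hψ', Category.assoc]
    change _ = Spec.map _ ≫ sX' ≫ e.inv ≫ pullback.fst _ _
    rw [hss, ← Category.assoc, ← Spec.map_comp]
    rfl
  · intro L _ _ hL ψ₀ z hz
    let ψ : Spec (CommRingCat.of L) ⟶ Proj 𝒜 := ψ₀ ≫ i.hom
    obtain ⟨i₁, j, hj, α, hjη, hαψ⟩ := factor_chart hat ψ
    have hkp : (RingHom.ker α).IsPrime := RingHom.ker_isPrime _
    obtain ⟨A', π', hA', hπα', hPt'⟩ := pt_of (O := O) (K := K) y hy i₁ α
      (hreg' i₁ (RingHom.ker α))
    choose Vf hVf using fun VL => exists_tr A' π' VL hPt'.unit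
    let sX' : Spec (CommRingCat.of A') ⟶ Proj 𝒜 :=
      Spec.map (CommRingCat.ofHom (Subring.inclusion hA')) ≫ j
    have hsη' : io A' ≫ sX' = η := by
      change io A' ≫ Spec.map _ ≫ j = η
      rw [← Category.assoc, ← hjη]
      congr 1
      change Spec.map _ ≫ Spec.map _ = Spec.map _
      rw [← Spec.map_comp]
      rfl
    have hψ' : ψ = Spec.map (CommRingCat.ofHom π') ≫ sX' := by
      rw [← hαψ]
      change _ = Spec.map _ ≫ Spec.map _ ≫ j
      rw [← Category.assoc, ← Spec.map_comp]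
      congr 2
      ext b
      exact (hπα' b).symm
    have hR' : ∀ VL : ValuationSubring L, IsDiscreteValuationRing VL → Rg (Vf VL) M :=
      fun VL hVL => hall _ ⟨L, inferInstance, inferInstance, A', π', y i₁, VL, hL, hPt', hVL,
        hVf VL⟩
    let χ : Spec (CommRingCat.of L) ⟶ model M :=
      Spec.map (CommRingCat.ofHom π') ≫ sX' ≫ e.inv ≫ pullback.fst _ _
    have hχψ : χ = ψ₀ ≫ (e ≪≫ i.symm).inv ≫ pullback.fst _ _ := by
      have h1 : χ = ψ ≫ e.inv ≫ pullback.fst _ _ := by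
        rw [hψ']
        simp [χ]
      rw [h1]
      simp [ψ]
    refine regular_closure_cm hOF hM hint hPt' hVf hR' χ ?_ z (by rw [hχψ]; exact hz)
    intro g₁ hg₁ hg₁0 hBA jY hjYη
    have hss : sX' ≫ e.inv ≫ pullback.fst _ _ =
        Spec.map (CommRingCat.ofHom (Subring.inclusion hBA)) ≫ jY := by
      have hd : IsDominant (io A') := ⟨io_dense A'⟩
      have h1 : io A' ≫ sX' ≫ e.inv ≫ pullback.fst _ _ =
          io A' ≫ Spec.map (CommRingCat.ofHom (Subring.inclusion hBA)) ≫ jY := by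
        have h2 : io A' ≫ Spec.map (CommRingCat.ofHom (Subring.inclusion hBA)) ≫ jY =
            Pool.Agent.W398.GF.eta M g₁ hg₁ hg₁0 := by
          rw [← Category.assoc, ← hjYη]
          congr 1
          change Spec.map _ ≫ Spec.map _ = Spec.map _
          rw [← Spec.map_comp]
          rfl
        rw [h2, ← Category.assoc, hsη', heη]
        exact Pool.Agent.W398.GF.eta_eq M hg hg₁ hg0 hg₁0
      refine ext_of_isDominant_of_isSeparated (modelMap M) ?_ (io A') h1
      apply io_mono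
      have h2 := congrArg (fun m => m ≫ modelMap M) h1
      simp only [Category.assoc] at h2 ⊢
      exact h2
    change Spec.map _ ≫ sX' ≫ e.inv ≫ pullback.fst _ _ = _
    rw [hss, ← Category.assoc, ← Spec.map_comp]
    rfl

end Pool.Agent.H413.SC5
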